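import Pool.Agent.Lib.FBC.State

set_option autoImplicit false
set_option linter.unusedVariables false

namespace Pool.Agent.Lib.FBC

open Forest MulAction

namespace AccB

variable {G : Type} [Group G] {deg : G →* Multiplicative ℤ}

/-- Homomorphisms to the rationals. -/
abbrev HQ (S : Subgroup G) : Type := Additive S →+ ℚ

/-- Restriction. -/
def res {A S : Subgroup G} (h : A ≤ S) : HQ S →ₗ[ℚ] HQ A where
  toFun φ := φ.comp (MonoidHom.toAdditive (Subgroup.inclusion h))
  map_add' _ _ := rfl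
  map_smul' _ _ := rfl

lemma res_apply {A S : Subgroup G} (h : A ≤ S) (φ : HQ S) (a : A) :
    res h φ (Additive.ofMul a) = φ (Additive.ofMul ⟨a, h a.2⟩) := rfl

lemma hq_ext {S : Subgroup G} {φ ψ : HQ S}
    (h : ∀ s : S, φ (Additive.ofMul s) = ψ (Additive.ofMul s)) : φ = ψ :=
  AddMonoidHom.ext fun x => h (Additive.toMul x)

lemma exists_ne_zero {n : ℕ} (hR : Rank deg n) {A : Subgroup G} (h : A ≤ deg.ker) (h0 : A ≠ ⊥) :
    ∃ φ : HQ A, φ ≠ 0 := by
  obtain ⟨χ, hχ⟩ := hR.2 A h h0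
  refine ⟨MonoidHom.toAdditiveLeft χ, fun e => hχ (MonoidHom.ext fun a => ?_)⟩
  have := DFunLike.congr_fun e (Additive.ofMul a)
  simpa using this

lemma ext' (hE : St_EXT) (T : Forest deg) {S A : Subgroup G} (hS : S ≤ deg.ker) (v : T.V)
    (hA : ∀ g, g ∈ A ↔ g ∈ S ∧ g • v = v) (χ : HQ A) :
    ∃ ψ : HQ S, res (fun g hg => ((hA g).1 hg).1) ψ = χ ∧
      ∀ (x : T.V) (s : S), T.lev x = T.lev v → (∀ s' ∈ S, s' • v ≠ x) → (s : G) • x = x →
        ψ (Additive.ofMul s) = 0 := by
  let j : stabilizer S v →* A :=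
    { toFun := fun s => ⟨(s.1 : G), (hA _).2 ⟨s.1.2, s.2⟩⟩
      map_one' := rfl
      map_mul' := fun _ _ => rfl }
  obtain ⟨ψ, h1, h2⟩ := hE G deg T S hS v ((AddMonoidHom.toMultiplicativeRight χ).comp j)
  refine ⟨MonoidHom.toAdditiveLeft ψ, hq_ext fun a => ?_, fun x s hx hn hs => ?_⟩
  · have := h1 ⟨⟨a, ((hA a).1 a.2).1⟩, ((hA a).1 a.2).2⟩
    exact congrArg Multiplicative.toAdd this
  · have := h2 x s hx (fun s' => hn s' s'.2) hs
    show Multiplicative.toAdd (ψ s) = 0
    rw [this]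
    rfl

lemma stab_le (T : Forest deg) (v : T.V) : stabilizer G v ≤ deg.ker := fun g hg => by
  have := T.lev_smul g v
  rw [mem_stabilizer_iff.1 hg] at this
  have h : (deg g).toAdd = 0 := by omega
  exact h

lemma lev_ker (T : Forest deg) {g : G} (hg : g ∈ deg.ker) (v : T.V) : T.lev (g • v) = T.lev v := by
  rw [T.lev_smul, MonoidHom.mem_ker.1 hg]
  simp

/-- The key surjectivity. -/
lemma key (hE : St_EXT) (T : Forest deg) {S : Subgroup G} (hS : S ≤ deg.ker) {J : Type}
    [Fintype J] (v : J → T.V) (l : ℤ) (hl : ∀ j, T.lev (v j) = l)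
    (hd : ∀ i j, ∀ g : G, g • v i = v j → i = j) (hle : ∀ j, stabilizer G (v j) ≤ S) :
    Function.Surjective (LinearMap.pi fun j => res (hle j)) := by
  classical
  intro χ
  choose ψ h1 h2 using fun j => ext' hE T hS (v j) (A := stabilizer G (v j))
    (fun g => ⟨fun h => ⟨hle j h, h⟩, fun h => h.2⟩) (χ j)
  refine ⟨∑ j, ψ j, funext fun i => ?_⟩
  rw [LinearMap.pi_apply, map_sum, Finset.sum_eq_single i]
  · exact h1 i
  · intro j _ hj
    refine hq_ext fun a => ?_
    rw [res_apply]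
    exact h2 j (v i) _ (by rw [hl, hl]) (fun s' _ e => hj (hd j i s' e)) a.2
  · simp

/-- The dimension attached to a vertex. -/
noncomputable def dm (T : Forest deg) (v : T.V) : ℕ := Module.finrank ℚ (HQ (stabilizer G v))

lemma key_le (hE : St_EXT) (T : Forest deg) {S : Subgroup G} (hS : S ≤ deg.ker)
    [Module.Finite ℚ (HQ S)] {J : Type} [Fintype J] (v : J → T.V) (l : ℤ)
    (hl : ∀ j, T.lev (v j) = l) (hd : ∀ i j, ∀ g : G, g • v i = v j → i = j)
    (hle : ∀ j, stabilizer G (v j) ≤ S) :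
    ∑ j, dm T (v j) ≤ Module.finrank ℚ (HQ S) := by
  have hs := key hE T hS v l hl hd hle
  have : ∀ j, Module.Finite ℚ (HQ (stabilizer G (v j))) := fun j =>
    Module.Finite.of_surjective (res (hle j)) fun χ => by
      classical
      obtain ⟨ψ, hψ⟩ := hs (Pi.single j χ)
      exact ⟨ψ, by simpa using congrFun hψ j⟩
  have := LinearMap.finrank_range_le (LinearMap.pi fun j => res (hle j))
  rw [LinearMap.range_eq_top.2 hs, finrank_top, Module.finrank_pi_fintype] at this
  exact this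

lemma res_surj (hE : St_EXT) (T : Forest deg) {S : Subgroup G} (hS : S ≤ deg.ker) (v : T.V)
    (hle : stabilizer G v ≤ S) : Function.Surjective (res hle) := fun χ =>
  let ⟨ψ, h1, _⟩ := ext' hE T hS v (A := stabilizer G v)
    (fun g => ⟨fun h => ⟨hle h, h⟩, fun h => h.2⟩) χ
  ⟨ψ, h1⟩

lemma ker_fin {n : ℕ} (hR : Rank deg n) :
    Module.Finite ℚ (HQ deg.ker) ∧ Module.finrank ℚ (HQ deg.ker) ≤ n := by
  obtain ⟨s, hs, hc⟩ := hR.1
  have hm : ∀ x : s, (x : G) ∈ deg.ker := fun x => hc ▸ Subgroup.subset_closure x.2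
  let ev : HQ deg.ker →ₗ[ℚ] (s → ℚ) :=
    { toFun := fun φ x => φ (Additive.ofMul ⟨x, hm x⟩)
      map_add' := fun _ _ => rfl
      map_smul' := fun _ _ => rfl }
  have hi : Function.Injective ev := by
    rw [injective_iff_map_eq_zero]
    intro φ hφ
    have : ∀ g (hg : g ∈ Subgroup.closure (s : Set G)), φ (Additive.ofMul ⟨g, hc ▸ hg⟩) = 0 := by
      intro g hg
      induction hg using Subgroup.closure_induction with
      | mem x hx => exact congrFun hφ ⟨x, hx⟩
      | one => exact map_zero φ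
      | mul x y hx hy ix iy =>
        have := map_add φ (Additive.ofMul ⟨x, hc ▸ hx⟩) (Additive.ofMul ⟨y, hc ▸ hy⟩)
        rw [ix, iy, add_zero] at this
        exact this
      | inv x hx ix =>
        have := map_neg φ (Additive.ofMul ⟨x, hc ▸ hx⟩)
        rw [ix, neg_zero] at this
        exact this
    exact hq_ext fun g => this g (hc.symm ▸ g.2)
  refine ⟨Module.Finite.of_injective ev hi, ?_⟩
  have := LinearMap.finrank_le_finrank_of_injective hi
  rw [Module.finrank_fintype_fun_eq_card, Fintype.card_coe] at this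
  omega

lemma stab_fin (hE : St_EXT) {n : ℕ} (hR : Rank deg n) (T : Forest deg) (v : T.V) :
    Module.Finite ℚ (HQ (stabilizer G v)) :=
  have := (ker_fin hR).1
  Module.Finite.of_surjective _ (res_surj hE T le_rfl v (stab_le T v))

lemma dm_smul (T : Forest deg) (g : G) (v : T.V) : dm T (g • v) = dm T v := by
  have e : stabilizer G (g • v) ≃* stabilizer G v :=
    (stabilizerEquivStabilizerOfOrbitRel (G := G) (a := g • v) (b := v) ⟨g, rfl⟩)
  let e' := MulEquiv.toAdditive e
  refine LinearEquiv.finrank_eq (R := ℚ)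
    { toFun := fun φ => φ.comp e'.symm.toAddMonoidHom
      invFun := fun φ => φ.comp e'.toAddMonoidHom
      map_add' := fun _ _ => rfl
      map_smul' := fun _ _ => rfl
      left_inv := fun φ => AddMonoidHom.ext fun x => by simp
      right_inv := fun φ => AddMonoidHom.ext fun x => by simp }

/-! ### The fixed point argument -/

lemma inv_pot (T : Forest deg) {S : Subgroup G} (hS : S ≤ deg.ker) (v : T.V)
    (hinj : ∀ ψ : HQ S, (∀ s : S, (s : G) • v = v → ψ (Additive.ofMul s) = 0) → ψ = 0)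
    (w : T.E → ℚ) (hw : ∀ s ∈ S, ∀ c, w (s • c) = w c) (Ψ : T.V → ℚ)
    (hΨ : ∀ c : T.E, T.lev (c.ed false) = T.lev v → Ψ (c.ed true) - Ψ (c.ed false) = w c)
    (s : G) (hs : s ∈ S) (y : T.V) (hy : T.lev y = T.lev v) : Ψ (s • y) = Ψ y := by
  have hc : ∀ s ∈ S, ∀ y : T.V, T.lev y = T.lev v → Ψ (s • y) - Ψ y = Ψ (s • v) - Ψ v := by
    intro s hs y hy
    refine const_of_sep (fun x => Ψ (s • x) - Ψ x) hy fun c hc => ?_
    have l1 : T.lev (c.ed false) = T.lev v := (lev_ed_of_mem hc false).trans hy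
    have h1 := hΨ c l1
    have h2 := hΨ (s • c) (by rw [ed_smul, lev_ker T (hS hs), l1])
    rw [hw s hs, ed_smul, ed_smul] at h2
    show Ψ (s • c.ed false) - Ψ (c.ed false) = Ψ (s • c.ed true) - Ψ (c.ed true)
    linarith
  let Φ : HQ S := AddMonoidHom.mk' (fun s => Ψ (((Additive.toMul s : S) : G) • v) - Ψ v) (by
    intro a b
    have := hc _ (Additive.toMul a).2 (((Additive.toMul b : S) : G) • v)
      (lev_ker T (hS (Additive.toMul b).2) v)
    rw [toMul_add, Subgroup.coe_mul, mul_smul]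
    linarith)
  have h0 := hinj Φ fun s hs => by
    show Ψ ((s : G) • v) - Ψ v = 0
    rw [hs, sub_self]
  have h1 : Ψ (s • v) - Ψ v = 0 := DFunLike.congr_fun h0 (Additive.ofMul ⟨s, hs⟩)
  have := hc s hs y hy
  linarith

lemma back (hP : St_POT) (T : Forest deg) {S : Subgroup G} (hS : S ≤ deg.ker) (v : T.V)
    (hinj : ∀ ψ : HQ S, (∀ s : S, (s : G) • v = v → ψ (Additive.ofMul s) = 0) → ψ = 0)
    (c : T.E) (b : Bool) (hy : T.lev (c.ed b) = T.lev v) (s : G) (hs : s ∈ S)
    (hc : c ∈ sep (c.ed b) (s • c.ed b)) :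
    ∃ s1 ∈ S, s1 • c ∈ sep (c.ed b) (s • c.ed b) ∧ (s1 • c).sd (c.ed b) = !b := by
  classical
  by_contra hn
  have hf : ∀ s1 ∈ S, s1 • c ∈ sep (c.ed b) (s • c.ed b) → (s1 • c).sd (c.ed b) = b := by
    intro s1 h1 h2
    by_contra h3
    exact hn ⟨s1, h1, h2, Bool.eq_not_iff.2 h3⟩
  let O : T.E → Prop := fun c' => ∃ s1 ∈ S, s1 • c = c'
  let w : T.E → ℚ := fun c' => if O c' then (if b then -1 else 1) else 0
  have hw : ∀ s ∈ S, ∀ c', w (s • c') = w c' := by
    intro t ht c'
    have : O (t • c') ↔ O c' :=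
      ⟨fun ⟨s1, h1, h2⟩ => ⟨t⁻¹ * s1, S.mul_mem (S.inv_mem ht) h1, by
          rw [mul_smul, h2, inv_smul_smul]⟩,
        fun ⟨s1, h1, h2⟩ => ⟨t * s1, S.mul_mem ht h1, by rw [mul_smul, h2]⟩⟩
    simp only [w, this]
  obtain ⟨Ψ, hΨ⟩ := hP G deg T (T.lev v) w
  have hi := inv_pot T hS v hinj w hw Ψ hΨ s hs _ hy
  have st1 : ∀ c' : T.E, T.lev (c'.ed false) = T.lev v → O c' →
      Ψ (c'.ed (!b)) = Ψ (c'.ed b) + 1 := by
    intro c' hl ho
    have := hΨ c' hl
    simp only [w, ho, if_true] at this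
    cases b
    · simp at this ⊢; linarith
    · simp at this ⊢; linarith
  have st0 : ∀ (c' : T.E) (b' : Bool), T.lev (c'.ed false) = T.lev v → ¬ O c' →
      Ψ (c'.ed (!b')) = Ψ (c'.ed b') := by
    intro c' b' hl ho
    have := hΨ c' hl
    simp only [w, ho, if_false] at this
    cases b'
    · simp; linarith
    · simp; linarith
  set u := s • c.ed b with hu
  have lu : T.lev u = T.lev v := by rw [hu, lev_ker T (hS hs), hy]
  have main : ∀ x : T.V, T.lev x = T.lev u →
      ((∀ c' ∈ sep x u, O c' → c'.sd x = b) → Ψ x ≤ Ψ u) := by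
    intro x hx
    refine geo_ind (P := fun x => (∀ c' ∈ sep x u, O c' → c'.sd x = b) → Ψ x ≤ Ψ u)
      (fun _ => le_rfl) (fun c' b' hc' ih H => ?_) hx
    have hl : T.lev (c'.ed false) = T.lev v :=
      (lev_ed_eq _ _ _).trans ((lev_eq_of_mem hc').trans lu)
    have h1 : Ψ (c'.ed (!b')) ≤ Ψ u := ih fun c'' h2 h3 => by
      rw [sep_step hc', Finset.mem_erase] at h2
      rw [sd_ed_ne h2.1 (!b') b']
      exact H c'' h2.2 h3
    by_cases ho : O c'
    · have h4 := H c' hc' ho
      rw [sd_ed] at h4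
      subst h4
      have := st1 c' hl ho
      linarith
    · have := st0 c' b' hl ho
      linarith
  have h5 := main (c.ed (!b)) ((lev_ed_eq _ _ _).trans (hy.trans lu.symm)) fun c'' h2 h3 => by
    rw [sep_step hc, Finset.mem_erase] at h2
    rw [sd_ed_ne h2.1 (!b) b]
    obtain ⟨s1, h6, rfl⟩ := h3
    exact hf s1 h6 h2.2
  have h6 := st1 c ((lev_ed_eq _ _ _).trans hy) ⟨1, S.one_mem, one_smul _ _⟩
  linarith

lemma between (hP : St_POT) (T : Forest deg) {S : Subgroup G} (hS : S ≤ deg.ker) (v : T.V)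
    (hinj : ∀ ψ : HQ S, (∀ s : S, (s : G) • v = v → ψ (Additive.ofMul s) = 0) → ψ = 0)
    (m : ℕ) : ∀ (y : T.V) (s : G), T.lev y = T.lev v → s ∈ S → s • y ≠ y →
      (sep y (s • y)).card = m → ∃ (z : T.V) (t : G), t ∈ S ∧ t ≠ 1 ∧ t • z = z ∧
        T.lev z = T.lev v ∧ z ≠ y ∧ sep y z ⊂ sep y (s • y) := by
  induction m using Nat.strong_induction_on with
  | _ m ih =>
    intro y s hy hs hne hm
    obtain ⟨c, b, rfl, hc⟩ := exists_first (lev_ker T (hS hs) y).symm hne.symm
    obtain ⟨s1, h1, h2, h3⟩ := back hP T hS v hinj c b hy s hs hc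
    have hcc : s1 • c ≠ c := fun e => by
      rw [e, sd_ed] at h3
      simp at h3
    have hs1 : s1 ≠ 1 := fun e => hcc (by rw [e, one_smul])
    have l1 : T.lev (c.ed (!b)) = T.lev v := (lev_ed_eq _ _ _).trans hy
    have hsub : sep (c.ed (!b)) (s1 • c.ed (!b)) ⊆ (sep (c.ed b) (s • c.ed b)).erase c := by
      have h4 : s1 • c ∈ sep (s • c.ed b) (c.ed (!b)) := by
        rw [sep_comm, sep_step hc]
        exact Finset.mem_erase.2 ⟨hcc, h2⟩
      have := sep_ed_subset h4 (!b)
      rwa [ed_smul, sep_comm, sep_comm (s • c.ed b), sep_step hc] at this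
    have hnot : s1 • c ∉ sep (c.ed (!b)) (s1 • c.ed (!b)) := fun h => by
      have := sd_ne_of_mem h
      rw [sd_smul, sd_ed, sd_ed_ne hcc (!b) b, h3] at this
      exact this rfl
    have fin : ∀ z : T.V, T.lev z = T.lev v → sep (c.ed (!b)) z ⊆ sep (c.ed (!b)) (s1 • c.ed (!b)) →
        z ≠ c.ed b ∧ sep (c.ed b) z ⊂ sep (c.ed b) (s • c.ed b) := by
      intro z lz hz
      have hu := sep_subset_union (u := c.ed b) (v := c.ed (!b)) (w := z) (lev_ed_eq _ _ _)
        (l1.trans lz.symm)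
      rw [sep_ed] at hu
      refine ⟨fun e => ?_, fun a ha => ?_, fun h => ?_⟩
      · have : c ∈ sep (c.ed (!b)) z := by
          rw [e, sep_comm, sep_ed]; exact Finset.mem_singleton_self c
        simpa using hsub (hz this)
      · rcases Finset.mem_union.1 (hu ha) with h | h
        · rw [Finset.mem_singleton.1 h]; exact hc
        · exact Finset.mem_of_mem_erase (hsub (hz h))
      · rcases Finset.mem_union.1 (hu (h h2)) with h | h
        · exact hcc (Finset.mem_singleton.1 h)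
        · exact hnot (hz h)
    by_cases he : s1 • c.ed (!b) = c.ed (!b)
    · exact ⟨c.ed (!b), s1, h1, hs1, he, l1, fin _ l1 (by simp)⟩
    · have hlt : (sep (c.ed (!b)) (s1 • c.ed (!b))).card < m := by
        rw [← hm]
        exact (Finset.card_le_card hsub).trans_lt (Finset.card_erase_lt_of_mem hc)
      obtain ⟨z, t, t1, t2, t3, t4, -, t6⟩ := ih _ hlt _ s1 l1 h1 he rfl
      exact ⟨z, t, t1, t2, t3, t4, fin z t4 t6.1⟩

lemma fixes (hP : St_POT) (hE : St_EXT) {n : ℕ} (hR : Rank deg n) (T : Forest deg)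
    {S : Subgroup G} (hS : S ≤ deg.ker) (v : T.V)
    (hinj : ∀ ψ : HQ S, (∀ s : S, (s : G) • v = v → ψ (Additive.ofMul s) = 0) → ψ = 0) :
    S ≤ stabilizer G v := by
  classical
  by_contra hn
  have hex : ∃ m, ∃ s ∈ S, s • v ≠ v ∧ (sep v (s • v)).card = m := by
    by_contra h
    exact hn fun s hs => by_contra fun e => h ⟨_, s, hs, e, rfl⟩
  obtain ⟨s, hs, hne, hm⟩ := Nat.find_spec hex
  obtain ⟨z, t, t1, t2, t3, t4, t5, t6⟩ := between hP T hS v hinj _ v s rfl hs hne hm
  have hz : ∀ s' ∈ S, s' • z ≠ v := fun s' hs' e => by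
    have e' : s'⁻¹ • v = z := by rw [← e, inv_smul_smul]
    have := Nat.find_min' hex ⟨s'⁻¹, S.inv_mem hs', e' ▸ t5, rfl⟩
    rw [e', ← hm] at this
    exact absurd (Finset.card_lt_card t6) (by omega)
  obtain ⟨χ, hχ⟩ := exists_ne_zero hR (A := S ⊓ stabilizer G z) (inf_le_left.trans hS) fun e => by
    have : t ∈ S ⊓ stabilizer G z := ⟨t1, t3⟩
    rw [e] at this
    exact t2 (Subgroup.mem_bot.1 this)
  obtain ⟨ψ, h1, h2⟩ := ext' hE T hS z (A := S ⊓ stabilizer G z) (fun g => Iff.rfl) χ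
  have := hinj ψ fun s hs => h2 v s t4.symm hz hs
  rw [this, map_zero] at h1
  exact hχ h1.symm

/-! ### The complexity -/

/-- Orbits of vertices. -/
abbrev Orb (T : Forest deg) : Type := orbitRel.Quotient G T.V

lemma orb_finite {T : Forest deg} (h : T.Ess) : Finite (Orb T) := by
  refine Finite.of_surjective (fun p : T.I × Bool => (Quotient.mk _ (T.en p.1 p.2) : Orb T)) ?_
  intro o
  induction o using Quotient.inductionOn with
  | _ v =>
    obtain ⟨g, hg, hne⟩ := h.2 v
    obtain ⟨c, b, rfl, -⟩ := exists_first (lev_ker T hg v).symm hne.symm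
    refine ⟨(c.i, b), Quotient.sound ?_⟩
    exact (orbitRel G T.V).symm ⟨c.g, rfl⟩

lemma orb_eq {T : Forest deg} {u v : T.V} :
    (Quotient.mk _ u : Orb T) = Quotient.mk _ v ↔ ∃ g : G, g • v = u :=
  Quotient.eq

lemma exists_lev (hs : Function.Surjective deg) (T : Forest deg) (v : T.V) (l : ℤ) :
    ∃ g : G, T.lev (g • v) = l := by
  obtain ⟨g, hg⟩ := hs (Multiplicative.ofAdd (l - T.lev v))
  exact ⟨g, by rw [T.lev_smul, hg]; simp⟩

/-- The complexity. -/
noncomputable def xi (T : Forest deg) : ℕ := ∑ᶠ o : Orb T, dm T (Quotient.out o) ^ 2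

lemma out_inj {T : Forest deg} {o o' : Orb T} {a b g : G}
    (e : g • a • Quotient.out o = b • Quotient.out o') : o = o' := by
  rw [← Quotient.out_eq o, ← Quotient.out_eq o', orb_eq]
  refine ⟨(g * a)⁻¹ * b, ?_⟩
  rw [mul_smul, ← e, ← mul_smul g, inv_smul_smul]

lemma xi_le (hE : St_EXT) {n : ℕ} (hR : Rank deg n) (hs : Function.Surjective deg)
    (T : Forest deg) (h : T.Ess) : xi T ≤ n ^ 2 := by
  have := orb_finite h
  have := Fintype.ofFinite (Orb T)
  have := (ker_fin hR).1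
  choose g hg using fun o : Orb T => exists_lev hs T (Quotient.out o) 0
  have := key_le hE T le_rfl (fun o => g o • Quotient.out o) 0 hg (fun i j a e => out_inj e)
    fun j => stab_le T _
  simp only [dm_smul] at this
  rw [xi, finsum_eq_sum_of_fintype]
  exact (Finset.sum_sq_le_sq_sum_of_nonneg fun _ _ => Nat.zero_le _).trans
    (Nat.pow_le_pow_left (this.trans (ker_fin hR).2) 2)

lemma sq_eq {J : Type} [Fintype J] (d : J → ℕ) (D : ℕ) (h0 : 0 < D) (h1 : ∑ j, d j ≤ D)
    (h2 : ∑ j, d j ^ 2 = D ^ 2) : ∃ j, d j = D := by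
  by_contra hn
  have h3 : ∀ j, d j ≤ D - 1 := fun j => by
    have := (Finset.single_le_sum (f := d) (fun _ _ => Nat.zero_le _) (Finset.mem_univ j)).trans h1
    have : d j ≠ D := fun e => hn ⟨j, e⟩
    omega
  have h4 : ∑ j, d j ^ 2 ≤ (∑ j, d j) * (D - 1) := by
    rw [Finset.sum_mul]
    exact Finset.sum_le_sum fun j _ => by rw [sq]; exact Nat.mul_le_mul_left _ (h3 j)
  have h5 : (∑ j, d j) * (D - 1) ≤ D * (D - 1) := Nat.mul_le_mul_right _ h1
  obtain ⟨D, rfl⟩ : ∃ E, D = E + 1 := ⟨D - 1, by omega⟩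
  rw [h2] at h4
  simp only [Nat.add_sub_cancel] at h4 h5
  nlinarith

lemma back_hom {T T' : Forest deg} {k : ℤ}
    (H : ∀ o : Orb T', ∃ v : T.V, T.lev v = T'.lev (Quotient.out o) + k ∧
      stabilizer G (Quotient.out o) ≤ stabilizer G v) : Nonempty (Hom T' T k) := by
  choose F h1 h2 using H
  have : ∀ v : T'.V, ∃ g : G, g • Quotient.out (Quotient.mk _ v : Orb T') = v := fun v =>
    orb_eq.1 (Quotient.out_eq _).symm
  choose g hg using this
  refine ⟨⟨fun v => g v • F (Quotient.mk _ v), fun a v => ?_, fun v => ?_⟩⟩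
  · have e : (Quotient.mk _ (a • v) : Orb T') = Quotient.mk _ v := orb_eq.2 ⟨a, rfl⟩
    have h3 := hg (a • v)
    rw [e] at h3 ⊢
    have h4 : (g (a • v))⁻¹ * a * g v ∈ stabilizer G (Quotient.out (Quotient.mk _ v : Orb T')) := by
      rw [mem_stabilizer_iff, mul_smul, hg, mul_smul, inv_smul_eq_iff, h3]
    have h5 := mem_stabilizer_iff.1 (h2 _ h4)
    rw [mul_smul, mul_smul, inv_smul_eq_iff] at h5
    exact h5.symm
  · have := T'.lev_smul (g v) (Quotient.out (Quotient.mk _ v : Orb T'))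
    rw [hg] at this
    rw [T.lev_smul, h1, this, add_assoc]

end AccB

open AccB in
theorem ACC_holds (hP : St_POT) (hE : St_EXT) : St_ACC := by
  classical
  intro G _ deg n hR hs
  refine ⟨xi, fun T h => xi_le hE hR hs T h, fun T T' k h e e' => ?_⟩
  have := orb_finite e
  have := orb_finite e'
  have := Fintype.ofFinite (Orb T)
  have := Fintype.ofFinite (Orb T')
  let p : Orb T → Orb T' := fun o => Quotient.mk _ (h (Quotient.out o))
  have hg : ∀ (o' : Orb T') (j : {o // p o = o'}), ∃ g : G,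
      h (g • Quotient.out j.1) = Quotient.out o' := fun o' j => by
    obtain ⟨g, hg⟩ := orb_eq.1 ((Quotient.out_eq o').trans j.2.symm)
    exact ⟨g, by rw [h.map_smul, hg]⟩
  choose g hg using hg
  have hl : ∀ (o' : Orb T') (j : {o // p o = o'}),
      T.lev (g o' j • Quotient.out j.1) = T'.lev (Quotient.out o') + -k := fun o' j => by
    rw [← hg o' j, h.lev_map]; ring
  have hle : ∀ (o' : Orb T') (j : {o // p o = o'}),
      stabilizer G (g o' j • Quotient.out j.1) ≤ stabilizer G (Quotient.out o') :=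
    fun o' j a ha => by
      rw [mem_stabilizer_iff] at ha ⊢
      rw [← hg o' j, ← h.map_smul, ha]
  have k1 : ∀ o' : Orb T', ∑ j : {o // p o = o'}, dm T (Quotient.out j.1) ≤
      dm T' (Quotient.out o') := fun o' => by
    have := stab_fin hE hR T' (Quotient.out o')
    have := key_le hE T (stab_le T' (Quotient.out o')) (fun j => g o' j • Quotient.out j.1) _
      (hl o') (fun i j a e => Subtype.ext (out_inj e)) (hle o')
    simp only [dm_smul] at this
    exact this
  have k2 : ∀ o' ∈ (Finset.univ : Finset (Orb T')),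
      ∑ j : {o // p o = o'}, dm T (Quotient.out j.1) ^ 2 ≤ dm T' (Quotient.out o') ^ 2 :=
    fun o' _ => (Finset.sum_sq_le_sq_sum_of_nonneg fun _ _ => Nat.zero_le _).trans
      (Nat.pow_le_pow_left (k1 o') 2)
  have x1 : xi T = ∑ o' : Orb T', ∑ j : {o // p o = o'}, dm T (Quotient.out j.1) ^ 2 := by
    rw [xi, finsum_eq_sum_of_fintype]
    exact (Fintype.sum_fiberwise p fun o => dm T (Quotient.out o) ^ 2).symm
  have x2 : xi T' = ∑ o' : Orb T', dm T' (Quotient.out o') ^ 2 := by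
    rw [xi, finsum_eq_sum_of_fintype]
  have hmono : xi T ≤ xi T' := by rw [x1, x2]; exact Finset.sum_le_sum k2
  refine ⟨hmono, fun hge => back_hom fun o' => ?_⟩
  have := stab_fin hE hR T' (Quotient.out o')
  rcases Nat.eq_zero_or_pos (dm T' (Quotient.out o')) with h0 | h0
  · obtain ⟨v⟩ := e.1
    obtain ⟨a, ha⟩ := exists_lev hs T v (T'.lev (Quotient.out o') + -k)
    refine ⟨a • v, ha, ?_⟩
    have : stabilizer G (Quotient.out o') = ⊥ := by
      by_contra hb
      obtain ⟨φ, hφ⟩ := exists_ne_zero hR (stab_le T' _) hb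
      exact hφ (finrank_zero_iff_forall_zero.1 h0 φ)
    rw [this]
    exact bot_le
  · have heq := (Finset.sum_eq_sum_iff_of_le k2).1 (by rw [← x1, ← x2]; omega) o'
      (Finset.mem_univ _)
    obtain ⟨j, hj⟩ := sq_eq _ _ h0 (k1 o') heq
    refine ⟨g o' j • Quotient.out j.1, hl o' j, ?_⟩
    have := stab_fin hE hR T (g o' j • Quotient.out j.1)
    have hinj : Function.Injective (res (hle o' j)) :=
      (LinearMap.injective_iff_surjective_of_finrank_eq_finrank
        (hj.symm.trans (dm_smul T (g o' j) _).symm)).2 (res_surj hE T (stab_le T' _) _ (hle o' j))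
    refine fixes hP hE hR T (stab_le T' _) _ fun ψ hψ => hinj ?_
    rw [map_zero]
    exact hq_ext fun a => hψ _ a.2

end Pool.Agent.Lib.FBC
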