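import Pool.Agent.Lib.FBC.Collapse

set_option autoImplicit false
set_option linter.unusedVariables false

/-!
Blowing up a set of directions at a vertex: subdivision and incomplete folds.
-/

namespace Pool.Agent.Lib.FBC.Forest

variable {G : Type} [Group G] {deg : G →* Multiplicative ℤ}

/-- A vertex `v` of level zero and a set of directions at `v`, at most one of each type. -/
structure BlowData (T : Forest deg) where
  /-- the vertex -/
  v : T.V
  hv : T.lev v = 0
  /-- the types of the chosen directions -/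
  S : T.I → Bool → Prop
  /-- the positions of the chosen directions -/
  γ : T.I → Bool → G
  hγ : ∀ i b, S i b → γ i b • T.en i b = v

variable {T : Forest deg} (B : BlowData T)

namespace BlowData

/-- The chosen directions. -/
def Mem (d : T.Dir) : Prop := B.S d.1.i d.2 ∧ d.1.g = B.γ d.1.i d.2

lemma Mem.src {B : BlowData T} {d : T.Dir} (h : B.Mem d) : d.src = B.v := by
  rw [← B.hγ _ _ h.1, ← h.2]; rfl

/-- New vertices. -/
def V' (B : BlowData T) : Type := T.V ⊕ G

instance : MulAction G B.V' where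
  smul g := Sum.map (g • ·) (g * ·)
  one_smul x := by
    cases x
    · exact congrArg Sum.inl (one_smul _ _)
    · exact congrArg Sum.inr (one_mul _)
  mul_smul a b x := by
    cases x
    · exact congrArg Sum.inl (mul_smul _ _ _)
    · exact congrArg Sum.inr (mul_assoc _ _ _)

/-- Old vertices. -/
def old (x : T.V) : B.V' := Sum.inl x

/-- The new vertices. -/
def new (g : G) : B.V' := Sum.inr g

@[simp] lemma smul_old (g : G) (x : T.V) : g • B.old x = B.old (g • x) := rfl
@[simp] lemma smul_new (g h : G) : g • B.new h = B.new (g * h) := rfl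
@[simp] lemma old_ne_new (x : T.V) (h : G) : B.old x ≠ B.new h := Sum.inl_ne_inr
@[simp] lemma new_ne_old (x : T.V) (h : G) : B.new h ≠ B.old x := Sum.inr_ne_inl
@[simp] lemma new_inj {g h : G} : B.new g = B.new h ↔ g = h := Sum.inr_injective.eq_iff
@[simp] lemma old_inj {x y : T.V} : B.old x = B.old y ↔ x = y := Sum.inl_injective.eq_iff

/-- Extension of an equivariant map to the new vertices. -/
def ext {W : Type} [MulAction G W] (f : T.V → W) (x : W) : B.V' → W := Sum.elim f (· • x)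

@[simp] lemma ext_old {W : Type} [MulAction G W] (f : T.V → W) (x : W) (y : T.V) :
    B.ext f x (B.old y) = f y := rfl
@[simp] lemma ext_new {W : Type} [MulAction G W] (f : T.V → W) (x : W) (g : G) :
    B.ext f x (B.new g) = g • x := rfl

lemma ext_smul {W : Type} [MulAction G W] {f : T.V → W} (hf : ∀ (g : G) y, f (g • y) = g • f y)
    (x : W) (g : G) (y : B.V') : B.ext f x (g • y) = g • B.ext f x y := by
  cases y
  · exact hf _ _
  · exact mul_smul _ _ _

/-- Collapse of the new edges. -/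
def q : B.V' → T.V := B.ext id B.v

lemma q_smul (g : G) (y : B.V') : B.q (g • y) = g • B.q y := B.ext_smul (fun _ _ => rfl) _ _ _
@[simp] lemma q_old (y : T.V) : B.q (B.old y) = y := rfl
@[simp] lemma q_new (g : G) : B.q (B.new g) = g • B.v := rfl

open Classical in
/-- New ends. -/
noncomputable def en' : Option T.I → Bool → B.V'
  | none, false => B.old B.v
  | none, true => B.new 1
  | some i, b => if B.S i b then B.new (B.γ i b)⁻¹ else B.old (T.en i b)

lemma q_en (i : T.I) (b : Bool) : B.q (B.en' (some i) b) = T.en i b := by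
  simp only [en']
  split_ifs with h
  · rw [q_new, ← B.hγ i b h, inv_smul_smul]
  · rfl

lemma q_en_none (b : Bool) : B.q (B.en' none b) = B.v := by
  cases b
  · rfl
  · exact one_smul _ _

open Classical in
/-- New walls. -/
noncomputable def side' : Option T.I → B.V' → Bool
  | none, y => decide (y = B.new 1 ∨ ∃ d, B.Mem d ∧ d.1.sd (B.q y) ≠ d.2)
  | some i, y => T.side i (B.q y)

lemma en_eq_new {g : G} {j : T.I} {b : Bool} : g • B.en' (some j) b = B.new 1 ↔ B.Mem (⟨g, j⟩, b) := by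
  simp only [en', Mem]
  split_ifs with h
  · simp [h, mul_inv_eq_one]
  · simp [h]

lemma chain_q (y : B.V') :
    Relation.ReflTransGen (fun x y => ∃ (g : G) (i : Option T.I) (b : Bool),
      x = g • B.en' i b ∧ y = g • B.en' i (!b)) y (B.old (B.q y)) ∧
    Relation.ReflTransGen (fun x y => ∃ (g : G) (i : Option T.I) (b : Bool),
      x = g • B.en' i b ∧ y = g • B.en' i (!b)) (B.old (B.q y)) y := by
  rcases y with y | g
  · exact ⟨.refl, .refl⟩
  · exact ⟨.single ⟨g, none, true, congrArg Sum.inr (mul_one g).symm, rfl⟩,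
      .single ⟨g, none, false, rfl, congrArg Sum.inr (mul_one g).symm⟩⟩

/-- The blown up forest. -/
noncomputable def forest : Forest deg where
  V := B.V'
  I := Option T.I
  en := B.en'
  lev y := T.lev (B.q y)
  lev_smul g y := by rw [q_smul, T.lev_smul]
  lev_en i b := by
    cases i
    · rw [q_en_none, B.hv]
    · rw [q_en, T.lev_en]
  side := B.side'
  side_en i b := by
    cases i
    · cases b
      · simp only [side', en', old_ne_new, false_or, q_old, decide_eq_false_iff_not, not_exists,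
          not_and, not_not]
        intro d hd
        rw [← hd.src]; exact sd_ed _ _
      · simp [side', en']
    · simp only [side', q_en, T.side_en]
  cross i j g hne := by
    rcases i with _ | i
    · rcases j with _ | j
      · have : g ≠ 1 := fun e => hne (by rw [e])
        simp [side', en', this]
      · simp only [side', en_eq_new, q_smul, q_en, decide_eq_decide]
        have key : ∀ b, B.Mem (⟨g, j⟩, b) → ∃ d, B.Mem d ∧ d.1.sd (g • T.en j (!b)) ≠ d.2 :=
          fun b hb => ⟨_, hb, by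
            have := sd_ed (⟨g, j⟩ : T.E) (!b)
            simp only [E.ed] at this
            simp [this]⟩
        have key2 : ∀ b, (∃ d, B.Mem d ∧ d.1.sd (g • T.en j b) ≠ d.2) →
            B.Mem (⟨g, j⟩, !b) ∨ ∃ d, B.Mem d ∧ d.1.sd (g • T.en j (!b)) ≠ d.2 := by
          rintro b ⟨⟨c, b'⟩, hd, h⟩
          by_cases e : c = ⟨g, j⟩
          · subst e
            have := sd_ed (⟨g, j⟩ : T.E) b
            simp only [E.ed] at this
            rw [this] at h
            obtain rfl : b' = !b := Bool.eq_not_iff.2 (Ne.symm h)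
            exact Or.inl hd
          · exact Or.inr ⟨_, hd, fun e' => h ((sd_ed_ne e b (!b)).trans e')⟩
        exact ⟨fun h => h.elim (fun h => Or.inr (key false h)) (key2 false),
          fun h => h.elim (fun h => Or.inr (key true h)) (key2 true)⟩
    · rcases j with _ | j
      · simp only [side', q_smul, q_en_none]
      · simp only [side', q_smul, q_en]
        exact T.cross i j g fun e => hne (by rw [Prod.mk.injEq] at e; rw [e.1, e.2])
  conn u v h := by
    refine ((B.chain_q u).1.trans ?_).trans (B.chain_q v).2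
    have := T.conn _ _ h
    clear h
    generalize B.q v = y at this
    induction this with
    | refl => exact .refl
    | tail _ e ih =>
      obtain ⟨g, i, b, rfl, rfl⟩ := e
      have h1 := (B.chain_q (g • B.en' (some i) b)).2
      have h2 := (B.chain_q (g • B.en' (some i) (!b))).1
      rw [q_smul, q_en] at h1 h2
      exact ((ih.trans h1).tail ⟨g, some i, b, rfl, rfl⟩).trans h2

/-- The remainder of an old edge. -/
def oe (c : T.E) : B.forest.E := ⟨c.g, some c.i⟩

/-- The new edges. -/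
def ne (g : G) : B.forest.E := ⟨g, none⟩

lemma edge_cases (c : B.forest.E) : (∃ a, c = B.oe a) ∨ ∃ g, c = B.ne g := by
  obtain ⟨g, _ | i⟩ := c
  · exact Or.inr ⟨g, rfl⟩
  · exact Or.inl ⟨⟨g, i⟩, rfl⟩

lemma oe_inj {a b : T.E} : B.oe a = B.oe b ↔ a = b :=
  ⟨fun h => E.ext (E.mk.inj h).1 (Option.some_injective _ (E.mk.inj h).2), fun h => h ▸ rfl⟩

lemma ne_inj {a b : G} : B.ne a = B.ne b ↔ a = b := ⟨fun h => (E.mk.inj h).1, fun h => h ▸ rfl⟩

lemma oe_ne_ne (a : T.E) (g : G) : B.oe a ≠ B.ne g := fun h => by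
  have := congrArg E.i h
  simp [oe, ne] at this

lemma smul_oe (g : G) (a : T.E) : g • B.oe a = B.oe (g • a) := rfl
lemma smul_ne (g h : G) : g • B.ne h = B.ne (g * h) := rfl

lemma sd_oe (a : T.E) (y : B.V') : (B.oe a).sd y = a.sd (B.q y) :=
  congrArg (T.side a.i) (B.q_smul _ _)

lemma q_ed (a : T.E) (b : Bool) : B.q ((B.oe a).ed b) = a.ed b :=
  (B.q_smul _ _).trans (congrArg _ (B.q_en _ _))

lemma ne_false (g : G) : (B.ne g).ed false = B.old (g • B.v) := rfl
lemma ne_true (g : G) : (B.ne g).ed true = B.new g := congrArg Sum.inr (mul_one g)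

lemma ed_of_mem {d : T.Dir} (h : B.Mem d) (g : G) : (B.oe (g • d.1)).ed d.2 = B.new g := by
  rw [← smul_oe, ed_smul]
  exact (congrArg (g • ·) (B.en_eq_new.2 h)).trans (congrArg Sum.inr (mul_one g))

lemma ed_of_not {a : T.E} {b : Bool} (h : ¬ B.S a.i b) : (B.oe a).ed b = B.old (a.ed b) := by
  have : B.en' (some a.i) b = B.old (T.en a.i b) := by simp [en', h]
  exact congrArg (a.g • ·) this

lemma exists_mem {a : T.E} {b : Bool} (h : B.S a.i b) :
    ∃ (g : G) (c : T.E), B.Mem (c, b) ∧ a = g • c :=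
  ⟨_, ⟨B.γ a.i b, a.i⟩, ⟨h, rfl⟩, eq_smul_of_i rfl⟩

/-- Inclusion of the old vertices. -/
def p : Hom T B.forest 0 where
  toFun := B.old
  map_smul _ _ := rfl
  lev_map _ := (add_zero _).symm

@[simp] lemma p_apply (y : T.V) : B.p y = B.old y := rfl

/-- Collapse of the new edges. -/
def qh : Hom B.forest T 0 where
  toFun := B.q
  map_smul := B.q_smul
  lev_map _ := (add_zero _).symm

/-- Extension of a map, sending the new vertex to `x`. -/
def lift {T' : Forest deg} {k : ℤ} (f : Hom T T' k) (x : T'.V) (hx : T'.lev x = k) :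
    Hom B.forest T' k where
  toFun := B.ext f x
  map_smul := B.ext_smul f.map_smul x
  lev_map y := by
    rcases y with y | g
    · exact f.lev_map y
    · show T'.lev (g • x) = T.lev (g • B.v) + k
      rw [T'.lev_smul, T.lev_smul, hx, B.hv, add_zero]

lemma oe_mem_sep {a : T.E} {u w : T.V} : B.oe a ∈ sep (T := B.forest) (B.old u) (B.old w) ↔
    a ∈ sep u w := by
  by_cases h : T.lev u = T.lev w
  · rw [mem_sep h, mem_sep (T := B.forest) (u := B.old u) (v := B.old w) h, sd_oe, sd_oe]; rfl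
  · exact ⟨fun e => (h (lev_eq_of_mem (T := B.forest) e)).elim,
      fun e => (h (lev_eq_of_mem e)).elim⟩

lemma sep_end_mem {d : T.Dir} (h : B.Mem d) (g : G) :
    sep (T := B.forest) (B.old (g • d.src)) ((B.oe (g • d.1)).ed d.2) = {B.ne g} := by
  rw [ed_of_mem B h, h.src, ← ne_false, ← ne_true]
  exact sep_ed _ false

lemma sep_end_not {a : T.E} {b : Bool} (h : ¬ B.S a.i b) :
    sep (T := B.forest) (B.old (a.ed b)) ((B.oe a).ed b) = ∅ := by
  rw [ed_of_not B h]; exact sep_self _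

/-- The image of an old edge consists of its remainder and new edges at its ends. -/
lemma mem_img_p {a : T.E} {c : B.forest.E} : c ∈ B.p.img a ↔ c = B.oe a ∨
    ∃ (g : G) (d : T.Dir), B.Mem d ∧ a = g • d.1 ∧ c = B.ne g := by
  have l : ∀ b, B.forest.lev (B.old (a.ed b)) = B.forest.lev ((B.oe a).ed b) := fun b =>
    congrArg T.lev (B.q_ed a b).symm
  have e : ∀ b, c ∈ sep (T := B.forest) (B.old (a.ed b)) ((B.oe a).ed b) ↔
      ∃ (g : G) (a' : T.E), B.Mem (a', b) ∧ a = g • a' ∧ c = B.ne g := fun b => by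
    by_cases h : B.S a.i b
    · obtain ⟨g, a', h1, rfl⟩ := B.exists_mem h
      have := B.sep_end_mem h1 g
      simp only [Dir.src] at this
      rw [ed_smul, this, Finset.mem_singleton]
      refine ⟨fun e => ⟨g, a', h1, rfl, e⟩, fun ⟨g', a'', h2, h3, h4⟩ => ?_⟩
      have i1 : a'.i = a''.i := (E.mk.inj h3).2
      have : a' = a'' := E.ext (by rw [h1.2, h2.2]; simp only [i1]) i1
      subst this
      rw [h4, show g = g' from mul_right_cancel (E.mk.inj h3).1]
    · rw [B.sep_end_not h]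
      exact ⟨fun e => by simp at e, fun ⟨g, a', h1, h2, _⟩ => (h (h2 ▸ h1.1)).elim⟩
  have e2 := sep_ed (B.oe a) false
  have l2 := lev_ed_eq (B.oe a) false true
  show c ∈ sep (T := B.forest) (B.old (a.ed false)) (B.old (a.ed true)) ↔ _
  rw [mem_sep_tri (l false) (l2.trans (l true).symm), mem_sep_tri l2 (l true).symm,
    sep_comm ((B.oe a).ed true), e, e]
  erw [e2]
  rw [Finset.mem_singleton]
  by_cases h0 : c = B.oe a
  · simp [h0, oe_ne_ne]
  · simp only [h0, false_iff, not_not, false_or]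
    constructor
    · intro h
      by_contra h'
      refine h ⟨fun ⟨g, a', h1⟩ => (h' ⟨g, (a', false), h1⟩).elim,
        fun ⟨g, a', h1⟩ => (h' ⟨g, (a', true), h1⟩).elim⟩
    · rintro ⟨g, ⟨a', b⟩, h1, h2, h3⟩ h
      have : ∃ (g : G) (a' : T.E), B.Mem (a', !b) ∧ a = g • a' ∧ c = B.ne g := by
        cases b
        · exact h.1 ⟨g, a', h1, h2, h3⟩
        · exact h.2 ⟨g, a', h1, h2, h3⟩
      obtain ⟨g', a'', h4, h5, h6⟩ := this
      obtain rfl : g = g' := B.ne_inj.1 (h3.symm.trans h6)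
      obtain rfl : a' = a'' := MulAction.injective g (h2.symm.trans h5)
      exact ed_ne a' b (h1.src.trans h4.src.symm)

lemma oe_mem_img (a : T.E) : B.oe a ∈ B.p.img a := B.mem_img_p.2 (Or.inl rfl)

lemma ne_mem_img {d : T.Dir} (h : B.Mem d) (g : G) : B.ne g ∈ B.p.img (g • d.1) :=
  B.mem_img_p.2 (Or.inr ⟨g, d, h, rfl, rfl⟩)

lemma p_nondeg : B.p.Nondeg := Hom.nondeg_iff.2 fun c => ⟨_, B.oe_mem_img c⟩

lemma p_row (hS : ∃ d, B.Mem d) (l : B.forest.I) : ∃ i, 0 < B.p.mat l i := by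
  rcases l with _ | i
  · obtain ⟨d, hd⟩ := hS
    exact ⟨_, B.p.mat_pos (B.ne_mem_img hd 1)⟩
  · exact ⟨_, B.p.mat_pos (B.oe_mem_img ⟨1, i⟩)⟩

lemma two_le_img {d : T.Dir} (h : B.Mem d) {a : T.E} (e : d.1.i = a.i) :
    2 ≤ (B.p.img a).card := by
  rw [eq_smul_of_i e]
  exact Finset.one_lt_card.2 ⟨_, B.oe_mem_img _, _, B.ne_mem_img h _, B.oe_ne_ne _ _⟩

open Classical in
/-- The derivative of the inclusion. -/
noncomputable def dp (d : T.Dir) : B.forest.Dir :=
  if B.S d.1.i d.2 then (B.ne (d.1.g * (B.γ d.1.i d.2)⁻¹), false) else (B.oe d.1, d.2)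

lemma dp_mem {d : T.Dir} (h : B.Mem d) (g : G) : B.dp (d.tr g) = (B.ne g, false) := by
  have : B.S (d.tr g).1.i (d.tr g).2 := h.1
  rw [dp, if_pos this]
  show (B.ne (g * d.1.g * (B.γ d.1.i d.2)⁻¹), false) = _
  rw [← h.2, mul_inv_cancel_right]

lemma dp_not {d : T.Dir} (h : ¬ B.S d.1.i d.2) : B.dp d = (B.oe d.1, d.2) := if_neg h

lemma dir_cases (d : T.Dir) : ¬ B.S d.1.i d.2 ∨ ∃ (g : G) (d0 : T.Dir), B.Mem d0 ∧ d = d0.tr g := by
  by_cases h : B.S d.1.i d.2
  · obtain ⟨g, c, h1, h2⟩ := B.exists_mem h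
    exact Or.inr ⟨g, _, h1, Prod.ext h2 rfl⟩
  · exact Or.inl h

lemma D_p (d : T.Dir) : B.p.D d (B.dp d) := by
  rcases B.dir_cases d with h | ⟨g, d0, h, rfl⟩
  · rw [B.dp_not h]
    exact ⟨B.ed_of_not h, by rw [← Hom.img_dir]; exact B.oe_mem_img _⟩
  · rw [B.dp_mem h]
    exact ⟨by rw [src_tr, h.src]; rfl, by rw [← Hom.img_dir]; exact B.ne_mem_img h g⟩

lemma dir_old (hS : ∃ d, B.Mem d) {d' : B.forest.Dir} {x : T.V} (h : d'.src = B.old x) :
    ∃ d : T.Dir, d.src = x ∧ B.dp d = d' := by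
  obtain ⟨c, b⟩ := d'
  rcases B.edge_cases c with ⟨a, rfl⟩ | ⟨g, rfl⟩
  · rcases B.dir_cases (a, b) with h1 | ⟨g, d0, h1, e⟩
    · exact ⟨(a, b), B.old_inj.1 ((B.ed_of_not h1).symm.trans h), B.dp_not h1⟩
    · obtain ⟨rfl, rfl⟩ := Prod.ext_iff.1 e
      exact (B.new_ne_old _ _ ((B.ed_of_mem h1 g).symm.trans h)).elim
  · cases b
    · obtain ⟨d, hd⟩ := hS
      exact ⟨d.tr g, by rw [src_tr, hd.src]; exact B.old_inj.1 h, B.dp_mem hd g⟩
    · exact (B.new_ne_old _ _ ((B.ne_true g).symm.trans h)).elim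

lemma dir_new {d' : B.forest.Dir} (h : d'.src = B.new 1) :
    d' = (B.ne 1, true) ∨ ∃ d : T.Dir, B.Mem d ∧ d' = (B.oe d.1, d.2) := by
  obtain ⟨c, b⟩ := d'
  rcases B.edge_cases c with ⟨a, rfl⟩ | ⟨g, rfl⟩
  · exact Or.inr ⟨(a, b), B.en_eq_new.1 h, rfl⟩
  · cases b
    · exact (B.old_ne_new _ _ h).elim
    · rw [B.new_inj.1 ((B.ne_true g).symm.trans h)]; exact Or.inl rfl

lemma val2_dp (hS : ∃ d, B.Mem d) {a b : T.Dir} (h : Val2 a b) (e : B.dp a ≠ B.dp b) :
    Val2 (B.dp a) (B.dp b) := by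
  refine ⟨⟨e, by rw [(B.D_p a).src, (B.D_p b).src, h.1.2]⟩, fun d' hd => ?_, fun g hg => ?_⟩
  · obtain ⟨d, h1, rfl⟩ := B.dir_old hS (hd.trans (B.D_p a).src)
    exact (h.2.1 d h1).imp (congrArg _) (congrArg _)
  · rw [(B.D_p a).src] at hg
    exact h.2.2 g (B.old_inj.1 hg)

lemma not_leafless (hS : ∃ d, B.Mem d) {a b : T.Dir} (h : Val2 a b) (e : B.dp a = B.dp b) :
    ¬ B.forest.Leafless := fun H => by
  obtain ⟨d', h1, h2⟩ := H (B.dp a)
  obtain ⟨d, h3, rfl⟩ := B.dir_old hS (h1.trans (B.D_p a).src)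
  exact (h.2.1 d h3).elim (fun e' => h2 (e' ▸ rfl)) fun e' => h2 (e' ▸ e.symm)

variable {T' : Forest deg} {k : ℤ}

/-- The point `x` lies strictly inside the images of the chosen directions. -/
structure Cut (f : Hom T T' k) (x : T'.V) : Prop where
  hx : T'.lev x = k
  one : ∀ i b, B.S i b → ¬ B.S i (!b)
  sub : ∀ d, B.Mem d → sep (f B.v) x ⊆ f.img d.1
  ne1 : f B.v ≠ x
  ne2 : ∀ d, B.Mem d → x ≠ f d.tgt
  ex : ∃ d, B.Mem d

variable {B} {f : Hom T T' k} {x : T'.V}

/-- The map on the blown up forest. -/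
noncomputable def Cut.g (C : B.Cut f x) : Hom B.forest T' k := B.lift f x C.hx

lemma Cut.g_old (C : B.Cut f x) (y : T.V) : C.g (B.old y) = f y := rfl
lemma Cut.g_new (C : B.Cut f x) (h : G) : C.g (B.new h) = h • x := rfl

lemma Cut.img_ne (C : B.Cut f x) (h : G) : C.g.img (B.ne h) = sep (h • f B.v) (h • x) := by
  rw [Hom.img, ne_false, ne_true, g_old, g_new, f.map_smul]

lemma Cut.img_not (C : B.Cut f x) {a : T.E} (h : ∀ b, ¬ B.S a.i b) :
    C.g.img (B.oe a) = f.img a := by
  rw [Hom.img, B.ed_of_not (h _), B.ed_of_not (h _)]; rfl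

lemma Cut.g_mem (C : B.Cut f x) {d : T.Dir} (hd : B.Mem d) (h : G) :
    C.g ((B.oe (h • d.1)).ed d.2) = h • x ∧
      C.g ((B.oe (h • d.1)).ed (!d.2)) = h • f d.tgt := by
  rw [B.ed_of_mem hd, B.ed_of_not (a := h • d.1) (C.one _ _ hd.1), g_old, ed_smul, f.map_smul]
  exact ⟨rfl, rfl⟩

lemma Cut.img_mem (C : B.Cut f x) {d : T.Dir} (hd : B.Mem d) (h : G) :
    C.g.img (B.oe (h • d.1)) = sep (h • x) (h • f d.tgt) := by
  rw [Hom.img_eq _ _ d.2, (C.g_mem hd h).1, (C.g_mem hd h).2]

lemma edge_cases' (a : T.E) :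
    (∀ b, ¬ B.S a.i b) ∨ ∃ (g : G) (d : T.Dir), B.Mem d ∧ a = g • d.1 := by
  by_cases h : ∃ b, B.S a.i b
  · obtain ⟨b, h⟩ := h
    obtain ⟨g, c, h1, h2⟩ := B.exists_mem h
    exact Or.inr ⟨g, _, h1, h2⟩
  · exact Or.inl fun b hb => h ⟨b, hb⟩

lemma Cut.nondeg (C : B.Cut f x) (hf : f.Nondeg) : C.g.Nondeg := by
  refine Hom.nondeg_iff.2 fun c => Finset.nonempty_iff_ne_empty.2 fun e => ?_
  have lv : T'.lev (f B.v) = T'.lev x := by rw [f.lev_map, B.hv, C.hx, zero_add]
  rcases B.edge_cases c with ⟨a, rfl⟩ | ⟨g, rfl⟩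
  · rcases edge_cases' (B := B) a with h | ⟨g, d, h, rfl⟩
    · rw [C.img_not h] at e
      exact (Hom.nondeg_iff.1 hf a).ne_empty e
    · rw [C.img_mem h, sep_smul, Finset.image_eq_empty] at e
      exact C.ne2 d h (eq_of_sep (by rw [← lv, ← h.src]; exact f.lev_eq (lev_src_tgt d)) e)
  · rw [C.img_ne, sep_smul, Finset.image_eq_empty] at e
    exact C.ne1 (eq_of_sep lv e)

lemma Cut.tight (C : B.Cut f x) : Hom.Tight C.g B.p := by
  have lv : T'.lev (f B.v) = T'.lev x := by rw [f.lev_map, B.hv, C.hx, zero_add]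
  have key : ∀ (g : G) d, B.Mem d → Disjoint (C.g.img (B.oe (g • d.1))) (C.g.img (B.ne g)) := by
    intro g d hd
    rw [C.img_mem hd, C.img_ne, Finset.disjoint_left]
    intro c h1 h2
    rw [mem_sep_smul] at h1 h2
    have := C.sub d hd h2
    rw [f.img_dir, hd.src, mem_sep_tri lv (lev_eq_of_mem h1)] at this
    exact this (iff_of_true h2 h1)
  intro c a ha b hb hab
  rcases B.mem_img_p.1 ha with rfl | ⟨g, d, hd, rfl, rfl⟩ <;>
    rcases B.mem_img_p.1 hb with rfl | ⟨g', d', hd', e, rfl⟩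
  · exact (hab rfl).elim
  · rw [e]; exact key _ _ hd'
  · exact (key _ _ hd).symm
  · have i1 : d.1.i = d'.1.i := (E.mk.inj e).2
    have i2 : d.2 = d'.2 := by
      by_contra h
      exact C.one _ _ hd.1 (by rw [← Bool.eq_not_iff.2 (Ne.symm h), i1]; exact hd'.1)
    have i3 : d.1.g = d'.1.g := by rw [hd.2, hd'.2, i1, i2]
    have i4 : g * d.1.g = g' * d'.1.g := (E.mk.inj e).1
    rw [i3] at i4
    exact (hab (by rw [mul_right_cancel i4])).elim

end BlowData

open Classical in
/-- One or two directions at a vertex of level zero. -/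
noncomputable def pair (a b : T.Dir) (h : a.src = b.src) (hl : T.lev a.src = 0)
    (hi : a.1.i = b.1.i → a = b) : BlowData T where
  v := a.src
  hv := hl
  S j β := (j = a.1.i ∧ β = a.2) ∨ (j = b.1.i ∧ β = b.2)
  γ j β := if j = a.1.i then a.1.g else b.1.g
  hγ := by
    rintro j β (⟨rfl, rfl⟩ | ⟨rfl, rfl⟩)
    · rw [if_pos rfl]; rfl
    · split_ifs with e
      · rw [hi e.symm]; rfl
      · rw [h]; rfl

lemma mem_pair {a b : T.Dir} {h : a.src = b.src} {hl : T.lev a.src = 0}
    {hi : a.1.i = b.1.i → a = b} {d : T.Dir} : (pair a b h hl hi).Mem d ↔ d = a ∨ d = b := by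
  simp only [BlowData.Mem, pair]
  constructor
  · rintro ⟨⟨h1, h2⟩ | ⟨h1, h2⟩, h3⟩
    · rw [if_pos h1] at h3
      exact Or.inl (Prod.ext (E.ext h3 h1) h2)
    · split_ifs at h3 with e
      · obtain rfl := hi (e.symm.trans h1)
        exact Or.inl (Prod.ext (E.ext h3 h1) h2)
      · exact Or.inr (Prod.ext (E.ext h3 h1) h2)
  · rintro (rfl | rfl)
    · simp
    · refine ⟨Or.inr ⟨rfl, rfl⟩, ?_⟩
      split_ifs with e
      · rw [hi e.symm]
      · rfl

lemma pair_one {a b : T.Dir} {h : a.src = b.src} {hl : T.lev a.src = 0}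
    {hi : a.1.i = b.1.i → a = b} (i : T.I) (β : Bool) (h1 : (pair a b h hl hi).S i β) :
    ¬ (pair a b h hl hi).S i (!β) := by
  rintro (⟨h2, h3⟩ | ⟨h2, h3⟩) <;> rcases h1 with ⟨h4, h5⟩ | ⟨h4, h5⟩
  · simp [h5] at h3
  · obtain rfl := hi (h2.symm.trans h4); simp [h5] at h3
  · obtain rfl := hi (h4.symm.trans h2); simp [h5] at h3
  · simp [h5] at h3

end Pool.Agent.Lib.FBC.Forest
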