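import Pool.Agent.Lib.FBC.Defs

/-!
Interface statements between the parts of the proof.
-/

namespace Pool.Agent.Lib.FBC

open Pointwise Forest

/-- T1: relative train tracks for a power, in both directions, or an invariant splitting. -/
def St_TT : Prop := ∀ (G : Type) [Group G] (d : Dg G), FC d → d.ker ≠ ⊥ →
  ∃ (k : ℕ) (H : Subgroup G) (e : Dg H), Pow d k H e ∧
    (DTree e ∨ ∃ X : Pair e e⁻¹, X.s.TT ∧ X.t.TT ∧ MAX e X.P.Ell)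

/-- T2a: subdivision at Nielsen points and passage to a power. -/
def St_NF : Prop := ∀ (G : Type) [Group G] (d d' : Dg G), FC d → ∀ X : Pair d d',
  X.s.TT → X.t.TT → MAX d X.P.Ell →
  ∃ (k : ℕ) (H : Subgroup G) (e : Dg H), Pow d k H e ∧
    ∃ X' : Pair e e⁻¹, X'.s.NF ∧ X'.t.NF ∧ MAX e X'.P.Ell

/-- vertex stabilizers are finitely generated -/
def St_FGV : Prop := ∀ (G : Type) [Group G] (d : Dg G), d.ker.FG → ∀ (Y : Forest d) (a : Y.V),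
  (MulAction.stabilizer G a).FG

/-- free product of two elliptic elements with different fixed vertices -/
def St_FP : Prop := ∀ (G : Type) [Group G] (d : Dg G) (Y : Forest d) (a b : Y.V) (x y z : G),
  Y.lev a = Y.lev b → a ≠ b → x • a = a → y • b = b → z ∈ Subgroup.closure {x, y} → z • a = a →
    z ∈ Subgroup.zpowers x

/-! ### T2: exported dynamics of one nice flow -/

/-- paths with boundedly many illegal turns become stable in bounded time -/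
def St_STAB : Prop := ∀ (G : Type) [Group G] (d : Dg G), FC d → ∀ (Y : Forest d) (s : Flow Y),
  s.NF → ∀ I : ℕ, ∃ j : ℕ, ∀ a b, s.IL I a b → ∃ r p y q, r ≤ I ∧
    s.St r (s.σ^[j] a) (s.σ^[j] b) p y q

/-- stable paths stay stable, with the same Nielsen points -/
def St_NEXT : Prop := ∀ (G : Type) [Group G] (d : Dg G), FC d → ∀ (Y : Forest d) (s : Flow Y),
  s.NF → ∀ r a b p y q, s.St r a b p y q →
    ∃ y', s.St r (s.σ a) (s.σ b) (fun i => s.σ (p i)) y' (fun i => s.σ (q i))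

/-- geodesics between points of a Nielsen class are runs of Nielsen paths -/
def St_RUN : Prop := ∀ (G : Type) [Group G] (d : Dg G), FC d → ∀ (Y : Forest d) (s : Flow Y),
  s.NF → ∀ a b, s.Cls a b → a ≠ b → ∃ r p y q, 0 < r ∧ s.St r a b p y q ∧ p 0 = a ∧
    q (r - 1) = b ∧ ∀ i, i + 1 < r → q i = p (i + 1)

/-- runs have short legal segments, class points are dense, distinct classes overlap little -/
def St_OV : Prop := ∀ (G : Type) [Group G] (d : Dg G), FC d → ∀ (Y : Forest d) (s : Flow Y),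
  s.NF → ∃ N : ℕ, (∀ p y q, s.INP p y q → Y.dist p q ≤ N) ∧
    (∀ p q, s.Cls p q → s.NoLeg N p q) ∧
    (∀ p q x, s.Cls p q → Y.btw p x q → ∃ z, s.Cls p z ∧ Y.btw p z x ∧ Y.dist z x ≤ N) ∧
    ∀ p q p' q' x y, s.Cls p q → s.Cls p' q' → Y.btw p x q → Y.btw p y q → Y.btw p' x q' →
      Y.btw p' y q' → N ≤ Y.dist x y → s.Cls p p'

/-- contraction of the coned-off length away from long legal segments -/
def St_CONTR : Prop := ∀ (G : Type) [Group G] (d : Dg G), FC d → ∀ (Y : Forest d) (s : Flow Y),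
  s.NF → ∀ L : ℕ, ∃ c : ℕ, ∀ R : ℕ, ∃ j : ℕ, ∀ n ≥ j, ∀ (r : ℕ) a b x y, s.NL (r * R) a b →
    Y.btw (s.σ^[n] a) x (s.σ^[n] b) → Y.btw (s.σ^[n] a) y (s.σ^[n] b) → s.NoLeg L x y →
    s.NL (r * c) x y

/-- the comparison maps are Lipschitz for the coned-off lengths -/
def St_CONE : Prop := ∀ (G : Type) [Group G] (d d' : Dg G), FC d → ∀ X : Pair d d',
  X.s.NF → X.t.NF → ∃ c : ℕ, ∀ r a b, X.t.NL r a b → X.s.NL (r * c) (X.h.f a) (X.h.f b)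

/-- a segment without long legal segments in both directions of time is short -/
def St_BI : Prop := ∀ (G : Type) [Group G] (d d' : Dg G), FC d → ∀ X : Pair d d',
  X.s.NF → X.t.NF → ∀ L : ℕ, ∃ j : ℕ, ∀ n ≥ j, ∀ C : ℕ, ∃ R : ℕ, ∀ a b a' b' u v,
    X.P.lev a = X.P.lev b → X.P.lev a' = X.P.lev a + n → X.P.lev b' = X.P.lev a + n →
    X.M.lev u = - X.P.lev a → X.M.lev v = - X.P.lev a →
    X.P.dist (X.s.σ^[n] a) a' ≤ C → X.P.dist (X.s.σ^[n] b) b' ≤ C →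
    X.M.dist (X.h'.f a) u ≤ C → X.M.dist (X.h'.f b) v ≤ C →
    X.s.NoLeg L a' b' → X.t.NoLeg L u v → X.s.NL R a b

/-! ### T3: north-south dynamics, in the form of a Schottky triple -/

def St_SCH : Prop := ∀ (G : Type) [Group G] (d d' : Dg G), FC d → ∀ X : Pair d d',
  X.s.NF → X.t.NF → ∀ (g : G) e, X.t.Gen g e → (∀ k : ℕ, 0 < k → ¬ X.s.PP (g⁻¹ ^ k)) →
  ∃ (D : ℕ) (κ : Fin 3 → G) (q : Fin 3 → X.P.Dir) (ι₁ ι₂ : ℕ → X.P.Dir),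
    X.s.Sch D κ q ∧ X.s.Itin ι₁ ∧ X.s.Itin ι₂ ∧
    (∀ z ∈ X.s.LH ι₁, ∃ j₀ : ℕ, ∀ j ≥ j₀, ∃ n : ℕ,
      X.s.σ^[n] z ∈ κ 0 ^ j • X.s.Far D (κ 0) (q 0) true) ∧
    (∀ (j : ℕ) x y, Adj x y → X.P.lev x = - (j * D : ℕ) →
      (∃ n : ℕ, ∃ c ∈ X.s.LH ι₂, X.P.btw (X.s.σ^[n] x) c (X.s.σ^[n] y)) →
      ∃ i, i ≠ 0 ∧ x ∈ (κ i)⁻¹ ^ j • X.s.Far D (κ i) (q i) false ∧
        y ∈ (κ i)⁻¹ ^ j • X.s.Far D (κ i) (q i) false) ∧
    (∀ i : ℤ, i ≠ 0 → Disjoint (κ 0 ^ i • X.s.LH ι₁) (X.s.LH ι₁)) ∧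
    (∀ i, i ≠ 0 → ∀ j₀ : ℕ, ∃ j ≥ j₀, ∃ z ∈ X.s.LH ι₂,
      z ∈ (κ i)⁻¹ ^ j • X.s.Far D (κ i) (q i) false) ∧
    ∃ M₀ : ℕ, ∀ M ≥ M₀, ∀ z, z ∉ X.s.LH ι₁ → g⁻¹ ^ M • z ∈ X.s.LH ι₂

/-! ### T4 - T6 -/

/-- The upper side `U` of a wall with stabilizer `K`. -/
structure Wall {G : Type} [Group G] {d : Dg G} {Y : Forest d} (s : Flow Y) {I : Type} (D : ℕ)
    (κ : I → G) (q : I → Y.Dir) (τ : ℕ) (Z : Finset Y.V) (G₀ K : Subgroup G)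
    (U : Set Y.V) : Prop where
  fi : G₀.FiniteIndex
  le : K ≤ G₀
  fg : K.FG
  mem : ∀ i, κ i ∈ K
  dvd : ∀ g ∈ G₀, (D : ℤ) ∣ dg d g
  inv : ∀ k ∈ K, ∀ a ∈ U, k • a ∈ U
  fwd : ∀ a ∈ U, s.σ a ∈ U
  efwd : ∀ a ∈ U, ∀ b, Adj a b → ∀ n ≥ D, ∀ c, Y.btw (s.σ^[n] a) c (s.σ^[n] b) → c ∈ U
  mixed : ∃ T : Finset Y.Dir, T.card ≤ τ ∧
    ∀ e : Y.Dir, e.src ∈ U → e.tgt ∉ U → ∃ k ∈ K, e.tr k ∈ T
  arrow : ∃ T : Finset Y.V, ∀ a, a ∉ U → s.σ a ∈ U → ∃ k ∈ K, k • a ∈ T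
  stab : ∀ a, a ∉ U → s.σ a ∈ U → ∀ g ∈ G₀, g • a = a → g ∈ K
  base : ∀ z ∈ Z, z ∈ U ∧ ∀ a, s.σ a = z → a ∉ U
  below : ∀ i z, (∃ j₀ : ℕ, ∀ j ≥ j₀, ∃ n : ℕ, s.σ^[n] z ∈ κ i ^ j • s.Far D (κ i) (q i) true) →
    z ∉ U
  above : ∀ i a, (∀ j₀ : ℕ, ∃ j ≥ j₀, a ∈ s.Hull ((κ i)⁻¹ ^ j • s.Far D (κ i) (q i) false)) →
    a ∈ U
  up : ∀ i, ∀ k ∈ K, ∀ z,
    (∃ j₀ : ℕ, ∀ j ≥ j₀, ∃ n : ℕ, s.σ^[n] z ∈ κ i ^ j • s.Far D (κ i) (q i) true) →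
    (∃ j₀ : ℕ, ∀ j ≥ j₀, ∃ n : ℕ, s.σ^[n] (k • z) ∈ κ i ^ j • s.Far D (κ i) (q i) true) →
    k ∈ Subgroup.zpowers (κ i)
  down : ∀ i i', ∀ k ∈ K, (∀ j₀ : ℕ, ∃ j ≥ j₀, ∃ (j' : ℕ) (z : Y.V),
    z ∈ (κ i)⁻¹ ^ j • s.Far D (κ i) (q i) false ∧
    z ∈ (k * (κ i')⁻¹ ^ j') • s.Far D (κ i') (q i') false) → i = i' ∧ k ∈ Subgroup.zpowers (κ i)
  indep : ∀ i i', i ≠ i' → ∀ a b : ℤ, κ i ^ a = κ i' ^ b → a = 0

def St_WALL : Prop := ∀ (G : Type) [Group G] (d : Dg G), FC d → ∀ (Y : Forest d) (s : Flow Y),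
  s.TT → ∀ (I : Type) [Fintype I] [Nonempty I] (D : ℕ) (κ : I → G) (q : I → Y.Dir),
  s.Sch D κ q → ∃ τ : ℕ, ∀ (B : Finset G) (Z : Finset Y.V),
    (∀ x ∈ B, x ∉ Subgroup.closure (Set.range κ)) →
    (∀ z ∈ Z, Y.lev z = 0 ∧ ∀ i b, z ∉ s.Far D (κ i) (q i) b) →
    ∃ (G₀ K : Subgroup G) (U : Set Y.V), (∀ x ∈ B, x ∉ G₀) ∧ Wall s D κ q τ Z G₀ K U

/-- a class that is positive on all forward cycles has finitely generated kernel -/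
def St_ASC : Prop := ∀ (G : Type) [Group G] (d : Dg G), FC d → ∀ (Y : Forest d) (s : Flow Y),
  s.TT → ∀ (L : Subgroup G), L.FiniteIndex → ∀ ψ : Dg L, (∀ z : L, (z : G) ∈ Y.Ell → ψ z = 1) →
  (∀ (z : L) (n : ℕ) (e : Y.Dir), 0 < n → s.Desc n e (e.tr z) → 0 < dg ψ z) →
  ψ.ker.FG

/-- a nonzero class on the boundary of the cone has infinitely generated kernel -/
def St_CURT : Prop := ∀ (G : Type) [Group G] (d : Dg G), FC d → ∀ (Y : Forest d) (s : Flow Y),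
  s.TT → ∀ (L : Subgroup G), L.FiniteIndex → ∀ ψ : Dg L, (∀ z : L, (z : G) ∈ Y.Ell → ψ z = 1) →
  (∀ (z : L) (n : ℕ) (e : Y.Dir), 0 < n → s.Desc n e (e.tr z) → 0 ≤ dg ψ z) →
  (∃ (z : L) (n : ℕ) (e : Y.Dir), 0 < n ∧ s.Desc n e (e.tr z) ∧ ψ z = 1) →
  ψ ≠ 1 → ¬ ψ.ker.FG

/-- Theorem A: generic periodic orbits of the backward flow are periodic orbits of the forward
flow. -/
def St_THA : Prop := ∀ (G : Type) [Group G] (d d' : Dg G), FC d → ∀ X : Pair d d',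
  X.s.NF → X.t.NF → ∀ (g : G) e, X.t.Gen g e → ∃ k : ℕ, 0 < k ∧ X.s.PP (g⁻¹ ^ k)

def St_VHT : Prop := ∀ (G : Type) [Group G] (d : Dg G), FC d → ∀ (Y : Forest d) (s : Flow Y),
  s.TT → ∀ t : G, 0 < dg d t → VHT d Y.Ell t

/-! ### T7 - T9 -/

/-- spirality: a loop along which two slopes disagree contradicts LERF -/
def St_SUN : Prop := ∀ (G : Type) [Group G] (d : Dg G), FC d → ∀ (T : GTree G) (v w w' : T.V)
  (g c c' : G) (L : Subgroup G) (η : Dg L) (t t' : L),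
  T.Y.Adj v w → T.Y.Adj v w' → g • w' = w → g • v ≠ v →
  (d.ker ⊓ MulAction.stabilizer G v).FG → (d.ker ⊓ MulAction.stabilizer G w).FG →
  d.ker ⊓ MulAction.stabilizer G v ⊓ MulAction.stabilizer G w = Subgroup.zpowers c →
  d.ker ⊓ MulAction.stabilizer G v ⊓ MulAction.stabilizer G w' = Subgroup.zpowers c' →
  (∀ m n : ℕ, ∀ z ∈ Subgroup.closure {c ^ m, c' ^ n},
    (z • w = w → z ∈ Subgroup.zpowers (c ^ m)) ∧ (z • w' = w' → z ∈ Subgroup.zpowers (c' ^ n))) →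
  (∃ x ∈ d.ker, x • v = v ∧ ∀ n : ℕ, 0 < n → x ^ n • w ≠ w) →
  (∃ x ∈ d.ker, x • v = v ∧ ∀ n : ℕ, 0 < n → x ^ n • w' ≠ w') →
  L ≤ MulAction.stabilizer G v → L.relIndex (MulAction.stabilizer G v) ≠ 0 →
  0 < dg d t → dg d t = dg d t' → (t : G) • w = w → (t' : G) • w' = w' → η t ≠ η t' →
  (∀ z : L, (z : G) ∈ d.ker → ((z : G) • w = w ∨ (z : G) • w' = w') → η z = 1) → False

/-- Theorem B and the mixed case: the exponentially growing case is a surface. -/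
def St_T7 : Prop := ∀ (G : Type) [Group G] (d d' : Dg G), FC d → ∀ X : Pair d d',
  X.s.NF → X.t.NF → MAX d X.P.Ell →
  ∃ (T : Forest (1 : Dg d.ker)) (R : Ribbon T), (∀ a, T.lev a = 0) ∧ Nonempty T.I ∧ R.Conn ∧
    ∀ x : d.ker, R.Peri x ↔ ∃ g : G, dg d g ≠ 0 ∧ g * x = x * g

/-- from a ribbon tree to a basis and boundary words -/
def St_RIB : Prop := ∀ (K : Type) [Group K], IsFreeGroup K → ∀ (T : Forest (1 : Dg K))
  (R : Ribbon T), (∀ a, T.lev a = 0) → Nonempty T.I → R.Conn →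
  ∃ (m b : ℕ) (β : FreeGroupBasis (Fin m) K) (c : Fin b → List (Fin m × Bool)), SurfW c ∧
    (∀ j, R.Peri (spell β (c j)) ∧ spell β (c j) ≠ 1) ∧
    (∀ x, x ≠ 1 → R.Peri x → ∃ (j : Fin b) (w : K) (n : ℤ), x = w * spell β (c j) ^ n * w⁻¹) ∧
    ∀ (i j : Fin b) (w : K) (n : ℤ), spell β (c j) = w * spell β (c i) ^ n * w⁻¹ → n = 1 ∨ n = -1

/-- the structure theorem, in the form that is proved by induction on the rank -/
def St_MAIN : Prop := ∀ (G : Type) [Group G] (d : Dg G), FC d →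
  Per d ∨ (Surf d ∧ ∀ t : G, 0 < dg d t → VHT d ∅ t)

end Pool.Agent.Lib.FBC
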