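import Pool.Agent.Lib.FBC.Turn

set_option autoImplicit false
set_option linter.unusedVariables false

/-!
Collapsing a set of edge orbits.
-/

namespace Pool.Agent.Lib.FBC.Forest

variable {G : Type} [Group G] {deg : G →* Multiplicative ℤ} {T : Forest deg}

lemma Ess.of_hom {T' : Forest deg} {k : ℤ} (H : T.Ess) (h : Hom T' T k) (hn : Nonempty T'.V) :
    T'.Ess := ⟨hn, fun x =>
  let ⟨g, h1, h2⟩ := H.2 (h x)
  ⟨g, h1, fun e => h2 (by rw [← h.map_smul, e])⟩⟩

lemma Ess.exists_dir (H : T.Ess) (x : T.V) : ∃ d : T.Dir, d.src = x := by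
  obtain ⟨g, h1, h2⟩ := H.2 x
  obtain ⟨d, hd⟩ := exists_First (u := x) (v := g • x) (by simp [T.lev_smul, h1]) h2.symm
  exact ⟨d, hd.1⟩

lemma Ess.nonempty_I (H : T.Ess) : Nonempty T.I :=
  let ⟨x⟩ := H.1
  let ⟨d, _⟩ := H.exists_dir x
  ⟨d.1.i⟩

variable (Z : T.I → Prop)

/-- Vertices joined by collapsed edges. -/
def CRel (u v : T.V) : Prop := T.lev u = T.lev v ∧ ∀ c ∈ sep u v, Z c.i

/-- The equivalence relation of the collapse. -/
def cSetoid : Setoid T.V where
  r := CRel Z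
  iseqv := ⟨fun _ => ⟨rfl, by simp⟩, fun h => ⟨h.1.symm, by rw [sep_comm]; exact h.2⟩,
    fun h h' => ⟨h.1.trans h'.1, fun c hc =>
      (Finset.mem_union.1 (sep_subset_union h.1 h'.1 hc)).elim (h.2 c) (h'.2 c)⟩⟩

lemma CRel.smul {Z : T.I → Prop} {u v : T.V} (h : CRel Z u v) (g : G) : CRel Z (g • u) (g • v) :=
  ⟨by rw [T.lev_smul, T.lev_smul, h.1], fun c hc => h.2 (g⁻¹ • c) ((mem_sep_smul g).1 hc)⟩

lemma CRel.sd {Z : T.I → Prop} {u v : T.V} (h : CRel Z u v) {c : T.E} (hc : ¬ Z c.i) :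
    c.sd u = c.sd v := by
  by_contra e
  exact hc (h.2 c ((mem_sep h.1).2 e))

lemma crel_ed {Z : T.I → Prop} {c : T.E} (hc : Z c.i) (b : Bool) :
    CRel Z (c.ed b) (c.ed (!b)) :=
  ⟨lev_ed_eq _ _ _, fun c' h => by rw [sep_ed, Finset.mem_singleton] at h; rwa [h]⟩

/-- Vertices of the collapse. -/
def CV : Type := Quotient (cSetoid Z)

instance : MulAction G (CV Z) where
  smul g := Quotient.map (g • ·) fun _ _ h => CRel.smul h g
  one_smul x := by
    induction x using Quotient.inductionOn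
    exact congrArg (Quotient.mk _) (one_smul _ _)
  mul_smul a b x := by
    induction x using Quotient.inductionOn
    exact congrArg (Quotient.mk _) (mul_smul _ _ _)

/-- The collapsed forest. -/
noncomputable def coll : Forest deg where
  V := CV Z
  I := {i // ¬ Z i}
  fin := Fintype.ofFinite _
  en i b := Quotient.mk _ (T.en i.1 b)
  lev := Quotient.lift T.lev fun _ _ h => h.1
  lev_smul g x := by
    induction x using Quotient.inductionOn
    exact T.lev_smul _ _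
  lev_en i b := T.lev_en _ _
  side i := Quotient.lift (T.side i.1) fun u v h => by
    simpa [E.sd] using CRel.sd h (c := ⟨1, i.1⟩) i.2
  side_en i b := T.side_en _ _
  cross i j g hne := T.cross i.1 j.1 g fun e => hne (by
    rw [Prod.mk.injEq] at e ⊢; exact ⟨e.1, Subtype.ext e.2⟩)
  conn u v h := by
    induction u using Quotient.inductionOn with | _ u =>
    induction v using Quotient.inductionOn with | _ v =>
    have := T.conn u v h
    clear h
    induction this with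
    | refl => exact .refl
    | tail _ e ih =>
      obtain ⟨g, i, b, rfl, rfl⟩ := e
      by_cases hi : Z i
      · have : Quotient.mk (cSetoid Z) (g • T.en i b) = Quotient.mk _ (g • T.en i (!b)) :=
          Quotient.sound (crel_ed (c := ⟨g, i⟩) hi b)
        rwa [← this]
      · exact ih.tail ⟨g, ⟨i, hi⟩, b, rfl, rfl⟩

/-- The collapse map. -/
def cq : Hom T (coll Z) 0 where
  toFun := Quotient.mk _
  map_smul _ _ := rfl
  lev_map _ := (add_zero _).symm

lemma cq_surj (y : (coll Z).V) : ∃ x, cq Z x = y := Quotient.exists_rep y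

lemma cq_eq {u v : T.V} : cq Z u = cq Z v ↔ CRel Z u v := Quotient.eq

/-- The edges that survive. -/
def ie {Z : T.I → Prop} (c : (coll Z).E) : T.E := ⟨c.g, c.i.1⟩

lemma mem_sep_cq {c : (coll Z).E} {u v : T.V} : c ∈ sep (cq Z u) (cq Z v) ↔ ie c ∈ sep u v := by
  by_cases h : T.lev u = T.lev v
  · rw [mem_sep h, mem_sep ((cq Z).lev_eq h)]; rfl
  · exact ⟨fun e => (h (lev_eq_of_mem (T := coll Z) e)).elim, fun e => (h (lev_eq_of_mem e)).elim⟩

lemma cnt_sep_cq (u v : T.V) (j : (coll Z).I) :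
    cnt (sep (cq Z u) (cq Z v)) j = cnt (sep u v) j.1 := by
  refine Finset.card_bij (fun c _ => ie c) (fun c hc => ?_) (fun a _ b _ e => ?_) fun c hc => ?_
  · rw [Finset.mem_filter] at hc ⊢
    exact ⟨(mem_sep_cq Z).1 hc.1, congrArg Subtype.val hc.2⟩
  · exact E.ext (E.mk.inj e).1 (Subtype.ext (E.mk.inj e).2)
  · rw [Finset.mem_filter] at hc
    have e : ie (Z := Z) ⟨c.g, j⟩ = c := E.ext rfl hc.2.symm
    exact ⟨⟨c.g, j⟩, Finset.mem_filter.2 ⟨(mem_sep_cq Z).2 (e ▸ hc.1), rfl⟩, e⟩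

variable {T' : Forest deg} {k : ℤ}

lemma mat_cq_comp {m : ℤ} (h : Hom T' T k) (e : m = k + 0) (j : (coll Z).I) (i : T'.I) :
    ((cq Z).comp h e).mat j i = h.mat j.1 i := cnt_sep_cq Z _ _ j

/-- A map that collapses the chosen edges descends. -/
def desc (h : Hom T T' k) (hz : ∀ c : T.E, Z c.i → h (c.ed false) = h (c.ed true)) :
    Hom (coll Z) T' k where
  toFun := Quotient.lift h fun u v e => const_of_sep h e.1 fun c hc => hz c (e.2 c hc)
  map_smul g x := by
    induction x using Quotient.inductionOn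
    exact h.map_smul _ _
  lev_map x := by
    induction x using Quotient.inductionOn
    exact h.lev_map _

lemma mat_desc (h : Hom T T' k) (hz : ∀ c : T.E, Z c.i → h (c.ed false) = h (c.ed true))
    (j : T'.I) (i : (coll Z).I) : (desc Z h hz).mat j i = h.mat j i.1 := rfl

lemma card_coll {i : T.I} (hi : Z i) : Fintype.card (coll Z).I < Fintype.card T.I :=
  Fintype.card_lt_of_injective_of_notMem Subtype.val Subtype.val_injective (b := i)
    (by rintro ⟨j, rfl⟩; exact j.2 hi)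

lemma sum_coll_le (φ : T.I → ℝ) (h : ∀ i, 0 ≤ φ i) : ∑ i : (coll Z).I, φ i.1 ≤ ∑ i, φ i := by
  rw [← Finset.sum_image (s := Finset.univ) (g := fun i : (coll Z).I => (i.1 : T.I)) (f := φ)
    fun _ _ _ _ e => Subtype.ext e]
  exact Finset.sum_le_sum_of_subset_of_nonneg (Finset.subset_univ _) fun i _ _ => h i

lemma freq_coll {M : T.I → T.I → ℕ} {M' : (coll Z).I → (coll Z).I → ℕ} {lam : ℝ}
    (h : Freq M lam) (e : ∀ j i, M' j i ≤ M j.1 i.1) : Freq M' lam := by
  obtain ⟨w, h0, h1⟩ := h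
  refine ⟨fun i => w i.1, fun i => h0 _, fun j => le_trans ?_ (h1 j.1)⟩
  exact (Finset.sum_le_sum fun i _ => mul_le_mul_of_nonneg_right (Nat.cast_le.2 (e j i))
    (h0 _).le).trans (sum_coll_le Z (fun i => (M j.1 i : ℝ) * w i)
      fun i => mul_nonneg (Nat.cast_nonneg _) (h0 i).le)

/-- A proper collapse of a leafless forest has no fixed vertex. -/
lemma Ess.coll (H : T.Ess) (hl : T.Leafless) {i0 : T.I} (hi : ¬ Z i0) : (coll Z).Ess := by
  classical
  refine ⟨H.1.map (cq Z), fun y => ?_⟩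
  obtain ⟨x, rfl⟩ := cq_surj Z y
  by_contra hx
  push Not at hx
  have hx' : ∀ g : G, deg g = 1 → CRel Z (g • x) x := fun g hg => (cq_eq Z).1 (hx g hg)
  have ex : ∀ u : T.V, ∃ n, ∃ y, CRel Z y x ∧ (sep u y).card = n :=
    fun u => ⟨_, x, (cSetoid Z).refl x, rfl⟩
  have inv : ∀ g : G, deg g = 1 → ∀ u, Nat.find (ex (g • u)) ≤ Nat.find (ex u) := fun g hg u => by
    obtain ⟨y, h1, h2⟩ := Nat.find_spec (ex u)
    refine Nat.find_le ⟨g • y, (cSetoid Z).trans (h1.smul g) (hx' g hg), ?_⟩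
    rw [sep_smul, Finset.card_image_of_injective _ (MulAction.injective g), h2]
  obtain ⟨d0, hd0⟩ := H.exists_dir x
  obtain ⟨⟨i, b⟩, -, hmax⟩ := Finset.exists_max_image (Finset.univ : Finset (T.I × Bool))
    (fun p => Nat.find (ex ((⟨d0.1.g, p.1⟩ : T.E).ed p.2))) ⟨(i0, true), Finset.mem_univ _⟩
  have lv : ∀ i b, T.lev ((⟨d0.1.g, i⟩ : T.E).ed b) = T.lev x := fun i b => by
    rw [← hd0, Dir.src, lev_ed, lev_ed]
  set u := (⟨d0.1.g, i⟩ : T.E).ed b with hu
  have all : ∀ u', T.lev u' = T.lev x → Nat.find (ex u') ≤ Nat.find (ex u) := fun u' h => by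
    obtain ⟨d, rfl⟩ := H.exists_dir u'
    refine le_trans ?_ (hmax (d.1.i, d.2) (Finset.mem_univ _))
    have e : d.src = (d.1.g * d0.1.g⁻¹) • (⟨d0.1.g, d.1.i⟩ : T.E).ed d.2 := by
      simp [Dir.src, E.ed, mul_smul]
    have hg : deg (d.1.g * d0.1.g⁻¹) = 1 := by
      rw [← hd0, Dir.src, Dir.src, lev_ed, lev_ed] at h
      rw [map_mul, map_inv, Multiplicative.toAdd.injective h, mul_inv_cancel]
    have := inv _ hg ((⟨d0.1.g, d.1.i⟩ : T.E).ed d.2)
    rwa [← e] at this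
  have nu : ¬ CRel Z u x := fun h => by
    have z : Nat.find (ex u) = 0 := (Nat.find_eq_zero _).2 ⟨u, h, by simp⟩
    have k : ∀ b, CRel Z ((⟨d0.1.g, i0⟩ : T.E).ed b) x := fun b => by
      obtain ⟨y, h1, h2⟩ := Nat.find_spec (ex ((⟨d0.1.g, i0⟩ : T.E).ed b))
      have := all _ (lv i0 b)
      rw [z, ← h2, Nat.le_zero, Finset.card_eq_zero] at this
      rwa [eq_of_sep ((lv i0 b).trans h1.1.symm) this]
    have := ((cSetoid Z).trans (k false) ((cSetoid Z).symm (k true))).sd (c := ⟨d0.1.g, i0⟩) hi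
    simp at this
  obtain ⟨c0, hc0, hz⟩ : ∃ c ∈ sep u x, ¬ Z c.i := by
    by_contra h
    push Not at h
    exact nu ⟨lv i b, h⟩
  have mem : ∀ y, CRel Z y x → c0 ∈ sep u y := fun y hy => by
    rw [mem_sep ((lv i b).trans hy.1.symm), hy.sd hz]
    exact sd_ne_of_mem hc0
  obtain ⟨d, hd⟩ := exists_First (lv i b) (fun e => nu (e ▸ (cSetoid Z).refl x))
  obtain ⟨d', h1, h2⟩ := hl d
  obtain ⟨y, h3, h4⟩ := Nat.find_spec (ex d'.tgt)
  have lu : T.lev d'.src = T.lev y := by rw [h1, hd.1, lv, h3.1]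
  have h5 : d'.1 ∉ sep d'.src y := fun h => h2 (First.unique ⟨h1.trans hd.1, by
    rwa [h1, hd.1] at h⟩ (hd.of_common hc0 (mem y h3)))
  have h6 := all d'.tgt (by rw [← lev_src_tgt, lu, h3.1])
  have h7 : Nat.find (ex u) ≤ (sep u y).card := Nat.find_le ⟨y, h3, rfl⟩
  have h8 : sep d'.tgt y = insert d'.1 (sep d'.src y) := sep_step' lu h5
  rw [← h4, h8, Finset.card_insert_of_notMem h5, h1, hd.1] at h6
  exact absurd (h6.trans h7) (Nat.not_succ_le_self _)

/-- A forest under `T` with a flow of smaller growth rate. -/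
def Drop (T : Forest deg) (k : ℤ) (lam : ℝ) : Prop :=
  ∃ (T' : Forest deg) (f' : Hom T' T' k), Nonempty (Hom T T' 0) ∧ T'.Ess ∧
    ∃ mu < lam, Freq f'.mat mu

lemma Drop.of_hom {lam : ℝ} (H : Drop T' k lam) (p : Hom T T' 0) : Drop T k lam :=
  let ⟨T'', f, ⟨q⟩, h⟩ := H
  ⟨T'', f, ⟨q.comp p rfl⟩, h⟩

end Pool.Agent.Lib.FBC.Forest

namespace Pool.Agent.Lib.FBC

open Forest

/-- Block LEAF: removing a leaf lowers the growth rate of an irreducible flow. -/
def St_LEAF : Prop := ∀ (G : Type) [Group G] (deg : G →* Multiplicative ℤ) (T : Forest deg)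
  (k : ℤ) (f : Hom T T k) (lam : ℝ), T.Ess → Irr f.mat → Freq f.mat lam → ¬ T.Leafless →
  Drop T k lam

/-- Block NORM: normalisation. -/
def St_NORM : Prop := ∀ (G : Type) [Group G] (deg : G →* Multiplicative ℤ) (T : Forest deg)
  (k : ℤ) (f : Hom T T k) (lam : ℝ), T.Ess → Freq f.mat lam →
  ∃ (T' : Forest deg) (f' : Hom T' T' k), Nonempty (Hom T T' 0) ∧ T'.Ess ∧ T'.Leafless ∧
    T'.Reduced ∧ Irr f'.mat ∧ Freq f'.mat lam

/-- Block FOLD: an irreducible flow that is not a train track map can be improved. -/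
def St_FOLD : Prop := ∀ (G : Type) [Group G] (deg : G →* Multiplicative ℤ) (T : Forest deg)
  (k : ℤ) (f : Hom T T k) (lam : ℝ), T.Ess → Irr f.mat → Freq f.mat lam → ¬ f.TT →
  Drop T k lam

end Pool.Agent.Lib.FBC
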