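import Pool.Agent.Lib.FBC.Forest

set_option autoImplicit false
set_option linter.unusedVariables false

/-!
Equivariant maps between forests, cancellation, transition matrices.
-/

namespace Pool.Agent.Lib.FBC.Forest

variable {G : Type} [Group G] {deg : G →* Multiplicative ℤ}

/-- An equivariant map on vertices shifting levels by `k`. -/
structure Hom (T T' : Forest deg) (k : ℤ) where
  /-- the map on vertices -/
  toFun : T.V → T'.V
  map_smul : ∀ (g : G) v, toFun (g • v) = g • toFun v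
  lev_map : ∀ v, T'.lev (toFun v) = T.lev v + k

variable {T T' T'' : Forest deg} {k k' : ℤ}

instance : CoeFun (Hom T T' k) fun _ => T.V → T'.V := ⟨Hom.toFun⟩

namespace Hom

/-- Composition, with any name `m` for the total shift. -/
def comp {m : ℤ} (h' : Hom T' T'' k') (h : Hom T T' k) (e : m = k + k') : Hom T T'' m where
  toFun v := h' (h v)
  map_smul g v := by rw [h.map_smul, h'.map_smul]
  lev_map v := by rw [h'.lev_map, h.lev_map, e, add_assoc]

@[simp] lemma comp_apply {m : ℤ} (h' : Hom T' T'' k') (h : Hom T T' k) (e : m = k + k') (v : T.V) :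
    h'.comp h e v = h' (h v) := rfl

lemma lev_eq (h : Hom T T' k) {u v : T.V} (e : T.lev u = T.lev v) : T'.lev (h u) = T'.lev (h v) := by
  rw [h.lev_map, h.lev_map, e]

/-- The image geodesic of an edge. -/
noncomputable def img (h : Hom T T' k) (c : T.E) : Finset T'.E :=
  sep (h (c.ed false)) (h (c.ed true))

lemma img_eq (h : Hom T T' k) (c : T.E) (b : Bool) :
    h.img c = sep (h (c.ed b)) (h (c.ed (!b))) := by
  cases b
  · rfl
  · exact sep_comm _ _

lemma img_dir (h : Hom T T' k) (d : T.Dir) : h.img d.1 = sep (h d.src) (h d.tgt) := h.img_eq _ _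

lemma mem_img (h : Hom T T' k) {c : T.E} {c' : T'.E} :
    c' ∈ h.img c ↔ c'.sd (h (c.ed false)) ≠ c'.sd (h (c.ed true)) :=
  mem_sep (h.lev_eq (lev_ed_eq _ _ _))

lemma img_smul (h : Hom T T' k) (g : G) (c : T.E) : h.img (g • c) = (h.img c).image (g • ·) := by
  simp only [img, ed_smul, h.map_smul, sep_smul]

lemma smul_mem_img (h : Hom T T' k) (g : G) {c : T.E} {c' : T'.E} :
    g • c' ∈ h.img (g • c) ↔ c' ∈ h.img c := by
  simp only [img, ed_smul, h.map_smul, smul_mem_sep]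

lemma sep_subset (h : Hom T T' k) {u v : T.V} (e : T.lev u = T.lev v) :
    sep (h u) (h v) ⊆ (sep u v).biUnion h.img := fun c' hc' => by
  obtain ⟨c, h1, h2⟩ := exists_cross (fun x => c'.sd (h x)) e (sd_ne_of_mem hc')
  exact Finset.mem_biUnion.2 ⟨c, h1, h.mem_img.2 h2⟩

/-- An edge crossed by the image of exactly one edge of a geodesic is not cancelled. -/
lemma mem_sep_of_unique (h : Hom T T' k) {u v : T.V} {c : T.E} {c' : T'.E} (hc : c ∈ sep u v)
    (h1 : c' ∈ h.img c) (h2 : ∀ a ∈ sep u v, c' ∈ h.img a → a = c) : c' ∈ sep (h u) (h v) := by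
  have e := lev_eq_of_mem hc
  rw [mem_sep (h.lev_eq e)]
  intro e'
  have : xor (c'.sd (h u)) (c.sd u) = xor (c'.sd (h v)) (c.sd v) := by
    refine const_of_sep (fun x => xor (c'.sd (h x)) (c.sd x)) e fun a ha => ?_
    by_cases ea : a = c
    · subst ea
      have := h.mem_img.1 h1
      simp only [sd_ed]
      revert this
      cases c'.sd (h (a.ed false)) <;> cases c'.sd (h (a.ed true)) <;> simp
    · have h3 : c'.sd (h (a.ed false)) = c'.sd (h (a.ed true)) := by
        by_contra h3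
        exact ea (h2 a ha (h.mem_img.2 h3))
      simp only [h3, sd_ed_ne (Ne.symm ea) false true]
  rw [e'] at this
  exact sd_ne_of_mem hc (by simpa using this)

/-- No cancellation in the image of the geodesic from `u` to `v`. -/
def NoCancel (h : Hom T T' k) (u v : T.V) : Prop :=
  ∀ a ∈ sep u v, ∀ b ∈ sep u v, a ≠ b → Disjoint (h.img a) (h.img b)

variable {h : Hom T T' k}

lemma NoCancel.img_subset {u v : T.V} (H : h.NoCancel u v) {c : T.E} (hc : c ∈ sep u v) :
    h.img c ⊆ sep (h u) (h v) := fun c' h1 =>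
  h.mem_sep_of_unique hc h1 fun a ha h2 => by
    by_contra e
    exact Finset.disjoint_left.1 (H a ha c hc e) h2 h1

lemma NoCancel.sep_eq {u v : T.V} (H : h.NoCancel u v) (e : T.lev u = T.lev v) :
    sep (h u) (h v) = (sep u v).biUnion h.img :=
  (h.sep_subset e).antisymm (Finset.biUnion_subset.2 fun _ => H.img_subset)

lemma NoCancel.mono {u v u' v' : T.V} (H : h.NoCancel u v) (e : sep u' v' ⊆ sep u v) :
    h.NoCancel u' v' := fun a ha b hb => H a (e ha) b (e hb)

lemma NoCancel.symm {u v : T.V} (H : h.NoCancel u v) : h.NoCancel v u :=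
  H.mono (by rw [sep_comm])

lemma NoCancel.smul {u v : T.V} (H : h.NoCancel u v) (g : G) : h.NoCancel (g • u) (g • v) := by
  intro a ha b hb hab
  rw [mem_sep_smul] at ha hb
  have := H _ ha _ hb fun e => hab (MulAction.injective _ e)
  rw [Finset.disjoint_left] at this ⊢
  intro c h1 h2
  exact this ((h.smul_mem_img g⁻¹).2 h1) ((h.smul_mem_img g⁻¹).2 h2)

lemma noCancel_ed (h : Hom T T' k) (c : T.E) (b : Bool) : h.NoCancel (c.ed b) (c.ed (!b)) := by
  intro a ha a' ha' e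
  rw [sep_ed, Finset.mem_singleton] at ha ha'
  exact (e (ha.trans ha'.symm)).elim

/-- The transition matrix: `mat h j i` counts the edges of orbit `j` in the image of edge `i`. -/
noncomputable def mat (h : Hom T T' k) (j : T'.I) (i : T.I) : ℕ := cnt (h.img ⟨1, i⟩) j

lemma cnt_img (h : Hom T T' k) (c : T.E) (j : T'.I) : cnt (h.img c) j = h.mat j c.i := by
  rw [eq_smul_of_i (c := ⟨1, c.i⟩) (c' := c) rfl, img_smul, cnt_image]; rfl

lemma mat_pos (h : Hom T T' k) {c : T.E} {c' : T'.E} (e : c' ∈ h.img c) : 0 < h.mat c'.i c.i := by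
  rw [← cnt_img]; exact cnt_pos.2 ⟨c', e, rfl⟩

lemma exists_of_mat_pos (h : Hom T T' k) (c : T.E) {j : T'.I} (e : 0 < h.mat j c.i) :
    ∃ c' ∈ h.img c, c'.i = j := by
  rwa [← cnt_img, cnt_pos] at e

lemma exists_of_mat_pos' (h : Hom T T' k) (c' : T'.E) {i : T.I} (e : 0 < h.mat c'.i i) :
    ∃ c : T.E, c.i = i ∧ c' ∈ h.img c := by
  obtain ⟨a, h1, h2⟩ := h.exists_of_mat_pos ⟨1, i⟩ e
  exact ⟨(c'.g * a.g⁻¹) • ⟨1, i⟩, rfl, by rw [eq_smul_of_i h2]; simpa using (h.smul_mem_img _).2 h1⟩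

lemma sum_mat_cnt (h : Hom T T' k) (S : Finset T.E) (j : T'.I) :
    ∑ i, h.mat j i * cnt S i = ∑ c ∈ S, cnt (h.img c) j := by
  simp only [cnt_img, ← sum_cnt S fun i => h.mat j i, Nat.cast_id, mul_comm]

lemma cnt_biUnion_le (h : Hom T T' k) (S : Finset T.E) (j : T'.I) :
    cnt (S.biUnion h.img) j ≤ ∑ i, h.mat j i * cnt S i := by
  rw [sum_mat_cnt, cnt, Finset.filter_biUnion]
  exact Finset.card_biUnion_le

lemma cnt_sep_le (h : Hom T T' k) {u v : T.V} (e : T.lev u = T.lev v) (j : T'.I) :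
    cnt (sep (h u) (h v)) j ≤ ∑ i, h.mat j i * cnt (sep u v) i :=
  (cnt_mono (h.sep_subset e) j).trans (h.cnt_biUnion_le _ j)

lemma NoCancel.cnt_sep {u v : T.V} (H : h.NoCancel u v) (e : T.lev u = T.lev v) (j : T'.I) :
    cnt (sep (h u) (h v)) j = ∑ i, h.mat j i * cnt (sep u v) i := by
  rw [H.sep_eq e, sum_mat_cnt, cnt, Finset.filter_biUnion, Finset.card_biUnion]
  · rfl
  · exact fun a ha b hb hab => Finset.disjoint_filter_filter (H a ha b hb hab)

lemma cnt_sep_lt (h : Hom T T' k) {u v : T.V} {a b : T.E} {c : T'.E} (ha : a ∈ sep u v)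
    (hb : b ∈ sep u v) (hab : a ≠ b) (h1 : c ∈ h.img a) (h2 : c ∈ h.img b) :
    cnt (sep (h u) (h v)) c.i < ∑ i, h.mat c.i i * cnt (sep u v) i := by
  refine (cnt_mono (h.sep_subset (lev_eq_of_mem ha)) _).trans_lt ?_
  rw [sum_mat_cnt, ← Finset.add_sum_erase _ _ ha, ← sum_mat_cnt]
  refine lt_of_lt_of_le ?_ (Nat.add_le_add_left (h.cnt_biUnion_le _ _) _)
  have e : (sep u v).biUnion h.img = h.img a ∪ ((sep u v).erase a).biUnion h.img := by
    rw [← Finset.biUnion_insert, Finset.insert_erase ha]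
  rw [e, cnt, cnt, cnt, Finset.filter_union, ← Finset.card_union_add_card_inter]
  refine Nat.lt_add_of_pos_right (Finset.card_pos.2 ⟨c, ?_⟩)
  simp only [Finset.mem_inter, Finset.mem_filter, h1, and_true, true_and, Finset.mem_biUnion]
  exact ⟨b, Finset.mem_erase.2 ⟨hab.symm, hb⟩, h2⟩

lemma exists_cnt_lt (h : Hom T T' k) {u v : T.V} (H : ¬ h.NoCancel u v) :
    ∃ j, cnt (sep (h u) (h v)) j < ∑ i, h.mat j i * cnt (sep u v) i := by
  simp only [NoCancel, not_forall, Finset.not_disjoint_iff] at H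
  obtain ⟨a, ha, b, hb, hab, c, h1, h2⟩ := H
  exact ⟨c.i, h.cnt_sep_lt ha hb hab h1 h2⟩

/-- `h'` does not cancel on the `h`-images of edges. -/
def Tight (h' : Hom T' T'' k') (h : Hom T T' k) : Prop :=
  ∀ c : T.E, h'.NoCancel (h (c.ed false)) (h (c.ed true))

lemma Tight.dir {h' : Hom T' T'' k'} (H : Tight h' h) (d : T.Dir) :
    h'.NoCancel (h d.src) (h d.tgt) := by
  obtain ⟨c, b⟩ := d
  cases b
  · exact H c
  · exact (H c).symm

lemma tight_of_base {h' : Hom T' T'' k'}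
    (H : ∀ i, h'.NoCancel (h ((⟨1, i⟩ : T.E).ed false)) (h ((⟨1, i⟩ : T.E).ed true))) :
    Tight h' h := fun c => by
  have := (H c.i).smul c.g
  rw [← h.map_smul, ← h.map_smul, ← ed_smul, ← ed_smul] at this
  have e : c.g • (⟨1, c.i⟩ : T.E) = c := E.ext (mul_one _) rfl
  rwa [e] at this

lemma mat_comp_le {m : ℤ} (h' : Hom T' T'' k') (h : Hom T T' k) (e : m = k + k') (j : T''.I)
    (i : T.I) : (h'.comp h e).mat j i ≤ ∑ l, h'.mat j l * h.mat l i :=
  h'.cnt_sep_le (h.lev_eq (lev_ed_eq _ _ _)) j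

lemma Tight.mat_comp {m : ℤ} {h' : Hom T' T'' k'} (H : Tight h' h) (e : m = k + k') (j : T''.I)
    (i : T.I) : (h'.comp h e).mat j i = ∑ l, h'.mat j l * h.mat l i :=
  (H _).cnt_sep (h.lev_eq (lev_ed_eq _ _ _)) j

lemma exists_mat_comp_lt {m : ℤ} {h' : Hom T' T'' k'} (H : ¬ Tight h' h) (e : m = k + k') :
    ∃ j i, (h'.comp h e).mat j i < ∑ l, h'.mat j l * h.mat l i := by
  by_contra H'
  refine H (tight_of_base fun i => by_contra fun e' => ?_)
  obtain ⟨j, hj⟩ := h'.exists_cnt_lt e'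
  exact H' ⟨j, i, hj⟩

/-- No edge is collapsed. -/
def Nondeg (h : Hom T T' k) : Prop := ∀ c : T.E, h (c.ed false) ≠ h (c.ed true)

lemma Nondeg.dir (H : h.Nondeg) (d : T.Dir) : h d.src ≠ h d.tgt := by
  obtain ⟨c, b⟩ := d
  cases b
  · exact H c
  · exact (H c).symm

lemma nondeg_iff : h.Nondeg ↔ ∀ c, (h.img c).Nonempty :=
  forall_congr' fun c => ⟨fun H => Finset.nonempty_iff_ne_empty.2 fun e =>
    H (eq_of_sep (h.lev_eq (lev_ed_eq _ _ _)) e), fun ⟨a, H⟩ e => by simp [img, e] at H⟩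

/-- The derivative, as a relation: `d'` is the first edge of the image of `d`. -/
def D (h : Hom T T' k) (d : T.Dir) (d' : T'.Dir) : Prop := First (h d.src) (h d.tgt) d'

lemma D.unique {d : T.Dir} {a b : T'.Dir} (h1 : h.D d a) (h2 : h.D d b) : a = b :=
  First.unique h1 h2

lemma Nondeg.exists_D (H : h.Nondeg) (d : T.Dir) : ∃ d', h.D d d' :=
  exists_First (h.lev_eq (lev_src_tgt d)) (H.dir d)

lemma D.tr {d : T.Dir} {a : T'.Dir} (h1 : h.D d a) (g : G) : h.D (d.tr g) (a.tr g) := by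
  unfold D
  rw [src_tr, tgt_tr, h.map_smul, h.map_smul]
  exact First.tr h1 g

lemma D.src {d : T.Dir} {a : T'.Dir} (h1 : h.D d a) : a.src = h d.src := h1.1

lemma D.mem {d : T.Dir} {a : T'.Dir} (h1 : h.D d a) : a.1 ∈ h.img d.1 := by
  rw [img_dir]; exact h1.2

/-- First edges of non-cancelling geodesics. -/
lemma NoCancel.first {u v : T.V} (H : h.NoCancel u v) {d : T.Dir} {a : T'.Dir} (h1 : First u v d)
    (h2 : h.D d a) : First (h u) (h v) a :=
  ⟨by rw [h2.src, h1.1], H.img_subset h1.2 h2.mem⟩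

/-- Chain rule. -/
lemma Tight.chain {m : ℤ} {h' : Hom T' T'' k'} (H : Tight h' h) (e : m = k + k') {d : T.Dir}
    {a : T'.Dir} {b : T''.Dir} (h1 : h.D d a) (h2 : h'.D a b) : (h'.comp h e).D d b :=
  (H.dir d).first h1 h2

end Hom

end Pool.Agent.Lib.FBC.Forest
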