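import Pool.Agent.Lib.MP_288210_al.Spiral
import Pool.Agent.Lib.FBC.Map

/-!
Definitions for the structure theorem of LERF free-by-cyclic groups.
-/

namespace Pool.Agent.Lib.FBC

open Pool.Agent.Lib.MP_288210_al (LERF)

/-- degree homomorphisms -/
abbrev Dg (G : Type) [Group G] : Type := G →* Multiplicative ℤ

/-- the degree as an integer -/
abbrev dg {G : Type} [Group G] (d : Dg G) (g : G) : ℤ := (d g).toAdd

/-- `G` is a LERF group, extension of a finitely generated free group `ker d` by `ℤ`. -/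
structure FC {G : Type} [Group G] (d : Dg G) : Prop where
  surj : Function.Surjective d
  free : IsFreeGroup d.ker
  fg : d.ker.FG
  lerf : LERF G

/-- `H` is the preimage of `kℤ` and `e` is the degree divided by `k`. -/
structure Pow {G : Type} [Group G] (d : Dg G) (k : ℕ) (H : Subgroup G) (e : Dg H) : Prop where
  pos : 0 < k
  mem : ∀ g, g ∈ H ↔ (k : ℤ) ∣ dg d g
  deg : ∀ x : H, dg d x = k * dg e x

/-- A tree with an action. -/
structure GTree (G : Type) [Group G] where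
  V : Type
  [act : MulAction G V]
  Y : SimpleGraph V
  tree : Y.IsTree
  adj_smul : ∀ (g : G) a b, Y.Adj a b → Y.Adj (g • a) (g • b)

attribute [instance] GTree.act

variable {G : Type} [Group G] {d d' : Dg G}

namespace Forest

variable {Y : Forest d}

/-- the reversed dart -/
def Dir.rv (e : Y.Dir) : Y.Dir := (e.1, !e.2)

/-- the half-tree of the dart `e` that contains its target -/
def Dir.H (e : Y.Dir) : Set Y.V := {x | Y.lev x = Y.lev e.src ∧ e.1.sd x = !e.2}

variable (Y)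

/-- the distance of two vertices of one level -/
noncomputable def dist (a b : Y.V) : ℕ := (sep a b).card

/-- `x` lies on the geodesic from `a` to `b` -/
def btw (a x b : Y.V) : Prop :=
  Y.lev a = Y.lev x ∧ Y.lev x = Y.lev b ∧ ∀ c : Y.E, c.sd a = c.sd b → c.sd x = c.sd a

/-- the geodesic from `a` to `b` crosses the dart `e` in its direction -/
def Cross (a b : Y.V) (e : Y.Dir) : Prop := a ∈ e.rv.H ∧ b ∈ e.H

/-- elliptic elements -/
def Ell : Set G := {g | ∃ a : Y.V, g • a = a}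

/-- `m` is the median of `a, b, c` -/
def Med (a b c m : Y.V) : Prop := Y.btw a m b ∧ Y.btw b m c ∧ Y.btw a m c

/-- a geodesic ray -/
def Ray (ρ : ℕ → Y.V) : Prop :=
  (∀ n, Forest.Adj (ρ n) (ρ (n + 1))) ∧ ∀ i j k, i ≤ j → j ≤ k → Y.btw (ρ i) (ρ j) (ρ k)

end Forest

open Forest

/-- An equivariant vertex map that respects levels (the two degrees may differ). -/
structure EMap (Y : Forest d) (Z : Forest d') where
  f : Y.V → Z.V
  smul : ∀ (g : G) a, f (g • a) = g • f a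
  lev : ∀ a b, Y.lev a = Y.lev b ↔ Z.lev (f a) = Z.lev (f b)

/-- A flow: an equivariant vertex map raising the level by one, with an equivariant map back. -/
structure Flow (Y : Forest d) where
  f : Hom Y Y 1
  rev : Nonempty (Hom Y Y (-1))

namespace Flow

variable {Y : Forest d} (s : Flow Y)

/-- the vertex map of the flow -/
def σ : Y.V → Y.V := s.f.toFun

/-- `y` stays between `x` and `z` for ever -/
def Legal (x y z : Y.V) : Prop := ∀ n : ℕ, Y.btw (s.σ^[n] x) (s.σ^[n] y) (s.σ^[n] z)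

/-- the geodesic from `a` to `b` is legal -/
def LegalP (a b : Y.V) : Prop :=
  Y.lev a = Y.lev b ∧
    ∀ x y z, Y.btw a x b → Y.btw a y b → Y.btw a z b → Y.btw x y z → s.Legal x y z

/-- the geodesic from `a` to `b` has no legal segment of length `L` -/
def NoLeg (L : ℕ) (a b : Y.V) : Prop :=
  ∀ x y, Y.btw a x b → Y.btw a y b → s.LegalP x y → Y.dist x y < L

/-- `a` and `b` are joined by a chain of `r` legal geodesics -/
def IL (r : ℕ) (a b : Y.V) : Prop :=
  ∃ z : ℕ → Y.V, z 0 = a ∧ z r = b ∧ ∀ i < r, s.LegalP (z i) (z (i + 1))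

/-- the dart `e'` lies on the `n`-th image of the dart `e`, with the same direction -/
def Desc (n : ℕ) (e e' : Y.Dir) : Prop := Y.Cross (s.σ^[n] e.src) (s.σ^[n] e.tgt) e'

/-- the dart `e'` lies in the interior of the `n`-th image of the dart `e` -/
def IDesc (n : ℕ) (e e' : Y.Dir) : Prop :=
  s.Desc n e e' ∧ e'.src ≠ s.σ^[n] e.src ∧ e'.tgt ≠ s.σ^[n] e.tgt

/-- expanding primitive train track: images of edges are legal and contain two translates of
every edge in their interior -/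
structure TT : Prop where
  ne : Nonempty Y.I
  legal : ∀ e : Y.Dir, s.LegalP (s.σ e.src) (s.σ e.tgt)
  prim : ∀ (e : Y.Dir) (i : Y.I), ∃ e' e'' : Y.Dir, e'.1 ≠ e''.1 ∧ e'.1.i = i ∧ e''.1.i = i ∧
    s.IDesc 1 e e' ∧ s.IDesc 1 e e''

/-- indivisible Nielsen path `p - y - q` with its illegal turn at `y` -/
def INP (p y q : Y.V) : Prop :=
  Y.btw p y q ∧ s.LegalP p y ∧ s.LegalP y q ∧ ¬ s.LegalP p q ∧
    ∃ γ : G, s.σ p = γ • p ∧ s.σ q = γ • q

/-- Nielsen classes -/
def Cls (p q : Y.V) : Prop := Relation.ReflTransGen (fun a b => ∃ y, s.INP a y b) p q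

/-- nice train track: long-lived illegal turns are apexes of Nielsen paths -/
structure NF : Prop extends s.TT where
  per : ∀ a, ∃ γ : G, s.σ (s.σ a) = γ • s.σ a
  imm : ∃ M : ℕ, ∀ x y z, s.LegalP x y → s.LegalP y z →
    ¬ Y.btw (s.σ^[2 * M] y) (s.σ^[2 * M] x) (s.σ^[2 * M] z) →
    ¬ Y.btw (s.σ^[2 * M] x) (s.σ^[2 * M] z) (s.σ^[2 * M] y) →
    ¬ s.LegalP (s.σ^[2 * M] x) (s.σ^[2 * M] z) →
    ∃ p m q, s.INP p m q ∧ Y.btw (s.σ^[M] x) p q ∧ Y.btw p q (s.σ^[M] z)
  fin_inp : ∃ S : Finset (Y.V × Y.V), ∀ p y q, s.INP p y q → ∃ g : G, (g • p, g • q) ∈ S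

/-- a step of the coned-off length: an edge, or a segment inside a Nielsen run -/
def Piece (x y : Y.V) : Prop :=
  x = y ∨ Forest.Adj x y ∨ ∃ p q, s.Cls p q ∧ Y.btw p x q ∧ Y.btw p y q

/-- coned-off length at most `r` -/
def NL (r : ℕ) (a b : Y.V) : Prop :=
  ∃ z : ℕ → Y.V, z 0 = a ∧ z r = b ∧ ∀ i < r, s.Piece (z i) (z (i + 1))

/-- forward itineraries of darts -/
def Itin (ι : ℕ → Y.Dir) : Prop := ∀ n, s.Desc 1 (ι n) (ι (n + 1))

/-- the limit half-space of an itinerary -/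
def LH (ι : ℕ → Y.Dir) : Set Y.V :=
  {a | ∃ n k : ℕ, ∀ j : ℕ, s.σ^[k + j] a ∈ (ι (n + j)).H}

/-- `g` translates along a forward orbit of a vertex or an edge -/
def PP (g : G) : Prop :=
  ∃ n : ℕ, 0 < n ∧ dg d g = n ∧ ((∃ a, s.σ^[n] a = g • a) ∨
    ∃ c : Y.E, g • c ∈ sep (s.σ^[n] (c.ed false)) (s.σ^[n] (c.ed true)))

/-- `g` translates along a generic periodic itinerary through the dart `e` -/
def Gen (g : G) (e : Y.Dir) : Prop := ∃ n : ℕ, 0 < n ∧ dg d g = n ∧ s.IDesc n e (e.tr g)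

/-- the geodesic from `a` to `b` is a stable concatenation of legal gaps and `r` Nielsen paths -/
def St (r : ℕ) (a b : Y.V) (p y q : ℕ → Y.V) : Prop :=
  (∀ i < r, s.INP (p i) (y i) (q i) ∧ Y.btw a (p i) (q i) ∧ Y.btw (p i) (q i) b) ∧
    (∀ i, i + 1 < r → Y.btw (p i) (q i) (p (i + 1)) ∧ s.LegalP (y i) (y (i + 1))) ∧
    (r = 0 → s.LegalP a b) ∧ (0 < r → s.LegalP a (y 0) ∧ s.LegalP (y (r - 1)) b)

/-- `c` lies on a forward image of a geodesic with both ends in `A` -/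
def Hull (A : Set Y.V) : Set Y.V :=
  {c | ∃ a ∈ A, ∃ b ∈ A, ∃ n : ℕ, Y.btw (s.σ^[n] a) c (s.σ^[n] b)}

/-- Far sides of the two partitions attached to `κ` (of degree `D`) and the dart `q` (level 0):
`false` is the half-tree of `q`, `true` is the preimage of the opposite half-tree of `κ q`. -/
def Far (D : ℕ) (κ : G) (q : Y.Dir) : Bool → Set Y.V
  | false => q.H
  | true => {a | s.σ^[D] a ∈ (q.tr κ).rv.H}

/-- the finite clusters around the two partitions -/
def Clu (D : ℕ) (κ : G) (q : Y.Dir) : Bool → Set Y.V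
  | false => {c | ∃ e, s.Desc D e q ∧ Y.btw (s.σ^[D] e.src) c (s.σ^[D] e.tgt)}
  | true => {c | ∃ e, s.Desc D e (q.tr κ) ∧ (c = e.src ∨ c = e.tgt)}

/-- Schottky position of finitely many staircases -/
structure Sch {I : Type} (D : ℕ) (κ : I → G) (q : I → Y.Dir) : Prop where
  pos : 0 < D
  deg : ∀ i, dg d (κ i) = D
  lev : ∀ i, Y.lev (q i).src = 0
  sep : ∀ i b j c, (i, b) ≠ (j, c) → ∀ x, x ∈ s.Far D (κ i) (q i) b ∨ x ∈ s.Clu D (κ i) (q i) b →
    x ∉ s.Far D (κ j) (q j) c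

end Flow

/-- forward and backward systems -/
structure Pair (d d' : Dg G) where
  neg : ∀ g, dg d' g = - dg d g
  P : Forest d
  M : Forest d'
  s : Flow P
  t : Flow M
  h : EMap M P
  h' : EMap P M
  lev_h : ∀ a, P.lev (h.f a) = - M.lev a
  lev_h' : ∀ a, M.lev (h'.f a) = - P.lev a

/-- swap the two directions -/
def Pair.symm (X : Pair d d') : Pair d' d where
  neg g := by rw [X.neg, neg_neg]
  P := X.M
  M := X.P
  s := X.t
  t := X.s
  h := X.h'
  h' := X.h
  lev_h := X.lev_h'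
  lev_h' := X.lev_h

/-- `E` is maximal among the elliptic sets of virtually invariant nontrivial free splittings. -/
def MAX (d : Dg G) (E : Set G) : Prop :=
  ∀ (K : Type) [Group K] (ι : K →* G), Function.Injective ι → ι.range = d.ker →
    ∀ T : Forest (1 : Dg K), (∀ a, T.lev a = 0) → Nonempty T.V → (∃ x, x ∉ T.Ell) →
    ∀ m : ℤ, 0 < m →
    (∀ (g : G) (x y : K), m ∣ dg d g → ι y = g * ι x * g⁻¹ → x ∈ T.Ell → y ∈ T.Ell) →
    (∀ x, ι x ∈ E → x ∈ T.Ell) → ∀ x ∈ T.Ell, ι x ∈ E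

/-- an invariant one-edge free splitting of the kernel -/
def DTree (d : Dg G) : Prop :=
  ∃ (T : GTree G) (v w : T.V), T.Y.Adj v w ∧
    (∀ f ∈ d.ker, ∀ a b, T.Y.Adj a b → f • a = a → f • b = b → f = 1) ∧
    (∀ a b, T.Y.Adj a b → ∃ f ∈ d.ker, (f • a = v ∧ f • b = w) ∨ (f • a = w ∧ f • b = v)) ∧
    (∀ g : G, g • v = w → g • w ≠ v) ∧ (∃ t : G, dg d t = 1 ∧ t • v = v ∧ t • w = w) ∧
    ∀ a : T.V, ∃ f ∈ d.ker, f • a ≠ a

/-- conclusion (I): the monodromy has finite order in the outer automorphism group -/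
def Per (d : Dg G) : Prop := ∃ z : G, dg d z ≠ 0 ∧ ∀ x ∈ d.ker, z * x = x * z

/-- turns of the cyclic words `c j` (edges of the Whitehead graph) -/
def Wh {m b : ℕ} (c : Fin b → List (Fin m × Bool)) (x y : Fin m × Bool) : Prop :=
  ∃ (j : Fin b) (k : ℕ) (h : k < (c j).length),
    (c j)[k] = x ∧ (c j)[(k + 1) % (c j).length]'(Nat.mod_lt _ (by omega)) = (y.1, !y.2)

/-- the cyclic words `c j` are the boundary words of a compact connected surface that is a disc
with `m` bands: every letter occurs twice and the Whitehead graph is connected -/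
def SurfW {m b : ℕ} (c : Fin b → List (Fin m × Bool)) : Prop :=
  (∀ j, c j ≠ []) ∧ (∀ i : Fin m, ∑ j, ((c j).map Prod.fst).count i = 2) ∧
    ∀ x y, Relation.EqvGen (Wh c) x y

/-- the group element spelled by a word in a basis -/
def spell {F : Type} [Group F] {m : ℕ} (β : FreeGroupBasis (Fin m) F)
    (w : List (Fin m × Bool)) : F := β.repr.symm (FreeGroup.mk w)

/-- conclusion (II): the monodromy is an irreducible surface homeomorphism -/
def Surf (d : Dg G) : Prop :=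
  ∃ (m b : ℕ) (β : FreeGroupBasis (Fin m) d.ker) (c : Fin b → List (Fin m × Bool))
    (u : Fin b → G), SurfW c ∧ (∀ j, u j = (spell β (c j)).1) ∧
    (∀ (g : G) j, ∃ i, ∃ w ∈ d.ker, g * u j * g⁻¹ = w * u i * w⁻¹ ∨
      g * u j * g⁻¹ = w * (u i)⁻¹ * w⁻¹) ∧
    ∀ x ∈ d.ker, x ≠ 1 → ∀ g : G, dg d g ≠ 0 → g * x = x * g →
      ∃ j, ∃ w ∈ d.ker, ∃ n : ℤ, x = w * u j ^ n * w⁻¹

/-- virtual homological independence of `t` and a conjugate; `η` kills the set `E` -/
def VHT (d : Dg G) (E : Set G) (t : G) : Prop :=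
  ∃ (L : Subgroup G) (_ : L.FiniteIndex) (η : Dg L) (a : G) (N : ℕ) (x y : L),
    a ∈ d.ker ∧ 0 < N ∧ (x : G) = t ^ N ∧ (y : G) = a * t ^ N * a⁻¹ ∧ η x ≠ η y ∧
      ∀ z : L, (z : G) ∈ E → η z = 1

/-- A ribbon structure on a tree: every dart carries two flags (passages of boundary lines). -/
structure Ribbon {K : Type} [Group K] (T : Forest (1 : Dg K)) where
  Fl : Type
  [act : MulAction K Fl]
  dart : Fl → T.Dir
  rev : Fl → Fl
  opp : Fl → Fl
  next : Equiv.Perm Fl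
  dart_smul : ∀ (k : K) ξ, dart (k • ξ) = (dart ξ).tr k
  rev_smul : ∀ (k : K) ξ, rev (k • ξ) = k • rev ξ
  opp_smul : ∀ (k : K) ξ, opp (k • ξ) = k • opp ξ
  next_smul : ∀ (k : K) ξ, next (k • ξ) = k • next ξ
  dart_rev : ∀ ξ, dart (rev ξ) = (dart ξ).rv
  rev_rev : ∀ ξ, rev (rev ξ) = ξ
  dart_opp : ∀ ξ, dart (opp ξ) = dart ξ
  opp_opp : ∀ ξ, opp (opp ξ) = ξ
  opp_ne : ∀ ξ, opp ξ ≠ ξ
  opp_rev : ∀ ξ, opp (rev ξ) = rev (opp ξ)
  uniq : ∀ ξ ζ, dart ξ = dart ζ → ζ = ξ ∨ ζ = opp ξ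
  surj : ∀ e, ∃ ξ, dart ξ = e
  src_next : ∀ ξ, (dart (next ξ)).src = (dart ξ).tgt
  ne_next : ∀ ξ, dart (next ξ) ≠ (dart ξ).rv
  next_rev : ∀ ξ, next (rev (next ξ)) = rev ξ

attribute [instance] Ribbon.act

namespace Ribbon

variable {K : Type} [Group K] {T : Forest (1 : Dg K)} (R : Ribbon T)

/-- flags in one component of the Whitehead graph at their common source -/
def Lk (ξ ζ : R.Fl) : Prop :=
  Relation.EqvGen (fun x y => y = R.opp x ∨ y = R.next (R.rev x)) ξ ζ

/-- all Whitehead graphs are connected -/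
def Conn : Prop := ∀ ξ ζ, (R.dart ξ).src = (R.dart ζ).src → R.Lk ξ ζ

/-- peripheral elements: elliptic, or translating a boundary line -/
def Peri (x : K) : Prop := x ∈ T.Ell ∨ ∃ (ξ : R.Fl) (n : ℤ), x • ξ = (R.next ^ n) ξ

end Ribbon

end Pool.Agent.Lib.FBC
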