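import Pool.Agent.Lib.FBC.Tree

/-!
Equivariant maps: covering, Lipschitz bounds, quasi-isometry, bounded cancellation.
-/

namespace Pool.Agent.Lib.FBC

open Forest

variable {G : Type} [Group G] {d d' d'' : Dg G} {Y : Forest d} {Z : Forest d'} {W : Forest d''}

lemma FC.torsionFree (h : FC d) {g : G} {n : ℕ} (hn : 0 < n) (e : g ^ n = 1) : g = 1 := by
  have h1 : g ∈ d.ker := by
    have := congrArg (dg d) e
    simp only [dg, map_pow, toAdd_pow, map_one, toAdd_one, nsmul_eq_mul, mul_eq_zero] at this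
    rcases this with h0 | h0
    · omega
    · exact (MonoidHom.mem_ker).2 (Multiplicative.toAdd.injective h0)
  have := h.free
  have h2 : (⟨g, h1⟩ : d.ker) ^ n = 1 := Subtype.ext (by simpa using e)
  have h3 := congrArg (IsFreeGroup.toFreeGroup d.ker) h2
  rw [map_pow, map_one, pow_eq_one_iff_left hn.ne'] at h3
  simpa using congrArg Subtype.val ((map_eq_one_iff _ (MulEquiv.injective _)).1 h3)

lemma FC.neg (h : FC d) (e : ∀ g, dg d' g = - dg d g) : FC d' := by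
  have hk : d'.ker = d.ker := by
    ext g
    have := e g
    simp only [MonoidHom.mem_ker]
    constructor <;> intro t <;> simp only [dg, t, toAdd_one] at this
    · exact Multiplicative.toAdd.injective (by simpa using this)
    · exact Multiplicative.toAdd.injective (by simpa using this)
  refine ⟨fun n => ?_, hk ▸ h.free, hk ▸ h.fg, h.lerf⟩
  obtain ⟨g, hg⟩ := h.surj n⁻¹
  exact ⟨g, Multiplicative.toAdd.injective (by simpa [dg, hg] using e g)⟩

lemma FC.symm (h : FC d) (X : Pair d d') : FC d' := h.neg X.neg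

@[simp] lemma dg_mul (g h : G) : dg d (g * h) = dg d g + dg d h := by simp [dg]
@[simp] lemma dg_inv (g : G) : dg d g⁻¹ = - dg d g := by simp [dg]
@[simp] lemma dg_one : dg d (1 : G) = 0 := by simp [dg]
@[simp] lemma dg_pow (g : G) (n : ℕ) : dg d (g ^ n) = n * dg d g := by simp [dg]
@[simp] lemma dg_zpow (g : G) (n : ℤ) : dg d (g ^ n) = n * dg d g := by simp [dg]
lemma mem_ker_iff {g : G} : g ∈ d.ker ↔ dg d g = 0 :=
  ⟨fun h => by simp [dg, (MonoidHom.mem_ker).1 h],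
    fun h => (MonoidHom.mem_ker).2 (Multiplicative.toAdd.injective h)⟩

namespace EMap

/-- identity -/
def id (Y : Forest d) : EMap Y Y := ⟨fun a => a, fun _ _ => rfl, fun _ _ => Iff.rfl⟩

/-- composition -/
def comp (k : EMap Z W) (h : EMap Y Z) : EMap Y W :=
  ⟨fun a => k.f (h.f a), fun g a => by rw [h.smul, k.smul],
    fun a b => (h.lev a b).trans (k.lev _ _)⟩

@[simp] lemma comp_f (k : EMap Z W) (h : EMap Y Z) (a : Y.V) : (k.comp h).f a = k.f (h.f a) := rfl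

/-- the map of a level shifting homomorphism -/
def ofHom {Y Z : Forest d} {n : ℤ} (h : Hom Y Z n) : EMap Y Z :=
  ⟨h, h.map_smul, fun a b => by rw [h.lev_map, h.lev_map, add_left_inj]⟩

variable (h : EMap Y Z) {a b x : Y.V}

lemma lev_eq (l : Y.lev a = Y.lev b) : Z.lev (h.f a) = Z.lev (h.f b) := (h.lev a b).1 l

lemma lev_dir (e : Y.Dir) : Z.lev (h.f e.src) = Z.lev (h.f e.tgt) := h.lev_eq (lev_src_tgt e)

/-- A dart crossed by the image geodesic is crossed by the image of a dart of the geodesic. -/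
lemma cover_dir {e' : Z.Dir} (hc : Z.Cross (h.f a) (h.f b) e') :
    ∃ e, Y.Cross a b e ∧ Z.Cross (h.f e.src) (h.f e.tgt) e' := by
  have l : Y.lev a = Y.lev b := (h.lev a b).2 hc.lev
  revert hc
  refine dir_ind (P := fun a => Z.Cross (h.f a) (h.f b) e' →
    ∃ e, Y.Cross a b e ∧ Z.Cross (h.f e.src) (h.f e.tgt) e') (fun hc => (hc.ne rfl).elim)
    (fun e he ih hc => ?_) l
  rcases hc.split (h.lev_dir e) with t | t
  · exact ⟨e, he, t⟩
  · obtain ⟨e1, h1, h2⟩ := ih t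
    exact ⟨e1, h1.extend_left he.btw_tgt, h2⟩

/-- A vertex of the image geodesic lies on the image of a dart of the geodesic. -/
lemma cover {c : Z.V} (hc : Z.btw (h.f a) c (h.f b)) (hne : a ≠ b) :
    ∃ e, Y.Cross a b e ∧ Z.btw (h.f e.src) c (h.f e.tgt) := by
  have l : Y.lev a = Y.lev b := (h.lev a b).2 hc.lev3
  by_cases t : c = h.f b
  · obtain ⟨e, rfl, he⟩ := exists_last l hne
    exact ⟨e, he, by rw [t]; exact btw_right (h.lev_dir e)⟩
  · obtain ⟨e', rfl, he'⟩ := exists_step hc.lev2 t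
    obtain ⟨e, h1, h2⟩ := h.cover_dir (he'.extend_left hc)
    exact ⟨e, h1, h2.btw_src⟩

lemma exists_lip_dir : ∃ Λ, ∀ e : Y.Dir, Z.dist (h.f e.src) (h.f e.tgt) ≤ Λ :=
  bdd_of_inv _ fun g e => by simp [h.smul]

lemma lip_of_dir {Λ : ℕ} (hΛ : ∀ e : Y.Dir, Z.dist (h.f e.src) (h.f e.tgt) ≤ Λ)
    (l : Y.lev a = Y.lev b) : Z.dist (h.f a) (h.f b) ≤ Λ * Y.dist a b := by
  refine dir_ind (P := fun a => Z.dist (h.f a) (h.f b) ≤ Λ * Y.dist a b) (by simp)
    (fun e he ih => ?_) l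
  have := dist_triangle (h.lev_dir e) (h.lev_eq he.btw_tgt.lev2)
  have := hΛ e
  rw [he.dist_tgt, mul_add]
  omega

lemma exists_lip : ∃ Λ, 0 < Λ ∧ ∀ a b, Y.lev a = Y.lev b → Z.dist (h.f a) (h.f b) ≤ Λ * Y.dist a b :=
  let ⟨Λ, hΛ⟩ := h.exists_lip_dir
  ⟨Λ + 1, by omega, fun _ _ l => h.lip_of_dir (fun e => (hΛ e).trans (by omega)) l⟩

/-- Finitely many darts have an image that crosses a given edge. -/
lemma finite_pre (k : Z.E) : {e : Y.Dir | k ∈ sep (h.f e.src) (h.f e.tgt)}.Finite := by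
  obtain ⟨S, hS⟩ := finite_dir_orbits (Y := Y) ⊤
  refine (S.finite_toSet.biUnion fun e _ => (finite_smul_mem k
    (sep (h.f e.src) (h.f e.tgt)).finite_toSet).image fun g => e.tr g⁻¹).subset fun e he => ?_
  obtain ⟨g, -, hg⟩ := hS e
  refine Set.mem_biUnion hg ⟨g, ?_, by simp⟩
  simpa [h.smul, smul_mem_sep] using he

lemma finite_pre_dir (e' : Z.Dir) : {e : Y.Dir | Z.Cross (h.f e.src) (h.f e.tgt) e'}.Finite :=
  (h.finite_pre e'.1).subset fun _ t => Cross.mem t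

/-- An invariant function of vertices is bounded. -/
lemma _root_.Pool.Agent.Lib.FBC.Forest.bdd_of_inv_vert (hd : Function.Surjective d) (φ : Y.V → ℕ)
    (hφ : ∀ (g : G) a, φ (g • a) = φ a) : ∃ C, ∀ a, φ a ≤ C := by
  by_cases hI : Nonempty Y.I
  · obtain ⟨S, hS⟩ := finite_vert_orbits (Y := Y) hd hI ⊤
    refine ⟨S.sup φ, fun a => ?_⟩
    obtain ⟨g, -, hg⟩ := hS a
    exact hφ g a ▸ Finset.le_sup hg
  · by_cases hV : Nonempty Y.V
    · refine ⟨φ hV.some, fun a => ?_⟩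
      obtain ⟨g, hg⟩ := hd (.ofAdd (Y.lev a - Y.lev hV.some))
      have : g • hV.some = a := eq_of_sd (by rw [Y.lev_smul, hg]; simp) fun c => (hI ⟨c.i⟩).elim
      rw [← this, hφ]
    · exact ⟨0, fun a => (hV ⟨a⟩).elim⟩

/-- Two equivariant maps are at bounded distance. -/
lemma exists_close (hd : Function.Surjective d) (k : EMap Y Z) :
    ∃ C, ∀ a, Z.dist (h.f a) (k.f a) ≤ C :=
  bdd_of_inv_vert hd _ fun g a => by simp [h.smul, k.smul]

lemma exists_disp (hd : Function.Surjective d) (k : EMap Y Y) : ∃ C, ∀ a, Y.dist (k.f a) a ≤ C :=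
  k.exists_close hd (EMap.id Y)

/-- A map with a map back is a quasi-isometry on each level. -/
lemma exists_qi (hd : Function.Surjective d) (k : EMap Z Y) (hk : ∀ a, Y.lev (k.f (h.f a)) = Y.lev a) :
    ∃ Λ, ∀ a b, Y.lev a = Y.lev b → Y.dist a b ≤ Λ * Z.dist (h.f a) (h.f b) + Λ := by
  obtain ⟨Λ, -, hΛ⟩ := k.exists_lip
  obtain ⟨C, hC⟩ := (k.comp h).exists_disp hd
  refine ⟨Λ + 2 * C, fun a b l => ?_⟩
  have h1 := hΛ _ _ (h.lev_eq l)
  have h2 := hC a
  have h3 := hC b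
  simp only [comp_f] at h2 h3
  have h4 := dist_triangle (hk a).symm ((hk a).trans l)
  have h5 := dist_triangle (k.lev_eq (h.lev_eq l)) (hk b)
  rw [Forest.dist_comm] at h2
  nlinarith [Nat.zero_le (C * Z.dist (h.f a) (h.f b))]

/-- Bounded cancellation. -/
lemma exists_bcc (hd : Function.Surjective d) (k : EMap Z Y)
    (hk : ∀ a, Y.lev (k.f (h.f a)) = Y.lev a) :
    ∃ C, ∀ a x b m, Y.btw a x b → Z.Med (h.f a) (h.f b) (h.f x) m → Z.dist (h.f x) m ≤ C := by
  obtain ⟨Λ, hΛ⟩ := h.exists_lip_dir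
  obtain ⟨Q, hQ⟩ := h.exists_qi hd k hk
  refine ⟨Λ * (Q * (Λ + Λ) + Q) + Λ, fun a x b m t hm => ?_⟩
  have near : ∀ a, Y.lev a = Y.lev x → Z.btw (h.f a) m (h.f x) →
      ∃ u, Y.btw a u x ∧ Z.dist (h.f u) m ≤ Λ := by
    intro a l r
    by_cases e : a = x
    · subst e; exact ⟨a, btw_refl a, by rw [r.eq_of_self]; simp⟩
    · obtain ⟨e, h1, h2⟩ := h.cover r e
      exact ⟨e.src, h1.btw_src, h2.dist_le.trans (hΛ e)⟩
  obtain ⟨u, u1, u2⟩ := near a t.lev1 hm.2.2
  obtain ⟨v, v1, v2⟩ := near b t.lev2.symm hm.2.1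
  have lu : Z.lev (h.f u) = Z.lev m := (h.lev_eq u1.lev2).trans hm.2.2.lev2.symm
  have lv : Z.lev (h.f v) = Z.lev m := (h.lev_eq v1.lev2).trans hm.2.2.lev2.symm
  have h1 := dist_triangle lu lv.symm
  rw [Forest.dist_comm m] at h1
  have h2 := hQ u v (u1.lev2.trans v1.lev2.symm)
  have h3 : Y.btw u x v := ((t.trans_left' u1).symm.trans_left' v1).symm
  have h4 := h3.dist_le
  have h5 := h.lip_of_dir hΛ u1.lev2.symm
  have h6 := dist_triangle (h.lev_eq u1.lev2.symm) lu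
  rw [Forest.dist_comm x u] at h5
  have h7 : Y.dist u x ≤ Q * (Λ + Λ) + Q :=
    h4.trans (h2.trans (Nat.add_le_add_right (Nat.mul_le_mul_left _ (by omega)) _))
  have h8 := Nat.mul_le_mul_left Λ h7
  omega

/-- A nontrivial element fixing the image of `a` level-wise: maps with a map back are injective
on vertices with nontrivial stabilizer. -/
lemma fix_back (k : EMap Z Y) (hk : ∀ a, Y.lev (k.f (h.f a)) = Y.lev a) {g : G} (hg : g ≠ 1)
    (ha : g • a = a) : k.f (h.f a) = a :=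
  fix_unique hg (by rw [← k.smul, ← h.smul, ha]) ha (hk a)

end EMap

namespace Flow

variable (s : Flow Y) {a b x : Y.V}

@[simp] lemma σ_smul (g : G) (a : Y.V) : s.σ (g • a) = g • s.σ a := s.f.map_smul g a
@[simp] lemma lev_σ (a : Y.V) : Y.lev (s.σ a) = Y.lev a + 1 := s.f.lev_map a
@[simp] lemma iter_smul (n : ℕ) (g : G) (a : Y.V) : s.σ^[n] (g • a) = g • s.σ^[n] a := by
  induction n with
  | zero => rfl
  | succ n ih => rw [Function.iterate_succ_apply', Function.iterate_succ_apply', ih, σ_smul]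
@[simp] lemma lev_iter (n : ℕ) (a : Y.V) : Y.lev (s.σ^[n] a) = Y.lev a + n := by
  induction n with
  | zero => simp
  | succ n ih => rw [Function.iterate_succ_apply', lev_σ, ih]; push_cast; ring

lemma lev_σ_eq (l : Y.lev a = Y.lev b) : Y.lev (s.σ a) = Y.lev (s.σ b) := by simp [l]
lemma lev_iter_eq (n : ℕ) (l : Y.lev a = Y.lev b) : Y.lev (s.σ^[n] a) = Y.lev (s.σ^[n] b) := by
  simp [l]

/-- the `n`-th iterate as an equivariant map -/
def it (n : ℕ) : EMap Y Y := ⟨s.σ^[n], s.iter_smul n, fun a b => by simp⟩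

@[simp] lemma it_f (n : ℕ) : (s.it n).f = s.σ^[n] := rfl

include s in
lemma exists_back (n : ℕ) : ∃ k : EMap Y Y, ∀ a, Y.lev (k.f a) = Y.lev a - n := by
  obtain ⟨r⟩ := s.rev
  induction n with
  | zero => exact ⟨EMap.id Y, fun a => by simp [EMap.id]⟩
  | succ n ih =>
    obtain ⟨k, hk⟩ := ih
    exact ⟨(EMap.ofHom r).comp k, fun a => by
      simp only [EMap.comp_f, EMap.ofHom, r.lev_map, hk]; push_cast; ring⟩

lemma exists_lip (n : ℕ) : ∃ Λ, 0 < Λ ∧ ∀ a b, Y.lev a = Y.lev b →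
    Y.dist (s.σ^[n] a) (s.σ^[n] b) ≤ Λ * Y.dist a b := (s.it n).exists_lip

lemma exists_qi (hd : Function.Surjective d) (n : ℕ) : ∃ Λ, ∀ a b, Y.lev a = Y.lev b →
    Y.dist a b ≤ Λ * Y.dist (s.σ^[n] a) (s.σ^[n] b) + Λ :=
  let ⟨k, hk⟩ := s.exists_back n; (s.it n).exists_qi hd k fun a => by simp [hk]

lemma exists_bcc (hd : Function.Surjective d) (n : ℕ) : ∃ C, ∀ a x b m, Y.btw a x b →
    Y.Med (s.σ^[n] a) (s.σ^[n] b) (s.σ^[n] x) m → Y.dist (s.σ^[n] x) m ≤ C :=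
  let ⟨k, hk⟩ := s.exists_back n; (s.it n).exists_bcc hd k fun a => by simp [hk]

lemma cover_dir (n : ℕ) {e' : Y.Dir} (hc : Y.Cross (s.σ^[n] a) (s.σ^[n] b) e') :
    ∃ e, Y.Cross a b e ∧ s.Desc n e e' := (s.it n).cover_dir hc

lemma cover (n : ℕ) {c : Y.V} (hc : Y.btw (s.σ^[n] a) c (s.σ^[n] b)) (hne : a ≠ b) :
    ∃ e, Y.Cross a b e ∧ Y.btw (s.σ^[n] e.src) c (s.σ^[n] e.tgt) := (s.it n).cover hc hne

lemma finite_anc (n : ℕ) (e' : Y.Dir) : {e | s.Desc n e e'}.Finite := (s.it n).finite_pre_dir e'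

lemma finite_desc (n : ℕ) (e : Y.Dir) : {e' | s.Desc n e e'}.Finite := finite_cross _ _

/-- The flow is injective on vertices with nontrivial stabilizer. -/
lemma iter_inj_of_fix (n : ℕ) {g g' : G} (hg : g ≠ 1) (hg' : g' ≠ 1) (ha : g • a = a)
    (hb : g' • b = b) (e : s.σ^[n] a = s.σ^[n] b) : a = b := by
  obtain ⟨k, hk⟩ := s.exists_back n
  have h1 := (s.it n).fix_back k (fun a => by simp [hk]) hg ha
  have h2 := (s.it n).fix_back k (fun a => by simp [hk]) hg' hb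
  rw [it_f] at h1 h2
  rw [← h1, e, h2]

/-- A vertex with nontrivial stabilizer has a preimage with the same stabilizer. -/
lemma exists_pre_of_fix (n : ℕ) {g : G} (hg : g ≠ 1) (hb : g • b = b) :
    ∃ a, s.σ^[n] a = b ∧ ∀ w : G, w • b = b → w • a = a := by
  obtain ⟨k, hk⟩ := s.exists_back n
  exact ⟨k.f b, k.fix_back (s.it n) (fun a => by simp [hk]) hg hb, fun w hw => by rw [← k.smul, hw]⟩

/-- The stabilizer of a nontrivial vertex does not grow along the flow. -/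
lemma fix_of_fix_iter (n : ℕ) {g w : G} (hg : g ≠ 1) (ha : g • a = a)
    (hw : w • s.σ^[n] a = s.σ^[n] a) : w • a = a := by
  obtain ⟨a', h1, h2⟩ := s.exists_pre_of_fix n hg (b := s.σ^[n] a) (by rw [← iter_smul, ha])
  rw [s.iter_inj_of_fix n hg hg ha (h2 g (by rw [← iter_smul, ha])) h1.symm]
  exact h2 w hw

end Flow

namespace Pair

variable (X : Pair d d')

lemma lev_hh (a : X.P.V) : X.P.lev (X.h.f (X.h'.f a)) = X.P.lev a := by simp [X.lev_h, X.lev_h']
lemma lev_hh' (a : X.M.V) : X.M.lev (X.h'.f (X.h.f a)) = X.M.lev a := by simp [X.lev_h, X.lev_h']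

/-- going forward and coming back moves points a bounded amount -/
lemma exists_round (hd : Function.Surjective d) (n : ℕ) : ∃ C, ∀ a,
    X.M.dist (X.t.σ^[n] (X.h'.f (X.s.σ^[n] a))) (X.h'.f a) ≤ C :=
  ((X.t.it n).comp (X.h'.comp (X.s.it n))).exists_close hd X.h'

lemma ell_eq : X.P.Ell = X.M.Ell := Set.ext fun g =>
  ⟨fun ⟨a, h⟩ => ⟨X.h'.f a, by rw [← X.h'.smul, h]⟩, fun ⟨a, h⟩ => ⟨X.h.f a, by rw [← X.h.smul, h]⟩⟩

end Pair

end Pool.Agent.Lib.FBC
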