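import Pool.Agent.Lib.FBC.State

set_option autoImplicit false
set_option linter.unusedVariables false

/-!
Block EXT: a homomorphism on a vertex stabiliser extends to the whole group, trivially on the
stabilisers of the other orbits.
-/

namespace Pool.Agent.Lib.FBC

open Forest

/-- A cocycle for a free action is a coboundary. -/
lemma ext_free {S E : Type} [Group S] [MulAction S E] (hf : ∀ (s : S) (c : E), s • c = c → s = 1)
    (β : S → E → ℚ) (hβ : ∀ s1 s0 c, β (s1 * s0) c = β s1 (s0 • c) + β s0 c) :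
    ∃ w : E → ℚ, ∀ s c, w (s • c) = w c + β s c := by
  have h1 : ∀ c : E, ∃ t : S, t • (Quotient.mk (MulAction.orbitRel S E) c).out = c := fun c => by
    have := Quotient.mk_out (s := MulAction.orbitRel S E) c
    obtain ⟨t, ht⟩ := (MulAction.orbitRel S E).symm this
    exact ⟨t, ht⟩
  choose t ht using h1
  refine ⟨fun c => β (t c) (Quotient.mk (MulAction.orbitRel S E) c).out, fun s c => ?_⟩
  have h2 : Quotient.mk (MulAction.orbitRel S E) (s • c) = Quotient.mk (MulAction.orbitRel S E) c :=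
    Quotient.sound ⟨s, rfl⟩
  have h3 : t (s • c) = s * t c := by
    have h4 := ht (s • c)
    rw [h2] at h4
    have h5 := hf ((s * t c)⁻¹ * t (s • c)) (Quotient.mk (MulAction.orbitRel S E) c).out (by
      rw [mul_smul, h4, inv_smul_eq_iff, mul_smul, ht])
    exact (inv_mul_eq_one.1 h5).symm
  simp only [h2, h3, hβ, ht]
  ring

/-- The cocycle induced from a homomorphism on a stabiliser. -/
lemma ext_kappa {S V : Type} [Group S] [MulAction S V] (v : V)
    (χ : MulAction.stabilizer S v →* Multiplicative ℚ) :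
    ∃ κ : S → V → ℚ, (∀ s1 s0 x, κ (s1 * s0) x = κ s1 (s0 • x) + κ s0 x) ∧
      (∀ s : MulAction.stabilizer S v, κ s v = (χ s).toAdd) ∧
      ∀ s x, (∀ s' : S, s' • v ≠ x) → κ s x = 0 := by
  classical
  have h1 : ∀ x : V, ∃ t : S, (∃ s : S, s • v = x) → t • v = x := fun x => by
    by_cases h : ∃ s : S, s • v = x
    · obtain ⟨s, hs⟩ := h
      exact ⟨s, fun _ => hs⟩
    · exact ⟨1, fun h' => (h h').elim⟩
  choose t ht using h1
  have h2 : ∀ (s : S) (x : V), (∃ s' : S, s' • v = x) → ∃ s' : S, s' • v = s • x :=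
    fun s x ⟨s', h⟩ => ⟨s * s', by rw [mul_smul, h]⟩
  have h3 : ∀ (s : S) (x : V), (∃ s' : S, s' • v = x) →
      (t (s • x))⁻¹ * s * t x ∈ MulAction.stabilizer S v := fun s x h => by
    rw [MulAction.mem_stabilizer_iff, mul_smul, mul_smul, ht x h, inv_smul_eq_iff,
      ht _ (h2 s x h)]
  refine ⟨fun s x => if h : ∃ s' : S, s' • v = x then (χ ⟨_, h3 s x h⟩).toAdd else 0,
    fun s1 s0 x => ?_, fun s => ?_, fun s x h => ?_⟩
  · by_cases h : ∃ s' : S, s' • v = x
    · simp only [dif_pos h, dif_pos (h2 s0 x h)]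
      rw [← toAdd_mul, ← map_mul]
      congr 2
      apply Subtype.ext
      simp only [Subgroup.coe_mul, mul_smul]
      group
    · have h' : ¬ ∃ s' : S, s' • v = s0 • x := fun h' => h (by simpa using h2 s0⁻¹ _ h')
      simp only [dif_neg h, dif_neg h', add_zero]
  · have h : ∃ s' : S, s' • v = v := ⟨1, one_smul _ _⟩
    have hs : (s : S) • v = v := s.2
    obtain ⟨a, ha⟩ : ∃ a : MulAction.stabilizer S v, (a : S) = t v :=
      ⟨⟨t v, MulAction.mem_stabilizer_iff.2 (ht v h)⟩, rfl⟩
    have e : (⟨_, h3 s v h⟩ : MulAction.stabilizer S v) = a⁻¹ * s * a := by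
      apply Subtype.ext
      simp only [Subgroup.coe_mul, Subgroup.coe_inv, hs, ha]
    simp only [dif_pos h]
    rw [e, χ.map_mul, χ.map_mul, χ.map_inv, mul_right_comm, inv_mul_cancel, one_mul]
  · exact dif_neg fun ⟨s', h'⟩ => h s' h'

theorem EXT_holds (hP : St_POT) : St_EXT := by
  intro G _ deg T S hS v χ
  obtain ⟨κ, k1, k2, k3⟩ := ext_kappa v χ
  have hl : ∀ (s : S) (x : T.V), T.lev (s • x) = T.lev x := fun s x => by
    have : deg s = 1 := hS s.2
    rw [Subgroup.smul_def, T.lev_smul, this]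
    simp
  have hed : ∀ (s : S) (c : T.E) (b : Bool), (s • c).ed b = s • c.ed b := fun s c b =>
    ed_smul (s : G) c b
  obtain ⟨w, hw⟩ := ext_free (S := S) (E := T.E)
    (fun s c h => Subtype.ext (smul_eq_self (h := (s : G)) h))
    (fun s c => κ s (c.ed true) - κ s (c.ed false)) (fun s1 s0 c => by
      simp only [k1, hed]; ring)
  obtain ⟨Ψ, hΨ⟩ := hP G deg T (T.lev v) w
  have hc : ∀ (s : S) (x : T.V), T.lev x = T.lev v →
      κ s x + Ψ x - Ψ (s • x) = κ s v + Ψ v - Ψ (s • v) := fun s x hx => by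
    refine const_of_sep (fun y => κ s y + Ψ y - Ψ (s • y)) hx fun c hc => ?_
    have e1 : T.lev (c.ed false) = T.lev v := (lev_ed_of_mem hc false).trans hx
    have e2 := hΨ c e1
    have e3 := hΨ (s • c) (by rw [hed, hl, e1])
    rw [hed, hed, hw] at e3
    linarith
  refine ⟨MonoidHom.mk' (fun s => Multiplicative.ofAdd (κ s v + Ψ v - Ψ (s • v))) fun a b => ?_,
    fun s => ?_, fun x s hx ho hs => ?_⟩
  · rw [← ofAdd_add, ← hc a (b • v) (hl b v), k1, mul_smul]
    congr 1
    ring
  · have hs : (s : S) • v = v := s.2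
    simp only [MonoidHom.mk'_apply, hs, k2, add_sub_cancel_right, ofAdd_toAdd]
  · simp only [MonoidHom.mk'_apply]
    rw [← hc s x hx, hs, k3 s x ho]
    simp

end Pool.Agent.Lib.FBC
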