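import Pool.Agent.Lib.FBC.Defs

/-!
Finite generation from an action on a connected graph, and consequences of subgroup separability.
-/

namespace Pool.Agent.Lib.FBC

open Pool.Agent.Lib.MP_288210_al (LERF)

variable {G : Type} [Group G]

/-- The elements of `K` that carry a point of a finite set `S` into `S` lie in a finitely
generated subgroup of `K`. -/
lemma exists_fg_of_finset {V : Type} [MulAction G V] (K : Subgroup G) (S : Set V) (hS : S.Finite)
    (hst : ∀ x ∈ S, (K ⊓ MulAction.stabilizer G x).FG) :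
    ∃ H : Subgroup G, H.FG ∧ H ≤ K ∧ ∀ k ∈ K, ∀ x ∈ S, k • x ∈ S → k ∈ H := by
  classical
  have h1 : ∀ p : V × V, ∃ c ∈ K, (∃ k ∈ K, k • p.1 = p.2) → c • p.1 = p.2 := fun p => by
    by_cases h : ∃ k ∈ K, k • p.1 = p.2
    · obtain ⟨k, hk, e⟩ := h
      exact ⟨k, hk, fun _ => e⟩
    · exact ⟨1, K.one_mem, fun h' => (h h').elim⟩
  choose c hc hc' using h1
  have h2 : ∀ x : V, ∃ A : Set G, A.Finite ∧
      (x ∈ S → Subgroup.closure A = K ⊓ MulAction.stabilizer G x) ∧ A ⊆ K := fun x => by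
    by_cases hx : x ∈ S
    · obtain ⟨A, h, h'⟩ := (Subgroup.fg_iff _).1 (hst x hx)
      exact ⟨A, h', fun _ => h, fun a ha => (h.le (Subgroup.subset_closure ha)).1⟩
    · exact ⟨∅, Set.finite_empty, fun h => (hx h).elim, Set.empty_subset _⟩
  choose A hA hA' hAK using h2
  refine ⟨Subgroup.closure ((⋃ x ∈ S, A x) ∪ c '' (S ×ˢ S)), (Subgroup.fg_iff _).2
    ⟨_, rfl, (hS.biUnion fun x _ => hA x).union ((hS.prod hS).image c)⟩, ?_, fun k hk x hx hy => ?_⟩
  · rw [Subgroup.closure_le]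
    rintro a (ha | ⟨p, -, rfl⟩)
    · simp only [Set.mem_iUnion] at ha
      obtain ⟨x, -, ha⟩ := ha
      exact hAK x ha
    · exact hc p
  · have e := hc' (x, k • x) ⟨k, hk, rfl⟩
    have h3 : (c (x, k • x))⁻¹ * k ∈ Subgroup.closure (A x) := by
      rw [hA' x hx]
      refine Subgroup.mem_inf.2 ⟨K.mul_mem (K.inv_mem (hc _)) hk, ?_⟩
      rw [MulAction.mem_stabilizer_iff, mul_smul, inv_smul_eq_iff]
      exact e.symm
    rw [← mul_inv_cancel_left (c (x, k • x)) k]
    refine Subgroup.mul_mem _ (Subgroup.subset_closure (Or.inr ⟨_, ⟨hx, hy⟩, rfl⟩))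
      (Subgroup.closure_mono (fun a ha => Or.inl ?_) h3)
    simp only [Set.mem_iUnion]
    exact ⟨x, hx, ha⟩

/-- FGG: the orbit of `o` is connected by a relation with finitely many `K`-orbits of related
pairs, and the stabilizers are finitely generated. -/
theorem fgg {V : Type} [MulAction G V] (K : Subgroup G) (R : V → V → Prop) (o : V)
    (T : Set (V × V)) (hT : T.Finite) (hc : ∀ k ∈ K, Relation.EqvGen R o (k • o))
    (hR : ∀ x y, R x y → ∃ k ∈ K, (k • x, k • y) ∈ T)
    (ho : (K ⊓ MulAction.stabilizer G o).FG)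
    (hst : ∀ p ∈ T, (K ⊓ MulAction.stabilizer G p.1).FG ∧ (K ⊓ MulAction.stabilizer G p.2).FG) :
    K.FG := by
  obtain ⟨H, h1, h2, h3⟩ := exists_fg_of_finset K (insert o (Prod.fst '' T ∪ Prod.snd '' T))
    (((hT.image _).union (hT.image _)).insert o) (by
      rintro x (rfl | ⟨p, hp, rfl⟩ | ⟨p, hp, rfl⟩)
      exacts [ho, (hst p hp).1, (hst p hp).2])
  set S := insert o (Prod.fst '' T ∪ Prod.snd '' T)
  have step : ∀ x y (k : G), k ∈ K → k • x ∈ S → k • y ∈ S → (∃ h ∈ H, h • x ∈ S) →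
      ∃ h ∈ H, h • y ∈ S := by
    rintro x y k hk hx hy ⟨h, hh, e⟩
    have := h3 (k * h⁻¹) (K.mul_mem hk (K.inv_mem (h2 hh))) _ e (by simpa [mul_smul] using hx)
    exact ⟨k, by simpa using H.mul_mem this hh, hy⟩
  have key : ∀ x y, Relation.EqvGen R x y → ((∃ h ∈ H, h • x ∈ S) ↔ ∃ h ∈ H, h • y ∈ S) := by
    intro x y h
    induction h with
    | rel x y h =>
      obtain ⟨k, hk, e⟩ := hR x y h
      have a : k • x ∈ S := Or.inr (Or.inl ⟨_, e, rfl⟩)
      have b : k • y ∈ S := Or.inr (Or.inr ⟨_, e, rfl⟩)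
      exact ⟨step x y k hk a b, step y x k hk b a⟩
    | refl => rfl
    | symm _ _ _ ih => exact ih.symm
    | trans _ _ _ _ _ ih ih' => exact ih.trans ih'
  have : K = H := le_antisymm (fun k hk => by
    obtain ⟨h, hh, e⟩ := (key _ _ (hc k hk)).1 ⟨1, H.one_mem, by simp [S]⟩
    have := h3 (h * k) (K.mul_mem (h2 hh) hk) o (Or.inl rfl) (by rwa [mul_smul])
    simpa using H.mul_mem (H.inv_mem hh) this) h2
  rwa [this]

lemma eqvGen_of_rtg {V : Type} {R : V → V → Prop} {x y : V} (h : Relation.ReflTransGen R x y) :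
    Relation.EqvGen R x y := by
  induction h with
  | refl => exact .refl _
  | tail _ e ih => exact .trans _ _ _ ih (.rel _ _ e)

/-- FGG with all stabilizers finitely generated. -/
theorem fgg' {V : Type} [MulAction G V] (K : Subgroup G) (R : V → V → Prop) (o : V)
    (T : Set (V × V)) (hT : T.Finite) (hc : ∀ k ∈ K, Relation.ReflTransGen R o (k • o))
    (hR : ∀ x y, R x y → ∃ k ∈ K, (k • x, k • y) ∈ T)
    (hst : ∀ x : V, (K ⊓ MulAction.stabilizer G x).FG) : K.FG :=
  fgg K R o T hT (fun k hk => eqvGen_of_rtg (hc k hk)) hR (hst o) fun _ _ => ⟨hst _, hst _⟩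

/-- A finite-index subgroup meets a finitely generated subgroup in a finitely generated one. -/
lemma fg_inf_of_finiteIndex (L B : Subgroup G) [L.FiniteIndex] (hB : B.FG) : (L ⊓ B).FG := by
  have : Group.FG B := (Group.fg_iff_subgroup_fg B).2 hB
  have h1 : Group.FG (L.subgroupOf B) := inferInstance
  rw [← Subgroup.subgroupOf_map_subtype]
  obtain ⟨S, hS, hS'⟩ := (Subgroup.fg_iff _).1 ((Group.fg_iff_subgroup_fg _).1 h1)
  exact (Subgroup.fg_iff _).2 ⟨B.subtype '' S, by rw [← MonoidHom.map_closure, hS], hS'.image _⟩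

/-- Separation of one element. -/
lemma lerf_sep (h : LERF G) {B : Subgroup G} (hB : B.FG) {x : G} (hx : x ∉ B) :
    ∃ L : Subgroup G, L.FiniteIndex ∧ B ≤ L ∧ x ∉ L := by
  rw [h B hB, Subgroup.mem_sInf] at hx
  push Not at hx
  obtain ⟨L, h1, h2⟩ := hx
  exact ⟨L, h1.1, h1.2, h2⟩

/-- Separation of finitely many elements. -/
lemma lerf_sep_fin (h : LERF G) {B : Subgroup G} (hB : B.FG) {S : Set G} (hS : S.Finite)
    (hx : ∀ x ∈ S, x ∉ B) : ∃ L : Subgroup G, L.FiniteIndex ∧ B ≤ L ∧ ∀ x ∈ S, x ∉ L := by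
  induction S, hS using Set.Finite.induction_on with
  | empty => exact ⟨⊤, inferInstance, le_top, by simp⟩
  | @insert a S _ _ ih =>
    obtain ⟨L, h1, h2, h3⟩ := ih fun x h' => hx x (Or.inr h')
    obtain ⟨L', h4, h5, h6⟩ := lerf_sep h hB (hx a (Or.inl rfl))
    refine ⟨L ⊓ L', inferInstance, le_inf h2 h5, ?_⟩
    rintro x (rfl | h') e
    exacts [h6 e.2, h3 x h' e.1]

/-- NOASC: a finitely generated subgroup of a LERF group is not conjugate into a proper subgroup
of itself. -/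
theorem noasc (h : LERF G) {B : Subgroup G} (hB : B.FG) {t : G}
    (ht : ∀ b ∈ B, t⁻¹ * b * t ∈ B) : ∀ b ∈ B, t * b * t⁻¹ ∈ B := by
  intro b hb
  by_contra hx
  obtain ⟨L, h1, h2, h3⟩ := lerf_sep h hB hx
  let π := QuotientGroup.mk' L.normalCore
  have : Finite (G ⧸ L.normalCore) := Subgroup.finite_quotient_of_finiteIndex
  let φ : B.map π → B.map π := fun x => ⟨(π t)⁻¹ * x * π t, by
    obtain ⟨y, hy, e⟩ := x.2
    exact ⟨_, ht y hy, by rw [← e]; simp⟩⟩
  have hφ : Function.Injective φ := fun x y e => by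
    have := congrArg Subtype.val e
    exact Subtype.ext (by simpa [φ] using this)
  obtain ⟨⟨_, y, hy, rfl⟩, e⟩ := Finite.surjective_of_injective hφ ⟨π b, b, hb, rfl⟩
  have e' : π y = π (t * b * t⁻¹) := by
    have : (π t)⁻¹ * π y * π t = π b := congrArg Subtype.val e
    rw [map_mul, map_mul, map_inv, ← this]; group
  have := L.normalCore_le (QuotientGroup.eq.1 e')
  exact h3 (by simpa using L.mul_mem (h2 hy) this)

/-- NOASC in the other direction. -/
theorem noasc' (h : LERF G) {B : Subgroup G} (hB : B.FG) {t : G}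
    (ht : ∀ b ∈ B, t * b * t⁻¹ ∈ B) : ∀ b ∈ B, t⁻¹ * b * t ∈ B := by
  simpa using noasc h hB (t := t⁻¹) (by simpa using ht)

end Pool.Agent.Lib.FBC
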