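import Pool.Agent.Lib.FBC.Blow

set_option autoImplicit false
set_option linter.unusedVariables false

/-!
An irreducible flow that is not a train track map can be improved.
-/

namespace Pool.Agent.Lib.FBC.Forest

open Hom BlowData

variable {G : Type} [Group G] {deg : G →* Multiplicative ℤ} {T T' : Forest deg} {k : ℤ} {lam : ℝ}

lemma Hom.ext' {h h' : Hom T T' k} (e : ∀ v, h v = h' v) : h = h' := by
  obtain ⟨a, _, _⟩ := h
  obtain ⟨b, _, _⟩ := h'
  obtain rfl : a = b := funext e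
  rfl

lemma nondeg_of_irr {f : Hom T T k} (h : Irr f.mat) : f.Nondeg :=
  nondeg_iff.2 fun c =>
    let ⟨_, hj⟩ := h.exists_col c.i
    let ⟨a, ha, _⟩ := f.exists_of_mat_pos c hj
    ⟨a, ha⟩

/-- The standing assumptions. -/
structure Good (f : Hom T T k) (lam : ℝ) : Prop where
  ess : T.Ess
  irr : Irr f.mat
  freq : Freq f.mat lam

lemma Good.nondeg {f : Hom T T k} (H : Good f lam) : f.Nondeg := nondeg_of_irr H.irr

lemma DI_src {f : Hom T T k} {j : ℕ} {a b a' b' : T.Dir} (h : a.src = b.src) (h1 : f.DI j a a')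
    (h2 : f.DI j b b') : a'.src = b'.src := by
  induction j generalizing a' b' with
  | zero => obtain rfl : a = a' := h1; obtain rfl : b = b' := h2; exact h
  | succ j ih =>
    obtain ⟨c, h3, h4⟩ := h1
    obtain ⟨c', h5, h6⟩ := h2
    rw [h4.src, h6.src, ih h3 h5]

lemma DI_tr {f : Hom T T k} {j : ℕ} {a a' : T.Dir} (h : f.DI j a a') (g : G) :
    f.DI j (a.tr g) (a'.tr g) := by
  induction j generalizing a' with
  | zero => obtain rfl : a = a' := h; exact rfl
  | succ j ih => obtain ⟨c, h3, h4⟩ := h; exact ⟨_, ih h3, h4.tr g⟩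

lemma dtr_tr (g h : G) (d : T.Dir) : (d.tr h).tr g = d.tr (g * h) := Prod.ext (mul_smul _ _ _).symm rfl
lemma dtr_one (d : T.Dir) : d.tr 1 = d := Prod.ext (one_smul _ _) rfl
lemma dtr_inv_tr (g : G) (d : T.Dir) : (d.tr g⁻¹).tr g = d := by rw [dtr_tr, mul_inv_cancel, dtr_one]
lemma dtr_inj {g : G} {a b : T.Dir} (h : a.tr g = b.tr g) : a = b := by
  rw [← dtr_inv_tr g⁻¹ a, ← dtr_inv_tr g⁻¹ b, inv_inv, h]

section Step

variable {B : BlowData T} {f : Hom T T k} {x : T.V}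

/-- The new flow. -/
noncomputable def BlowData.Cut.f' (C : B.Cut f x) : Hom B.forest B.forest k :=
  B.p.comp C.g (add_zero k).symm

lemma blow_step (H : Good f lam) (C : B.Cut f x)
    (K : Good C.f' lam → Tight B.p C.g → Drop B.forest k lam) : Drop T k lam := by
  refine Drop.of_hom ?_ B.p
  have e : C.g.comp B.p (zero_add k).symm = f := Hom.ext' fun _ => rfl
  have hg := C.nondeg H.nondeg
  have ess : B.forest.Ess := H.ess.of_hom C.g (H.ess.1.map B.old)
  obtain ⟨h1, h2⟩ := swap_factors (M := f.mat) (P := B.p.mat) (Γ := C.g.mat)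
    (fun j i => by rw [← C.tight.mat_comp (zero_add k).symm, e]) H.irr H.freq (B.p_row C.ex)
    fun l => let ⟨a, ha⟩ := nondeg_iff.1 hg ⟨1, l⟩; ⟨_, C.g.mat_pos ha⟩
  by_cases ht : Tight B.p C.g
  · have e' : C.f'.mat = fun l l' => ∑ i, B.p.mat l i * C.g.mat i l' :=
      funext fun j => funext fun i => ht.mat_comp _ j i
    exact K ⟨ess, e' ▸ h1, e' ▸ h2⟩ ht
  · exact ⟨_, C.f', ⟨⟨id, fun _ _ => rfl, fun _ => (add_zero _).symm⟩⟩, ess,
      h2.drop h1 (mat_comp_le _ _ _) (exists_mat_comp_lt ht _)⟩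

lemma gD (C : B.Cut f x) (hf : f.Nondeg) {a b : T.Dir} (h : f.D a b) : C.g.D (B.dp a) b := by
  obtain ⟨c, hc⟩ := (C.nondeg hf).exists_D (B.dp a)
  have : f.D a c := C.tight.chain (zero_add k).symm (B.D_p a) hc
  rwa [h.unique this]

lemma D_dp (C : B.Cut f x) (hf : f.Nondeg) (ht : Tight B.p C.g) {a b : T.Dir} (h : f.D a b) :
    C.f'.D (B.dp a) (B.dp b) := ht.chain _ (gD C hf h) (B.D_p b)

lemma DI_dp (C : B.Cut f x) (hf : f.Nondeg) (ht : Tight B.p C.g) {j : ℕ} {a b : T.Dir}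
    (h : f.DI j a b) : C.f'.DI j (B.dp a) (B.dp b) := by
  induction j generalizing b with
  | zero => obtain rfl : a = b := h; exact rfl
  | succ j ih => obtain ⟨c, h3, h4⟩ := h; exact ⟨_, ih h3, D_dp C hf ht h4⟩

lemma img_sub (C : B.Cut f x) (ht : Tight B.p C.g) {c : B.forest.E} {a : T.E}
    (h : a ∈ C.g.img c) : B.p.img a ⊆ C.f'.img c := (ht c).img_subset h

end Step

/-- Long edges. -/
def Long (f : Hom T T k) (c : T.E) : Prop := 2 ≤ (f.img c).card

lemma Long.of_i {f : Hom T T k} {c c' : T.E} (h : Long f c) (e : c.i = c'.i) : Long f c' := by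
  rw [eq_smul_of_i e, Long, img_smul, Finset.card_image_of_injective _ (MulAction.injective _)]
  exact h

lemma Long.tgt_ne {f : Hom T T k} {a e : T.Dir} (h : Long f a.1) (h1 : f.D a e) :
    e.tgt ≠ f a.tgt := fun h2 => by
  rw [Long, img_dir, ← h1.src, ← h2, sep_src_tgt] at h
  simp at h

/-- Subdivision of the edges of one orbit. -/
noncomputable def sing (i : T.I) (β : Bool) : BlowData T :=
  pair (⟨1, i⟩, β) (⟨1, i⟩, β) rfl (by simp [Dir.src, lev_ed]) fun _ => rfl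

lemma mem_sing {i : T.I} {β : Bool} {d : T.Dir} : (sing i β).Mem d ↔ d = (⟨1, i⟩, β) :=
  mem_pair.trans or_self_iff

lemma sing_S {i : T.I} {β : Bool} {j : T.I} {b : Bool} : (sing i β).S j b ↔ j = i ∧ b = β :=
  or_self_iff

lemma cut_first {f : Hom T T k} {a b e : T.Dir} {h : a.src = b.src} {hl : T.lev a.src = 0}
    {hi : a.1.i = b.1.i → a = b} (h1 : f.D a e) (h2 : f.D b e) (l1 : Long f a.1)
    (l2 : Long f b.1) : (pair a b h hl hi).Cut f e.tgt where
  hx := by rw [← lev_src_tgt, h1.src, f.lev_map, hl, zero_add]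
  one := pair_one
  sub d hd := by
    have : sep (f a.src) e.tgt = {e.1} := by rw [← h1.src, sep_src_tgt]
    rw [show (pair a b h hl hi).v = a.src from rfl, this, Finset.singleton_subset_iff]
    rcases mem_pair.1 hd with rfl | rfl
    · exact h1.mem
    · exact h2.mem
  ne1 := by
    rw [show (pair a b h hl hi).v = a.src from rfl, ← h1.src]
    exact ed_ne _ _
  ne2 d hd := by
    rcases mem_pair.1 hd with rfl | rfl
    · exact l1.tgt_ne h1
    · exact l2.tgt_ne h2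
  ex := ⟨a, mem_pair.2 (Or.inl rfl)⟩

lemma exists_cut {f : Hom T T k} (hf : f.Nondeg) {c : T.E} (h : Long f c) (β : Bool) :
    ∃ x, (sing c.i β).Cut f x :=
  let ⟨_, he⟩ := hf.exists_D (⟨1, c.i⟩, β)
  ⟨_, cut_first he he (h.of_i rfl) (h.of_i rfl)⟩

lemma dp_sing_i {i : T.I} {β : Bool} {a b : T.Dir} (h : a.1.i = b.1.i → a.1.i = i ∧ a.2 ≠ b.2 ∧
    (a.2 = β ∨ b.2 = β)) : ((sing i β).dp a).1.i ≠ ((sing i β).dp b).1.i := by
  simp only [dp, sing_S]
  split_ifs with h1 h2 h2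
  · exact ((h (h1.1.trans h2.1.symm)).2.1 (h1.2.trans h2.2.symm)).elim
  · exact fun e => by simp [BlowData.ne, oe] at e
  · exact fun e => by simp [BlowData.ne, oe] at e
  · intro e
    have e' : a.1.i = b.1.i := Option.some_injective _ e
    obtain ⟨h3, -, h4 | h4⟩ := h e'
    · exact h1 ⟨h3, h4⟩
    · exact h2 ⟨e' ▸ h3, h4⟩

lemma dp_sing_inj {i : T.I} {β : Bool} {a b : T.Dir} (h : (sing i β).dp a = (sing i β).dp b) :
    a = b := by
  rcases (sing i β).dir_cases a with h1 | ⟨g, d, h1, rfl⟩ <;>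
    rcases (sing i β).dir_cases b with h2 | ⟨g', d', h2, rfl⟩
  · rw [dp_not _ h1, dp_not _ h2, Prod.mk.injEq, oe_inj] at h
    exact Prod.ext h.1 h.2
  · rw [dp_not _ h1, dp_mem _ h2, Prod.mk.injEq] at h
    exact (oe_ne_ne _ _ _ h.1).elim
  · rw [dp_not _ h2, dp_mem _ h1, Prod.mk.injEq] at h
    exact (oe_ne_ne _ _ _ h.1.symm).elim
  · rw [dp_mem _ h1, dp_mem _ h2, Prod.mk.injEq, ne_inj] at h
    rw [h.1, mem_sing.1 h1, mem_sing.1 h2]

/-- A free vertex of valence two whose turn degenerates after `j + 1` steps. -/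
structure Pre (f : Hom T T k) (j : ℕ) (a b a1 b1 e : T.Dir) : Prop where
  val : Val2 a b
  ha : f.DI j a a1
  hb : f.DI j b b1
  ne : a1 ≠ b1
  da : f.D a1 e
  db : f.D b1 e

lemma Pre.sing {f : Hom T T k} {j : ℕ} {a b a1 b1 e : T.Dir} (P : Pre f j a b a1 b1 e)
    {i : T.I} {β : Bool} {x : T.V} (C : (sing i β).Cut f x) (hf : f.Nondeg)
    (ht : Tight (sing i β).p C.g) : Pre C.f' j ((sing i β).dp a) ((sing i β).dp b)
      ((sing i β).dp a1) ((sing i β).dp b1) ((sing i β).dp e) :=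
  ⟨val2_dp _ C.ex P.val fun e => P.val.1.1 (dp_sing_inj e), DI_dp C hf ht P.ha, DI_dp C hf ht P.hb,
    fun e => P.ne (dp_sing_inj e), D_dp C hf ht P.da, D_dp C hf ht P.db⟩

/-- The induction hypothesis. -/
def IH (deg : G →* Multiplicative ℤ) (k : ℤ) (lam : ℝ) (j : ℕ) : Prop :=
  ∀ (T : Forest deg) (f : Hom T T k) (a b c : T.Dir), Good f lam → Val2 a b → f.DI j a c →
    f.DI j b c → Drop T k lam

lemma stage_fold (hL : St_LEAF) {j : ℕ} (ih : IH deg k lam j) {f : Hom T T k}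
    {a b a1 b1 e : T.Dir} (H : Good f lam) (P : Pre f j a b a1 b1 e) (hi : a1.1.i ≠ b1.1.i)
    (l1 : Long f a1.1) (l2 : Long f b1.1) : Drop T k lam := by
  have hs : (a1.tr a1.1.g⁻¹).src = (b1.tr a1.1.g⁻¹).src := by
    rw [src_tr, src_tr, DI_src P.val.1.2 P.ha P.hb]
  have C := cut_first (h := hs) (hl := by rw [Dir.src, lev_ed]; simp [Dir.tr])
    (hi := fun e => (hi e).elim) (P.da.tr a1.1.g⁻¹) (P.db.tr a1.1.g⁻¹) (l1.of_i rfl) (l2.of_i rfl)
  refine blow_step H C fun H' ht => ?_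
  have h1 := DI_dp C H.nondeg ht P.ha
  have h2 := DI_dp C H.nondeg ht P.hb
  rw [(congrArg (dp _) (dtr_inv_tr a1.1.g a1).symm).trans
    (dp_mem _ (mem_pair.2 (Or.inl rfl)) _)] at h1
  rw [(congrArg (dp _) (dtr_inv_tr a1.1.g b1).symm).trans
    (dp_mem _ (mem_pair.2 (Or.inr rfl)) _)] at h2
  refine by_cases (fun e => hL _ _ _ _ _ _ H'.ess H'.irr H'.freq (not_leafless _ C.ex P.val e))
    fun e => ih _ _ _ _ _ H' (val2_dp _ C.ex P.val e) h1 h2

lemma stage_long (hL : St_LEAF) {j : ℕ} (ih : IH deg k lam j) {f : Hom T T k}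
    {a b a1 b1 e : T.Dir} (H : Good f lam) (P : Pre f j a b a1 b1 e) (hi : a1.1.i ≠ b1.1.i)
    (l : Long f e.1) : Drop T k lam := by
  obtain ⟨x, C⟩ := exists_cut H.nondeg l false
  refine blow_step H C fun H' ht => ?_
  have two := (sing e.1.i false).two_le_img (mem_sing.2 rfl) (a := e.1) rfl
  exact stage_fold hL ih H' (P.sing C H.nondeg ht) (dp_sing_i fun e => (hi e).elim)
    (two.trans (Finset.card_le_card (img_sub C ht (gD C H.nondeg P.da).mem)))
    (two.trans (Finset.card_le_card (img_sub C ht (gD C H.nondeg P.db).mem)))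

/-- A long edge can be reached in at most `m` steps. -/
def Reach (f : Hom T T k) : ℕ → T.E → Prop
  | 0, c => Long f c
  | m + 1, c => Long f c ∨ ∃ c' ∈ f.img c, Reach f m c'

lemma Reach.of_long {f : Hom T T k} {c : T.E} (h : Long f c) : ∀ m, Reach f m c
  | 0 => h
  | _ + 1 => Or.inl h

lemma reach_step {f : Hom T T k} {m : ℕ} {c : T.E} (h : Reach f (m + 1) c) :
    Reach f m c ∨ ∃ z : T.E, Long f z ∧ c.i ≠ z.i ∧ ∀ (T' : Forest deg) (f' : Hom T' T' k)
      (o : T.E → T'.E), (∀ a a', a.i ≠ z.i → a' ∈ f.img a →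
        o a' ∈ f'.img (o a) ∧ (a'.i = z.i → Long f' (o a))) → Reach f' m (o c) := by
  induction m generalizing c with
  | zero =>
    by_cases l : Long f c
    · exact Or.inl l
    obtain ⟨c', h1, h2⟩ := h.resolve_left l
    have ne : c.i ≠ c'.i := fun e => l (Long.of_i h2 e.symm)
    exact Or.inr ⟨c', h2, ne, fun T' f' o ho => (ho c c' ne h1).2 rfl⟩
  | succ m ih =>
    by_cases l : Long f c
    · exact Or.inl (Or.inl l)
    obtain ⟨c', h1, h2⟩ := h.resolve_left l
    rcases ih h2 with h3 | ⟨z, h3, h4, h5⟩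
    · exact Or.inl (Or.inr ⟨c', h1, h3⟩)
    · have ne : c.i ≠ z.i := fun e => l (Long.of_i h3 e.symm)
      exact Or.inr ⟨z, h3, ne, fun T' f' o ho => Or.inr ⟨_, (ho c c' ne h1).1, h5 T' f' o ho⟩⟩

lemma stage_reach (hL : St_LEAF) {j : ℕ} (ih : IH deg k lam j) (m : ℕ) {f : Hom T T k}
    {a b a1 b1 e : T.Dir} (H : Good f lam) (P : Pre f j a b a1 b1 e) (hi : a1.1.i ≠ b1.1.i)
    (l : Reach f m e.1) : Drop T k lam := by
  induction m generalizing T with
  | zero => exact stage_long hL ih H P hi l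
  | succ m ihm =>
    rcases reach_step l with l | ⟨z, h1, h2, h3⟩
    · exact ihm H P hi l
    obtain ⟨x, C⟩ := exists_cut H.nondeg h1 false
    refine blow_step H C fun H' ht => ?_
    refine ihm H' (P.sing C H.nondeg ht) (dp_sing_i fun e => (hi e).elim) ?_
    rw [dp_not _ fun e => h2 (sing_S.1 e).1]
    refine h3 _ _ (sing z.i false).oe fun c c' h4 h5 => ?_
    have := img_sub C ht (c := (sing z.i false).oe c) (a := c')
      (by rwa [C.img_not fun b e => h4 (sing_S.1 e).1])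
    exact ⟨this (oe_mem_img _ _), fun e => ((sing z.i false).two_le_img (mem_sing.2 rfl)
      e.symm).trans (Finset.card_le_card this)⟩

lemma exists_reach {f : Hom T T k} (H : Irr f.mat) {a b e : T.E} (ha : e ∈ f.img a)
    (hb : e ∈ f.img b) (hi : a.i ≠ b.i) (c : T.E) : ∃ m, Reach f m c := by
  obtain ⟨z, hz⟩ : ∃ z, Long f z := by
    by_contra h
    simp only [Long, not_exists, not_le] at h
    choose φ hφ using H.exists_col
    have key : ∀ i j, 0 < f.mat j i → φ i = j := fun i j hj => by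
      obtain ⟨c1, h1, h2⟩ := f.exists_of_mat_pos ⟨1, i⟩ hj
      obtain ⟨c2, h3, h4⟩ := f.exists_of_mat_pos ⟨1, i⟩ (hφ i)
      rw [← h2, ← h4, Finset.card_le_one.1 (Nat.le_of_lt_succ (h ⟨1, i⟩)) _ h1 _ h3]
    have inj : Function.Injective φ := Finite.injective_iff_surjective.2 fun j =>
      let ⟨i, hi⟩ := H.exists_row j; ⟨i, key i j hi⟩
    exact hi (inj ((key _ _ (f.mat_pos ha)).trans (key _ _ (f.mat_pos hb)).symm))
  have : ∀ i, Relation.TransGen (fun a b => 0 < f.mat b a) i z.i →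
      ∀ c : T.E, c.i = i → ∃ m, Reach f m c := fun i h => by
    induction h using Relation.TransGen.head_induction_on with
    | single h =>
      rintro c rfl
      obtain ⟨c', h1, h2⟩ := f.exists_of_mat_pos c h
      exact ⟨1, Or.inr ⟨c', h1, hz.of_i h2.symm⟩⟩
    | head h _ ih =>
      rintro c rfl
      obtain ⟨c', h1, h2⟩ := f.exists_of_mat_pos c h
      obtain ⟨m, hm⟩ := ih c' h2
      exact ⟨m + 1, Or.inr ⟨c', h1, hm⟩⟩
  exact this _ (H _ _) c rfl

lemma stage_types (hL : St_LEAF) {j : ℕ} (ih : IH deg k lam j) {f : Hom T T k}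
    {a b a1 b1 e : T.Dir} (H : Good f lam) (P : Pre f j a b a1 b1 e) : Drop T k lam := by
  by_cases hi : a1.1.i = b1.1.i
  swap
  · obtain ⟨m, hm⟩ := exists_reach H.irr P.da.mem P.db.mem hi e.1
    exact stage_reach hL ih m H P hi hm
  have hs := DI_src P.val.1.2 P.ha P.hb
  obtain ⟨s, h1⟩ : ∃ s : G, b1.1 = s • a1.1 := ⟨_, eq_smul_of_i hi⟩
  have h2 : a1.2 ≠ b1.2 := fun h => by
    have h3 : b1 = a1.tr s := Prod.ext h1 h.symm
    have h4 := P.db.unique (h3 ▸ P.da.tr s)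
    rw [smul_eq_self (congrArg Prod.fst h4).symm, dtr_one] at h3
    exact P.ne h3.symm
  have l : Long f a1.1 := by
    refine Finset.one_lt_card.2 ⟨_, P.da.mem, s⁻¹ • e.1, ?_, fun h => ?_⟩
    · rw [← f.smul_mem_img s, smul_inv_smul, ← h1]; exact P.db.mem
    · rw [inv_eq_one.1 (smul_eq_self h.symm), one_smul] at h1
      rw [Dir.src, Dir.src, h1, Bool.eq_not_iff.2 h2.symm] at hs
      exact ed_ne _ _ hs
  obtain ⟨x, C⟩ := exists_cut H.nondeg l a1.2
  refine blow_step H C fun H' ht => ?_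
  have P' := P.sing C H.nondeg ht
  have hi' := dp_sing_i (i := a1.1.i) (β := a1.2) (a := a1) (b := b1) fun _ => ⟨rfl, h2, Or.inl rfl⟩
  obtain ⟨m, hm⟩ := exists_reach H'.irr P'.da.mem P'.db.mem hi' _
  exact stage_reach hL ih m H' P' hi' hm

lemma all_IH (hL : St_LEAF) (j : ℕ) : IH deg k lam j := by
  induction j with
  | zero =>
    intro T f a b c H h h1 h2
    exact (h.1.1 (Eq.trans h1 (Eq.symm h2))).elim
  | succ j ih =>
    rintro T f a b c H h ⟨a1, h1, h2⟩ ⟨b1, h3, h4⟩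
    by_cases e : a1 = b1
    · exact ih T f a b a1 H h h1 (e ▸ h3)
    · exact stage_types hL ih H ⟨h, h1, h3, e, h2, h4⟩

lemma drop_of_turn (hL : St_LEAF) {f : Hom T T k} (H : Good f lam) {i : T.I} {a b e : T.Dir}
    {j : ℕ} (h : Turn a b) (ha : a.1 ∈ f.img ⟨1, i⟩) (hb : b.1 ∈ f.img ⟨1, i⟩) (h1 : f.DI j a e)
    (h2 : f.DI j b e) : Drop T k lam := by
  set c : T.E := ⟨1, i⟩
  have lv : ∀ β, T.lev a.src = T.lev (f (c.ed β)) := fun β =>
    (lev_ed_of_mem ha _).trans (f.lev_eq (lev_ed_eq _ _ _))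
  have two : ∀ β, a.1 ∈ sep a.src (f (c.ed β)) → b.1 ∉ sep a.src (f (c.ed β)) := fun β h3 h4 =>
    h.1 (First.unique ⟨rfl, h3⟩ ⟨h.2.symm, h4⟩)
  have ne : ∀ β, f (c.ed β) ≠ a.src := fun β e => two (!β)
    (by rw [← e, ← img_eq]; exact ha) (by rw [← e, ← img_eq]; exact hb)
  have C : (sing i false).Cut f a.src :=
    { hx := by rw [lv false, f.lev_map, lev_ed]; simp [c]
      one := pair_one
      sub := fun d hd => by
        rw [mem_sing.1 hd, sep_comm, img, sep_comm (f _)]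
        exact sep_ed_subset (by rw [sep_comm]; exact ha) _
      ne1 := ne false
      ne2 := fun d hd => by rw [mem_sing.1 hd]; exact (ne true).symm
      ex := ⟨_, mem_sing.2 rfl⟩ }
  refine blow_step H C fun H' ht => ?_
  set B := sing i false
  have m0 : B.Mem (c, false) := mem_sing.2 rfl
  have s0 : (B.oe c).ed false = B.new 1 := by simpa using B.ed_of_mem m0 1
  have val : Val2 (T := B.forest) (B.ne 1, true) (B.oe c, false) := by
    refine ⟨⟨fun e => by simp at e, (B.ne_true 1).trans s0.symm⟩, fun d hd => ?_, fun g hg => ?_⟩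
    · refine (B.dir_new (hd.trans (B.ne_true 1))).imp_right ?_
      rintro ⟨d, h3, rfl⟩
      rw [mem_sing.1 h3]
    · rw [show Dir.src (T := B.forest) (B.ne 1, true) = B.new 1 from B.ne_true 1] at hg
      simpa using B.new_inj.1 hg
  have g1 : ∀ d : T.Dir, First a.src (f (c.ed false)) d → C.g.D (B.ne 1, true) d := fun d hd => by
    have e1 : C.g (Dir.src (T := B.forest) (B.ne 1, true)) = a.src :=
      (congrArg C.g (B.ne_true 1)).trans (one_smul _ _)
    have e2 : C.g (Dir.tgt (T := B.forest) (B.ne 1, true)) = f (c.ed false) :=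
      congrArg f (one_smul _ _)
    rwa [D, e1, e2]
  have g2 : ∀ d : T.Dir, First a.src (f (c.ed true)) d → C.g.D (B.oe c, false) d := fun d hd => by
    have := C.g_mem m0 1
    simp only [one_smul] at this
    have e1 : C.g (Dir.src (T := B.forest) (B.oe c, false)) = a.src := this.1
    have e2 : C.g (Dir.tgt (T := B.forest) (B.oe c, false)) = f (c.ed true) := this.2
    rwa [D, e1, e2]
  have fin : ∀ a b : T.Dir, f.DI j a e → f.DI j b e → C.g.D (B.ne 1, true) a →
      C.g.D (B.oe c, false) b → Drop B.forest k lam := fun a b h1 h2 h3 h4 =>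
    all_IH hL (j + 1) _ _ _ _ _ H' val
      (DI_cons _ (ht.chain _ h3 (B.D_p a)) _ _ (DI_dp C H.nondeg ht h1))
      (DI_cons _ (ht.chain _ h4 (B.D_p b)) _ _ (DI_dp C H.nondeg ht h2))
  have cov : ∀ d ∈ f.img c, d ∈ sep a.src (f (c.ed false)) ∨ d ∈ sep a.src (f (c.ed true)) :=
    fun d hd => by
      have := sep_subset_union (lv false).symm (lv true) hd
      rwa [sep_comm (f _), Finset.mem_union] at this
  rcases cov _ ha with h3 | h3
  · exact fin a b h1 h2 (g1 a ⟨rfl, h3⟩) (g2 b ⟨h.2.symm, (cov _ hb).resolve_left (two _ h3)⟩)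
  · exact fin b a h2 h1 (g1 b ⟨h.2.symm, (cov _ hb).resolve_right (two _ h3)⟩) (g2 a ⟨rfl, h3⟩)

end Pool.Agent.Lib.FBC.Forest

namespace Pool.Agent.Lib.FBC

open Forest

theorem FOLD_holds (hL : St_LEAF) : St_FOLD := by
  intro G _ deg T k f lam h1 h2 h3 h4
  have H : Good f lam := ⟨h1, h2, h3⟩
  simp only [Hom.TT, H.nondeg, true_and, Hom.Legal, Hom.LegalTurn, not_forall, not_not] at h4
  obtain ⟨c, a, b, h, ha, hb, j, e, h5, h6⟩ := h4
  have ec : (⟨1, c.i⟩ : T.E) = c.g⁻¹ • c := E.ext (by simp) rfl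
  refine drop_of_turn hL H (i := c.i) (a := a.tr c.g⁻¹) (b := b.tr c.g⁻¹)
    ⟨fun e => h.1 (dtr_inj e), by rw [src_tr, src_tr, h.2]⟩ ?_ ?_ (DI_tr h5 _) (DI_tr h6 _)
  · rw [ec]; exact (f.smul_mem_img _).2 ha
  · rw [ec]; exact (f.smul_mem_img _).2 hb

end Pool.Agent.Lib.FBC
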