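import Mathlib

set_option autoImplicit false
set_option linter.unusedVariables false

/-!
Forests with a group action, free on edges, described by walls.
-/

namespace Pool.Agent.Lib.FBC

variable {G : Type} [Group G]

/-- A forest on which `G` acts freely on oriented edges with finitely many edge orbits.  The
components are the levels.  The edge `(g, i)` has the ends `g • en i false`, `g • en i true`, and
its wall is `v ↦ side i (g⁻¹ • v)`. -/
structure Forest (deg : G →* Multiplicative ℤ) where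
  /-- vertices -/
  V : Type
  /-- edge orbits -/
  I : Type
  [act : MulAction G V]
  [fin : Fintype I]
  /-- ends of the base edges -/
  en : I → Bool → V
  /-- level -/
  lev : V → ℤ
  lev_smul : ∀ (g : G) (v : V), lev (g • v) = (deg g).toAdd + lev v
  lev_en : ∀ i b, lev (en i b) = 0
  /-- walls of the base edges -/
  side : I → V → Bool
  side_en : ∀ i b, side i (en i b) = b
  cross : ∀ i j (g : G), (g, j) ≠ (1, i) → side i (g • en j false) = side i (g • en j true)
  conn : ∀ u v, lev u = lev v → Relation.ReflTransGen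
    (fun x y => ∃ (g : G) (i : I) (b : Bool), x = g • en i b ∧ y = g • en i (!b)) u v

attribute [instance] Forest.act Forest.fin

namespace Forest

variable {deg : G →* Multiplicative ℤ} (T : Forest deg)

noncomputable instance : DecidableEq T.I := Classical.decEq _

/-- Edges. -/
@[ext] structure E where
  /-- position -/
  g : G
  /-- orbit -/
  i : T.I

noncomputable instance : DecidableEq T.E := Classical.decEq _

instance : MulAction G T.E where
  smul h c := ⟨h * c.g, c.i⟩
  one_smul c := E.ext (one_mul _) rfl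
  mul_smul a b c := E.ext (mul_assoc _ _ _) rfl

variable {T}

@[simp] lemma smul_g (h : G) (c : T.E) : (h • c).g = h * c.g := rfl
@[simp] lemma smul_i (h : G) (c : T.E) : (h • c).i = c.i := rfl

lemma smul_eq_self {h : G} {c : T.E} (e : h • c = c) : h = 1 := by
  simpa using congrArg E.g e

lemma eq_smul_of_i {c c' : T.E} (e : c.i = c'.i) : c' = (c'.g * c.g⁻¹) • c :=
  E.ext (by simp) e.symm

/-- The ends of an edge. -/
def E.ed (c : T.E) (b : Bool) : T.V := c.g • T.en c.i b

/-- The wall of an edge. -/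
def E.sd (c : T.E) (v : T.V) : Bool := T.side c.i (c.g⁻¹ • v)

@[simp] lemma ed_smul (h : G) (c : T.E) (b : Bool) : (h • c).ed b = h • c.ed b := by
  simp [E.ed, mul_smul]

@[simp] lemma sd_smul (h : G) (c : T.E) (v : T.V) : (h • c).sd (h • v) = c.sd v := by
  simp [E.sd, mul_smul]

lemma sd_smul' (h : G) (c : T.E) (v : T.V) : (h • c).sd v = c.sd (h⁻¹ • v) := by
  rw [← sd_smul h c (h⁻¹ • v), smul_inv_smul]

@[simp] lemma sd_ed (c : T.E) (b : Bool) : c.sd (c.ed b) = b := by
  simp [E.sd, E.ed, T.side_en]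

lemma sd_ed_ne {c c' : T.E} (h : c ≠ c') (b b' : Bool) : c.sd (c'.ed b) = c.sd (c'.ed b') := by
  have := T.cross c.i c'.i (c.g⁻¹ * c'.g) fun e => h (by
    simp only [Prod.mk.injEq, inv_mul_eq_one] at e
    exact E.ext e.1 e.2.symm)
  simp only [mul_smul] at this
  cases b <;> cases b' <;> simp [E.sd, E.ed, this]

lemma lev_ed (c : T.E) (b : Bool) : T.lev (c.ed b) = (deg c.g).toAdd := by
  simp [E.ed, T.lev_smul, T.lev_en]

lemma lev_ed_eq (c : T.E) (b b' : Bool) : T.lev (c.ed b) = T.lev (c.ed b') := by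
  rw [lev_ed, lev_ed]

lemma ed_ne (c : T.E) (b : Bool) : c.ed b ≠ c.ed (!b) := fun h => by
  have := congrArg c.sd h
  simp at this

/-- Adjacency. -/
def Adj (x y : T.V) : Prop := ∃ (c : T.E) (b : Bool), x = c.ed b ∧ y = c.ed (!b)

lemma conn' {u v : T.V} (h : T.lev u = T.lev v) : Relation.ReflTransGen Adj u v := by
  have := T.conn u v h
  clear h
  induction this with
  | refl => exact .refl
  | tail _ e ih => obtain ⟨g, i, b, e⟩ := e; exact ih.tail ⟨⟨g, i⟩, b, e⟩

lemma finite_sep {u v : T.V} (h : T.lev u = T.lev v) : {c : T.E | c.sd u ≠ c.sd v}.Finite := by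
  induction conn' h with
  | refl => simp
  | @tail x y hx hxy ih =>
    obtain ⟨c, b, rfl, rfl⟩ := hxy
    refine ((ih (h.trans (lev_ed_eq c _ _))).insert c).subset fun c' hc' => ?_
    by_cases e : c' = c
    · exact Or.inl e
    · exact Or.inr (by rw [Set.mem_ofPred_eq, sd_ed_ne e b (!b)]; exact hc')

open Classical in
/-- The geodesic between two vertices of one level, as a set of edges. -/
noncomputable def sep (u v : T.V) : Finset T.E :=
  if h : T.lev u = T.lev v then (finite_sep h).toFinset else ∅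

lemma mem_sep {u v : T.V} (h : T.lev u = T.lev v) {c : T.E} : c ∈ sep u v ↔ c.sd u ≠ c.sd v := by
  simp [sep, h]

lemma lev_eq_of_mem {u v : T.V} {c : T.E} (h : c ∈ sep u v) : T.lev u = T.lev v := by
  by_contra e
  simp [sep, e] at h

lemma sd_ne_of_mem {u v : T.V} {c : T.E} (h : c ∈ sep u v) : c.sd u ≠ c.sd v :=
  (mem_sep (lev_eq_of_mem h)).1 h

@[simp] lemma sep_self (u : T.V) : sep u u = ∅ := by
  ext c; simp [mem_sep rfl]

lemma sep_comm (u v : T.V) : sep u v = sep v u := by
  by_cases h : T.lev u = T.lev v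
  · ext c; rw [mem_sep h, mem_sep h.symm, ne_comm]
  · simp [sep, h, Ne.symm h]

lemma sep_ed (c : T.E) (b : Bool) : sep (c.ed b) (c.ed (!b)) = {c} := by
  ext c'
  rw [mem_sep (lev_ed_eq _ _ _), Finset.mem_singleton]
  refine ⟨fun h => by_contra fun e => h (sd_ed_ne e _ _), ?_⟩
  rintro rfl
  simp

lemma smul_mem_sep (h : G) {u v : T.V} {c : T.E} : h • c ∈ sep (h • u) (h • v) ↔ c ∈ sep u v := by
  by_cases e : T.lev u = T.lev v
  · rw [mem_sep e, mem_sep (by rw [T.lev_smul, T.lev_smul, e]), sd_smul, sd_smul]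
  · have : T.lev (h • u) ≠ T.lev (h • v) := by
      rw [T.lev_smul, T.lev_smul]; simpa using e
    simp [sep, e, this]

lemma mem_sep_smul (h : G) {u v : T.V} {c : T.E} : c ∈ sep (h • u) (h • v) ↔ h⁻¹ • c ∈ sep u v := by
  rw [← smul_mem_sep h (c := h⁻¹ • c), smul_inv_smul]

lemma sep_smul (h : G) (u v : T.V) : sep (h • u) (h • v) = (sep u v).image (h • ·) := by
  ext c
  rw [mem_sep_smul, Finset.mem_image]
  exact ⟨fun e => ⟨_, e, smul_inv_smul _ _⟩, by rintro ⟨c', e, rfl⟩; simpa using e⟩

/-- The triangle rule. -/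
lemma mem_sep_tri {u v w : T.V} (h : T.lev u = T.lev v) (h' : T.lev v = T.lev w) {c : T.E} :
    c ∈ sep u w ↔ ¬ (c ∈ sep u v ↔ c ∈ sep v w) := by
  rw [mem_sep h, mem_sep h', mem_sep (h.trans h')]
  cases c.sd u <;> cases c.sd v <;> cases c.sd w <;> simp

lemma sep_subset_union {u v w : T.V} (h : T.lev u = T.lev v) (h' : T.lev v = T.lev w) :
    sep u w ⊆ sep u v ∪ sep v w := fun c hc => by
  rw [mem_sep_tri h h'] at hc
  rw [Finset.mem_union]; tauto

lemma ed_cases {c : T.E} {b b' : Bool} {u : T.V} (h : c.ed b' = u) : c.ed b = u ∨ c.ed (!b) = u := by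
  cases b <;> cases b' <;> simp_all

/-- The first edge of a geodesic exists. -/
lemma exists_first {u v : T.V} (h : T.lev u = T.lev v) (hne : u ≠ v) :
    ∃ (c : T.E) (b : Bool), c.ed b = u ∧ c ∈ sep u v := by
  have key : ∀ x, Relation.ReflTransGen Adj x v →
      (x ≠ u ∧ ∀ (c : T.E) b, c.ed b = u → c.sd x = c.sd v) ∨
        ∃ (c : T.E) (b : Bool), c.ed b = u ∧ c ∈ sep u v := by
    intro x hx
    induction hx using Relation.ReflTransGen.head_induction_on with
    | refl => exact Or.inl ⟨hne.symm, fun _ _ _ => rfl⟩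
    | @head x y hxy hy ih =>
      obtain ⟨c, b, rfl, rfl⟩ := hxy
      rcases ih with ⟨h0, h1⟩ | h1
      · by_cases e : c.ed b = u
        · refine Or.inr ⟨c, b, e, (mem_sep h).2 ?_⟩
          rw [← h1 c b e, ← e]; simp
        · refine Or.inl ⟨e, fun c' b' e' => ?_⟩
          rw [← h1 c' b' e']
          refine sd_ed_ne ?_ _ _
          rintro rfl
          exact (ed_cases (b := b) e').elim e h0
      · exact Or.inr h1
  exact (key u (conn' h)).resolve_left fun e => e.1 rfl

lemma eq_of_sep {u v : T.V} (h : T.lev u = T.lev v) (e : sep u v = ∅) : u = v := by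
  by_contra hne
  obtain ⟨c, -, -, hc⟩ := exists_first h hne
  simp [e] at hc

lemma eq_of_sd {u v : T.V} (h : T.lev u = T.lev v) (e : ∀ c : T.E, c.sd u = c.sd v) : u = v :=
  eq_of_sep h (Finset.eq_empty_of_forall_notMem fun c hc => sd_ne_of_mem hc (e c))

lemma sep_step {c : T.E} {b : Bool} {v : T.V} (hc : c ∈ sep (c.ed b) v) :
    sep (c.ed (!b)) v = (sep (c.ed b) v).erase c := by
  have h := lev_eq_of_mem hc
  ext c'
  have := mem_sep_tri (lev_ed_eq c (!b) b) h (c := c')
  rw [sep_comm (c.ed (!b)) (c.ed b), sep_ed, Finset.mem_singleton] at this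
  rw [this, Finset.mem_erase]
  by_cases e : c' = c
  · simp [e, hc]
  · simp [e]

lemma sep_step' {c : T.E} {b : Bool} {v : T.V} (h : T.lev (c.ed b) = T.lev v)
    (hc : c ∉ sep (c.ed b) v) : sep (c.ed (!b)) v = insert c (sep (c.ed b) v) := by
  ext c'
  have := mem_sep_tri (lev_ed_eq c (!b) b) h (c := c')
  rw [sep_comm (c.ed (!b)) (c.ed b), sep_ed, Finset.mem_singleton] at this
  rw [this, Finset.mem_insert]
  by_cases e : c' = c
  · simp [e, hc]
  · simp [e]

/-- Induction along the geodesic towards `v`. -/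
lemma geo_ind {v : T.V} {P : T.V → Prop} (h0 : P v)
    (hs : ∀ (c : T.E) (b : Bool), c ∈ sep (c.ed b) v → P (c.ed (!b)) → P (c.ed b))
    {u : T.V} (h : T.lev u = T.lev v) : P u := by
  induction hn : (sep u v).card generalizing u with
  | zero => rwa [eq_of_sep h (Finset.card_eq_zero.1 hn)]
  | succ n ih =>
    obtain ⟨c, b, rfl, hc⟩ := exists_first h (by rintro rfl; simp at hn)
    refine hs c b hc (ih ((lev_ed_eq _ _ _).trans h) ?_)
    rw [sep_step hc, Finset.card_erase_of_mem hc, hn]; rfl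

/-- A function that changes along a geodesic changes across one of its edges. -/
lemma exists_cross {α : Type*} (φ : T.V → α) {u v : T.V} (h : T.lev u = T.lev v)
    (e : φ u ≠ φ v) : ∃ c ∈ sep u v, φ (c.ed false) ≠ φ (c.ed true) := by
  revert e
  refine geo_ind (P := fun u => φ u ≠ φ v → ∃ c ∈ sep u v, φ (c.ed false) ≠ φ (c.ed true))
    (fun e => (e rfl).elim) (fun c b hc ih e => ?_) h
  by_cases e' : φ (c.ed (!b)) = φ v
  · refine ⟨c, hc, ?_⟩
    rw [← e'] at e
    cases b
    · exact e
    · exact e.symm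
  · obtain ⟨c', h1, h2⟩ := ih e'
    rw [sep_step hc] at h1
    exact ⟨c', Finset.mem_of_mem_erase h1, h2⟩

lemma const_of_sep {α : Type*} (φ : T.V → α) {u v : T.V} (h : T.lev u = T.lev v)
    (e : ∀ c ∈ sep u v, φ (c.ed false) = φ (c.ed true)) : φ u = φ v := by
  by_contra e'
  obtain ⟨c, h1, h2⟩ := exists_cross φ h e'
  exact h2 (e c h1)

/-- Both ends of an edge of a geodesic lie between its end points. -/
lemma sep_ed_subset {u v : T.V} {c : T.E} (hc : c ∈ sep u v) (b : Bool) :
    sep (c.ed b) v ⊆ sep u v := by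
  revert hc
  by_cases h : T.lev u = T.lev v
  swap
  · exact fun hc => (h (lev_eq_of_mem hc)).elim
  refine geo_ind (P := fun u => c ∈ sep u v → sep (c.ed b) v ⊆ sep u v) (by simp)
    (fun c' b' hc' ih hc => ?_) h
  by_cases e : c = c'
  · subst e
    rcases eq_or_ne b b' with rfl | e
    · exact subset_rfl
    · rw [Bool.eq_not_iff.2 e, sep_step hc']; exact Finset.erase_subset _ _
  · rw [sep_step hc'] at ih
    exact (ih (Finset.mem_erase.2 ⟨e, hc⟩)).trans (Finset.erase_subset _ _)

lemma lev_ed_of_mem {u v : T.V} {c : T.E} (hc : c ∈ sep u v) (b : Bool) :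
    T.lev (c.ed b) = T.lev u := by
  have h := lev_eq_of_mem hc
  obtain ⟨c', h1, h2⟩ := exists_cross c.sd h (sd_ne_of_mem hc)
  revert hc
  refine geo_ind (P := fun u => c ∈ sep u v → T.lev (c.ed b) = T.lev u) (by simp)
    (fun c' b' hc' ih hc => ?_) h
  by_cases e : c = c'
  · subst e; exact lev_ed_eq _ _ _
  · rw [sep_step hc'] at ih
    exact (ih (Finset.mem_erase.2 ⟨e, hc⟩)).trans (lev_ed_eq _ _ _)

/-- The first edge of a geodesic is unique. -/
lemma first_unique {v : T.V} {c c' : T.E} {b b' : Bool} (e : c.ed b = c'.ed b')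
    (hc : c ∈ sep (c.ed b) v) (hc' : c' ∈ sep (c.ed b) v) : c = c' ∧ b = b' := by
  have : c = c' := by
    by_contra hne
    have h1 : c' ∈ sep (c.ed (!b)) v := by rw [sep_step hc]; exact Finset.mem_erase.2 ⟨Ne.symm hne, hc'⟩
    have h2 := sep_ed_subset h1 b'
    rw [← e, sep_step hc] at h2
    simpa using h2 hc
  subst this
  refine ⟨rfl, ?_⟩
  simpa using congrArg c.sd e

/-- A direction: an edge with one of its ends. -/
abbrev Dir (T : Forest deg) := T.E × Bool

/-- The base point of a direction. -/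
def Dir.src (d : T.Dir) : T.V := d.1.ed d.2

/-- The far end of a direction. -/
def Dir.tgt (d : T.Dir) : T.V := d.1.ed (!d.2)

/-- Translate of a direction. -/
def Dir.tr (h : G) (d : T.Dir) : T.Dir := (h • d.1, d.2)

@[simp] lemma src_tr (h : G) (d : T.Dir) : (d.tr h).src = h • d.src := ed_smul _ _ _
@[simp] lemma tgt_tr (h : G) (d : T.Dir) : (d.tr h).tgt = h • d.tgt := ed_smul _ _ _

lemma lev_src_tgt (d : T.Dir) : T.lev d.src = T.lev d.tgt := lev_ed_eq _ _ _

lemma sep_src_tgt (d : T.Dir) : sep d.src d.tgt = {d.1} := sep_ed _ _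

/-- `d` is the first edge of the geodesic from `u` to `v`. -/
def First (u v : T.V) (d : T.Dir) : Prop := d.src = u ∧ d.1 ∈ sep u v

lemma exists_First {u v : T.V} (h : T.lev u = T.lev v) (hne : u ≠ v) : ∃ d, First u v d :=
  let ⟨c, b, e⟩ := exists_first h hne; ⟨(c, b), e⟩

lemma First.unique {u v : T.V} {d d' : T.Dir} (h : First u v d) (h' : First u v d') : d = d' := by
  obtain ⟨rfl, h1⟩ := h
  exact Prod.ext_iff.2 (first_unique h'.1.symm h1 h'.2)

lemma First.tr {u v : T.V} {d : T.Dir} (h : First u v d) (g : G) :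
    First (g • u) (g • v) (d.tr g) := ⟨by rw [src_tr, h.1], (smul_mem_sep g).2 h.2⟩

lemma First.mono {u v w : T.V} {d : T.Dir} (h : First u v d) (e : sep u v ⊆ sep u w) :
    First u w d := ⟨h.1, e h.2⟩

lemma first_self (d : T.Dir) : First d.src d.tgt d := ⟨rfl, by simp [sep_src_tgt]⟩

lemma First.sep_tgt {u v : T.V} {d : T.Dir} (h : First u v d) :
    sep d.tgt v = (sep u v).erase d.1 := by
  obtain ⟨rfl, h1⟩ := h
  exact sep_step h1

/-- Number of edges of a given orbit in a finite set of edges. -/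
noncomputable def cnt (S : Finset T.E) (i : T.I) : ℕ := (S.filter fun c => c.i = i).card

lemma cnt_image (h : G) (S : Finset T.E) (i : T.I) : cnt (S.image (h • ·)) i = cnt S i := by
  unfold cnt
  rw [Finset.filter_image, Finset.card_image_of_injective _ (MulAction.injective h)]
  rfl

lemma cnt_mono {S S' : Finset T.E} (h : S ⊆ S') (i : T.I) : cnt S i ≤ cnt S' i :=
  Finset.card_le_card (Finset.filter_subset_filter _ h)

lemma cnt_pos {S : Finset T.E} {i : T.I} : 0 < cnt S i ↔ ∃ c ∈ S, c.i = i := by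
  simp [cnt, Finset.card_pos, Finset.Nonempty]

lemma sum_cnt {α : Type*} [Semiring α] (S : Finset T.E) (w : T.I → α) :
    ∑ i, (cnt S i : α) * w i = ∑ c ∈ S, w c.i := by
  rw [← Finset.sum_fiberwise_of_maps_to (s := S) (t := Finset.univ) (g := fun c => c.i)
    (fun _ _ => Finset.mem_univ _)]
  refine Finset.sum_congr rfl fun i _ => ?_
  rw [Finset.sum_congr rfl (g := fun _ => w i) fun c hc => by rw [(Finset.mem_filter.1 hc).2]]
  simp [cnt]

end Forest

end Pool.Agent.Lib.FBC
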