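import Pool.Agent.Lib.FBC.Defs

/-!
Limit half-spaces of itineraries: invariance, complement, nestedness.
-/

namespace Pool.Agent.Lib.FBC

open Forest Pointwise

variable {G : Type} [Group G] {d : Dg G} {Y : Forest d}

namespace LHA

lemma rv_src (e : Y.Dir) : e.rv.src = e.tgt := rfl

lemma rv_tgt (e : Y.Dir) : e.rv.tgt = e.src := by simp [Dir.rv, Dir.tgt, Dir.src]

lemma rv_rv (e : Y.Dir) : e.rv.rv = e := by simp [Dir.rv]

lemma mem_H {e : Y.Dir} {x : Y.V} : x ∈ e.H ↔ Y.lev x = Y.lev e.src ∧ e.1.sd x = !e.2 := Iff.rfl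

lemma mem_rvH {e : Y.Dir} {x : Y.V} : x ∈ e.rv.H ↔ Y.lev x = Y.lev e.src ∧ e.1.sd x = e.2 := by
  rw [mem_H, rv_src, ← lev_src_tgt]; simp [Dir.rv]

lemma src_mem (e : Y.Dir) : e.src ∈ e.rv.H := mem_rvH.2 ⟨rfl, sd_ed _ _⟩

lemma tgt_mem (e : Y.Dir) : e.tgt ∈ e.H := ⟨(lev_src_tgt e).symm, sd_ed _ _⟩

lemma not_both {e : Y.Dir} {x : Y.V} (h : x ∈ e.H) (h' : x ∈ e.rv.H) : False := by
  have := h.2.symm.trans (mem_rvH.1 h').2
  simp at this

lemma either {e : Y.Dir} {x : Y.V} (h : Y.lev x = Y.lev e.src) : x ∈ e.H ∨ x ∈ e.rv.H := by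
  rw [mem_H, mem_rvH]
  cases e.1.sd x <;> cases e.2 <;> simp [h]

lemma smul_mem_H (g : G) {e : Y.Dir} {x : Y.V} : g • x ∈ (e.tr g).H ↔ x ∈ e.H := by
  rw [mem_H, mem_H, src_tr, Y.lev_smul, Y.lev_smul, add_right_inj]
  simp [Dir.tr]

lemma cross_rv {a b : Y.V} {e : Y.Dir} (h : Y.Cross a b e) : Y.Cross b a e.rv :=
  ⟨by rw [rv_rv]; exact h.2, h.1⟩

lemma cross_lev {a b : Y.V} {e : Y.Dir} (h : Y.Cross a b e) : Y.lev a = Y.lev b :=
  (mem_rvH.1 h.1).1.trans h.2.1.symm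

lemma cross_mem {a b : Y.V} {e : Y.Dir} (h : Y.Cross a b e) : e.1 ∈ sep a b := by
  rw [mem_sep (cross_lev h), (mem_rvH.1 h.1).2, h.2.2]; simp

lemma cross_of_mem {a b : Y.V} {c : Y.E} (h : c ∈ sep a b) : Y.Cross a b (c, c.sd a) := by
  have h1 := lev_ed_of_mem h (c.sd a)
  refine ⟨mem_rvH.2 ⟨h1.symm, rfl⟩, (lev_eq_of_mem h).symm.trans h1.symm, ?_⟩
  have := sd_ne_of_mem h
  revert this
  cases c.sd a <;> cases c.sd b <;> simp

lemma btw_of_sub {a x b : Y.V} (h : Y.lev a = Y.lev x) (h' : Y.lev x = Y.lev b)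
    (e : sep x b ⊆ sep a b) : Y.btw a x b := by
  refine ⟨h, h', fun c hc => by_contra fun hx => ?_⟩
  exact sd_ne_of_mem (e ((mem_sep h').2 (by rwa [← hc]))) hc

lemma btw_ed {a b : Y.V} {c : Y.E} (h : c ∈ sep a b) (β : Bool) : Y.btw a (c.ed β) b :=
  btw_of_sub (lev_ed_of_mem h β).symm ((lev_ed_of_mem h β).trans (lev_eq_of_mem h))
    (sep_ed_subset h β)

lemma btw_symm {a x b : Y.V} (h : Y.btw a x b) : Y.btw b x a :=
  ⟨h.2.1.symm, h.1.symm, fun c hc => (h.2.2 c hc.symm).trans hc.symm⟩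

lemma btw_left {a b : Y.V} (h : Y.lev a = Y.lev b) : Y.btw a a b := ⟨rfl, h, fun _ _ => rfl⟩

lemma btw_src {a : Y.V} {e : Y.Dir} (h : a ∈ e.rv.H) : Y.btw a e.src e.tgt :=
  btw_ed (cross_mem (⟨h, tgt_mem e⟩ : Y.Cross a e.tgt e)) _

/-- Two different edges of one level have an empty corner. -/
lemma corner {c c' : Y.E} (h : c ≠ c') {x : Y.V} (hx : Y.lev (c.ed false) = Y.lev x)
    (h1 : c.sd x ≠ c.sd (c'.ed false)) : c'.sd x = c'.sd (c.ed false) := by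
  by_contra h2
  have l : Y.lev (c.ed (c.sd x)) = Y.lev x := (lev_ed_eq _ _ _).trans hx
  have m : c' ∈ sep (c.ed (c.sd x)) x := by
    rw [mem_sep l, sd_ed_ne h.symm _ false]; exact Ne.symm h2
  have := (btw_ed m false).2.2 c (sd_ed _ _)
  rw [sd_ed] at this
  exact h1 this.symm

end LHA

open LHA

namespace Flow

variable {s : Flow Y}

lemma lh_lev (n : ℕ) (a : Y.V) : Y.lev (s.σ^[n] a) = Y.lev a + n := by
  induction n with
  | zero => simp
  | succ n ih =>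
    rw [Function.iterate_succ_apply', σ, s.f.lev_map]
    erw [ih]; push_cast; ring

lemma lh_smul (n : ℕ) (g : G) (a : Y.V) : s.σ^[n] (g • a) = g • s.σ^[n] a := by
  induction n with
  | zero => simp
  | succ n ih =>
    rw [Function.iterate_succ_apply', Function.iterate_succ_apply', ih]
    exact s.f.map_smul _ _

lemma Desc.lh_rv {n : ℕ} {e e' : Y.Dir} (h : s.Desc n e e') : s.Desc n e.rv e'.rv := by
  unfold Desc
  rw [rv_src, rv_tgt]
  exact cross_rv h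

lemma Desc.lh_lev {n : ℕ} {e e' : Y.Dir} (h : s.Desc n e e') :
    Y.lev e'.src = Y.lev e.src + n := by
  rw [← (mem_rvH.1 h.1).1, Flow.lh_lev]

lemma lh_desc_zero {e e' : Y.Dir} (h : s.Desc 0 e e') : e' = e := by
  have h1 := cross_mem h
  simp only [Function.iterate_zero, id, sep_src_tgt, Finset.mem_singleton] at h1
  have h2 := (mem_rvH.1 h.1).2
  simp only [Function.iterate_zero, id, h1, Dir.src, sd_ed] at h2
  exact Prod.ext h1 h2.symm

lemma LegalP.lh_symm {a b : Y.V} (h : s.LegalP a b) : s.LegalP b a :=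
  ⟨h.1.symm, fun x y z hx hy hz => h.2 x y z (btw_symm hx) (btw_symm hy) (btw_symm hz)⟩

/-- Descendants of the darts of a legal path are darts of the image path. -/
lemma LegalP.lh_cross {a b : Y.V} (h : s.LegalP a b) {e e' : Y.Dir} (hc : Y.Cross a b e) {n : ℕ}
    (hd : s.Desc n e e') : Y.Cross (s.σ^[n] a) (s.σ^[n] b) e' := by
  have key : ∀ {a b : Y.V} {e e' : Y.Dir}, s.LegalP a b → Y.Cross a b e → s.Desc n e e' →
      s.σ^[n] a ∈ e'.rv.H := by
    intro a b e e' h hc hd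
    have h1 := h.2 a e.src e.tgt (btw_left h.1) (btw_ed (cross_mem hc) _)
      (btw_ed (cross_mem hc) _) (btw_src hc.1) n
    refine (either (h1.1.trans (mem_rvH.1 hd.1).1)).resolve_left fun h2 => ?_
    have := h1.2.2 e'.1 (h2.2.trans hd.2.2.symm)
    exact not_both ⟨(mem_rvH.1 hd.1).1, this.trans h2.2⟩ hd.1
  exact ⟨key h hc hd, by
    simpa only [rv_rv] using key h.lh_symm (cross_rv hc) hd.lh_rv⟩

lemma lh_desc_or {n : ℕ} (e e' : Y.Dir) (h : e'.1.sd (s.σ^[n] e.src) ≠ e'.1.sd (s.σ^[n] e.tgt)) :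
    s.Desc n e e' ∨ s.Desc n e e'.rv := by
  have l : Y.lev (s.σ^[n] e.src) = Y.lev (s.σ^[n] e.tgt) := by
    rw [lh_lev, lh_lev, lev_src_tgt]
  have := cross_of_mem ((mem_sep l).2 h)
  obtain ⟨c, β⟩ := e'
  rcases eq_or_ne (c.sd (s.σ^[n] e.src)) β with h' | h'
  · left; rwa [h'] at this
  · right; rwa [Bool.eq_not_iff.2 h'] at this

/-- Darts of the image of a legal path have ancestors on the path. -/
lemma LegalP.lh_anc {a b : Y.V} (h : s.LegalP a b) {e' : Y.Dir} {n : ℕ}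
    (hc : Y.Cross (s.σ^[n] a) (s.σ^[n] b) e') : ∃ e, Y.Cross a b e ∧ s.Desc n e e' := by
  obtain ⟨c, h1, h2⟩ := exists_cross (fun x => e'.1.sd (s.σ^[n] x)) h.1
    (sd_ne_of_mem (cross_mem hc))
  refine ⟨_, cross_of_mem h1, (lh_desc_or (c, c.sd a) e' ?_).resolve_right fun h3 => ?_⟩
  · unfold Dir.src Dir.tgt
    cases c.sd a
    exacts [h2, h2.symm]
  · exact not_both (h.lh_cross (cross_of_mem h1) h3).2 (by rw [rv_rv]; exact hc.2)

/-- Transitivity of descent for train tracks. -/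
lemma TT.lh_trans (h : s.TT) {n m : ℕ} {c e e' : Y.Dir} (h1 : s.Desc n c e) (h2 : s.Desc m e e') :
    s.Desc (m + n) c e' := by
  induction n generalizing c with
  | zero => rwa [← lh_desc_zero h1]
  | succ n ih =>
    obtain ⟨c', h3, h4⟩ := (h.legal c).lh_anc (n := n) h1
    exact (h.legal c).lh_cross h3 (ih h4)

variable {ι ι' : ℕ → Y.Dir}

lemma Itin.rv (h : s.Itin ι) : s.Itin fun n => (ι n).rv := fun n => (h n).lh_rv

lemma Itin.shift (h : s.Itin ι) (m : ℕ) : s.Itin fun n => ι (n + m) := fun n => by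
  simpa only [Nat.add_right_comm n 1 m] using h (n + m)

lemma Desc.lh_tr {n : ℕ} {e e' : Y.Dir} (h : s.Desc n e e') (g : G) :
    s.Desc n (e.tr g) (e'.tr g) := by
  unfold Desc
  rw [src_tr, tgt_tr, lh_smul, lh_smul]
  exact ⟨(smul_mem_H g (e := e'.rv)).2 h.1, (smul_mem_H g).2 h.2⟩

lemma Itin.tr (h : s.Itin ι) (g : G) : s.Itin fun n => (ι n).tr g := fun n => (h n).lh_tr g

lemma Itin.lev (h : s.Itin ι) (n : ℕ) : Y.lev (ι n).src = Y.lev (ι 0).src + n := by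
  induction n with
  | zero => simp
  | succ n ih => rw [(h n).lh_lev, ih]; push_cast; ring

/-- Later darts of an itinerary descend from every ancestor of an earlier one. -/
lemma Itin.desc_of (h : s.Itin ι) (hT : s.TT) {c : Y.Dir} {k n : ℕ} (h1 : s.Desc k c (ι n))
    (j : ℕ) : s.Desc (k + j) c (ι (n + j)) := by
  induction j with
  | zero => exact h1
  | succ j ih =>
    have := hT.lh_trans ih (h (n + j))
    rwa [Nat.add_comm 1] at this

lemma Itin.desc (h : s.Itin ι) (hT : s.TT) (n j : ℕ) : s.Desc j (ι n) (ι (n + j)) := by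
  simpa using h.desc_of hT (k := 0) (n := n) ⟨src_mem _, tgt_mem _⟩ j

lemma σ_mem_LH {a : Y.V} : s.σ a ∈ s.LH ι ↔ a ∈ s.LH ι :=
  ⟨fun ⟨n, k, h⟩ => ⟨n, k + 1, fun j => by rw [Nat.add_right_comm]; exact h j⟩,
    fun ⟨n, k, h⟩ => ⟨n + 1, k, fun j => by rw [Nat.add_right_comm]; exact h (j + 1)⟩⟩

lemma iter_mem_LH (m : ℕ) {a : Y.V} : s.σ^[m] a ∈ s.LH ι ↔ a ∈ s.LH ι := by
  induction m with
  | zero => rfl
  | succ m ih => rw [Function.iterate_succ_apply', σ_mem_LH, ih]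

lemma smul_mem_LH (g : G) {a : Y.V} : g • a ∈ s.LH (fun n => (ι n).tr g) ↔ a ∈ s.LH ι := by
  simp only [LH, Set.mem_ofPred_eq, lh_smul, smul_mem_H]

lemma smul_LH (g : G) : g • s.LH ι = s.LH fun n => (ι n).tr g := by
  ext a
  rw [Set.mem_smul_set_iff_inv_smul_mem, ← smul_mem_LH g, smul_inv_smul]

lemma LH_shift (m : ℕ) : (s.LH fun n => ι (n + m)) = s.LH ι := by
  ext a
  refine ⟨fun ⟨n, k, h⟩ => ⟨n + m, k, fun j => ?_⟩, fun ⟨n, k, h⟩ => ⟨n, k + m, fun j => ?_⟩⟩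
  · simpa only [Nat.add_right_comm n j m] using h j
  · simpa only [Nat.add_assoc, Nat.add_comm m j] using h (j + m)

/-- Membership in terms of all late times at matching levels. -/
lemma Itin.mem_LH (h : s.Itin ι) {a : Y.V} : a ∈ s.LH ι ↔
    ∃ N : ℕ, ∀ n ≥ N, ∀ k : ℕ, Y.lev a + k = Y.lev (ι 0).src + n → s.σ^[k] a ∈ (ι n).H := by
  constructor
  · rintro ⟨n, k, h1⟩
    refine ⟨n, fun m hm l e => ?_⟩
    obtain ⟨j, rfl⟩ := Nat.exists_eq_add_of_le hm
    have := (h1 0).1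
    rw [lh_lev, h.lev] at this
    obtain rfl : l = k + j := by push_cast at e this; omega
    exact h1 j
  · rintro ⟨N, h1⟩
    refine ⟨N + (Y.lev a - Y.lev (ι 0).src).toNat, N + (Y.lev (ι 0).src - Y.lev a).toNat,
      fun j => h1 _ (by omega) _ (by push_cast; omega)⟩

/-- Late darts of the itinerary see `a` on the correct side, with times counted from `a`. -/
lemma Itin.mem_LH' (h : s.Itin ι) {a : Y.V} (ha : a ∈ s.LH ι) :
    ∃ K : ℕ, ∀ k ≥ K, ∃ n : ℕ, Y.lev a + k = Y.lev (ι 0).src + n ∧ s.σ^[k] a ∈ (ι n).H := by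
  obtain ⟨n, k, h1⟩ := ha
  refine ⟨k, fun l hl => ?_⟩
  obtain ⟨j, rfl⟩ := Nat.exists_eq_add_of_le hl
  exact ⟨n + j, by rw [← lh_lev (s := s), (h1 j).1, h.lev], h1 j⟩

lemma Itin.LH_disj (h : s.Itin ι) {a : Y.V} (h1 : a ∈ s.LH ι)
    (h2 : a ∈ s.LH fun n => (ι n).rv) : False := by
  obtain ⟨n, k, h1⟩ := h1
  obtain ⟨n', k', h2⟩ := h2
  have e1 := (h1 0).1
  have e2 := (mem_rvH.1 (h2 0)).1
  rw [lh_lev, h.lev] at e1 e2
  have a1 := h1 n'
  have a2 := h2 n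
  rw [show k' + n = k + n' by push_cast at e1 e2; omega, Nat.add_comm n' n] at a2
  exact not_both a1 a2

lemma Itin.tgt_mem_LH (h : s.Itin ι) (hT : s.TT) (n : ℕ) : (ι n).tgt ∈ s.LH ι :=
  ⟨n, 0, fun j => by simpa using (h.desc hT n j).2⟩

lemma Itin.src_mem_LH (h : s.Itin ι) (hT : s.TT) (n : ℕ) :
    (ι n).src ∈ s.LH fun n => (ι n).rv := by
  simpa only [rv_tgt] using h.rv.tgt_mem_LH hT n

/-- An edge whose target is in the limit half-space while its source is not is an ancestor of the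
late darts of the itinerary; otherwise both ends stay on the same side at all matching times. -/
lemma Itin.edge (h : s.Itin ι) (hT : s.TT) (c : Y.Dir) :
    (∃ k n, ∀ j, s.Desc (k + j) c (ι (n + j))) ∨ (∃ k n, ∀ j, s.Desc (k + j) c (ι (n + j)).rv) ∨
      ∀ k n, (ι n).1.sd (s.σ^[k] c.src) = (ι n).1.sd (s.σ^[k] c.tgt) := by
  by_cases e : ∀ k n, (ι n).1.sd (s.σ^[k] c.src) = (ι n).1.sd (s.σ^[k] c.tgt)
  · exact Or.inr (Or.inr e)
  push Not at e
  obtain ⟨k, n, e⟩ := e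
  rcases lh_desc_or c (ι n) e with e | e
  · exact Or.inl ⟨k, n, h.desc_of hT e⟩
  · exact Or.inr (Or.inl ⟨k, n, h.rv.desc_of hT e⟩)

lemma lh_same {c : Y.Dir}
    (e : ∀ k n, (ι n).1.sd (s.σ^[k] c.src) = (ι n).1.sd (s.σ^[k] c.tgt)) (h : c.src ∈ s.LH ι) :
    c.tgt ∈ s.LH ι := by
  obtain ⟨n, k, h⟩ := h
  refine ⟨n, k, fun j => ⟨?_, (e _ _).symm.trans (h j).2⟩⟩
  rw [← (h j).1, lh_lev, lh_lev, lev_src_tgt]

lemma Itin.LH_or (h : s.Itin ι) (hT : s.TT) (a : Y.V) :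
    a ∈ s.LH ι ∨ a ∈ s.LH fun n => (ι n).rv := by
  have key : ∀ n x, Y.lev x = Y.lev (ι n).tgt → x ∈ s.LH ι ∨ x ∈ s.LH fun n => (ι n).rv := by
    intro n x hx
    refine geo_ind (P := fun x => x ∈ s.LH ι ∨ x ∈ s.LH fun n => (ι n).rv)
      (Or.inl (h.tgt_mem_LH hT n)) (fun c b _ ih => ?_) hx
    have e : c.ed b = Dir.tgt (c, !b) := by simp [Dir.tgt]
    rw [e]
    rcases h.edge hT (c, !b) with ⟨k, m, h1⟩ | ⟨k, m, h1⟩ | h1
    · exact Or.inl ⟨m, k, fun j => (h1 j).2⟩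
    · exact Or.inr ⟨m, k, fun j => (h1 j).2⟩
    · exact ih.imp (lh_same h1) (lh_same (ι := fun n => (ι n).rv) h1)
  have := key (Y.lev a - Y.lev (ι 0).src).toNat (s.σ^[(Y.lev (ι 0).src - Y.lev a).toNat] a) (by
    rw [← lev_src_tgt, lh_lev, h.lev (Int.toNat _)]; omega)
  rwa [iter_mem_LH, iter_mem_LH] at this

/-- The complement of a limit half-space is the limit half-space of the reversed itinerary. -/
theorem Itin.not_mem_LH (h : s.Itin ι) (hT : s.TT) {a : Y.V} :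
    a ∉ s.LH ι ↔ a ∈ s.LH fun n => (ι n).rv :=
  ⟨(h.LH_or hT a).resolve_left, fun h2 h1 => h.LH_disj h1 h2⟩

theorem Itin.compl_LH (h : s.Itin ι) (hT : s.TT) : (s.LH ι)ᶜ = s.LH fun n => (ι n).rv :=
  Set.ext fun _ => h.not_mem_LH hT

/-- A dart that enters the limit half-space is an ancestor of the late darts. -/
lemma Itin.desc_of_enter (h : s.Itin ι) (hT : s.TT) {c : Y.Dir} (h1 : c.src ∉ s.LH ι)
    (h2 : c.tgt ∈ s.LH ι) : ∃ k n, ∀ j, s.Desc (k + j) c (ι (n + j)) := by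
  rcases h.edge hT c with e | ⟨k, n, e⟩ | e
  · exact e
  · exact (h.LH_disj h2 ⟨n, k, fun j => (e j).2⟩).elim
  · exact (h.LH_disj h2 (lh_same (ι := fun n => (ι n).rv) e ((h.not_mem_LH hT).1 h1))).elim

/-- Finitely many points of limit half-spaces are seen correctly at all high levels. -/
lemma Itin.high (h : s.Itin ι) {a : Y.V} (ha : a ∈ s.LH ι) :
    ∀ᶠ l : ℤ in Filter.atTop,
      s.σ^[(l - Y.lev a).toNat] a ∈ (ι (l - Y.lev (ι 0).src).toNat).H := by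
  obtain ⟨N, h1⟩ := h.mem_LH.1 ha
  filter_upwards [Filter.eventually_ge_atTop (Y.lev a),
    Filter.eventually_ge_atTop (Y.lev (ι 0).src + N)] with l e1 e2
  exact h1 _ (by omega) _ (by omega)

/-- Two limit half-spaces are nested: the four corners are not all inhabited. -/
theorem Itin.nested (h : s.Itin ι) (h' : s.Itin ι') (hT : s.TT) {a b c e : Y.V}
    (a1 : a ∈ s.LH ι) (a2 : a ∈ s.LH ι') (b1 : b ∈ s.LH ι) (b2 : b ∉ s.LH ι')
    (c1 : c ∉ s.LH ι) (c2 : c ∈ s.LH ι') (e1 : e ∉ s.LH ι) (e2 : e ∉ s.LH ι') : False := by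
  rw [h.not_mem_LH hT] at c1 e1
  rw [h'.not_mem_LH hT] at b2 e2
  obtain ⟨l, ⟨⟨⟨a1, a2⟩, b1, b2⟩, c1, c2⟩, e1, e2⟩ := ((((h.high a1).and (h'.high a2)).and
    ((h.high b1).and (h'.rv.high b2))).and ((h.rv.high c1).and (h'.high c2))).and
    ((h.rv.high e1).and (h'.rv.high e2)) |>.exists
  simp only [rv_src, ← lev_src_tgt] at b2 c1 e1 e2
  rw [mem_rvH] at b2 c1 e1 e2
  generalize ι _ = u at *
  generalize ι' _ = v at *
  have l0 : Y.lev (u.1.ed false) = Y.lev u.src := lev_ed_eq _ _ _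
  by_cases huv : u.1 = v.1
  · have := a1.2.trans b1.2.symm
    rw [huv, a2.2, b2.2] at this
    simp at this
  · have A := corner huv (l0.trans a1.1.symm)
    have B := corner huv (l0.trans b1.1.symm)
    have C := corner huv (l0.trans c1.1.symm)
    have D := corner huv (l0.trans e1.1.symm)
    rw [a1.2, a2.2] at A
    rw [b1.2, b2.2] at B
    rw [c1.2, c2.2] at C
    rw [e1.2, e2.2] at D
    revert A B C D
    cases u.2 <;> cases v.2 <;> cases u.1.sd (v.1.ed false) <;> cases v.1.sd (u.1.ed false) <;> simp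

theorem Itin.nested' (h : s.Itin ι) (h' : s.Itin ι') (hT : s.TT) :
    s.LH ι ⊆ s.LH ι' ∨ s.LH ι' ⊆ s.LH ι ∨ Disjoint (s.LH ι) (s.LH ι') ∨
      s.LH ι ∪ s.LH ι' = Set.univ := by
  by_contra H
  simp only [not_or, Set.not_subset, Set.not_disjoint_iff, Set.eq_univ_iff_forall, not_forall,
    Set.mem_union] at H
  obtain ⟨⟨b, b1, b2⟩, ⟨c, c2, c1⟩, ⟨a, a1, a2⟩, e, e1, e2⟩ := H
  exact h.nested h' hT a1 a2 b1 b2 c1 c2 e1 e2

end Flow

end Pool.Agent.Lib.FBC
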