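import Pool.Agent.Lib.FBC.RIB.All
import Pool.Agent.Lib.FBC.RIB.Final
import Pool.Agent.Lib.FBC.RH.Main

/-!
The structure theorem with the periodic case analysed.
-/

namespace Pool.Agent.Lib.FBC

open SemidirectProduct RIB RIB.Final
open Pool.Agent.Lib.MP_288210_al (LERF)

theorem struct_of (hM : St_MAIN) (n : ℕ) (φ : MulAut (FreeGroup (Fin n))) (h : LERF (MT φ)) :
    ((∃ (k : ℕ) (w : FreeGroup (Fin n)), 0 < k ∧ ∀ x, (φ ^ k) x = w * x * w⁻¹) ∧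
      (RH.RelHyp (MT φ) → RH.WordHyp (MT φ))) ∨
    ∃ (ψ : MulAut (FreeGroup (Fin n))) (b : ℕ) (c : Fin b → List (Fin n × Bool))
      (u : Fin b → FreeGroup (Fin n)), SurfW c ∧ (∀ j, u j = ψ (FreeGroup.mk (c j)) ∧ u j ≠ 1) ∧
      (∀ j, ∃ i, IsConj (φ (u j)) (u i) ∨ IsConj (φ (u j)) (u i)⁻¹) ∧
      ∀ x, x ≠ 1 → ((∃ k : ℕ, 0 < k ∧ IsConj ((φ ^ k) x) x) ↔
        ∃ (j : Fin b) (l : ℤ), IsConj x (u j ^ l)) := by
  refine (final_of hM stROOT n φ h).imp_left fun hp => ⟨hp, ?_⟩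
  obtain ⟨k, w, k0, hw⟩ := hp
  refine RH.stRH (d := dd φ) ⟨rightHom_surjective, IsFreeGroup.ofMulEquiv (ke φ),
    (Group.fg_iff_subgroup_fg _).1 (Group.fg_of_surjective (f := (ke φ).toMonoidHom)
      (ke φ).surjective), h⟩ ⟨(inl w)⁻¹ * tt φ k, ?_, fun x hx => ?_⟩
  · simpa [dg, tt] using k0.ne'
  · obtain ⟨x, rfl⟩ := of_mem φ hx
    have := conj_tt φ k x
    rw [hw, mul_inv_eq_iff_eq_mul, map_mul, map_mul, map_inv] at this
    rw [mul_assoc, this]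
    group

end Pool.Agent.Lib.FBC
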