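import Pool.Agent.Lib.FBC.State

set_option autoImplicit false

namespace Pool.Agent.Lib.FBC

open Forest

theorem POT_holds : St_POT := by
  intro G _ deg T l w
  by_cases hl : ∃ x0 : T.V, T.lev x0 = l
  swap
  · exact ⟨fun _ => 0, fun c hc => (hl ⟨_, hc⟩).elim⟩
  obtain ⟨x0, hx0⟩ := hl
  refine ⟨fun x => ∑ e ∈ sep x x0, if e.sd x = true then w e else - w e, fun c hc => ?_⟩
  have hlev : T.lev (c.ed false) = T.lev x0 := hc.trans hx0.symm
  have same : ∀ s : Finset T.E, c ∉ s →
      ∑ e ∈ s, (if e.sd (c.ed true) = true then w e else - w e) =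
        ∑ e ∈ s, (if e.sd (c.ed false) = true then w e else - w e) := by
    intro s hs
    refine Finset.sum_congr rfl fun e he => ?_
    have ne : e ≠ c := fun q => hs (q ▸ he)
    rw [sd_ed_ne ne true false]
  by_cases m : c ∈ sep (c.ed false) x0
  · have e1 : sep (c.ed true) x0 = (sep (c.ed false) x0).erase c := sep_step m
    have e2 := Finset.add_sum_erase (sep (c.ed false) x0)
      (fun e => if e.sd (c.ed false) = true then w e else - w e) m
    simp only []
    rw [e1, same _ (Finset.notMem_erase _ _), ← e2]
    simp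
  · have e1 : sep (c.ed true) x0 = insert c (sep (c.ed false) x0) := sep_step' hlev m
    simp only []
    rw [e1, Finset.sum_insert m, same _ m]
    simp

end Pool.Agent.Lib.FBC
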