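import Pool.Agent.Lib.FBC.State

set_option autoImplicit false
set_option linter.unusedVariables false

/-!
The Cayley forest of a basis of the kernel.
-/

namespace Pool.Agent.Lib.FBC

open Forest

namespace Start

open Classical in
/-- Crossing the edge from `u` to `u x_j` flips the flag iff it is the base edge number `i`. -/
noncomputable def flip {α : Type} (i j : α) : Equiv.Perm (FreeGroup α × Bool) where
  toFun p := (p.1 * FreeGroup.of j, xor p.2 (decide (p.1 = 1 ∧ j = i)))
  invFun p := (p.1 * (FreeGroup.of j)⁻¹, xor p.2 (decide (p.1 * (FreeGroup.of j)⁻¹ = 1 ∧ j = i)))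
  left_inv p := by
    ext
    · simp
    · simp only [mul_inv_cancel_right, Bool.xor_assoc, Bool.xor_self, Bool.xor_false]
  right_inv p := by
    ext
    · simp
    · simp only [Bool.xor_assoc, Bool.xor_self, Bool.xor_false]

/-- The induced action. -/
noncomputable def act {α : Type} (i : α) : FreeGroup α →* Equiv.Perm (FreeGroup α × Bool) :=
  FreeGroup.lift fun j => (flip i j)⁻¹

lemma act_fst {α : Type} (i : α) (u : FreeGroup α) :
    ∀ p, (act i u p).1 = p.1 * u⁻¹ := by
  induction u using FreeGroup.induction_on with
  | C1 => simp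
  | of j => intro p; simp only [act, FreeGroup.lift_apply_of]; rfl
  | inv_of j h =>
    intro p
    simp only [act, map_inv, FreeGroup.lift_apply_of, inv_inv]
    rfl
  | mul a b ha hb =>
    intro p
    rw [map_mul, Equiv.Perm.mul_apply, ha, hb, mul_inv_rev, mul_assoc]

/-- The wall of the base edge number `i` in the free group. -/
noncomputable def eps {α : Type} (i : α) (u : FreeGroup α) : Bool := (act i u⁻¹ (1, false)).2

lemma eps_one {α : Type} (i : α) : eps i 1 = false := by simp [eps]

open Classical in
lemma eps_mul {α : Type} (i j : α) (u : FreeGroup α) :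
    eps i (u * FreeGroup.of j) = xor (eps i u) (decide (u = 1 ∧ j = i)) := by
  have h1 : (act i u⁻¹ (1, false)).1 = u := by rw [act_fst]; simp
  have h2 : act i (FreeGroup.of j)⁻¹ = flip i j := by
    simp only [act, map_inv, FreeGroup.lift_apply_of, inv_inv]
  rw [eps, mul_inv_rev, map_mul, Equiv.Perm.mul_apply, h2]
  change xor (act i u⁻¹ (1, false)).2 (decide ((act i u⁻¹ (1, false)).1 = 1 ∧ j = i)) = _
  rw [h1]
  rfl

variable {G : Type} [Group G] {deg : G →* Multiplicative ℤ} {n : ℕ}

/-- The Cayley forest. -/
noncomputable def cay (ι : FreeGroup (Fin n) →* G) (hι : Function.Injective ι)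
    (hr : ι.range = deg.ker) : Forest deg where
  V := G
  I := Fin n
  en i b := if b then ι (FreeGroup.of i) else 1
  lev g := (deg g).toAdd
  lev_smul g v := by simp
  lev_en i b := by
    have : ι (FreeGroup.of i) ∈ deg.ker := hr ▸ ⟨_, rfl⟩
    cases b
    · simp
    · simpa using this
  side i := Function.extend ι (eps i) fun _ => false
  side_en i b := by
    cases b
    · have := hι.extend_apply (eps i) (fun _ => false) 1
      rw [map_one, eps_one] at this
      simpa using this
    · have := eps_mul i i 1
      rw [one_mul, eps_one] at this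
      simp only [if_true]
      rw [hι.extend_apply, this]
      simp
  cross i j g h := by
    simp only [smul_eq_mul, if_true, Bool.false_eq_true, if_false, mul_one]
    by_cases hg : ∃ u, ι u = g
    · obtain ⟨u, rfl⟩ := hg
      rw [← map_mul, hι.extend_apply, hι.extend_apply, eps_mul]
      have : ¬(u = 1 ∧ j = i) := fun e => h (by rw [e.1, e.2, map_one])
      simp [this]
    · rw [Function.extend_apply' _ _ _ hg, Function.extend_apply']
      rintro ⟨u, hu⟩
      exact hg ⟨u * (FreeGroup.of j)⁻¹, by rw [map_mul, hu, map_inv, mul_inv_cancel_right]⟩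
  conn u v h := by
    have h1 : u⁻¹ * v ∈ ι.range := by
      rw [hr, MonoidHom.mem_ker, map_mul, map_inv, inv_mul_eq_one]
      exact Multiplicative.toAdd.injective h
    obtain ⟨w, hw⟩ := h1
    have h2 : v = u * ι w := by rw [hw, mul_inv_cancel_left]
    subst h2
    clear hw h
    induction w using FreeGroup.induction_on generalizing u with
    | C1 => rw [map_one, mul_one]
    | of j => exact .single ⟨u, j, false, by simp, by simp⟩
    | inv_of j h => exact .single ⟨u * ι (FreeGroup.of j)⁻¹, j, true, by simp, by simp⟩
    | mul a b ha hb =>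
      rw [map_mul, ← mul_assoc]
      exact (ha u).trans (hb _)

lemma rank (ι : FreeGroup (Fin n) →* G) (hι : Function.Injective ι)
    (hr : ι.range = deg.ker) : Rank deg n := by
  classical
  refine ⟨⟨Finset.univ.image fun i => ι (FreeGroup.of i), ?_, ?_⟩, fun H hH h0 => ?_⟩
  · exact Finset.card_image_le.trans (by simp)
  · rw [← hr, MonoidHom.range_eq_map, ← FreeGroup.closure_range_of, MonoidHom.map_closure]
    congr 1
    ext g
    simp
  · rw [← hr] at hH
    obtain ⟨K, rfl⟩ : ∃ K : Subgroup (FreeGroup (Fin n)), K.map ι = H :=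
      ⟨_, Subgroup.map_comap_eq_self hH⟩
    have hK : K ≠ ⊥ := fun e => h0 (by rw [e, Subgroup.map_bot])
    have hne : Nonempty (IsFreeGroup.Generators K) := by
      by_contra he
      rw [not_nonempty_iff] at he
      have : Subsingleton K := (IsFreeGroup.toFreeGroup K).injective.subsingleton
      exact hK (Subgroup.eq_bot_of_subsingleton K)
    obtain ⟨a⟩ := hne
    let e := K.equivMapOfInjective ι hι
    refine ⟨(IsFreeGroup.lift fun _ => Multiplicative.ofAdd (1 : ℚ)).comp e.symm.toMonoidHom,
      fun h => ?_⟩
    have := DFunLike.congr_fun h (e (IsFreeGroup.of a))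
    simp at this

end Start

theorem START_holds : St_START := by
  intro G _ deg n ι hι hr hn hs
  refine ⟨Start.rank ι hι hr, Start.cay ι hι hr, ⟨⟨(1 : G)⟩, fun x => ?_⟩, fun g x h => ?_,
    fun k => ?_⟩
  · refine ⟨ι (FreeGroup.of ⟨0, Nat.pos_of_ne_zero hn⟩), ?_, fun h => ?_⟩
    · rw [← MonoidHom.mem_ker, ← hr]
      exact ⟨_, rfl⟩
    · have h1 : ι (FreeGroup.of ⟨0, Nat.pos_of_ne_zero hn⟩) * (show G from x) = x := h
      exact FreeGroup.of_ne_one _ (hι ((mul_eq_right.1 h1).trans (map_one ι).symm))
  · have h1 : g * (show G from x) = x := h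
    exact mul_eq_right.1 h1
  · obtain ⟨t, ht⟩ := hs (Multiplicative.ofAdd k)
    refine ⟨⟨fun v => (show G from v) * t, fun g v => mul_assoc g (show G from v) t, fun v => ?_⟩⟩
    change (deg ((show G from v) * t)).toAdd = (deg (show G from v)).toAdd + k
    rw [map_mul, ht]
    rfl

end Pool.Agent.Lib.FBC
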