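import Pool.Agent.Lib.FBC.T7.AB
import Pool.Agent.Lib.FBC.T7.AXN
import Pool.Agent.Lib.FBC.T7.MKF
import Pool.Agent.Lib.FBC.T7.ONE
import Pool.Agent.Lib.FBC.T7.VCYC
import Pool.Agent.Lib.FBC.T7.C.Nat
import Pool.Agent.Lib.FBC.T7.C.Peri
import Pool.Agent.Lib.FBC.T7.C.Walls
import Pool.Agent.Lib.FBC.X1.Final
import Pool.Agent.Lib.FBC.X2.MAIN
import Pool.Agent.Lib.FBC.X5.Final
import Pool.Agent.Lib.FBC.Struct

/-!
The structure theorem for LERF free-by-cyclic groups.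
-/

namespace Pool.Agent.Lib.FBC

theorem main_holds : St_MAIN :=
  X2.stMAIN stTT X5.stNF (T7.t7_of' (T7.stONE X3.vht_holds) (T7C.c_of T7C.stWALLS
    (T7C.stNAT T7.stMKF) (T7C.stPERI T7.stVCYC T7.stAXN))) RIB.stRIB X3.vht_holds

end Pool.Agent.Lib.FBC
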