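import Mathlib

set_option autoImplicit false
set_option linter.unusedVariables false

/-!
Nonnegative integer matrices: irreducibility, frequency vectors, strict drop, finiteness.
-/

namespace Pool.Agent.Lib.FBC

open Finset

variable {I J : Type} [Fintype I] [Fintype J]

/-- Irreducible matrices; `i` points to `j` if `M j i` is positive. -/
def Irr (M : I → I → ℕ) : Prop := ∀ i j, Relation.TransGen (fun a b => 0 < M b a) i j

/-- A positive vector with `M w ≤ lam w`. -/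
def Freq (M : I → I → ℕ) (lam : ℝ) : Prop :=
  ∃ w : I → ℝ, (∀ i, 0 < w i) ∧ ∀ j, ∑ i, (M j i : ℝ) * w i ≤ lam * w j

omit [Fintype I] in
lemma Irr.cross {M : I → I → ℕ} (h : Irr M) {S : I → Prop} {a b : I} (ha : S a) (hb : ¬ S b) :
    ∃ i j, S i ∧ ¬ S j ∧ 0 < M j i := by
  by_contra H
  push Not at H
  refine hb ?_
  induction h a b with
  | single e => by_contra e'; exact e.ne' (Nat.le_zero.1 (H _ _ ha e'))
  | @tail x y _ e ih =>
    by_contra e'
    by_cases hx : S x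
    · exact e.ne' (Nat.le_zero.1 (H _ _ hx e'))
    · exact hx (ih hx)

omit [Fintype I] in
lemma Irr.exists_col {M : I → I → ℕ} (h : Irr M) (i : I) : ∃ j, 0 < M j i := by
  obtain ⟨j, e, -⟩ := Relation.TransGen.head'_iff.1 (h i i)
  exact ⟨j, e⟩

omit [Fintype I] in
lemma Irr.exists_row {M : I → I → ℕ} (h : Irr M) (j : I) : ∃ i, 0 < M j i := by
  obtain ⟨i, -, e⟩ := Relation.TransGen.tail'_iff.1 (h j j)
  exact ⟨i, e⟩

omit [Fintype I] in
lemma Irr.mono {M M' : I → I → ℕ} (h : Irr M) (e : ∀ j i, M j i ≤ M' j i) : Irr M' := fun i j =>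
  Relation.TransGen.mono (r := fun a b => 0 < M b a) (fun a b hab => hab.trans_le (e b a)) i j (h i j)

lemma Freq.mono {M M' : I → I → ℕ} {lam : ℝ} (h : Freq M lam) (e : ∀ j i, M' j i ≤ M j i) :
    Freq M' lam :=
  let ⟨w, h0, h1⟩ := h
  ⟨w, h0, fun j => (sum_le_sum fun i _ =>
    mul_le_mul_of_nonneg_right (Nat.cast_le.2 (e j i)) (h0 i).le).trans (h1 j)⟩

lemma strict_all {M : I → I → ℕ} (h : Irr M) {lam : ℝ} {w : I → ℝ} (h0 : ∀ i, 0 < w i)
    (h1 : ∀ j, ∑ i, (M j i : ℝ) * w i ≤ lam * w j) (h2 : ∃ j, ∑ i, (M j i : ℝ) * w i < lam * w j) :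
    ∃ w : I → ℝ, (∀ i, 0 < w i) ∧ ∀ j, ∑ i, (M j i : ℝ) * w i < lam * w j := by
  classical
  induction hn : (univ.filter fun j => ¬ ∑ i, (M j i : ℝ) * w i < lam * w j).card
    using Nat.strong_induction_on generalizing w with
  | _ n ih =>
  by_cases H : ∀ j, ∑ i, (M j i : ℝ) * w i < lam * w j
  · exact ⟨w, h0, H⟩
  obtain ⟨b, hb⟩ := not_forall.1 H
  obtain ⟨a, ha⟩ := h2
  obtain ⟨i0, j0, hi, hj, hM⟩ := h.cross (S := fun j => ∑ i, (M j i : ℝ) * w i < lam * w j) ha hb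
  obtain ⟨ε, e0, e1, e2⟩ : ∃ ε : ℝ, 0 < ε ∧ ε < w i0 ∧
      ∑ i, (M i0 i : ℝ) * w i < lam * (w i0 - ε) := by
    have c1 : ∀ᶠ ε in nhds (0 : ℝ), ε < w i0 := eventually_lt_nhds (h0 i0)
    have c2 : ∀ᶠ ε in nhds (0 : ℝ), ∑ i, (M i0 i : ℝ) * w i < lam * (w i0 - ε) :=
      ContinuousAt.eventually_lt continuousAt_const (by fun_prop) (by simpa using hi)
    obtain ⟨ε, h1, h2⟩ := (((c1.and c2).filter_mono nhdsWithin_le_nhds).and
      (self_mem_nhdsWithin (s := Set.Ioi (0 : ℝ)) (a := 0))).exists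
    exact ⟨ε, h2, h1.1, h1.2⟩
  set w' : I → ℝ := fun i => if i = i0 then w i - ε else w i with hw'
  have s1 : ∀ j, ∑ i, (M j i : ℝ) * w' i = ∑ i, (M j i : ℝ) * w i - M j i0 * ε := fun j => by
    have : ∀ i, (M j i : ℝ) * w' i = M j i * w i - if i = i0 then M j i0 * ε else 0 := fun i => by
      simp only [hw']
      split_ifs with e
      · rw [e]; ring
      · ring
    simp [this]
  have s2 : ∀ j, ∑ i, (M j i : ℝ) * w' i ≤ ∑ i, (M j i : ℝ) * w i := fun j => by
    rw [s1]; have : (0 : ℝ) ≤ M j i0 * ε := by positivity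
    linarith
  have s3 : ∀ j, ∑ i, (M j i : ℝ) * w i < lam * w j → ∑ i, (M j i : ℝ) * w' i < lam * w' j := by
    intro j hj
    by_cases e : j = i0
    · subst e; simpa [hw'] using (s2 j).trans_lt e2
    · simpa [hw', e] using (s2 j).trans_lt hj
  have s4 : ∑ i, (M j0 i : ℝ) * w' i < lam * w' j0 := by
    have e : j0 ≠ i0 := fun e => hj (e ▸ hi)
    have : (0 : ℝ) < M j0 i0 * ε := by positivity
    have h3 := h1 j0
    rw [s1]; simp only [hw', e, if_false]; linarith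
  refine ih _ ?_ (w := w') (fun i => ?_) (fun j => ?_) ⟨j0, s4⟩ rfl
  · rw [← hn]
    refine card_lt_card ⟨fun j hj => ?_, fun hs => ?_⟩
    · simp only [mem_filter, mem_univ, true_and] at hj ⊢
      exact fun e => hj (s3 j e)
    · have := @hs j0 (by simpa using hj)
      simp only [mem_filter, mem_univ, true_and] at this
      exact this s4
  · simp only [hw']
    split_ifs with e
    · rw [e]; linarith
    · exact h0 i
  · by_cases e : j = i0
    · exact (s3 j (e ▸ hi)).le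
    · simpa [hw', e] using (s2 j).trans (h1 j)

lemma freq_of_strict {M : I → I → ℕ} {lam : ℝ} {w : I → ℝ} (h0 : ∀ i, 0 < w i)
    (h1 : ∀ j, ∑ i, (M j i : ℝ) * w i < lam * w j) : ∃ mu < lam, Freq M mu := by
  have c : ∀ᶠ mu in nhds lam, ∀ j, ∑ i, (M j i : ℝ) * w i < mu * w j :=
    Filter.eventually_all.2 fun j =>
      ContinuousAt.eventually_lt continuousAt_const (by fun_prop) (h1 j)
  obtain ⟨mu, h2, h3⟩ := ((c.filter_mono nhdsWithin_le_nhds).and
    (self_mem_nhdsWithin (s := Set.Iio lam) (a := lam))).exists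
  exact ⟨mu, h3, w, h0, fun j => (h2 j).le⟩

/-- Strict drop: a proper submatrix of an irreducible matrix has a smaller growth rate. -/
lemma Freq.drop {M M0 : I → I → ℕ} {lam : ℝ} (hf : Freq M lam) (h : Irr M)
    (e : ∀ j i, M0 j i ≤ M j i) (e' : ∃ j i, M0 j i < M j i) : ∃ mu < lam, Freq M0 mu := by
  obtain ⟨w, h0, h1⟩ := hf
  obtain ⟨j0, i0, e'⟩ := e'
  have le : ∀ (w : I → ℝ), (∀ i, 0 < w i) → ∀ j,
      ∑ i, (M0 j i : ℝ) * w i ≤ ∑ i, (M j i : ℝ) * w i := fun w h0 j =>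
    sum_le_sum fun i _ => mul_le_mul_of_nonneg_right (Nat.cast_le.2 (e j i)) (h0 i).le
  have sp : ∀ (w : I → ℝ) j, ∑ i, ((M j i + M0 j i : ℕ) : ℝ) * w i =
      ∑ i, (M j i : ℝ) * w i + ∑ i, (M0 j i : ℝ) * w i := fun w j => by
    simp [add_mul, sum_add_distrib]
  obtain ⟨w', h2, h3⟩ := strict_all (M := fun j i => M j i + M0 j i) (lam := 2 * lam)
    (h.mono fun j i => Nat.le_add_right _ _) h0
    (fun j => by rw [sp]; linarith [h1 j, le w h0 j]) ⟨j0, by
      have : ∑ i, (M0 j0 i : ℝ) * w i < ∑ i, (M j0 i : ℝ) * w i :=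
        sum_lt_sum (fun i _ => mul_le_mul_of_nonneg_right (Nat.cast_le.2 (e j0 i)) (h0 i).le)
          ⟨i0, mem_univ _, mul_lt_mul_of_pos_right (Nat.cast_lt.2 e') (h0 i0)⟩
      rw [sp]; linarith [h1 j0]⟩
  refine freq_of_strict h2 fun j => ?_
  have := h3 j
  rw [sp] at this
  linarith [le w' h2 j]

lemma Freq.nonneg [Nonempty I] {M : I → I → ℕ} {lam : ℝ} (hf : Freq M lam) : 0 ≤ lam := by
  obtain ⟨w, h0, h1⟩ := hf
  obtain ⟨j⟩ := ‹Nonempty I›
  have : 0 ≤ lam * w j := (sum_nonneg fun i _ => mul_nonneg (Nat.cast_nonneg _) (h0 i).le).trans (h1 j)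
  exact nonneg_of_mul_nonneg_left this (h0 j)

lemma exists_freq (M : I → I → ℕ) : ∃ lam, Freq M lam :=
  ⟨∑ j, ∑ i, (M j i : ℝ), fun _ => 1, fun _ => one_pos, fun j => by
    simpa using single_le_sum (f := fun j => ∑ i, (M j i : ℝ))
      (fun j _ => sum_nonneg fun i _ => Nat.cast_nonneg _) (mem_univ j)⟩

/-- The least growth rate is attained. -/
lemma Irr.exists_least [Nonempty I] {M : I → I → ℕ} (h : Irr M) :
    ∃ lam, IsLeast {mu | Freq M mu} lam := by
  obtain ⟨l0, hl0⟩ := exists_freq M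
  set K : Set ((I → ℝ) × ℝ) := (stdSimplex ℝ I ×ˢ Set.Icc 0 l0) ∩
    {p | ∀ j, ∑ i, (M j i : ℝ) * p.1 i ≤ p.2 * p.1 j} with hK
  have cK : IsCompact K := by
    refine ((isCompact_stdSimplex ℝ I).prod isCompact_Icc).inter_right ?_
    simp only [Set.ofPred_forall]
    exact isClosed_iInter fun j => isClosed_le (by fun_prop) (by fun_prop)
  have mem : ∀ mu, Freq M mu → mu ≤ l0 → ∃ w, (w, mu) ∈ K := fun mu hmu hle => by
    have hn := hmu.nonneg
    obtain ⟨w, h0, h1⟩ := hmu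
    have hs : 0 < ∑ i, w i := sum_pos (fun i _ => h0 i) univ_nonempty
    refine ⟨fun i => w i / ∑ i, w i, ⟨⟨fun i => (div_pos (h0 i) hs).le, ?_⟩, hn, hle⟩, fun j => ?_⟩
    · rw [← sum_div, div_self hs.ne']
    · simp only [← mul_div_assoc, ← sum_div]
      exact div_le_div_of_nonneg_right (h1 j) hs.le
  obtain ⟨⟨w, lam⟩, ⟨⟨hw, hl⟩, h1⟩, hmin⟩ := cK.exists_isMinOn
    (let ⟨w, e⟩ := mem l0 hl0 le_rfl; ⟨_, e⟩) (f := Prod.snd) continuous_snd.continuousOn
  refine ⟨lam, ⟨w, fun b => ?_, h1⟩, fun mu hmu => ?_⟩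
  · by_contra hb
    obtain ⟨a, ha⟩ : ∃ a, 0 < w a := by
      by_contra H
      push Not at H
      have := sum_nonpos (s := univ) fun i _ => H i
      linarith [hw.2]
    obtain ⟨i, j, hi, hj, hM⟩ := h.cross (S := fun i => 0 < w i) ha hb
    have e : w j = 0 := le_antisymm (not_lt.1 hj) (hw.1 j)
    have h2 := h1 j
    simp only [e, mul_zero] at h2
    have h3 := single_le_sum (f := fun i => (M j i : ℝ) * w i)
      (fun i _ => mul_nonneg (Nat.cast_nonneg _) (hw.1 i)) (mem_univ i)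
    have : (0 : ℝ) < M j i * w i := by positivity
    linarith
  · by_cases hle : mu ≤ l0
    · obtain ⟨w', e⟩ := mem mu hmu hle
      exact hmin e
    · exact hl.2.trans (not_le.1 hle).le

/-- Perron and Frobenius. -/
lemma Irr.exists_eigen [Nonempty I] {M : I → I → ℕ} (h : Irr M) :
    ∃ (lam : ℝ) (w : I → ℝ), (∀ i, 0 < w i) ∧ ∀ j, ∑ i, (M j i : ℝ) * w i = lam * w j := by
  obtain ⟨lam, ⟨w, h0, h1⟩, h2⟩ := h.exists_least
  refine ⟨lam, w, h0, fun j => by_contra fun e => ?_⟩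
  obtain ⟨w', h3, h4⟩ := strict_all h h0 h1 ⟨j, lt_of_le_of_ne (h1 j) e⟩
  obtain ⟨mu, h5, h6⟩ := freq_of_strict h3 h4
  exact h5.not_ge (h2 h6)

omit [Fintype I] in
lemma Irr.transpose {M : I → I → ℕ} (h : Irr M) : Irr fun j i => M i j := fun i j =>
  (h j i).swap

/-- The entries of an irreducible matrix are bounded in terms of the growth rate. -/
lemma Freq.entry_le {M : I → I → ℕ} {lam L : ℝ} (hf : Freq M lam) (h : Irr M) (hL : lam ≤ L)
    (h1L : 1 ≤ L) {N : ℕ} (hN : Fintype.card I ≤ N) (j i : I) : (M j i : ℝ) ≤ L ^ (N + 1) := by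
  classical
  obtain ⟨w, h0, h1⟩ := hf
  have step : ∀ j i, (M j i : ℝ) * w i ≤ L * w j := fun j i =>
    ((single_le_sum (f := fun i => (M j i : ℝ) * w i)
      (fun i _ => mul_nonneg (Nat.cast_nonneg _) (h0 i).le) (mem_univ i)).trans (h1 j)).trans
      (mul_le_mul_of_nonneg_right hL (h0 j).le)
  have key : ∀ m : ℕ, (∀ a, w a ≤ L ^ m * w i) ∨
      m < (univ.filter fun a => w a ≤ L ^ m * w i).card := by
    intro m
    induction m with
    | zero => exact Or.inr (card_pos.2 ⟨i, by simp⟩)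
    | succ m ih =>
      have up : ∀ a, w a ≤ L ^ m * w i → w a ≤ L ^ (m + 1) * w i := fun a ha =>
        ha.trans (mul_le_mul_of_nonneg_right (pow_le_pow_right₀ h1L m.le_succ) (h0 i).le)
      by_cases H : ∀ a, w a ≤ L ^ m * w i
      · exact Or.inl fun a => up a (H a)
      obtain ⟨b, hb⟩ := not_forall.1 H
      have hi : w i ≤ L ^ m * w i := le_mul_of_one_le_left (h0 i).le (one_le_pow₀ h1L)
      obtain ⟨a, c, ha, hc, hM⟩ := h.cross (S := fun a => ¬ w a ≤ L ^ m * w i) hb (not_not.2 hi)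
      refine Or.inr (lt_of_le_of_lt (ih.resolve_left H) (card_lt_card ⟨fun x hx => ?_, fun hs => ?_⟩))
      · simp only [mem_filter, mem_univ, true_and] at hx ⊢
        exact up x hx
      · refine ha (mem_filter.1 (@hs a (mem_filter.2 ⟨mem_univ _, ?_⟩))).2
        have e1 : w a ≤ M c a * w a := le_mul_of_one_le_left (h0 a).le (Nat.one_le_cast.2 hM)
        have e2 := mul_le_mul_of_nonneg_left (not_not.1 hc) (zero_le_one.trans h1L)
        rw [pow_succ', mul_assoc]
        exact (e1.trans (step c a)).trans e2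
  have all := (key N).resolve_right (not_lt.2 ((card_le_univ _).trans hN))
  have := (step j i).trans (mul_le_mul_of_nonneg_left (all j) (zero_le_one.trans h1L))
  rw [← mul_assoc, ← pow_succ'] at this
  exact le_of_mul_le_mul_right this (h0 i)

lemma freq_equiv (e : J ≃ I) (M : I → I → ℕ) (lam : ℝ) :
    Freq (fun a b => M (e a) (e b)) lam ↔ Freq M lam :=
  ⟨fun ⟨w, h0, h1⟩ => ⟨fun i => w (e.symm i), fun i => h0 _, fun j => by
      have := h1 (e.symm j)
      rw [← e.sum_comp]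
      simpa using this⟩,
    fun ⟨w, h0, h1⟩ => ⟨fun i => w (e i), fun i => h0 _, fun j => by
      have := h1 (e j)
      rwa [← e.sum_comp] at this⟩⟩

/-- Finitely many growth rates of matrices of bounded size with bounded entries. -/
lemma finite_rates (N K : ℕ) : {lam : ℝ | ∃ (I : Type) (_ : Fintype I) (M : I → I → ℕ),
    Fintype.card I ≤ N ∧ (∀ j i, M j i ≤ K) ∧ IsLeast {mu | Freq M mu} lam}.Finite := by
  refine ((Set.finite_le_nat N).biUnion fun n _ => Set.finite_range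
    fun M : Fin n → Fin n → Fin (K + 1) => sInf {mu | Freq (fun a b => (M a b : ℕ)) mu}).subset ?_
  rintro lam ⟨I, _, M, h1, h2, h3⟩
  refine Set.mem_biUnion h1 ⟨fun a b => ⟨M ((Fintype.equivFin I).symm a)
    ((Fintype.equivFin I).symm b), Nat.lt_succ_of_le (h2 _ _)⟩, ?_⟩
  simp only [freq_equiv]
  exact h3.csInf_eq

/-- Exchanging the factors of a product. -/
lemma swap_factors {M : I → I → ℕ} {P : J → I → ℕ} {Γ : I → J → ℕ} {lam : ℝ}
    (e : ∀ j i, M j i = ∑ l, Γ j l * P l i) (h : Irr M) (hf : Freq M lam)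
    (hP : ∀ l, ∃ i, 0 < P l i) (hΓ : ∀ l, ∃ i, 0 < Γ i l) :
    Irr (fun l l' => ∑ i, P l i * Γ i l') ∧ Freq (fun l l' => ∑ i, P l i * Γ i l') lam := by
  have pos : ∀ {l l' i}, 0 < P l i → 0 < Γ i l' → 0 < ∑ i, P l i * Γ i l' := fun {l l' i} a b =>
    (Nat.mul_pos a b).trans_le
      (single_le_sum (f := fun i => P l i * Γ i l') (fun _ _ => Nat.zero_le _) (mem_univ i))
  have ex : ∀ {j i}, 0 < M j i → ∃ l, 0 < Γ j l ∧ 0 < P l i := fun {j i} a => by
    rw [e] at a
    obtain ⟨l, -, hl⟩ := exists_ne_zero_of_sum_ne_zero a.ne'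
    exact ⟨l, Nat.pos_of_ne_zero (left_ne_zero_of_mul hl), Nat.pos_of_ne_zero (right_ne_zero_of_mul hl)⟩
  constructor
  · intro l l'
    obtain ⟨i, hi⟩ := hΓ l
    obtain ⟨i', hi'⟩ := hP l'
    have := h i i'
    clear hP
    induction this generalizing l' with
    | single a =>
      obtain ⟨x, h1, h2⟩ := ex a
      exact .tail (.single (pos h2 hi)) (pos hi' h1)
    | tail _ a ih =>
      obtain ⟨x, h1, h2⟩ := ex a
      exact .tail (ih x h2) (pos hi' h1)
  · obtain ⟨w, h0, h1⟩ := hf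
    refine ⟨fun l => ∑ i, (P l i : ℝ) * w i, fun l => ?_, fun l => ?_⟩
    · obtain ⟨i, hi⟩ := hP l
      exact sum_pos' (fun i _ => mul_nonneg (Nat.cast_nonneg _) (h0 i).le)
        ⟨i, mem_univ _, mul_pos (Nat.cast_pos.2 hi) (h0 i)⟩
    · have : ∑ l', ((∑ i, P l i * Γ i l' : ℕ) : ℝ) * ∑ i, (P l' i : ℝ) * w i =
          ∑ j, (P l j : ℝ) * ∑ i, (M j i : ℝ) * w i := by
        simp only [e, Nat.cast_sum, Nat.cast_mul, sum_mul]
        rw [sum_comm]
        refine sum_congr rfl fun j _ => ?_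
        simp only [mul_sum]
        rw [sum_comm]
        exact sum_congr rfl fun _ _ => sum_congr rfl fun _ _ => by ring
      rw [this, mul_sum]
      exact sum_le_sum fun j _ => by
        have := mul_le_mul_of_nonneg_left (h1 j) (Nat.cast_nonneg (α := ℝ) (P l j))
        linarith

end Pool.Agent.Lib.FBC
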