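import Pool.Agent.Lib.FBC.Collapse

set_option autoImplicit false
set_option linter.unusedVariables false

/-!
Normalisation: removing leaves and free vertices of valence two, collapsing invariant subforests.
-/

namespace Pool.Agent.Lib.FBC.Forest

variable {G : Type} [Group G] {deg : G →* Multiplicative ℤ} {T : Forest deg} {k : ℤ}

open Classical in
/-- Push the free orbit of `a.src` along `a`. -/
noncomputable def push (a : T.Dir) (x : T.V) : T.V :=
  if h : ∃ g : G, x = g • a.src then h.choose • a.tgt else x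

lemma push_orbit {a : T.Dir} (hf : ∀ g : G, g • a.src = a.src → g = 1) (g : G) :
    push a (g • a.src) = g • a.tgt := by
  have h : ∃ g' : G, g • a.src = g' • a.src := ⟨g, rfl⟩
  have e : g⁻¹ * h.choose = 1 := hf _ (by rw [mul_smul, ← h.choose_spec, inv_smul_smul])
  rw [push, dif_pos h, ← inv_mul_eq_one.1 e]

lemma push_not {a : T.Dir} {x : T.V} (h : ∀ g : G, x ≠ g • a.src) : push a x = x := by
  rw [push, dif_neg (not_exists.2 h)]

/-- The retraction. -/
noncomputable def pushHom (a : T.Dir) (hf : ∀ g : G, g • a.src = a.src → g = 1) : Hom T T 0 where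
  toFun := push a
  map_smul g x := by
    by_cases h : ∃ g' : G, x = g' • a.src
    · obtain ⟨g', rfl⟩ := h
      rw [← mul_smul, push_orbit hf, push_orbit hf, mul_smul]
    · rw [push_not (not_exists.1 h), push_not fun g' e => h ⟨g⁻¹ * g', by
        rw [mul_smul, ← e, inv_smul_smul]⟩]
  lev_map x := by
    by_cases h : ∃ g' : G, x = g' • a.src
    · obtain ⟨g', rfl⟩ := h
      rw [push_orbit hf, T.lev_smul, T.lev_smul, lev_src_tgt, add_zero]
    · rw [push_not (not_exists.1 h), add_zero]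

lemma dir_orbit {a b : T.Dir} (hd : ∀ d : T.Dir, d.src = a.src → d = a ∨ d = b) {c : T.E}
    {β : Bool} {g : G} (e : c.ed β = g • a.src) :
    (c.i = a.1.i ∧ β = a.2) ∨ (c.i = b.1.i ∧ β = b.2) := by
  have := hd (Dir.tr g⁻¹ (c, β)) (by rw [src_tr, Dir.src, e, inv_smul_smul])
  rcases this with h | h
  · exact Or.inl ⟨congrArg (fun d : T.Dir => d.1.i) h, congrArg Prod.snd h⟩
  · exact Or.inr ⟨congrArg (fun d : T.Dir => d.1.i) h, congrArg Prod.snd h⟩

lemma retract (H : T.Ess) (f : Hom T T k) {a b : T.Dir}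
    (hf : ∀ g : G, g • a.src = a.src → g = 1) (hd : ∀ d : T.Dir, d.src = a.src → d = a ∨ d = b)
    (hab : b = a ∨ a.1.i ≠ b.1.i) :
    (coll (T := T) fun i => i = a.1.i).Ess ∧
      ∃ f' : Hom (coll (T := T) fun i => i = a.1.i) (coll (T := T) fun i => i = a.1.i) k,
        ∀ j i, f'.mat j i ≤ f.mat j.1 i.1 + if i.1 = b.1.i then f.mat j.1 a.1.i else 0 := by
  have nt : ∀ g g' : G, g • a.tgt ≠ g' • a.src := fun g g' e => by
    rcases dir_orbit hd (c := g • a.1) (β := !a.2) (g := g') (by rw [ed_smul]; exact e) with h | h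
    · simp at h
    · rcases hab with rfl | hab
      · simp at h
      · exact hab h.1
  have hz : ∀ c : T.E, c.i = a.1.i → pushHom a hf (c.ed false) = pushHom a hf (c.ed true) := by
    intro c hc
    have k : ∀ β, push a (c.ed β) = (c.g * a.1.g⁻¹) • a.tgt := fun β => by
      rw [eq_smul_of_i (c := a.1) (c' := c) hc.symm, ed_smul]
      simp only [smul_g, inv_mul_cancel_right]
      by_cases e : β = a.2
      · rw [e]; exact push_orbit hf _
      · rw [Bool.eq_not_iff.2 e]; exact push_not (nt _)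
    exact (k false).trans (k true).symm
  have hm : ∀ i l, i ≠ a.1.i → (pushHom a hf).mat l i ≤
      (if l = i then 1 else 0) + if l = a.1.i ∧ i = b.1.i then 1 else 0 := by
    intro i l hi
    set c : T.E := ⟨1, i⟩ with hc
    have ci : c.i = i := rfl
    have e1 : push a (c.ed (!b.2)) = c.ed (!b.2) := push_not fun g e => by
      rcases dir_orbit hd e with h | h
      · exact hi h.1
      · simp at h
    have s1 : cnt ({c} : Finset T.E) l = if l = i then 1 else 0 := by
      rw [cnt, Finset.filter_singleton, ci]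
      by_cases e : l = i
      · simp [e]
      · simp [e, Ne.symm e]
    have im : (pushHom a hf).img c = sep (push a (c.ed b.2)) (c.ed (!b.2)) := by
      rw [Hom.img_eq _ _ b.2]; exact congrArg _ e1
    rw [Hom.mat, ← hc, im]
    by_cases h : ∃ g : G, c.ed b.2 = g • a.src
    · obtain ⟨g, hg⟩ := h
      have hb : i = b.1.i := (((dir_orbit hd hg).resolve_left fun h => hi h.1)).1
      have l1 : T.lev (g • a.tgt) = T.lev (c.ed b.2) := by
        rw [hg, T.lev_smul, T.lev_smul, lev_src_tgt]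
      have s2 : sep (g • a.tgt) (c.ed b.2) = {g • a.1} := by
        rw [hg, sep_smul, sep_comm, sep_src_tgt, Finset.image_singleton]
      have := cnt_mono (sep_subset_union l1 (lev_ed_eq c b.2 (!b.2))) l
      rw [s2, sep_ed] at this
      rw [hg, push_orbit hf]
      refine this.trans ?_
      rw [cnt, Finset.filter_union, add_comm, ← s1]
      refine (Finset.card_union_le _ _).trans (Nat.add_le_add_right ?_ _)
      rw [Finset.filter_singleton, smul_i]
      by_cases e : l = a.1.i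
      · simp [e, hb]
      · simp [Ne.symm e]
    · rw [push_not (not_exists.1 h), sep_ed, s1]
      exact Nat.le_add_right _ _
  refine ⟨H.of_hom (desc _ (pushHom a hf) hz) (H.1.map (cq _)),
    (cq _).comp (f.comp (desc _ (pushHom a hf) hz) (zero_add k).symm) (add_zero k).symm,
    fun j i => ?_⟩
  rw [mat_cq_comp]
  refine (Hom.mat_comp_le _ _ _ _ _).trans ?_
  refine (Finset.sum_le_sum fun l _ => Nat.mul_le_mul_left _ (hm i.1 l i.2)).trans ?_
  by_cases e : i.1 = b.1.i <;> simp [mul_add, Finset.sum_add_distrib, e]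

lemma leaf_step (H : T.Ess) (f : Hom T T k) (h : ¬ T.Leafless) : ∃ z : T.I,
    (coll (T := T) fun i => i = z).Ess ∧
      ∃ f' : Hom (coll (T := T) fun i => i = z) (coll (T := T) fun i => i = z) k,
        ∀ j i, f'.mat j i ≤ f.mat j.1 i.1 := by
  simp only [Leafless, not_forall, not_exists, not_and, not_not] at h
  obtain ⟨a, ha⟩ := h
  obtain ⟨h1, f', h2⟩ := retract H f (a := a) (b := a)
    (fun g e => smul_eq_self (congrArg Prod.fst (ha (a.tr g) (by rw [src_tr, e]))))
    (fun d e => Or.inl (ha d e)) (Or.inl rfl)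
  exact ⟨a.1.i, h1, f', fun j i => by simpa [show i.1 ≠ a.1.i from i.2] using h2 j i⟩

lemma Val2.symm {a b : T.Dir} (h : Val2 a b) : Val2 b a :=
  ⟨⟨h.1.1.symm, h.1.2.symm⟩, fun d e => (h.2.1 d (e.trans h.1.2.symm)).symm, h.1.2 ▸ h.2.2⟩

lemma val_step (H : T.Ess) (f : Hom T T k) {lam : ℝ} (hf : Freq f.mat lam) (h : ¬ T.Reduced) :
    ∃ z : T.I, (coll (T := T) fun i => i = z).Ess ∧
      ∃ f' : Hom (coll (T := T) fun i => i = z) (coll (T := T) fun i => i = z) k,
        Freq f'.mat lam := by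
  obtain ⟨w, h0, h1⟩ := hf
  obtain ⟨a, b, hv, hi, hw⟩ : ∃ a b : T.Dir, Val2 a b ∧ a.1.i ≠ b.1.i ∧ w b.1.i ≤ w a.1.i := by
    simp only [Reduced, not_forall] at h
    obtain ⟨a, b, hv, hi⟩ := h
    rcases le_total (w b.1.i) (w a.1.i) with e | e
    · exact ⟨a, b, hv, hi, e⟩
    · exact ⟨b, a, hv.symm, Ne.symm hi, e⟩
  obtain ⟨h2, f', h3⟩ := retract H f hv.2.2 hv.2.1 (Or.inr hi)
  refine ⟨a.1.i, h2, f', fun i => w i.1, fun i => h0 _, fun j => le_trans ?_ (h1 j.1)⟩
  have := sum_coll_le (T := T) (fun i => i = a.1.i) (fun i => (f.mat j.1 i : ℝ) * w i -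
    (if i = a.1.i then (f.mat j.1 i : ℝ) * w i else 0) +
      if i = b.1.i then (f.mat j.1 a.1.i : ℝ) * w i else 0) fun i => by
    have := h0 i
    split_ifs <;> simp <;> positivity
  refine (Finset.sum_le_sum fun i _ => ?_).trans (this.trans ?_)
  · rw [if_neg i.2, sub_zero]
    refine (mul_le_mul_of_nonneg_right (Nat.cast_le.2 (h3 j i)) (h0 _).le).trans_eq ?_
    split_ifs <;> simp [add_mul]
  · simp only [Finset.sum_add_distrib, Finset.sum_sub_distrib, Finset.sum_ite_eq',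
      Finset.mem_univ, if_true]
    have := mul_le_mul_of_nonneg_left hw (Nat.cast_nonneg (α := ℝ) (f.mat j.1 a.1.i))
    linarith

lemma red_step (H : T.Ess) (hl : T.Leafless) (f : Hom T T k) (h : ¬ Irr f.mat) :
    ∃ Z : T.I → Prop, (∃ z, Z z) ∧ (coll Z).Ess ∧
      ∃ f' : Hom (coll Z) (coll Z) k, ∀ j i, f'.mat j i ≤ f.mat j.1 i.1 := by
  obtain ⟨Z, h1, ⟨i0, h2⟩, h3⟩ : ∃ Z : T.I → Prop, (∃ z, Z z) ∧ (∃ z, ¬ Z z) ∧
      ∀ l l', Z l → 0 < f.mat l' l → Z l' := by
    simp only [Irr, not_forall] at h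
    obtain ⟨i, j, h⟩ := h
    by_cases e : ∃ l, Relation.TransGen (fun a b => 0 < f.mat b a) i l
    · exact ⟨_, e, ⟨j, h⟩, fun l l' a b => a.tail b⟩
    refine ⟨fun l => l = i, ⟨i, rfl⟩, ?_, fun l l' a b => (e ⟨l', .single (a ▸ b)⟩).elim⟩
    by_contra e'
    push Not at e'
    obtain ⟨x⟩ := H.1
    obtain ⟨g, g1, g2⟩ := H.2 (f x)
    refine g2 ?_
    rw [← f.map_smul]
    refine const_of_sep f (by simp [T.lev_smul, g1]) fun c _ => ?_
    refine eq_of_sep (f.lev_eq (lev_ed_eq _ _ _)) (Finset.eq_empty_of_forall_notMem fun c' hc => ?_)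
    exact e ⟨c'.i, .single (e' c.i ▸ f.mat_pos hc)⟩
  refine ⟨Z, h1, H.coll Z hl h2, desc Z ((cq Z).comp f (add_zero k).symm) fun c hc => ?_,
    fun j i => ?_⟩
  · exact (cq_eq Z).2 ⟨f.lev_eq (lev_ed_eq _ _ _), fun c' h' => h3 _ _ hc (f.mat_pos h')⟩
  · rw [mat_desc, mat_cq_comp]

end Pool.Agent.Lib.FBC.Forest

namespace Pool.Agent.Lib.FBC

open Forest

theorem LEAF_holds : St_LEAF := by
  intro G _ deg T k f lam H hi hf hl
  obtain ⟨z, h1, f', h2⟩ := leaf_step H f hl
  obtain ⟨j0, hj⟩ := hi.exists_col z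
  obtain ⟨mu, h3, h4⟩ := hf.drop (M0 := fun j i => if i = z then 0 else f.mat j i) hi
    (fun j i => by split_ifs <;> simp) ⟨j0, z, by simpa using hj⟩
  exact ⟨_, f', ⟨cq _⟩, h1, mu, h3, freq_coll _ h4 fun j i => by
    simpa [show i.1 ≠ z from i.2] using h2 j i⟩

theorem NORM_holds : St_NORM := by
  intro G _ deg T k f lam H hf
  induction hn : Fintype.card T.I using Nat.strong_induction_on generalizing T with
  | _ n ih =>
  have key : ∀ Z : T.I → Prop, (∃ z, Z z) → (coll Z).Ess → ∀ f' : Hom (coll Z) (coll Z) k,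
      Freq f'.mat lam → ∃ (T' : Forest deg) (f' : Hom T' T' k), Nonempty (Hom T T' 0) ∧ T'.Ess ∧
        T'.Leafless ∧ T'.Reduced ∧ Irr f'.mat ∧ Freq f'.mat lam := by
    rintro Z ⟨z, hz⟩ h1 f' h2
    obtain ⟨T', f'', ⟨p⟩, h3⟩ := ih _ (hn ▸ card_coll Z hz) _ f' h1 h2 rfl
    exact ⟨T', f'', ⟨p.comp (cq Z) rfl⟩, h3⟩
  by_cases hl : T.Leafless
  swap
  · obtain ⟨z, h1, f', h2⟩ := leaf_step H f hl
    exact key (fun i => i = z) ⟨z, rfl⟩ h1 f' (freq_coll _ hf h2)
  by_cases hr : T.Reduced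
  swap
  · obtain ⟨z, h1, f', h2⟩ := val_step H f hf hr
    exact key (fun i => i = z) ⟨z, rfl⟩ h1 f' h2
  by_cases hi : Irr f.mat
  swap
  · obtain ⟨Z, h0, h1, f', h2⟩ := red_step H hl f hi
    exact key Z h0 h1 f' (freq_coll _ hf h2)
  exact ⟨T, f, ⟨⟨id, fun _ _ => rfl, fun _ => (add_zero _).symm⟩⟩, H, hl, hr, hi, hf⟩

end Pool.Agent.Lib.FBC
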