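import Pool.Agent.Lib.FBC.FGG

/-!
More consequences of subgroup separability.
-/

namespace Pool.Agent.Lib.FBC

open Pool.Agent.Lib.MP_288210_al (LERF)

variable {G : Type} [Group G]

/-- Separation of a finite set, inside a given subgroup of finite index. -/
theorem lerf_sep_le (h : LERF G) {Q L₀ : Subgroup G} (hQ : Q.FG) (h₀ : L₀.FiniteIndex)
    (hl : Q ≤ L₀) {B : Set G} (hB : B.Finite) :
    ∃ L : Subgroup G, L.FiniteIndex ∧ Q ≤ L ∧ L ≤ L₀ ∧ ∀ x ∈ B, x ∈ L → x ∈ Q := by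
  obtain ⟨L, h1, h2, h3⟩ := lerf_sep_fin h hQ (hB.sep fun x => x ∉ Q) fun x hx => hx.2
  exact ⟨L ⊓ L₀, inferInstance, le_inf h2 hl, inf_le_right, fun x hx e => by
    by_contra e'
    exact h3 x ⟨hx, e'⟩ e.1⟩

/-- A normal subgroup `N` of finite index such that `Q N` misses the part of a finite set outside
`Q`. -/
theorem lerf_sep_normal (h : LERF G) {Q L₀ : Subgroup G} (hQ : Q.FG) (h₀ : L₀.FiniteIndex)
    {B : Set G} (hB : B.Finite) :
    ∃ N : Subgroup G, N.FiniteIndex ∧ N.Normal ∧ N ≤ L₀ ∧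
      ∀ x ∈ B, ∀ q ∈ Q, q⁻¹ * x ∈ N → x ∈ Q := by
  obtain ⟨L, h1, h2, -, h4⟩ := lerf_sep_le h hQ (L₀ := ⊤) inferInstance le_top hB
  refine ⟨(L ⊓ L₀).normalCore, inferInstance, inferInstance,
    (Subgroup.normalCore_le _).trans inf_le_right, fun x hx q hq e => h4 x hx ?_⟩
  simpa using L.mul_mem (h2 hq) (Subgroup.normalCore_le _ e).1

open Pointwise in
/-- `B ≤ t B t⁻¹` forces equality. -/
theorem noasc_le (h : LERF G) {B : Subgroup G} (hB : B.FG) {t : G} (e : B ≤ MulAut.conj t • B) :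
    MulAut.conj t • B = B := by
  refine le_antisymm (fun x hx => ?_) e
  have := noasc h hB (t := t) (fun b hb => by
    simpa using Subgroup.mem_pointwise_smul_iff_inv_smul_mem.1 (e hb)) _
      (Subgroup.mem_pointwise_smul_iff_inv_smul_mem.1 hx)
  simpa [mul_assoc] using this

open Pointwise in
/-- `t B t⁻¹ ≤ B` forces equality. -/
theorem noasc_ge (h : LERF G) {B : Subgroup G} (hB : B.FG) {t : G} (e : MulAut.conj t • B ≤ B) :
    MulAut.conj t • B = B := by
  refine le_antisymm e fun x hx => Subgroup.mem_pointwise_smul_iff_inv_smul_mem.2 ?_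
  simpa using noasc' h hB (t := t)
    (fun b hb => e (by simpa using Subgroup.smul_mem_pointwise_smul b (MulAut.conj t) B hb)) x hx

lemma fg_zpowers (u : G) : (Subgroup.zpowers u).FG :=
  (Subgroup.fg_iff _).2 ⟨{u}, (Subgroup.zpowers_eq_closure u).symm, Set.finite_singleton u⟩

/-- No Baumslag-Solitar relation `c⁻¹ u c = u ^ j` with `|j| ≠ 1` in a LERF group. -/
theorem no_bs (h : LERF G) {u c : G} (hu : ¬ IsOfFinOrder u) {j : ℤ} (e : c⁻¹ * u * c = u ^ j) :
    j = 1 ∨ j = -1 := by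
  have h1 : ∀ n : ℤ, c⁻¹ * u ^ n * c = u ^ (j * n) := fun n => by
    have := conj_zpow (a := c⁻¹) (b := u) (i := n)
    rw [inv_inv] at this
    rw [← this, e, zpow_mul]
  obtain ⟨m, hm⟩ := noasc h (fg_zpowers u) (t := c)
    (by rintro _ ⟨n, rfl⟩; exact ⟨j * n, (h1 n).symm⟩) u (Subgroup.mem_zpowers u)
  have h2 : u ^ (j * m) = u ^ (1 : ℤ) := by
    have hm' : u ^ m = c * u * c⁻¹ := hm
    rw [← h1, hm']; group
  exact Int.eq_one_or_neg_one_of_mul_eq_one (injective_zpow_iff_not_isOfFinOrder.2 hu h2)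

end Pool.Agent.Lib.FBC
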