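import Pool.Agent.Lib.FBC.ACC

set_option autoImplicit false
set_option linter.unusedVariables false

namespace Pool.Agent.Lib.FBC

open Forest MulAction AccB

namespace RankB

variable {G : Type} [Group G] {deg : G →* Multiplicative ℤ}

lemma dir_eq {T : Forest deg} {a b : T.Dir} (h1 : a.src = b.src)
    (hf : ∀ g : G, g • a.src = a.src → g = 1) (hi : a.1.i = b.1.i) (h2 : a.2 = b.2) : a = b := by
  have e := eq_smul_of_i hi
  have : (b.1.g * a.1.g⁻¹) • a.src = a.src := by
    conv_rhs => rw [h1]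
    unfold Dir.src
    rw [← ed_smul, ← e, h2]
  rw [hf _ this, one_smul] at e
  exact Prod.ext e.symm h2

lemma val2 {T : Forest deg} (hr : T.Reduced) {a b : T.Dir} (h : Val2 a b) :
    Fintype.card T.I ≤ 1 := by
  have hi := hr a b h
  obtain ⟨⟨hab, hs⟩, h2, hf⟩ := h
  have hb : a.2 ≠ b.2 := fun e => hab (dir_eq hs hf hi e)
  have ty : ∀ (c : T.E) (β : Bool) (g : G), c.ed β = g • a.src → c.i = a.1.i := by
    intro c β g e
    have : Dir.src ((g⁻¹ • c, β) : T.Dir) = a.src := by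
      show (g⁻¹ • c).ed β = a.src
      rw [ed_smul, e, inv_smul_smul]
    rcases h2 _ this with e' | e'
    · rw [← e']; rfl
    · rw [hi, ← e']; rfl
  have en : ∀ β : Bool, ∃ g : G, T.en a.1.i β = g • a.src := by
    intro β
    by_cases e : β = a.2
    · exact ⟨a.1.g⁻¹, by rw [e]; simp [Dir.src, E.ed]⟩
    · have e' : β = b.2 := by
        revert e hb
        cases β <;> cases a.2 <;> cases b.2 <;> simp
      exact ⟨b.1.g⁻¹, by rw [e', hs, hi]; simp [Dir.src, E.ed]⟩
  have orb : ∀ x : T.V, T.lev x = T.lev a.src → ∃ g : G, x = g • a.src := by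
    intro x hx
    refine geo_ind (P := fun x => ∃ g : G, x = g • a.src) ⟨1, (one_smul _ _).symm⟩ ?_ hx
    rintro c β - ⟨g, hg⟩
    obtain ⟨g', hg'⟩ := en β
    exact ⟨c.g * g', by rw [mul_smul, ← hg', ← ty c _ g hg]; rfl⟩
  refine Fintype.card_le_one_iff.2 fun i j => ?_
  have key : ∀ i : T.I, i = a.1.i := fun i => by
    obtain ⟨g, hg⟩ := orb ((⟨a.1.g, i⟩ : T.E).ed false) (by
      unfold Dir.src
      rw [lev_ed, lev_ed])
    exact ty _ _ g hg
  rw [key i, key j]

/-- Potentials on level zero. -/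
def Pot (T : Forest deg) : Submodule ℚ ((T.V → ℚ) × (T.I → ℚ)) where
  carrier := {p | ∀ c : T.E, T.lev (c.ed false) = 0 → p.1 (c.ed true) - p.1 (c.ed false) = p.2 c.i}
  add_mem' := by
    intro p q hp hq c hc
    have h1 := hp c hc
    have h2 := hq c hc
    simp only [Prod.fst_add, Prod.snd_add, Pi.add_apply]
    linarith
  zero_mem' := by
    intro c hc
    simp
  smul_mem' := by
    intro r p hp c hc
    have h1 := hp c hc
    simp only [Prod.smul_fst, Prod.smul_snd, Pi.smul_apply, smul_eq_mul]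
    rw [← h1]
    ring

lemma pot_const {T : Forest deg} (p : Pot T) {v : T.V} (hv : T.lev v = 0) {s : G}
    (hs : s ∈ deg.ker) {y : T.V} (hy : T.lev y = 0) :
    p.1.1 (s • y) - p.1.1 y = p.1.1 (s • v) - p.1.1 v := by
  refine const_of_sep (fun x => p.1.1 (s • x) - p.1.1 x) (hy.trans hv.symm) fun c hc => ?_
  have l1 : T.lev (c.ed false) = 0 := (lev_ed_of_mem hc false).trans hy
  have h1 := p.2 c l1
  have h2 := p.2 (s • c) (by rw [ed_smul, lev_ker T hs, l1])
  rw [smul_i, ed_smul, ed_smul] at h2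
  show p.1.1 (s • c.ed false) - p.1.1 (c.ed false) = p.1.1 (s • c.ed true) - p.1.1 (c.ed true)
  linarith

/-- The homomorphism of a potential. -/
def toH (T : Forest deg) (v : T.V) (hv : T.lev v = 0) : Pot T →ₗ[ℚ] HQ deg.ker where
  toFun p := AddMonoidHom.mk'
    (fun s => p.1.1 (((Additive.toMul s : deg.ker) : G) • v) - p.1.1 v) (by
      intro a b
      have := pot_const p hv (Additive.toMul a).2
        (y := ((Additive.toMul b : deg.ker) : G) • v)
        ((lev_ker T (Additive.toMul b).2 v).trans hv)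
      rw [toMul_add, Subgroup.coe_mul, mul_smul]
      linarith)
  map_add' p q := hq_ext fun s => by
    show p.1.1 ((s : G) • v) + q.1.1 ((s : G) • v) - (p.1.1 v + q.1.1 v) =
      (p.1.1 ((s : G) • v) - p.1.1 v) + (q.1.1 ((s : G) • v) - q.1.1 v)
    ring
  map_smul' r p := hq_ext fun s => by
    show r * p.1.1 ((s : G) • v) - r * p.1.1 v = r * (p.1.1 ((s : G) • v) - p.1.1 v)
    ring

lemma toH_apply (T : Forest deg) (v : T.V) (hv : T.lev v = 0) (p : Pot T) (s : deg.ker) :
    toH T v hv p (Additive.ofMul s) = p.1.1 ((s : G) • v) - p.1.1 v := rfl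

lemma count (hP : St_POT) (hE : St_EXT) {n : ℕ} (hR : Rank deg n) (T : Forest deg) {J : Type}
    [Fintype J] (v : J → T.V) (hl : ∀ j, T.lev (v j) = 0)
    (hd : ∀ i j, ∀ g : G, g • v i = v j → i = j) (hc : ∀ x : T.V, ∃ (j : J) (g : G), x = g • v j)
    (x0 : T.V) (h0 : T.lev x0 = 0) :
    Fintype.card T.I + ∑ j, dm T (v j) ≤ n + Fintype.card J := by
  classical
  have hf := (ker_fin hR).1
  have hn := (ker_fin hR).2
  let π : Pot T →ₗ[ℚ] (T.I → ℚ) := (LinearMap.snd ℚ _ _).comp (Pot T).subtype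
  have hπ : LinearMap.range π = ⊤ := by
    rw [LinearMap.range_eq_top]
    intro w
    obtain ⟨Ψ, hΨ⟩ := hP G deg T 0 (fun c => w c.i)
    exact ⟨⟨(Ψ, w), hΨ⟩, rfl⟩
  obtain ⟨σ, hσ⟩ := π.exists_rightInverse_of_surjective hπ
  have hσ' : ∀ w, (σ w).1.2 = w := fun w => LinearMap.congr_fun hσ w
  let ρ := LinearMap.pi fun j => res (stab_le T (v j))
  have hρ : Function.Surjective ρ := key hE T le_rfl v 0 hl hd fun j => stab_le T _
  have hmem : ∀ w, ((toH T x0 h0).comp σ) w ∈ LinearMap.ker ρ := by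
    intro w
    rw [LinearMap.mem_ker]
    funext j
    refine hq_ext fun a => ?_
    show (σ w).1.1 ((a : G) • x0) - (σ w).1.1 x0 = 0
    rw [← pot_const (σ w) h0 (stab_le T _ a.2) (hl j), mem_stabilizer_iff.1 a.2, sub_self]
  let ev : Pot T →ₗ[ℚ] (J → ℚ) :=
    { toFun := fun p j => p.1.1 (v j)
      map_add' := fun _ _ => rfl
      map_smul' := fun _ _ => rfl }
  let L : (T.I → ℚ) →ₗ[ℚ] (LinearMap.ker ρ) × (J → ℚ) :=
    (LinearMap.codRestrict _ ((toH T x0 h0).comp σ) hmem).prod (ev.comp σ)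
  have hL : Function.Injective L := by
    rw [injective_iff_map_eq_zero]
    intro w hw
    have e1 : toH T x0 h0 (σ w) = 0 := congrArg (fun z => z.1.1) hw
    have e2 : ∀ j, (σ w).1.1 (v j) = 0 := fun j => congrFun (congrArg (fun z => z.2) hw) j
    have e3 : ∀ x, T.lev x = 0 → (σ w).1.1 x = 0 := by
      intro x hx
      obtain ⟨j, g, rfl⟩ := hc x
      have hg : g ∈ deg.ker := by
        rw [T.lev_smul, hl j, add_zero] at hx
        exact hx
      have a1 := pot_const (σ w) h0 hg (hl j)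
      have a2 := toH_apply T x0 h0 (σ w) ⟨g, hg⟩
      rw [e1] at a2
      have a3 : (0 : ℚ) = (σ w).1.1 (g • x0) - (σ w).1.1 x0 := a2
      have a4 := e2 j
      linarith
    funext i
    have l0 : ∀ β, T.lev ((⟨1, i⟩ : T.E).ed β) = 0 := fun β => by
      rw [lev_ed]; simp
    have := (σ w).2 ⟨1, i⟩ (l0 false)
    rw [e3 _ (l0 true), e3 _ (l0 false), hσ' w] at this
    simpa using this.symm
  have h1 := LinearMap.finrank_le_finrank_of_injective hL
  rw [Module.finrank_prod, Module.finrank_fintype_fun_eq_card,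
    Module.finrank_fintype_fun_eq_card] at h1
  have h2 := LinearMap.finrank_range_add_finrank_ker ρ
  have : ∀ j, Module.Finite ℚ (HQ (stabilizer G (v j))) := fun j => stab_fin hE hR T _
  rw [LinearMap.range_eq_top.2 hρ, finrank_top, Module.finrank_pi_fintype] at h2
  have h3 : ∑ j, dm T (v j) = ∑ j, Module.finrank ℚ (HQ (stabilizer G (v j))) := rfl
  omega

end RankB

open RankB in
theorem RANK_holds (hP : St_POT) (hE : St_EXT) : St_RANK := by
  classical
  intro G _ deg n T hR he hl hr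
  by_cases hv : ∃ a b : T.Dir, Val2 a b
  · obtain ⟨a, b, h⟩ := hv
    have := val2 hr h
    omega
  have := orb_finite he
  have := Fintype.ofFinite (Orb T)
  have hend : ∀ x : T.V, ∃ d : T.Dir, d.src = x := fun x => by
    obtain ⟨g, hg, hne⟩ := he.2 x
    obtain ⟨c, b, e, -⟩ := exists_first (lev_ker T hg x).symm hne.symm
    exact ⟨(c, b), e⟩
  have hrep : ∀ o : Orb T, ∃ x : T.V, T.lev x = 0 ∧ (Quotient.mk _ x : Orb T) = o := fun o => by
    obtain ⟨d, hd⟩ := hend (Quotient.out o)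
    refine ⟨T.en d.1.i d.2, T.lev_en _ _, ?_⟩
    rw [← Quotient.out_eq o, ← hd]
    exact (orb_eq.2 ⟨d.1.g, rfl⟩).symm
  choose v h0 hv' using hrep
  obtain ⟨x1⟩ := he.1
  have hc := count hP hE hR T v h0
    (fun i j g e => by rw [← hv' i, ← hv' j]; exact (orb_eq.2 ⟨g, e⟩).symm)
    (fun x => by
      obtain ⟨g, hg⟩ := orb_eq.1 (hv' (Quotient.mk _ x)).symm
      exact ⟨_, g, hg.symm⟩) (v (Quotient.mk _ x1)) (h0 _)
  let τ : T.I × Bool → Orb T := fun p => Quotient.mk _ (T.en p.1 p.2)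
  have hτ : ∀ (o : Orb T) (d : T.Dir), d.src = v o → τ (d.1.i, d.2) = o := fun o d e => by
    rw [← hv' o, ← e]
    exact (orb_eq.2 ⟨d.1.g, rfl⟩).symm
  have h3 : ∀ o : Orb T, 3 ≤ (Finset.univ.filter fun p => τ p = o).card + 3 * dm T (v o) := by
    intro o
    rcases Nat.eq_zero_or_pos (dm T (v o)) with z | z
    swap
    · omega
    have hb : stabilizer G (v o) = ⊥ := by
      by_contra hb
      have := stab_fin hE hR T (v o)
      obtain ⟨φ, hφ⟩ := exists_ne_zero hR (stab_le T _) hb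
      exact hφ (finrank_zero_iff_forall_zero.1 z φ)
    have hf : ∀ g : G, g • v o = v o → g = 1 := fun g hg => by
      have : g ∈ stabilizer G (v o) := hg
      rw [hb] at this
      exact Subgroup.mem_bot.1 this
    obtain ⟨a, ha⟩ := hend (v o)
    obtain ⟨b, hb1, hb2⟩ := hl a
    have hc' : ∃ c : T.Dir, c.src = a.src ∧ c ≠ a ∧ c ≠ b := by
      by_contra hn
      refine hv ⟨a, b, ⟨hb2.symm, hb1.symm⟩, fun d hd => ?_, by rw [ha]; exact hf⟩
      by_contra h
      exact hn ⟨d, hd, fun e => h (Or.inl e), fun e => h (Or.inr e)⟩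
    obtain ⟨c, hc1, hc2, hc3⟩ := hc'
    have ne : ∀ x y : T.Dir, x.src = v o → y.src = v o → x ≠ y → (x.1.i, x.2) ≠ (y.1.i, y.2) :=
      fun x y hx hy hxy e => hxy (dir_eq (hx.trans hy.symm) (by rw [hx]; exact hf)
        (Prod.mk.inj e).1 (Prod.mk.inj e).2)
    have hb' : b.src = v o := hb1.trans ha
    have hc'' : c.src = v o := hc1.trans ha
    have : 2 < (Finset.univ.filter fun p => τ p = o).card := by
      rw [Finset.two_lt_card_iff]
      exact ⟨(a.1.i, a.2), (b.1.i, b.2), (c.1.i, c.2), by simp [hτ o a ha], by simp [hτ o b hb'],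
        by simp [hτ o c hc''], ne a b ha hb' hb2.symm, ne a c ha hc'' hc2.symm,
        ne b c hb' hc'' hc3.symm⟩
    omega
  have h4 := Finset.sum_le_sum fun o (_ : o ∈ (Finset.univ : Finset (Orb T))) => h3 o
  rw [Finset.sum_add_distrib, ← Finset.mul_sum,
    ← Finset.card_eq_sum_card_fiberwise (f := τ) (fun _ _ => Finset.mem_coe.2 (Finset.mem_univ _)),
    Finset.sum_const, Finset.card_univ, Finset.card_univ, Fintype.card_prod, Fintype.card_bool,
    smul_eq_mul] at h4
  omega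

end Pool.Agent.Lib.FBC
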