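import Pool.Agent.Lib.FBC.EM
import Pool.Agent.Lib.FBC.LH

/-!
Expansion of legal paths, persistence of long legal segments, sandwich for limit half-spaces.
-/

namespace Pool.Agent.Lib.FBC.Flow

open Forest

variable {G : Type} [Group G] {d : Dg G} {Y : Forest d} {s : Flow Y} {a b x y : Y.V}
  {e e' : Y.Dir} {ι : ℕ → Y.Dir}

lemma LegalP.sa_sub (h : s.LegalP a b) (hx : Y.btw a x b) (hy : Y.btw a y b) : s.LegalP x y :=
  ⟨hx.lev2.trans hy.lev2.symm, fun _ _ _ h1 h2 h3 =>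
    h.2 _ _ _ (hx.convex hy h1) (hx.convex hy h2) (hx.convex hy h3)⟩

lemma LegalP.sa_btw (h : s.LegalP a b) (hx : Y.btw a x b) (n : ℕ) :
    Y.btw (s.σ^[n] a) (s.σ^[n] x) (s.σ^[n] b) :=
  h.2 a x b (btw_left h.1) hx (btw_right h.1) hx n

lemma sa_legal_dir (s : Flow Y) (e : Y.Dir) : s.LegalP e.src e.tgt := by
  refine ⟨lev_src_tgt e, fun x y z hx hy hz h n => ?_⟩
  have l1 := s.lev_iter_eq n h.lev1
  have l2 := s.lev_iter_eq n h.lev2
  rcases btw_src_tgt hx with rfl | rfl <;> rcases btw_src_tgt hy with rfl | rfl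
  · exact btw_left l2
  · rw [h.antisymm hz]; exact btw_right (s.lev_iter_eq n h.lev3)
  · rw [h.antisymm hz.symm]; exact btw_right (s.lev_iter_eq n h.lev3)
  · exact btw_left l2

/-- A path is legal if no dart is crossed in both directions by images of its darts. -/
lemma sa_legal_of (l : Y.lev a = Y.lev b) (h : ∀ n e₁ e₂ e', Y.Cross a b e₁ → Y.Cross a b e₂ →
    s.Desc n e₁ e' → s.Desc n e₂ e'.rv → False) : s.LegalP a b := by
  have key : ∀ x y z, Y.btw a x z → Y.btw a z b → Y.btw x y z → s.Legal x y z := by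
    intro x y z h1 h2 h3 n
    by_contra hc
    obtain ⟨k, k1, k2⟩ := not_btw (s.lev_iter_eq n h3.lev1) (s.lev_iter_eq n h3.lev2) hc
    have c1 := cross_of_mem ((mem_sep (s.lev_iter_eq n h3.lev1)).2 k2.symm)
    have c2 : Y.Cross (s.σ^[n] y) (s.σ^[n] z) (Dir.rv (k, k.sd (s.σ^[n] x))) :=
      ⟨by simpa using c1.2, mem_rv_H.2 ⟨(s.lev_iter_eq n h3.lev3).symm.trans c1.lev_src, k1.symm⟩⟩
    obtain ⟨e₁, a1, b1⟩ := s.cover_dir n c1
    obtain ⟨e₂, a2, b2⟩ := s.cover_dir n c2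
    have h4 := h1.trans_right h3
    exact h n e₁ e₂ _ (a1.extend (h1.trans_right' h3) (h2.trans_left h4)) (a2.extend h4 h2) b1 b2
  exact ⟨l, fun x y z hx hy hz h' => (hx.total hz).elim (fun t => key x y z t hz h')
    fun t n => (key z y x t hx h'.symm n).symm⟩

/-- Images of legal paths are legal. -/
lemma TT.sa_iter (hT : s.TT) (h : s.LegalP a b) (m : ℕ) : s.LegalP (s.σ^[m] a) (s.σ^[m] b) := by
  refine sa_legal_of (s.lev_iter_eq m h.1) fun n e₁ e₂ e' h1 h2 h3 h4 => ?_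
  obtain ⟨c₁, a1, b1⟩ := s.cover_dir m h1
  obtain ⟨c₂, a2, b2⟩ := s.cover_dir m h2
  exact (h.lh_cross a1 (hT.lh_trans b1 h3)).not_rv (h.lh_cross a2 (hT.lh_trans b2 h4))

lemma TT.sa_fwd (hT : s.TT) (h : s.LegalP a b) : s.LegalP (s.σ a) (s.σ b) := hT.sa_iter h 1

lemma TT.sa_iter_dir (hT : s.TT) (e : Y.Dir) (m : ℕ) : s.LegalP (s.σ^[m] e.src) (s.σ^[m] e.tgt) :=
  hT.sa_iter (s.sa_legal_dir e) m

lemma TT.sa_four (hT : s.TT) (e : Y.Dir) : 4 ≤ Y.dist (s.σ e.src) (s.σ e.tgt) := by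
  obtain ⟨u, v, h, -, -, ⟨u1, u2, u3⟩, v1, v2, v3⟩ := hT.prim e e.1.i
  have a1 := dist_pos (Cross.lev_src u1) u2.symm
  have a2 := dist_pos (Cross.btw_tgt u1).lev2 u3
  have a3 := dist_pos (Cross.lev_src v1) v2.symm
  have a4 := dist_pos (Cross.btw_tgt v1).lev2 v3
  have a5 := Cross.dist_eq u1
  have a6 := Cross.dist_eq v1
  have a7 : Y.dist (s.σ^[1] e.src) u.src ≠ Y.dist (s.σ^[1] e.src) v.src := fun t =>
    h (by rw [step_unique u1 v1 ((Cross.btw_src u1).eq_of_dist (Cross.btw_src v1) t)])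
  change 4 ≤ Y.dist (s.σ^[1] e.src) (s.σ^[1] e.tgt)
  omega

/-- Legal paths are expanded. -/
lemma TT.sa_exp (hT : s.TT) (h : s.LegalP a b) : 4 * Y.dist a b ≤ Y.dist (s.σ a) (s.σ b) := by
  have l := h.1
  revert h
  refine dir_ind (P := fun a => s.LegalP a b → 4 * Y.dist a b ≤ Y.dist (s.σ a) (s.σ b))
    (by simp) (fun e he ih h => ?_) l
  have h1 := ih (h.sa_sub he.btw2 (btw_right h.1))
  have h2 : _ = Y.dist (s.σ e.src) (s.σ b) := (h.sa_btw he.btw2 1).dist_add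
  have h3 := hT.sa_four e
  have h4 := he.dist_tgt
  simp only [Function.iterate_one] at h2
  omega

lemma TT.sa_exp_iter (hT : s.TT) (h : s.LegalP a b) (n : ℕ) :
    4 ^ n * Y.dist a b ≤ Y.dist (s.σ^[n] a) (s.σ^[n] b) := by
  induction n with
  | zero => simp
  | succ n ih =>
    have := hT.sa_exp (hT.sa_iter h n)
    rw [Function.iterate_succ_apply', Function.iterate_succ_apply', pow_succ]
    nlinarith

/-- One-sided persistence of a long legal segment in front of a dart. -/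
lemma TT.pers1 (hT : s.TT) (hd : Function.Surjective d) : ∃ C : ℕ, ∀ (L : ℕ) (x y b : Y.V) e e',
    C ≤ L → s.LegalP x y → Y.Cross x y e → L ≤ Y.dist e.tgt y → Y.btw x y b → s.Desc 1 e e' →
    ∃ y', Y.btw (s.σ e.tgt) y' (s.σ y) ∧ Y.btw (s.σ x) y' (s.σ b) ∧ Y.dist y' (s.σ y) ≤ C ∧
      Y.Cross (s.σ x) y' e' ∧ 3 * L ≤ Y.dist e'.tgt y' := by
  obtain ⟨C, hC⟩ := s.exists_bcc hd 1
  refine ⟨C, fun L x y b e e' hL h hc h1 h2 h3 => ?_⟩
  obtain ⟨m, hm⟩ := exists_med (s.lev_σ_eq h2.lev3) (s.lev_σ_eq h2.lev1)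
  have a1 : Y.dist (s.σ y) m ≤ C := hC x y b m h2 hm
  have a2 : Y.btw (s.σ x) (s.σ e.tgt) (s.σ y) := h.sa_btw hc.btw_tgt 1
  have a3 := hT.sa_exp (h.sa_sub hc.btw_tgt (btw_right h.1))
  have a4 : Y.btw (s.σ y) m (s.σ e.tgt) :=
    hm.2.2.symm.of_dist_le a2.symm (by rw [Forest.dist_comm _ (s.σ e.tgt)]; omega)
  have a5 := a4.symm.dist_add
  have a6 : Y.Cross (s.σ x) (s.σ e.tgt) e' :=
    (h.sa_sub (btw_left h.1) hc.btw_tgt).lh_cross ⟨hc.1, tgt_mem_H e⟩ h3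
  have a7 := a2.trans_right' a4.symm
  have a8 := (a7.trans_left' a6.btw_tgt).dist_le'
  rw [Forest.dist_comm] at a1
  exact ⟨m, a4.symm, hm.1, a1, a6.extend_right a7, by omega⟩

/-- PERS: a long legal segment around a dart persists in the image of every path containing it. -/
theorem TT.pers (hT : s.TT) (hd : Function.Surjective d) : ∃ C : ℕ, ∀ (L : ℕ) (a x y b : Y.V) e e',
    C ≤ L → s.LegalP x y → Y.Cross x y e → L ≤ Y.dist x e.src → L ≤ Y.dist e.tgt y →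
    Y.btw a x y → Y.btw x y b → s.Desc 1 e e' →
    ∃ x' y', Y.btw (s.σ x) x' (s.σ y) ∧ Y.btw (s.σ x) y' (s.σ y) ∧ Y.dist (s.σ x) x' ≤ C ∧
      Y.dist y' (s.σ y) ≤ C ∧ s.LegalP x' y' ∧ Y.Cross x' y' e' ∧ 3 * L ≤ Y.dist x' e'.src ∧
      3 * L ≤ Y.dist e'.tgt y' ∧ Y.btw (s.σ a) x' y' ∧ Y.btw x' y' (s.σ b) := by
  obtain ⟨C, hC⟩ := hT.pers1 hd
  refine ⟨C, fun L a x y b e e' hL h hc h1 h2 h3 h4 h5 => ?_⟩
  obtain ⟨y', a1, a2, a3, a4, a5⟩ := hC L x y b e e' hL h hc h2 h4 h5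
  obtain ⟨x', b1, b2, b3, b4, b5⟩ := hC L y x a e.rv e'.rv hL h.lh_symm hc.symm
    (by rwa [tgt_rv, Forest.dist_comm]) h3.symm h5.lh_rv
  rw [tgt_rv] at b1 b5
  have c1 : Y.btw (s.σ x) y' (s.σ y) := (h.sa_btw hc.btw_tgt 1).trans_right a1
  have c2 : Y.btw (s.σ x) x' (s.σ y) := (h.sa_btw hc.btw_src 1).trans_left b1.symm
  have c3 : Y.Cross x' y' e' := ⟨b4.2, a4.2⟩
  have c4 : Y.btw (s.σ x) x' y' := by
    refine (c2.total c1).resolve_right fun t => ?_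
    exact not_mem_H_both (a4.mem_H t) b4.2
  exact ⟨x', y', c2, c1, by rwa [Forest.dist_comm], a3, (hT.sa_fwd h).sa_sub c2 c1, c3,
    by rwa [Forest.dist_comm], a5, b2.symm.trans_right' (c1.trans_left' c4), a2.trans_left' c4⟩

/-- One-sided SAND. -/
theorem TT.sand1 (hT : s.TT) (hd : Function.Surjective d) : ∃ C : ℕ, ∀ (ι : ℕ → Y.Dir) (x y b : Y.V),
    s.Itin ι → s.LegalP x y → Y.Cross x y (ι 0) → C ≤ Y.dist (ι 0).tgt y → Y.btw x y b →
    ∀ n, s.σ^[n] b ∈ (ι n).H := by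
  obtain ⟨C, hC⟩ := hT.pers1 hd
  refine ⟨C, fun ι x y b h h1 h2 h3 h4 n => ?_⟩
  suffices ∃ y', s.LegalP (s.σ^[n] x) y' ∧ Y.Cross (s.σ^[n] x) y' (ι n) ∧ C ≤ Y.dist (ι n).tgt y' ∧
      Y.btw (s.σ^[n] x) y' (s.σ^[n] b) from let ⟨_, _, a, _, b⟩ := this; a.mem_H b
  induction n with
  | zero => exact ⟨y, h1, h2, h3, h4⟩
  | succ n ih =>
    obtain ⟨z, a1, a2, a3, a4⟩ := ih
    obtain ⟨y', b1, b2, -, b4, b5⟩ := hC C _ _ _ _ _ le_rfl a1 a2 a3 a4 (h n)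
    rw [Function.iterate_succ_apply', Function.iterate_succ_apply']
    exact ⟨y', (hT.sa_fwd a1).sa_sub (btw_left (s.lev_σ_eq a1.1))
      ((a1.sa_btw a2.btw_tgt 1).trans_right b1), b4, by omega, b2⟩

/-- SAND: the limit half-space of an itinerary that starts in the middle of a long legal segment
is sandwiched by the two ends of the segment. -/
theorem TT.sand (hT : s.TT) (hd : Function.Surjective d) : ∃ C : ℕ, ∀ (ι : ℕ → Y.Dir) (x y : Y.V),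
    s.Itin ι → s.LegalP x y → Y.Cross x y (ι 0) →
    (C ≤ Y.dist (ι 0).tgt y → ∀ b, Y.btw x y b → b ∈ s.LH ι) ∧
    (C ≤ Y.dist x (ι 0).src → ∀ a, Y.btw a x y → a ∉ s.LH ι) := by
  obtain ⟨C, hC⟩ := hT.sand1 hd
  refine ⟨C, fun ι x y h h1 h2 => ⟨fun h3 b hb => ⟨0, 0, fun j => ?_⟩,
    fun h3 a ha => (h.not_mem_LH hT).2 ⟨0, 0, fun j => ?_⟩⟩⟩
  · simpa using hC ι x y b h h1 h2 h3 hb j
  · simpa using hC _ y x a h.rv h1.lh_symm h2.symm (by rwa [tgt_rv, Forest.dist_comm]) ha.symm j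

/-- RATIO, first half. -/
lemma TT.ratio1 (hT : s.TT) (k : ℕ) (e e' : Y.Dir) :
    Y.dist (s.σ^[k] e.src) (s.σ^[k] e.tgt) ≤ Y.dist (s.σ^[k + 1] e'.src) (s.σ^[k + 1] e'.tgt) := by
  obtain ⟨u, -, -, hu, -, ⟨u1, -⟩, -⟩ := hT.prim e' e.1.i
  have h := ((hT.legal e').sa_btw (Cross.btw_src u1) k).dist_mid
    ((hT.legal e').sa_btw (Cross.btw_tgt u1) k)
  obtain ⟨g, rfl | rfl⟩ := exists_tr hu.symm
  · simpa using h
  · simpa [Forest.dist_comm (s.σ^[k] e.tgt)] using h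

/-- RATIO: images of different edges have comparable lengths. -/
theorem TT.ratio (hT : s.TT) : ∃ Λ : ℕ, 0 < Λ ∧ ∀ (k : ℕ) (e e' : Y.Dir),
    Y.dist (s.σ^[k] e.src) (s.σ^[k] e.tgt) ≤ Λ * Y.dist (s.σ^[k] e'.src) (s.σ^[k] e'.tgt) := by
  obtain ⟨Λ, h0, h⟩ := s.exists_lip 1
  refine ⟨Λ, h0, fun k e e' => (hT.ratio1 k e e').trans ?_⟩
  rw [Function.iterate_succ_apply', Function.iterate_succ_apply']
  exact h _ _ (s.lev_iter_eq k (lev_src_tgt e'))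

lemma IDesc.sa_rv {n : ℕ} (h : s.IDesc n e e') : s.IDesc n e.rv e'.rv :=
  ⟨h.1.lh_rv, by simpa using h.2.2, by simpa using h.2.1⟩

lemma IDesc.sa_tr {n : ℕ} (h : s.IDesc n e e') (g : G) : s.IDesc n (e.tr g) (e'.tr g) :=
  ⟨h.1.lh_tr g, by simpa using h.2.1, by simpa using h.2.2⟩

/-- Every dart has an interior ancestor in every edge orbit. -/
lemma TT.sa_anc (hT : s.TT) (e' : Y.Dir) (i : Y.I) : ∃ e, e.1.i = i ∧ s.IDesc 1 e e' := by
  obtain ⟨u, -, -, hu, -, h, -⟩ := hT.prim (⟨1, i⟩, false) e'.1.i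
  obtain ⟨g, rfl | rfl⟩ := exists_tr hu
  exacts [⟨_, rfl, h.sa_tr g⟩, ⟨_, rfl, (h.sa_tr g).sa_rv⟩]

lemma TT.sa_anc_iter (hT : s.TT) (e' : Y.Dir) (n : ℕ) : ∃ e, s.Desc n e e' := by
  induction n with
  | zero => exact ⟨e', cross_self e'⟩
  | succ n ih =>
    obtain ⟨c, h⟩ := ih
    obtain ⟨c', -, h', -⟩ := hT.sa_anc c c.1.i
    exact ⟨c', hT.lh_trans h' h⟩

/-- Every dart lies deep inside an iterated image of an edge of any given orbit. -/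
lemma TT.sa_deep (hT : s.TT) (e : Y.Dir) (n : ℕ) (i : Y.I) : ∃ c : Y.Dir, c.1.i = i ∧
    s.Desc (n + 1) c e ∧ 4 ^ n ≤ Y.dist (s.σ^[n + 1] c.src) e.src ∧
      4 ^ n ≤ Y.dist e.tgt (s.σ^[n + 1] c.tgt) := by
  have key : ∀ c c' e : Y.Dir, s.IDesc 1 c' c → s.Desc n c e →
      4 ^ n ≤ Y.dist (s.σ^[n + 1] c'.src) e.src := by
    intro c c' e h' h
    have l := (hT.legal c').sa_sub (btw_left (hT.legal c').1) (Cross.btw_src h'.1)
    have a1 := hT.sa_exp_iter l n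
    have a2 := dist_pos l.1 h'.2.1.symm
    have l' := (hT.legal c').sa_sub (btw_left (hT.legal c').1) (Cross.btw_tgt h'.1)
    have a3 := ((l'.sa_btw (Cross.btw1 h'.1) n).trans_right' (Cross.btw_src h)).dist_le
    calc 4 ^ n ≤ 4 ^ n * Y.dist (s.σ c'.src) c.src := Nat.le_mul_of_pos_right _ a2
      _ ≤ _ := a1.trans a3
  obtain ⟨c, h⟩ := hT.sa_anc_iter e n
  obtain ⟨c', hi, h'⟩ := hT.sa_anc c i
  refine ⟨c', hi, hT.lh_trans h'.1 h, key c c' e h' h, ?_⟩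
  simpa [Forest.dist_comm e.tgt] using key _ _ _ h'.sa_rv h.lh_rv

/-- Legal extension: every dart lies in the middle of arbitrarily long legal segments. -/
theorem TT.legal_ext (hT : s.TT) (e : Y.Dir) (L : ℕ) : ∃ x y, s.LegalP x y ∧ Y.Cross x y e ∧
    L ≤ Y.dist x e.src ∧ L ≤ Y.dist e.tgt y := by
  obtain ⟨c, -, h1, h2, h3⟩ := hT.sa_deep e L e.1.i
  have : L ≤ 4 ^ L := (Nat.lt_pow_self (by norm_num)).le
  exact ⟨_, _, hT.sa_iter_dir c _, h1, this.trans h2, this.trans h3⟩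

/-- Every limit half-space contains a half-tree beyond each dart of the itinerary. -/
theorem Itin.exists_H_subset (h : s.Itin ι) (hT : s.TT) (hd : Function.Surjective d) (n : ℕ) :
    ∃ q : Y.Dir, q.H ⊆ (ι n).H ∧ q.H ⊆ s.LH ι := by
  obtain ⟨C, hC⟩ := hT.sand hd
  obtain ⟨x, y, a1, a2, -, a4⟩ := hT.legal_ext (ι n) C
  obtain ⟨q, b1, b2⟩ := exists_last a1.1 a2.ne
  have key : ∀ b ∈ q.H, Y.btw x y b := fun b hb => b1 ▸ Cross.btw_tgt ⟨b2.1, hb⟩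
  refine ⟨q, fun b hb => a2.mem_H (key b hb), fun b hb => ?_⟩
  rw [← LH_shift n]
  exact (hC _ x y (h.shift n) a1 (by simpa using a2)).1 (by simpa using a4) b (key b hb)

/-- Every dart starts an itinerary. -/
lemma TT.exists_itin (hT : s.TT) (e : Y.Dir) : ∃ ι : ℕ → Y.Dir, ι 0 = e ∧ s.Itin ι := by
  have : ∀ c : Y.Dir, ∃ c', s.Desc 1 c c' := fun c =>
    let ⟨u, _, _, _, _, h, _⟩ := hT.prim c c.1.i; ⟨u, h.1⟩
  choose f hf using this
  exact ⟨fun n => f^[n] e, rfl, fun n => by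
    simpa only [Function.iterate_succ_apply'] using hf (f^[n] e)⟩

end Pool.Agent.Lib.FBC.Flow
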