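import Pool.Agent.Lib.FBC.Map
import Pool.Agent.Lib.FBC.Matrix

set_option autoImplicit false
set_option linter.unusedVariables false

/-!
Definitions for train tracks on forests, and the statements of the independent blocks.
-/

namespace Pool.Agent.Lib.FBC

variable {G : Type} [Group G]

/-- The kernel of `deg` has at most `n` generators, and each of its nontrivial subgroups has a
nontrivial homomorphism to the rationals. -/
def Rank (deg : G →* Multiplicative ℤ) (n : ℕ) : Prop :=
  (∃ s : Finset G, s.card ≤ n ∧ Subgroup.closure (s : Set G) = deg.ker) ∧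
    ∀ H : Subgroup G, H ≤ deg.ker → H ≠ ⊥ → ∃ χ : H →* Multiplicative ℚ, χ ≠ 1

namespace Forest

variable {deg : G →* Multiplicative ℤ}

/-- There is a vertex, and no vertex is fixed by the kernel of `deg`. -/
def Ess (T : Forest deg) : Prop := Nonempty T.V ∧ ∀ x : T.V, ∃ g : G, deg g = 1 ∧ g • x ≠ x

/-- No vertex of valence one. -/
def Leafless (T : Forest deg) : Prop := ∀ d : T.Dir, ∃ d' : T.Dir, d'.src = d.src ∧ d' ≠ d

variable {T T' : Forest deg} {k : ℤ}

/-- A turn: two different directions at one vertex. -/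
def Turn (a b : T.Dir) : Prop := a ≠ b ∧ a.src = b.src

/-- `a` and `b` are the only directions at a vertex with trivial stabiliser. -/
def Val2 (a b : T.Dir) : Prop :=
  Turn a b ∧ (∀ d : T.Dir, d.src = a.src → d = a ∨ d = b) ∧ ∀ g : G, g • a.src = a.src → g = 1

/-- No free vertex of valence two, except on a line. -/
def Reduced (T : Forest deg) : Prop := ∀ a b : T.Dir, Val2 a b → a.1.i = b.1.i

/-- Iterated derivative of a self map, as a relation. -/
def Hom.DI (f : Hom T T k) : ℕ → T.Dir → T.Dir → Prop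
  | 0, a, b => a = b
  | j + 1, a, b => ∃ c, f.DI j a c ∧ f.D c b

/-- The directions `a`, `b` are never identified by an iterate of the derivative. -/
def Hom.LegalTurn (f : Hom T T k) (a b : T.Dir) : Prop := ∀ j c, f.DI j a c → ¬ f.DI j b c

/-- All turns of the geodesic from `u` to `v` are legal. -/
def Hom.Legal (f : Hom T T k) (u v : T.V) : Prop :=
  ∀ a b : T.Dir, Turn a b → a.1 ∈ sep u v → b.1 ∈ sep u v → f.LegalTurn a b

/-- Train track map: no edge is collapsed and images of edges are legal. -/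
def Hom.TT (f : Hom T T k) : Prop :=
  f.Nondeg ∧ ∀ c : T.E, f.Legal (f (c.ed false)) (f (c.ed true))

end Forest

open Forest

/-- Block COC1: extension of a homomorphism on a vertex stabiliser. -/
def St_EXT : Prop := ∀ (G : Type) [Group G] (deg : G →* Multiplicative ℤ) (T : Forest deg)
  (S : Subgroup G) (_ : S ≤ deg.ker) (v : T.V) (χ : MulAction.stabilizer S v →* Multiplicative ℚ),
  ∃ ψ : S →* Multiplicative ℚ, (∀ s : MulAction.stabilizer S v, ψ s = χ s) ∧
    ∀ (x : T.V) (s : S), T.lev x = T.lev v → (∀ s' : S, s' • v ≠ x) → s • x = x → ψ s = 1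

/-- Block COC2: a potential for an arbitrary edge cochain on one level. -/
def St_POT : Prop := ∀ (G : Type) [Group G] (deg : G →* Multiplicative ℤ) (T : Forest deg)
  (l : ℤ) (w : T.E → ℚ), ∃ Ψ : T.V → ℚ,
    ∀ c : T.E, T.lev (c.ed false) = l → Ψ (c.ed true) - Ψ (c.ed false) = w c

/-- Block RANK: normalised forests have boundedly many edge orbits. -/
def St_RANK : Prop := ∀ (G : Type) [Group G] (deg : G →* Multiplicative ℤ) (n : ℕ)
  (T : Forest deg), Rank deg n → T.Ess → T.Leafless → T.Reduced → Fintype.card T.I ≤ 3 * n + 1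

/-- Block ACC: a bounded, strictly monotone complexity of the family of elliptic subgroups. -/
def St_ACC : Prop := ∀ (G : Type) [Group G] (deg : G →* Multiplicative ℤ) (n : ℕ),
  Rank deg n → Function.Surjective deg → ∃ xi : Forest deg → ℕ,
    (∀ T : Forest deg, T.Ess → xi T ≤ n ^ 2) ∧
    ∀ (T T' : Forest deg) (k : ℤ) (h : Hom T T' k), T.Ess → T'.Ess →
      xi T ≤ xi T' ∧ (xi T' ≤ xi T → Nonempty (Hom T' T (-k)))

/-- Block START: the Cayley forest of a basis of the kernel. -/
def St_START : Prop := ∀ (G : Type) [Group G] (deg : G →* Multiplicative ℤ) (n : ℕ)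
  (ι : FreeGroup (Fin n) →* G), Function.Injective ι → ι.range = deg.ker → n ≠ 0 →
  Function.Surjective deg → Rank deg n ∧ ∃ T : Forest deg, T.Ess ∧
    (∀ (g : G) (x : T.V), g • x = x → g = 1) ∧ ∀ k : ℤ, Nonempty (Hom T T k)

/-- Block TURN1: cancellation happens at a turn. -/
def St_TURN1 : Prop := ∀ (G : Type) [Group G] (deg : G →* Multiplicative ℤ) (T T' : Forest deg)
  (k : ℤ) (h : Hom T T' k) (u v : T.V), h.Nondeg → ¬ h.NoCancel u v →
  ∃ (a b : T.Dir) (e : T'.Dir), Turn a b ∧ a.1 ∈ sep u v ∧ b.1 ∈ sep u v ∧ h.D a e ∧ h.D b e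

/-- Block TURN2: turns of the image of a geodesic without cancellation. -/
def St_TURN2 : Prop := ∀ (G : Type) [Group G] (deg : G →* Multiplicative ℤ) (T T' : Forest deg)
  (k : ℤ) (h : Hom T T' k) (u v : T.V) (a' b' : T'.Dir), h.Nondeg → h.NoCancel u v →
  T.lev u = T.lev v → Turn a' b' → a'.1 ∈ sep (h u) (h v) → b'.1 ∈ sep (h u) (h v) →
  (∃ c ∈ sep u v, a'.1 ∈ h.img c ∧ b'.1 ∈ h.img c) ∨
    ∃ a b : T.Dir, Turn a b ∧ a.1 ∈ sep u v ∧ b.1 ∈ sep u v ∧ h.D a a' ∧ h.D b b'

/-- Block TURN3: legal geodesics do not cancel and have legal images. -/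
def St_TURN3 : Prop := ∀ (G : Type) [Group G] (deg : G →* Multiplicative ℤ) (T : Forest deg)
  (k : ℤ) (f : Hom T T k) (u v : T.V), f.TT → T.lev u = T.lev v → f.Legal u v →
  f.NoCancel u v ∧ f.Legal (f u) (f v)

/-- The train track theorem. -/
def St_T1 : Prop := ∀ (G : Type) [Group G] (deg : G →* Multiplicative ℤ) (n : ℕ) (k : ℤ)
  (T : Forest deg) (f : Hom T T k), Rank deg n → T.Ess →
  ∃ (T' : Forest deg) (f' : Hom T' T' k), Nonempty (Hom T T' 0) ∧ T'.Ess ∧ T'.Leafless ∧
    T'.Reduced ∧ Irr f'.mat ∧ f'.TT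

/-- A pair of train tracks with the same, maximal, family of elliptic subgroups. -/
def St_T0 : Prop := ∀ (G : Type) [Group G] (deg : G →* Multiplicative ℤ) (n : ℕ)
  (T : Forest deg) (f : Hom T T 1), Rank deg n → Function.Surjective deg → T.Ess →
  ∃ (Tp Tm : Forest deg) (fp : Hom Tp Tp 1) (fm : Hom Tm Tm (-1)),
    Nonempty (Hom T Tp 0) ∧ Nonempty (Hom Tp Tm 0) ∧ Nonempty (Hom Tm Tp 0) ∧
    Tp.Ess ∧ Tp.Leafless ∧ Tp.Reduced ∧ Irr fp.mat ∧ fp.TT ∧
    Tm.Ess ∧ Tm.Leafless ∧ Tm.Reduced ∧ Irr fm.mat ∧ fm.TT ∧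
    ∀ (T' : Forest deg) (f' : Hom T' T' 1), T'.Ess → Nonempty (Hom Tp T' 0) →
      Nonempty (Hom T' Tp 0)

end Pool.Agent.Lib.FBC
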