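import Pool.Agent.Lib.FBC.State

set_option autoImplicit false
set_option linter.unusedVariables false

/-!
A pair of train tracks with the same maximal family of elliptic subgroups.
-/

namespace Pool.Agent.Lib.FBC

open Forest

/-- The identity map of a forest. -/
def Forest.Hom.ident {G : Type} [Group G] {deg : G →* Multiplicative ℤ} (T : Forest deg) :
    Hom T T 0 where
  toFun v := v
  map_smul _ _ := rfl
  lev_map v := (add_zero _).symm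

theorem T0_holds (hT1 : St_T1) (hACC : St_ACC) : St_T0 := by
  intro G _ deg n T f hR hs hE
  obtain ⟨xi, hb, hm⟩ := hACC G deg n hR hs
  let S : Set ℕ := {m | ∃ T' : Forest deg, T'.Ess ∧ Nonempty (Hom T' T' 1) ∧
    Nonempty (Hom T T' 0) ∧ xi T' = m}
  have hne : S.Nonempty := ⟨xi T, T, hE, ⟨f⟩, ⟨Hom.ident T⟩, rfl⟩
  have hbd : BddAbove S := ⟨n ^ 2, by rintro m ⟨T', h1, -, -, rfl⟩; exact hb T' h1⟩
  obtain ⟨T0, hE0, ⟨f0⟩, ⟨h0⟩, hx0⟩ := Nat.sSup_mem hne hbd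
  have hmax : ∀ T' : Forest deg, T'.Ess → Nonempty (Hom T' T' 1) → Nonempty (Hom T T' 0) →
      xi T' ≤ xi T0 := fun T' h1 h2 h3 => by
    rw [hx0]; exact le_csSup hbd ⟨T', h1, h2, h3, rfl⟩
  obtain ⟨Tp, fp, ⟨hp⟩, hEp, hLp, hRp, hIp, hTp⟩ := hT1 G deg n 1 T0 f0 hR hE0
  have hTTp : Hom T Tp 0 := hp.comp h0 (by simp)
  have hxp : xi T0 ≤ xi Tp := (hm T0 Tp 0 hp hE0 hEp).1
  obtain ⟨g⟩ := (hm Tp Tp 1 fp hEp hEp).2 le_rfl
  obtain ⟨Tm, fm, ⟨hpm⟩, hEm, hLm, hRm, hIm, hTm⟩ := hT1 G deg n (-1) Tp g hR hEp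
  have key : ∀ T' : Forest deg, T'.Ess → Nonempty (Hom T' T' 1) → Nonempty (Hom Tp T' 0) →
      Nonempty (Hom T' Tp 0) := by
    rintro T' h1 h2 ⟨h3⟩
    have := (hm Tp T' 0 h3 hEp h1).2
      ((hmax T' h1 h2 ⟨h3.comp hTTp (by simp)⟩).trans hxp)
    rwa [neg_zero] at this
  have hup : Nonempty (Hom Tm Tm 1) := by
    have := (hm Tm Tm (-1) fm hEm hEm).2 le_rfl
    rwa [neg_neg] at this
  exact ⟨Tp, Tm, fp, fm, ⟨hTTp⟩, ⟨hpm⟩, key Tm hEm hup ⟨hpm⟩, hEp, hLp, hRp, hIp, hTp,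
    hEm, hLm, hRm, hIm, hTm, fun T' f' h1 h2 => key T' h1 ⟨f'⟩ h2⟩

end Pool.Agent.Lib.FBC
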