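import Pool.Agent.Lib.FBC.Collapse

set_option autoImplicit false
set_option linter.unusedVariables false

/-!
The train track theorem from the blocks RANK, NORM and FOLD.
-/

namespace Pool.Agent.Lib.FBC

open Forest

theorem T1_holds (hR : St_RANK) (hN : St_NORM) (hF : St_FOLD) : St_T1 := by
  intro G _ deg n k T f hn hT
  obtain ⟨lam0, h0⟩ := exists_freq f.mat
  let S : Set ℝ := {lam | lam ≤ lam0 ∧ ∃ (T' : Forest deg) (f' : Hom T' T' k),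
    Nonempty (Hom T T' 0) ∧ T'.Ess ∧ T'.Leafless ∧ T'.Reduced ∧ Irr f'.mat ∧
      IsLeast {mu | Freq f'.mat mu} lam}
  have norm : ∀ (T' : Forest deg) (f' : Hom T' T' k) (mu : ℝ), Nonempty (Hom T T' 0) → T'.Ess →
      Freq f'.mat mu → mu ≤ lam0 → ∃ lam ∈ S, lam ≤ mu := by
    rintro T' f' mu ⟨p⟩ h1 h2 h3
    obtain ⟨T'', f'', ⟨q⟩, e1, e2, e3, e4, e5⟩ := hN G deg T' k f' mu h1 h2
    have := e1.nonempty_I
    obtain ⟨lam, hl⟩ := e4.exists_least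
    exact ⟨lam, ⟨(hl.2 e5).trans h3, T'', f'', ⟨q.comp p rfl⟩, e1, e2, e3, e4, hl⟩, hl.2 e5⟩
  have fin : S.Finite := by
    refine (finite_rates (3 * n + 1) ⌈(max lam0 1) ^ (3 * n + 1 + 1)⌉₊).subset ?_
    rintro lam ⟨h1, T', f', -, e1, e2, e3, e4, e5⟩
    have hc := hR G deg n T' hn e1 e2 e3
    refine ⟨T'.I, inferInstance, f'.mat, hc, fun j i => ?_, e5⟩
    have := e5.1.entry_le e4 (h1.trans (le_max_left lam0 1)) (le_max_right lam0 1) hc j i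
    exact Nat.cast_le.1 (this.trans (Nat.le_ceil _))
  obtain ⟨l1, hl1, -⟩ := norm T f lam0 ⟨⟨id, fun _ _ => rfl, fun _ => (add_zero _).symm⟩⟩ hT h0 le_rfl
  obtain ⟨lam, ⟨h1, T', f', ⟨p⟩, e1, e2, e3, e4, e5⟩, hm⟩ :=
    Set.exists_min_image S id fin ⟨l1, hl1⟩
  refine ⟨T', f', ⟨p⟩, e1, e2, e3, e4, by_contra fun e => ?_⟩
  obtain ⟨T'', f'', ⟨q⟩, a1, mu, a2, a3⟩ := hF G deg T' k f' lam e1 e4 e5.1 e
  obtain ⟨l2, b1, b2⟩ := norm T'' f'' mu ⟨q.comp p rfl⟩ a1 a3 (a2.le.trans h1)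
  exact (b2.trans_lt a2).not_ge (hm l2 b1)

end Pool.Agent.Lib.FBC
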