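import Pool.Agent.Lib.FBC.Fold
import Pool.Agent.Lib.FBC.NORM
import Pool.Agent.Lib.FBC.RANK
import Pool.Agent.Lib.FBC.POT
import Pool.Agent.Lib.FBC.EXT
import Pool.Agent.Lib.FBC.T0
import Pool.Agent.Lib.FBC.T1
import Pool.Agent.Lib.FBC.START

/-!
Relative train tracks exist: the statements of `State.lean` without hypotheses.
-/

namespace Pool.Agent.Lib.FBC

theorem ext_thm : St_EXT := EXT_holds POT_holds

theorem rank_thm : St_RANK := RANK_holds POT_holds ext_thm

theorem acc_thm : St_ACC := ACC_holds POT_holds ext_thm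

theorem t1_thm : St_T1 := T1_holds rank_thm NORM_holds (FOLD_holds LEAF_holds)

theorem t0_thm : St_T0 := T0_holds t1_thm acc_thm

end Pool.Agent.Lib.FBC
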