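import Pool.Agent.Lib.FBC.Defs

/-!
Betweenness, medians, distances and half-trees in a forest.
-/

namespace Pool.Agent.Lib.FBC.Forest

variable {G : Type} [Group G] {d : Dg G} {Y : Forest d} {a b c x y z u v m m' a' b' : Y.V}
  {e e' : Y.Dir}

/-- Two walls do not cross. -/
lemma no_four (k k' : Y.E) {p q r s : Y.V} (l1 : Y.lev p = Y.lev q) (l2 : Y.lev p = Y.lev r)
    (l3 : Y.lev p = Y.lev s) (h1 : k.sd p = k.sd q) (h2 : k.sd r = k.sd s) (h3 : k.sd p ≠ k.sd r)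
    (h4 : k'.sd p = k'.sd r) (h5 : k'.sd q = k'.sd s) (h6 : k'.sd p ≠ k'.sd q) : False := by
  have hne : k ≠ k' := by rintro rfl; exact h3 h4
  have hk : k ∈ sep p r := (mem_sep l2).2 h3
  have key : ∀ w : Y.V, Y.lev p = Y.lev w → k.sd w ≠ k.sd (k'.ed false) →
      k'.sd w = k'.sd (k.ed false) := by
    intro w lw hw
    by_contra hc
    have l : Y.lev (k.ed (k.sd w)) = Y.lev w := (lev_ed_of_mem hk _).trans lw
    have m1 : k' ∈ sep (k.ed (k.sd w)) w := by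
      rw [mem_sep l, sd_ed_ne hne.symm _ false]; exact fun h => hc h.symm
    have m2 := sep_ed_subset m1 false
    have m3 : k ∈ sep (k'.ed false) w :=
      (mem_sep ((lev_ed_of_mem m1 false).trans l)).2 hw.symm
    have := sd_ne_of_mem (m2 m3)
    simp at this
  by_cases hp : k.sd p = k.sd (k'.ed false)
  · have e1 := key r l2 (fun h => h3 (hp.trans h.symm))
    have e2 := key s l3 (fun h => h3 (hp.trans (h2.trans h).symm))
    exact h6 (h4.trans (e1.trans (e2.symm.trans h5.symm)))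
  · have e1 := key p rfl hp
    have e2 := key q l1 (fun h => hp (h1.trans h))
    exact h6 (e1.trans e2.symm)

lemma btw.lev1 (h : Y.btw a x b) : Y.lev a = Y.lev x := h.1
lemma btw.lev2 (h : Y.btw a x b) : Y.lev x = Y.lev b := h.2.1
lemma btw.lev3 (h : Y.btw a x b) : Y.lev a = Y.lev b := h.1.trans h.2.1
lemma btw.sd (h : Y.btw a x b) (k : Y.E) (hk : k.sd a = k.sd b) : k.sd x = k.sd a := h.2.2 k hk

lemma btw_left (h : Y.lev a = Y.lev b) : Y.btw a a b := ⟨rfl, h, fun _ _ => rfl⟩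
lemma btw_right (h : Y.lev a = Y.lev b) : Y.btw a b b := ⟨h, rfl, fun _ h => h.symm⟩
lemma btw_refl (a : Y.V) : Y.btw a a a := btw_left rfl

lemma btw.symm (h : Y.btw a x b) : Y.btw b x a :=
  ⟨h.lev2.symm, h.lev1.symm, fun k hk => (h.sd k hk.symm).trans hk.symm⟩

lemma btw_comm : Y.btw a x b ↔ Y.btw b x a := ⟨btw.symm, btw.symm⟩

lemma btw.eq_of_self (h : Y.btw a x a) : x = a := eq_of_sd h.lev2 fun k => h.sd k rfl

lemma btw.antisymm (h : Y.btw a x b) (h' : Y.btw a b x) : x = b :=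
  eq_of_sd h.lev2 fun k => by
    have t1 := h.sd k; have t2 := h'.sd k
    revert t1 t2
    cases k.sd a <;> cases k.sd b <;> cases k.sd x <;> simp

lemma btw.antisymm' (h : Y.btw a x b) (h' : Y.btw x a b) : a = x := (h.symm.antisymm h'.symm).symm

lemma btw.trans_left (h : Y.btw a x b) (h' : Y.btw a y x) : Y.btw a y b :=
  ⟨h'.lev1, h'.lev2.trans h.lev2, fun k hk => h'.sd k (h.sd k hk).symm⟩

lemma btw.trans_left' (h : Y.btw a x b) (h' : Y.btw a y x) : Y.btw y x b :=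
  ⟨h'.lev2, h.lev2, fun k => by
    have t1 := h.sd k; have t2 := h'.sd k
    revert t1 t2
    cases k.sd a <;> cases k.sd b <;> cases k.sd x <;> cases k.sd y <;> simp⟩

lemma btw.trans_right (h : Y.btw a x b) (h' : Y.btw x y b) : Y.btw a y b :=
  (h.symm.trans_left h'.symm).symm

lemma btw.trans_right' (h : Y.btw a x b) (h' : Y.btw x y b) : Y.btw a x y :=
  (h.symm.trans_left' h'.symm).symm

lemma btw.convex (h : Y.btw a x b) (h' : Y.btw a y b) (h'' : Y.btw x z y) : Y.btw a z b :=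
  ⟨h.lev1.trans h''.lev1, h''.lev2.trans h'.lev2, fun k hk =>
    (h''.sd k ((h.sd k hk).trans (h'.sd k hk).symm)).trans (h.sd k hk)⟩

lemma not_btw (h1 : Y.lev a = Y.lev x) (h2 : Y.lev x = Y.lev b) (h : ¬ Y.btw a x b) :
    ∃ k : Y.E, k.sd a = k.sd b ∧ k.sd x ≠ k.sd a := by
  by_contra hc
  exact h ⟨h1, h2, fun k hk => by_contra fun h' => hc ⟨k, hk, h'⟩⟩

lemma exists_sd_ne (h : Y.lev a = Y.lev b) (hne : a ≠ b) : ∃ k : Y.E, k.sd a ≠ k.sd b := by
  by_contra hc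
  exact hne (eq_of_sd h fun k => by_contra fun h' => hc ⟨k, h'⟩)

lemma btw.total (h : Y.btw a x b) (h' : Y.btw a y b) : Y.btw a x y ∨ Y.btw a y x := by
  by_contra hc
  rw [not_or] at hc
  have lxy : Y.lev x = Y.lev y := h.lev1.symm.trans h'.lev1
  obtain ⟨k, h1, h2⟩ := not_btw h.lev1 lxy hc.1
  obtain ⟨k', h3, h4⟩ := not_btw h'.lev1 lxy.symm hc.2
  have h5 := h.sd k
  have h6 := h'.sd k'
  refine no_four k k' (p := a) (q := y) (r := x) (s := b) h'.lev1 h.lev1 h.lev3 h1 ?_ h2.symm h3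
    ?_ h4.symm
  · revert h2 h5; cases k.sd a <;> cases k.sd b <;> cases k.sd x <;> simp
  · revert h4 h6; cases k'.sd a <;> cases k'.sd b <;> cases k'.sd y <;> simp

lemma btw.total' (h : Y.btw a x b) (h' : Y.btw a y b) : Y.btw x y b ∨ Y.btw y x b :=
  (h.total h').elim (fun t => Or.inl (h'.trans_left' t)) fun t => Or.inr (h.trans_left' t)

lemma btw.glue (h : Y.btw a x y) (h' : Y.btw x y b) (hne : x ≠ y) : Y.btw a x b := by
  by_contra hc
  obtain ⟨k, h1, h2⟩ := not_btw h.lev1 h'.lev3 hc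
  obtain ⟨k', h3⟩ := exists_sd_ne h.lev2 hne
  have h5 := h.sd k
  have h6 := h.sd k'
  have h7 := h'.sd k'
  refine no_four k k' (p := a) (q := b) (r := x) (s := y) (h.lev1.trans h'.lev3) h.lev1 h.lev3 h1
    ?_ h2.symm ?_ ?_ ?_
  · revert h2 h5; cases k.sd a <;> cases k.sd y <;> cases k.sd x <;> simp
  · revert h3 h6; cases k'.sd a <;> cases k'.sd y <;> cases k'.sd x <;> simp
  · revert h3 h7; cases k'.sd b <;> cases k'.sd y <;> cases k'.sd x <;> simp
  · revert h3 h6 h7; cases k'.sd a <;> cases k'.sd b <;> cases k'.sd y <;> cases k'.sd x <;> simp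

lemma btw.glue' (h : Y.btw a x y) (h' : Y.btw x y b) (hne : x ≠ y) : Y.btw a y b :=
  (h'.symm.glue h.symm hne.symm).symm

/-- A geodesic is covered by the two geodesics through any third point. -/
lemma btw.cover (h : Y.btw a x b) (hc : Y.lev a = Y.lev c) : Y.btw a x c ∨ Y.btw c x b := by
  by_contra hn
  rw [not_or] at hn
  have l : Y.lev x = Y.lev c := h.lev1.symm.trans hc
  obtain ⟨k, h1, h2⟩ := not_btw h.lev1 l hn.1
  obtain ⟨k', h3, h4⟩ := not_btw l.symm h.lev2 hn.2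
  have h5 := h.sd k
  have h6 := h.sd k'
  refine no_four k k' (p := c) (q := a) (r := b) (s := x) hc.symm (hc.symm.trans h.lev3) l.symm
    h1.symm ?_ ?_ h3 ?_ ?_
  · revert h2 h5; cases k.sd a <;> cases k.sd b <;> cases k.sd x <;> simp
  · revert h1 h2 h5; cases k.sd a <;> cases k.sd b <;> cases k.sd x <;> cases k.sd c <;> simp
  · revert h3 h4 h6; cases k'.sd a <;> cases k'.sd b <;> cases k'.sd x <;> cases k'.sd c <;> simp
  · revert h3 h4 h6; cases k'.sd a <;> cases k'.sd b <;> cases k'.sd x <;> cases k'.sd c <;> simp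

lemma btw_iff_subset (h1 : Y.lev a = Y.lev x) (h2 : Y.lev x = Y.lev b) :
    Y.btw a x b ↔ sep a x ⊆ sep a b := by
  refine ⟨fun h k hk => (mem_sep h.lev3).2 fun e => sd_ne_of_mem hk (h.sd k e).symm,
    fun h => ⟨h1, h2, fun k hk => by_contra fun e => ?_⟩⟩
  exact sd_ne_of_mem (h ((mem_sep h1).2 fun e' => e e'.symm)) hk

lemma btw.subset (h : Y.btw a x b) : sep a x ⊆ sep a b := (btw_iff_subset h.lev1 h.lev2).1 h

lemma btw.subset' (h : Y.btw a x b) : sep x b ⊆ sep a b := by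
  rw [sep_comm x, sep_comm a]; exact h.symm.subset

lemma btw.subset_mid (h : Y.btw a x b) (h' : Y.btw a y b) : sep x y ⊆ sep a b := fun k hk =>
  (mem_sep h.lev3).2 fun e => sd_ne_of_mem hk ((h.sd k e).trans (h'.sd k e).symm)

lemma btw.disjoint (h : Y.btw a x b) : Disjoint (sep a x) (sep x b) :=
  Finset.disjoint_left.2 fun k h1 h2 => by
    have t1 := h.sd k; have t2 := sd_ne_of_mem h1; have t3 := sd_ne_of_mem h2
    revert t1 t2 t3
    cases k.sd a <;> cases k.sd b <;> cases k.sd x <;> simp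

lemma btw.sep_eq (h : Y.btw a x b) : sep a b = sep a x ∪ sep x b :=
  (sep_subset_union h.lev1 h.lev2).antisymm (Finset.union_subset h.subset h.subset')

lemma btw_of_disjoint (h1 : Y.lev a = Y.lev x) (h2 : Y.lev x = Y.lev b)
    (h : Disjoint (sep a x) (sep x b)) : Y.btw a x b :=
  ⟨h1, h2, fun k hk => by_contra fun e => Finset.disjoint_left.1 h
    ((mem_sep h1).2 fun e' => e e'.symm) ((mem_sep h2).2 fun e' => e (e'.trans hk.symm))⟩

/-! ### distances -/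

@[simp] lemma dist_self (a : Y.V) : Y.dist a a = 0 := by simp [dist]

lemma dist_comm (a b : Y.V) : Y.dist a b = Y.dist b a := by rw [dist, dist, sep_comm]

lemma eq_of_dist (h : Y.lev a = Y.lev b) (e : Y.dist a b = 0) : a = b :=
  eq_of_sep h (Finset.card_eq_zero.1 e)

lemma dist_pos (h : Y.lev a = Y.lev b) (hne : a ≠ b) : 0 < Y.dist a b :=
  Nat.pos_of_ne_zero fun e => hne (eq_of_dist h e)

lemma lev_eq_of_dist_pos (h : 0 < Y.dist a b) : Y.lev a = Y.lev b :=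
  let ⟨_, hk⟩ := Finset.card_pos.1 h; lev_eq_of_mem hk

lemma dist_triangle (h : Y.lev a = Y.lev x) (h' : Y.lev x = Y.lev b) :
    Y.dist a b ≤ Y.dist a x + Y.dist x b :=
  (Finset.card_le_card (sep_subset_union h h')).trans (Finset.card_union_le _ _)

lemma btw.dist_add (h : Y.btw a x b) : Y.dist a x + Y.dist x b = Y.dist a b := by
  rw [dist, dist, dist, h.sep_eq, Finset.card_union_of_disjoint h.disjoint]

lemma btw_of_dist (h1 : Y.lev a = Y.lev x) (h2 : Y.lev x = Y.lev b)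
    (h : Y.dist a x + Y.dist x b ≤ Y.dist a b) : Y.btw a x b := by
  have h3 := Finset.card_le_card (sep_subset_union h1 h2)
  have h4 := Finset.card_union_add_card_inter (sep a x) (sep x b)
  unfold dist at h
  have h5 : sep a b = sep a x ∪ sep x b :=
    Finset.eq_of_subset_of_card_le (sep_subset_union h1 h2) (by omega)
  exact (btw_iff_subset h1 h2).2 (h5 ▸ Finset.subset_union_left)

lemma btw.dist_le (h : Y.btw a x b) : Y.dist a x ≤ Y.dist a b := h.dist_add ▸ Nat.le_add_right _ _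
lemma btw.dist_le' (h : Y.btw a x b) : Y.dist x b ≤ Y.dist a b := h.dist_add ▸ Nat.le_add_left _ _
lemma btw.dist_mid (h : Y.btw a x b) (h' : Y.btw a y b) : Y.dist x y ≤ Y.dist a b :=
  Finset.card_le_card (h.subset_mid h')

lemma btw.eq_right (h : Y.btw a x b) (e : Y.dist a b ≤ Y.dist a x) : x = b :=
  eq_of_dist h.lev2 (by have := h.dist_add; omega)

lemma btw.eq_left (h : Y.btw a x b) (e : Y.dist a b ≤ Y.dist x b) : a = x :=
  eq_of_dist h.lev1 (by have := h.dist_add; omega)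

lemma btw.of_dist_le (h : Y.btw a x b) (h' : Y.btw a y b) (e : Y.dist a x ≤ Y.dist a y) :
    Y.btw a x y :=
  (h.total h').elim id fun t => by rw [← t.eq_right e]; exact btw_right h'.lev1

lemma btw.eq_of_dist (h : Y.btw a x b) (h' : Y.btw a y b) (e : Y.dist a x = Y.dist a y) : x = y :=
  (h.of_dist_le h' e.le).eq_right e.ge

/-! ### darts and half-trees -/

@[simp] lemma rv_rv (e : Y.Dir) : e.rv.rv = e := by simp [Dir.rv]
@[simp] lemma src_rv (e : Y.Dir) : e.rv.src = e.tgt := rfl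
@[simp] lemma tgt_rv (e : Y.Dir) : e.rv.tgt = e.src := by simp [Dir.rv, Dir.src, Dir.tgt]
@[simp] lemma rv_fst (e : Y.Dir) : e.rv.1 = e.1 := rfl
@[simp] lemma rv_snd (e : Y.Dir) : e.rv.2 = !e.2 := rfl
@[simp] lemma tr_fst (g : G) (e : Y.Dir) : (e.tr g).1 = g • e.1 := rfl
@[simp] lemma tr_snd (g : G) (e : Y.Dir) : (e.tr g).2 = e.2 := rfl
lemma rv_tr (g : G) (e : Y.Dir) : (e.tr g).rv = e.rv.tr g := rfl
@[simp] lemma tr_one (e : Y.Dir) : e.tr 1 = e := by simp [Dir.tr]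
lemma tr_tr (g h : G) (e : Y.Dir) : (e.tr h).tr g = e.tr (g * h) := by simp [Dir.tr, mul_smul]
@[simp] lemma tr_inv_tr (g : G) (e : Y.Dir) : (e.tr g).tr g⁻¹ = e := by simp [tr_tr]
@[simp] lemma tr_tr_inv (g : G) (e : Y.Dir) : (e.tr g⁻¹).tr g = e := by simp [tr_tr]
lemma rv_ne (e : Y.Dir) : e.rv ≠ e := fun h => by simpa using congrArg Prod.snd h
lemma rv_injective : Function.Injective (Dir.rv : Y.Dir → Y.Dir) := fun e e' h => by
  simpa using congrArg Dir.rv h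
lemma tr_injective (g : G) : Function.Injective (Dir.tr g : Y.Dir → Y.Dir) := fun e e' h => by
  simpa using congrArg (Dir.tr g⁻¹) h
lemma eq_one_of_tr {g : G} (h : (e.tr g).1 = e.1) : g = 1 := smul_eq_self h
lemma tr_left_inj {g g' : G} (h : (e.tr g).1 = (e.tr g').1) : g = g' := by
  simpa using congrArg E.g h
lemma eq_or_rv (h : e.1 = e'.1) : e' = e ∨ e' = e.rv := by
  rcases e with ⟨k, s⟩; rcases e' with ⟨k', s'⟩
  obtain rfl : k = k' := h
  cases s <;> cases s' <;> simp [Dir.rv]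
lemma exists_tr (h : e.1.i = e'.1.i) : ∃ g : G, e' = e.tr g ∨ e' = (e.tr g).rv :=
  ⟨_, eq_or_rv (e := e.tr (e'.1.g * e.1.g⁻¹)) (eq_smul_of_i h).symm⟩
lemma src_ne_tgt (e : Y.Dir) : e.src ≠ e.tgt := ed_ne _ _
@[simp] lemma sd_src (e : Y.Dir) : e.1.sd e.src = e.2 := sd_ed _ _
@[simp] lemma sd_tgt (e : Y.Dir) : e.1.sd e.tgt = !e.2 := sd_ed _ _
lemma sd_src_tgt {k : Y.E} (h : k ≠ e.1) : k.sd e.src = k.sd e.tgt := sd_ed_ne h _ _
@[simp] lemma dist_src_tgt (e : Y.Dir) : Y.dist e.src e.tgt = 1 := by simp [dist, sep_src_tgt]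
lemma lev_src (e : Y.Dir) : Y.lev e.src = dg d e.1.g := lev_ed _ _

lemma dir_ext (h1 : e.src = e'.src) (h2 : e.tgt = e'.tgt) : e = e' :=
  (first_self e).unique (h1 ▸ h2 ▸ first_self e')

lemma mem_H : x ∈ e.H ↔ Y.lev x = Y.lev e.src ∧ e.1.sd x = !e.2 := Iff.rfl
lemma mem_rv_H : x ∈ e.rv.H ↔ Y.lev x = Y.lev e.src ∧ e.1.sd x = e.2 := by
  simp [mem_H, ← lev_src_tgt]
lemma tgt_mem_H (e : Y.Dir) : e.tgt ∈ e.H := ⟨(lev_src_tgt e).symm, by simp⟩
lemma src_mem_rv_H (e : Y.Dir) : e.src ∈ e.rv.H := mem_rv_H.2 ⟨rfl, by simp⟩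
lemma src_not_mem_H (e : Y.Dir) : e.src ∉ e.H := fun h => by simpa using h.2
lemma H_lev (h : x ∈ e.H) : Y.lev x = Y.lev e.src := h.1
lemma rv_H_lev (h : x ∈ e.rv.H) : Y.lev x = Y.lev e.src := (mem_rv_H.1 h).1
lemma not_mem_H_both (h : x ∈ e.H) (h' : x ∈ e.rv.H) : False := by
  have := h.2.symm.trans (mem_rv_H.1 h').2
  simp at this
lemma mem_H_or (h : Y.lev x = Y.lev e.src) : x ∈ e.H ∨ x ∈ e.rv.H := by
  rw [mem_H, mem_rv_H]
  cases e.1.sd x <;> cases e.2 <;> simp [h]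
lemma mem_rv_H_of_not (h : Y.lev x = Y.lev e.src) (h' : x ∉ e.H) : x ∈ e.rv.H :=
  (mem_H_or h).resolve_left h'
lemma mem_H_of_not (h : Y.lev x = Y.lev e.src) (h' : x ∉ e.rv.H) : x ∈ e.H :=
  (mem_H_or h).resolve_right h'

lemma btw.mem_H (h : Y.btw a x b) (ha : a ∈ e.H) (hb : b ∈ e.H) : x ∈ e.H :=
  ⟨h.lev1.symm.trans ha.1, (h.sd _ (ha.2.trans hb.2.symm)).trans ha.2⟩

lemma mem_H_iff_btw : x ∈ e.H ↔ Y.btw e.src e.tgt x := by
  refine ⟨fun h => ⟨lev_src_tgt e, (lev_src_tgt e).symm.trans h.1.symm, fun k hk => ?_⟩,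
    fun h => mem_H_of_not h.lev3.symm fun h' => ?_⟩
  · by_cases e1 : k = e.1
    · subst e1; rw [h.2] at hk; simp at hk
    · exact (sd_src_tgt e1).symm
  · exact not_mem_H_both (tgt_mem_H e) (h.mem_H (src_mem_rv_H e) h')

lemma mem_rv_H_iff_btw : x ∈ e.rv.H ↔ Y.btw x e.src e.tgt := by
  rw [mem_H_iff_btw, src_rv, tgt_rv, btw_comm]

lemma btw_src_tgt (h : Y.btw e.src x e.tgt) : x = e.src ∨ x = e.tgt := by
  rcases mem_H_or (e := e) h.lev1.symm with h' | h'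
  · exact Or.inr (h.antisymm (mem_H_iff_btw.1 h'))
  · exact Or.inl (h.antisymm' (mem_rv_H_iff_btw.1 h')).symm

lemma Cross.lev (h : Y.Cross a b e) : Y.lev a = Y.lev b := (rv_H_lev h.1).trans h.2.1.symm
lemma Cross.lev_src (h : Y.Cross a b e) : Y.lev a = Y.lev e.src := rv_H_lev h.1
lemma Cross.symm (h : Y.Cross a b e) : Y.Cross b a e.rv := ⟨by simpa using h.2, h.1⟩
lemma Cross.mem (h : Y.Cross a b e) : e.1 ∈ sep a b :=
  (mem_sep h.lev).2 (by rw [(mem_rv_H.1 h.1).2, h.2.2]; simp)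
lemma Cross.ne (h : Y.Cross a b e) : a ≠ b := fun t => not_mem_H_both (t ▸ h.2) h.1
lemma cross_self (e : Y.Dir) : Y.Cross e.src e.tgt e := ⟨src_mem_rv_H e, tgt_mem_H e⟩
lemma cross_of_mem {k : Y.E} (h : k ∈ sep a b) : Y.Cross a b (k, k.sd a) := by
  have l := (lev_ed_of_mem h (k.sd a)).symm
  refine ⟨mem_rv_H.2 ⟨l, rfl⟩, (lev_eq_of_mem h).symm.trans l, ?_⟩
  have := sd_ne_of_mem h
  revert this
  show _ → k.sd b = !k.sd a
  cases k.sd a <;> cases k.sd b <;> simp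
lemma cross_or_of_mem (h : e.1 ∈ sep a b) : Y.Cross a b e ∨ Y.Cross a b e.rv := by
  rcases eq_or_rv (e := e) (e' := (e.1, e.1.sd a)) rfl with t | t
  · exact Or.inl (t ▸ cross_of_mem h)
  · exact Or.inr (t ▸ cross_of_mem h)
lemma Cross.btw1 (h : Y.Cross a b e) : Y.btw a e.src e.tgt := mem_rv_H_iff_btw.1 h.1
lemma Cross.btw2 (h : Y.Cross a b e) : Y.btw e.src e.tgt b := mem_H_iff_btw.1 h.2
lemma Cross.btw_src (h : Y.Cross a b e) : Y.btw a e.src b := h.btw1.glue h.btw2 (src_ne_tgt e)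
lemma Cross.btw_tgt (h : Y.Cross a b e) : Y.btw a e.tgt b := h.btw1.glue' h.btw2 (src_ne_tgt e)
lemma cross_iff_btw : Y.Cross a b e ↔ Y.btw a e.src e.tgt ∧ Y.btw e.src e.tgt b := by
  rw [Cross, mem_H_iff_btw (e := e), mem_rv_H_iff_btw]
lemma Cross.unique (h : Y.Cross a b e) (h' : Y.Cross a b e') (t : e.1 = e'.1) : e = e' :=
  (eq_or_rv t).elim Eq.symm fun r => (not_mem_H_both h.2 (r ▸ h'.2)).elim
lemma Cross.not_rv (h : Y.Cross a b e) : ¬ Y.Cross a b e.rv := fun h' => not_mem_H_both h.2 h'.2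

/-- A point beyond `b` is on the same side. -/
lemma Cross.mem_H (h : Y.Cross a b e) (t : Y.btw a b x) : x ∈ e.H :=
  mem_H_of_not (t.lev3.symm.trans h.lev_src) fun h' => not_mem_H_both h.2 (t.mem_H h.1 h')
lemma Cross.extend_right (h : Y.Cross a b e) (t : Y.btw a b x) : Y.Cross a x e := ⟨h.1, h.mem_H t⟩
lemma Cross.extend_left (h : Y.Cross a b e) (t : Y.btw x a b) : Y.Cross x b e := by
  simpa using (h.symm.extend_right t.symm).symm
lemma Cross.extend (h : Y.Cross a b e) (t : Y.btw a' a b) (t' : Y.btw a' b b') :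
    Y.Cross a' b' e := (h.extend_left t).extend_right t'
lemma Cross.split (h : Y.Cross a b e) (l : Y.lev a = Y.lev x) : Y.Cross a x e ∨ Y.Cross x b e :=
  (mem_H_or (l.symm.trans h.lev_src)).imp (fun t => ⟨h.1, t⟩) fun t => ⟨t, h.2⟩
lemma cross_of_btw (h1 : Y.btw a e.src b) (h2 : Y.btw a e.tgt b) :
    Y.Cross a b e ∨ Y.Cross a b e.rv :=
  cross_or_of_mem (h1.subset_mid h2 (by simp [sep_src_tgt]))
lemma Cross.dist_src (h : Y.Cross a b e) : Y.dist a e.tgt = Y.dist a e.src + 1 := by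
  rw [← h.btw1.dist_add, dist_src_tgt]
lemma Cross.dist_tgt (h : Y.Cross a b e) : Y.dist e.src b = Y.dist e.tgt b + 1 := by
  rw [← h.btw2.dist_add, dist_src_tgt, add_comm]
lemma Cross.dist_eq (h : Y.Cross a b e) : Y.dist a b = Y.dist a e.src + 1 + Y.dist e.tgt b := by
  rw [← h.btw_tgt.dist_add, h.dist_src]
/-- A vertex of the geodesic lies before or after a crossed dart. -/
lemma Cross.side (h : Y.Cross a b e) (t : Y.btw a x b) : Y.btw a x e.src ∨ Y.btw e.tgt x b := by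
  rcases mem_H_or (e := e) (t.lev1.symm.trans h.lev_src) with t1 | t1
  · exact Or.inr (t.trans_left' (Cross.btw_tgt ⟨h.1, t1⟩))
  · exact Or.inl (t.trans_right' (Cross.btw_src ⟨t1, h.2⟩))

lemma H_subset (h1 : e.src ∈ e'.H) (h2 : e'.src ∈ e.rv.H) : e.H ⊆ e'.H := fun x hx =>
  mem_H_of_not (hx.1.trans h1.1) fun h' =>
    not_mem_H_both h1 ((Cross.btw_src ⟨h2, hx⟩).mem_H (src_mem_rv_H e') h')

lemma H_disjoint (h1 : e.tgt ∈ e'.rv.H) (h2 : e'.tgt ∈ e.rv.H) : Disjoint e.H e'.H :=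
  Set.disjoint_left.2 fun x hx hx' =>
    not_mem_H_both ((Cross.btw_tgt ⟨h2, hx⟩).mem_H (tgt_mem_H e') hx') h1

/-- Two darts crossed by one geodesic are nested. -/
lemma Cross.nested (h : Y.Cross a b e) (h' : Y.Cross a b e') : e.H ⊆ e'.H ∨ e'.H ⊆ e.H := by
  by_contra hc
  rw [not_or, Set.not_subset, Set.not_subset] at hc
  obtain ⟨⟨p, p1, p2⟩, q, q1, q2⟩ := hc
  have lp : Y.lev a = Y.lev p := h.lev_src.trans p1.1.symm
  have lq : Y.lev a = Y.lev q := h'.lev_src.trans q1.1.symm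
  have p3 := (mem_rv_H.1 (mem_rv_H_of_not (lp.symm.trans h'.lev_src) p2)).2
  have q3 := (mem_rv_H.1 (mem_rv_H_of_not (lq.symm.trans h.lev_src) q2)).2
  have a1 := (mem_rv_H.1 h.1).2
  have a2 := (mem_rv_H.1 h'.1).2
  refine no_four e.1 e'.1 (p := a) (q := q) (r := p) (s := b) lq lp h.lev (a1.trans q3.symm)
    (p1.2.trans h.2.2.symm) (by rw [a1, p1.2]; simp) (a2.trans p3.symm) (q1.2.trans h'.2.2.symm)
    (by rw [a2, q1.2]; simp)

lemma exists_step (h : Y.lev a = Y.lev b) (hne : a ≠ b) : ∃ e : Y.Dir, e.src = a ∧ Y.Cross a b e := by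
  obtain ⟨e, rfl, he⟩ := exists_First h hne
  have := cross_of_mem he
  rw [sd_src] at this
  exact ⟨e, rfl, this⟩

lemma exists_last (h : Y.lev a = Y.lev b) (hne : a ≠ b) : ∃ e : Y.Dir, e.tgt = b ∧ Y.Cross a b e := by
  obtain ⟨e, h1, h2⟩ := exists_step h.symm hne.symm
  exact ⟨e.rv, by simpa using h1, h2.symm⟩

lemma step_unique (h : Y.Cross a b e) (h' : Y.Cross a b e') (t : e.src = e'.src) : e = e' :=
  dir_ext t (h.btw_tgt.eq_of_dist h'.btw_tgt (by rw [h.dist_src, h'.dist_src, t]))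

lemma Cross.first (h : Y.Cross e.src b e) : First e.src b e := ⟨rfl, h.mem⟩
lemma First.cross (h : First a b e) : Y.Cross a b e := by
  obtain ⟨rfl, he⟩ := h
  have := cross_of_mem he
  rwa [sd_src] at this

/-- Different darts at one vertex have disjoint half-trees. -/
lemma btw_of_turn (t : e.src = e'.src) (hne : e ≠ e') (ha : a ∈ e.H) (hb : b ∈ e'.H) :
    Y.btw a e.src b := by
  have h1 : e'.tgt ∈ e.rv.H := mem_rv_H_of_not ((lev_src_tgt e').symm.trans (t ▸ rfl)) fun h =>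
    hne (step_unique (a := e.src) (b := e'.tgt) ⟨src_mem_rv_H e, h⟩ (t ▸ cross_self e') t)
  have h2 : Y.btw e.tgt e.src e'.tgt := by
    rcases (mem_rv_H_iff_btw.1 h1).symm with h3
    exact h3
  have h3 : Y.btw a e.src e'.tgt := (mem_H_iff_btw.1 ha).symm.glue' h2 (src_ne_tgt e).symm
  exact h3.glue (t ▸ mem_H_iff_btw.1 hb) (t ▸ src_ne_tgt e')

/-- Induction along the geodesic towards `b`, with darts. -/
lemma dir_ind {P : Y.V → Prop} (h0 : P b)
    (hs : ∀ e : Y.Dir, Y.Cross e.src b e → P e.tgt → P e.src) (h : Y.lev a = Y.lev b) : P a :=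
  geo_ind h0 (fun k s hk ih => hs (k, s) (First.cross ⟨rfl, hk⟩) ih) h

lemma exists_btw_dist (h : Y.lev a = Y.lev b) {k : ℕ} (hk : k ≤ Y.dist a b) :
    ∃ x, Y.btw a x b ∧ Y.dist a x = k := by
  induction k with
  | zero => exact ⟨a, btw_left h, dist_self a⟩
  | succ k ih =>
    obtain ⟨x, h1, h2⟩ := ih (by omega)
    obtain ⟨e, rfl, he⟩ := exists_step h1.lev2 (by rintro rfl; omega)
    exact ⟨e.tgt, (he.extend_left h1).btw_tgt, by rw [(he.extend_left h1).dist_src, h2]⟩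

lemma adj_iff : Adj x y ↔ ∃ e : Y.Dir, e.src = x ∧ e.tgt = y :=
  ⟨fun ⟨k, s, h1, h2⟩ => ⟨(k, s), h1.symm, h2.symm⟩, fun ⟨e, h1, h2⟩ => ⟨e.1, e.2, h1.symm, h2.symm⟩⟩
lemma adj_dir (e : Y.Dir) : Adj e.src e.tgt := adj_iff.2 ⟨e, rfl, rfl⟩
lemma Adj.symm (h : Adj x y) : Adj y x :=
  let ⟨e, h1, h2⟩ := adj_iff.1 h; adj_iff.2 ⟨e.rv, by simpa using h2, by simpa using h1⟩
lemma Adj.lev (h : Adj x y) : Y.lev x = Y.lev y := by
  obtain ⟨e, rfl, rfl⟩ := adj_iff.1 h; exact lev_src_tgt e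
lemma Adj.dist (h : Adj x y) : Y.dist x y = 1 := by
  obtain ⟨e, rfl, rfl⟩ := adj_iff.1 h; simp
lemma Adj.ne (h : Adj x y) : x ≠ y := by
  obtain ⟨e, rfl, rfl⟩ := adj_iff.1 h; exact src_ne_tgt e
lemma Adj.eq_of_btw (h : Adj x y) (t : Y.btw x z y) : z = x ∨ z = y := by
  obtain ⟨e, rfl, rfl⟩ := adj_iff.1 h; exact btw_src_tgt t
lemma adj_of_dist (h : Y.dist x y = 1) : Adj x y := by
  have l := lev_eq_of_dist_pos (h ▸ one_pos : 0 < Y.dist x y)
  obtain ⟨e, rfl, he⟩ := exists_step l (by rintro rfl; simp at h)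
  rw [← eq_of_dist he.btw_tgt.lev2 (by have := he.dist_tgt; omega)]
  exact adj_dir e

/-! ### medians -/

lemma exists_med (h1 : Y.lev a = Y.lev b) (h2 : Y.lev a = Y.lev c) : ∃ m, Y.Med a b c m := by
  revert h2
  refine dir_ind (P := fun a => Y.lev a = Y.lev c → ∃ m, Y.Med a b c m)
    (fun h => ⟨b, btw_refl b, btw_left h, btw_left h⟩) (fun e he ih h => ?_) h1
  rcases mem_H_or (e := e) h.symm with hc | hc
  · obtain ⟨m, m1, m2, m3⟩ := ih ((lev_src_tgt e).symm.trans h)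
    exact ⟨m, he.btw_tgt.trans_right m1, m2, (mem_H_iff_btw.1 hc).trans_right m3⟩
  · exact ⟨e.src, btw_left he.lev, (Cross.btw_src ⟨hc, he.2⟩).symm, btw_left h⟩

lemma Med.unique (h : Y.Med a b c m) (h' : Y.Med a b c m') : m = m' :=
  eq_of_sd (h.1.lev1.symm.trans h'.1.lev1) fun k => by
    have t1 := h.1.sd k; have t2 := h.2.1.sd k; have t3 := h.2.2.sd k
    have t4 := h'.1.sd k; have t5 := h'.2.1.sd k; have t6 := h'.2.2.sd k
    revert t1 t2 t3 t4 t5 t6
    cases k.sd a <;> cases k.sd b <;> cases k.sd c <;> cases k.sd m <;> cases k.sd m' <;> simp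

lemma Med.swap (h : Y.Med a b c m) : Y.Med b a c m := ⟨h.1.symm, h.2.2, h.2.1⟩
lemma Med.rot (h : Y.Med a b c m) : Y.Med b c a m := ⟨h.2.1, h.2.2.symm, h.1.symm⟩
lemma btw.med (h : Y.btw a x b) : Y.Med a b x x := ⟨h, btw_right h.lev2.symm, btw_right h.lev1⟩
lemma Med.eq_of_btw (h : Y.Med a b c m) (t : Y.btw a c b) : m = c := h.unique t.med

/-- The projection of `c` to `[a, b]` is a gate. -/
lemma Med.gate (h : Y.Med a b c m) (t : Y.btw a x b) : Y.btw x m c :=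
  (t.cover h.1.lev1).elim (fun r => h.2.2.trans_left' r) fun r => h.2.1.trans_left' r.symm

/-- Different projections to a segment lie on the geodesic between the projected points. -/
lemma Med.piece (h : Y.Med a b z m) (h' : Y.Med a b u m') (hne : m ≠ m') :
    Y.btw z m u ∧ Y.btw z m' u :=
  ⟨(h.gate h'.1).symm.glue (h'.gate h.1) hne, (h.gate h'.1).symm.glue' (h'.gate h.1) hne⟩

lemma Med.dist_le (h : Y.Med a b z m) (h' : Y.Med a b u m') : Y.dist m m' ≤ Y.dist z u ∨ m = m' := by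
  by_cases hne : m = m'
  · exact Or.inr hne
  · exact Or.inl ((h.piece h' hne).1.dist_mid (h.piece h' hne).2)

/-! ### equivariance and finiteness -/

lemma lev_smul' (g : G) (a : Y.V) : Y.lev (g • a) = Y.lev a + dg d g := by
  rw [Y.lev_smul, add_comm]

lemma btw.smul (h : Y.btw a x b) (g : G) : Y.btw (g • a) (g • x) (g • b) :=
  ⟨by rw [Y.lev_smul, Y.lev_smul, h.lev1], by rw [Y.lev_smul, Y.lev_smul, h.lev2], fun k hk => by
    have := h.sd (g⁻¹ • k)
    simp only [sd_smul', inv_inv] at this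
    exact this hk⟩

@[simp] lemma btw_smul (g : G) : Y.btw (g • a) (g • x) (g • b) ↔ Y.btw a x b :=
  ⟨fun h => by simpa using h.smul g⁻¹, fun h => h.smul g⟩

@[simp] lemma dist_smul (g : G) (a b : Y.V) : Y.dist (g • a) (g • b) = Y.dist a b := by
  rw [dist, dist, sep_smul, Finset.card_image_of_injective _ (MulAction.injective g)]

@[simp] lemma smul_mem_H (g : G) : g • x ∈ (e.tr g).H ↔ x ∈ e.H := by
  simp [mem_H_iff_btw]

lemma mem_tr_H (g : G) : x ∈ (e.tr g).H ↔ g⁻¹ • x ∈ e.H := by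
  rw [← smul_mem_H (e := e) g, smul_inv_smul]

lemma Cross.smul (h : Y.Cross a b e) (g : G) : Y.Cross (g • a) (g • b) (e.tr g) :=
  ⟨by rw [rv_tr]; exact (smul_mem_H g).2 h.1, (smul_mem_H g).2 h.2⟩

@[simp] lemma cross_smul (g : G) : Y.Cross (g • a) (g • b) (e.tr g) ↔ Y.Cross a b e :=
  ⟨fun h => by simpa using h.smul g⁻¹, fun h => h.smul g⟩

lemma Med.smul (h : Y.Med a b c m) (g : G) : Y.Med (g • a) (g • b) (g • c) (g • m) :=
  ⟨h.1.smul g, h.2.1.smul g, h.2.2.smul g⟩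

lemma Adj.smul (h : Adj x y) (g : G) : Adj (g • x) (g • y) := by
  obtain ⟨e, rfl, rfl⟩ := adj_iff.1 h
  exact adj_iff.2 ⟨e.tr g, by simp, by simp⟩

lemma deg_eq_zero_of_fix {g : G} (h : g • a = a) : dg d g = 0 := by
  have := lev_smul' g a
  rw [h] at this
  omega

/-- A nontrivial element fixes at most one vertex of each level. -/
lemma fix_unique {g : G} (hg : g ≠ 1) (ha : g • a = a) (hb : g • b = b) (l : Y.lev a = Y.lev b) :
    a = b := by
  by_contra hne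
  obtain ⟨e, rfl, he⟩ := exists_step l hne
  have := he.smul g
  rw [ha, hb] at this
  exact hg (eq_one_of_tr (congrArg Prod.fst (step_unique this he (by simp [ha]))))

lemma finite_cross (a b : Y.V) : {e : Y.Dir | Y.Cross a b e}.Finite :=
  ((sep a b).finite_toSet.prod Set.finite_univ).subset fun _ h => ⟨h.mem, trivial⟩

lemma finite_btw (a b : Y.V) : {x | Y.btw a x b}.Finite := by
  refine (((finite_cross a b).image Dir.src).insert b).subset fun x hx => ?_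
  by_cases h : x = b
  · exact Or.inl h
  · obtain ⟨e, rfl, he⟩ := exists_step (btw.lev2 hx) h
    exact Or.inr ⟨e, he.extend_left hx, rfl⟩

lemma finite_smul_mem (k : Y.E) {S : Set Y.E} (hS : S.Finite) : {g : G | g • k ∈ S}.Finite :=
  hS.preimage (f := fun g : G => g • k) fun g _ g' _ h => by simpa using congrArg E.g h

lemma finite_tr_mem (e : Y.Dir) {S : Set Y.Dir} (hS : S.Finite) : {g : G | e.tr g ∈ S}.Finite :=
  hS.preimage (f := fun g : G => e.tr g) fun _ _ _ _ h => tr_left_inj (congrArg Prod.fst h)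

lemma exists_dir_lev (hd : Function.Surjective d) (i : Y.I) (n : ℤ) :
    ∃ e : Y.Dir, e.1.i = i ∧ Y.lev e.src = n :=
  let ⟨g, hg⟩ := hd (.ofAdd n); ⟨(⟨g, i⟩, false), rfl, by rw [lev_src]; simp [dg, hg]⟩

/-- Every vertex is the source of a dart. -/
lemma exists_dir_at (hd : Function.Surjective d) (hI : Nonempty Y.I) (a : Y.V) :
    ∃ e : Y.Dir, e.src = a := by
  obtain ⟨e, -, he⟩ := exists_dir_lev hd hI.some (Y.lev a)
  by_cases h : e.src = a
  · exact ⟨e, h⟩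
  · obtain ⟨e', h1, -⟩ := exists_step he.symm (Ne.symm h)
    exact ⟨e', h1⟩

/-- A subgroup of finite index has finitely many orbits of darts. -/
lemma finite_dir_orbits (L : Subgroup G) [L.FiniteIndex] :
    ∃ S : Finset Y.Dir, ∀ e : Y.Dir, ∃ g ∈ L, e.tr g ∈ S := by
  classical
  refine ⟨(Set.finite_range fun p : (G ⧸ L) × Y.I × Bool =>
    ((⟨p.1.out⁻¹, p.2.1⟩, p.2.2) : Y.Dir)).toFinset, fun e => ?_⟩
  obtain ⟨l, hl⟩ := QuotientGroup.mk_out_eq_mul L e.1.g⁻¹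
  refine ⟨l⁻¹, L.inv_mem l.2, (Set.Finite.mem_toFinset _).2 ⟨(QuotientGroup.mk e.1.g⁻¹, e.1.i, e.2), ?_⟩⟩
  refine Prod.ext (E.ext ?_ rfl) rfl
  simp [hl]

lemma finite_vert_orbits (hd : Function.Surjective d) (hI : Nonempty Y.I) (L : Subgroup G)
    [L.FiniteIndex] : ∃ S : Finset Y.V, ∀ a : Y.V, ∃ g ∈ L, g • a ∈ S := by
  classical
  obtain ⟨S, hS⟩ := finite_dir_orbits (Y := Y) L
  refine ⟨S.image Dir.src, fun a => ?_⟩
  obtain ⟨e, rfl⟩ := exists_dir_at hd hI a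
  obtain ⟨g, hg, h⟩ := hS e
  exact ⟨g, hg, Finset.mem_image.2 ⟨_, h, by simp⟩⟩

/-- An invariant function of darts is bounded. -/
lemma bdd_of_inv (φ : Y.Dir → ℕ) (h : ∀ (g : G) e, φ (e.tr g) = φ e) : ∃ C, ∀ e, φ e ≤ C := by
  obtain ⟨S, hS⟩ := finite_dir_orbits (Y := Y) ⊤
  refine ⟨S.sup φ, fun e => ?_⟩
  obtain ⟨g, -, hg⟩ := hS e
  exact h g e ▸ Finset.le_sup hg

end Pool.Agent.Lib.FBC.Forest
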