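import Pool.Agent.Lib.FBC.State

set_option autoImplicit false
set_option linter.unusedVariables false

/-!
Turns: cancellation happens at a turn, turns of images, legal geodesics.
-/

namespace Pool.Agent.Lib.FBC

open Forest

namespace Forest

variable {G : Type} [Group G] {deg : G →* Multiplicative ℤ} {T T' : Forest deg} {k : ℤ}

/-- Two geodesics from one vertex with a common edge have the same first edge. -/
lemma First.of_common {y z1 z2 : T.V} {c : T.E} {d : T.Dir} (h1 : c ∈ sep y z1)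
    (h2 : c ∈ sep y z2) (hd : First y z1 d) : First y z2 d := by
  have hl : T.lev (c.ed (!c.sd y)) = T.lev y := lev_ed_of_mem h1 _
  have hne : y ≠ c.ed (!c.sd y) := fun e => by
    have := congrArg c.sd e
    rw [sd_ed] at this
    simp at this
  obtain ⟨d0, hd0⟩ := exists_First hl.symm hne
  have s1 : sep y (c.ed (!c.sd y)) ⊆ sep y z1 := by
    rw [sep_comm y, sep_comm y z1]
    intro x hx
    have := sep_ed_subset (u := z1) (v := y) (c := c) (by rw [sep_comm]; exact h1) (!c.sd y)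
    exact this hx
  have s2 : sep y (c.ed (!c.sd y)) ⊆ sep y z2 := by
    rw [sep_comm y, sep_comm y z2]
    intro x hx
    have := sep_ed_subset (u := z2) (v := y) (c := c) (by rw [sep_comm]; exact h2) (!c.sd y)
    exact this hx
  rw [hd.unique (hd0.mono s1)]
  exact hd0.mono s2

lemma sep_ends_subset {u v : T.V} {c1 c2 : T.E} (h1 : c1 ∈ sep u v) (h2 : c2 ∈ sep u v)
    (b1 b2 : Bool) : sep (c1.ed b1) (c2.ed b2) ⊆ sep u v := by
  have e := lev_eq_of_mem h1
  have l1 : T.lev (c1.ed b1) = T.lev v := (lev_ed_of_mem h1 b1).trans e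
  have l2 : T.lev (c2.ed b2) = T.lev v := (lev_ed_of_mem h2 b2).trans e
  refine (sep_subset_union l1 l2.symm).trans (Finset.union_subset (sep_ed_subset h1 b1) ?_)
  rw [sep_comm v]
  exact sep_ed_subset h2 b2

lemma Hom.DI_cons (f : Hom T T k) {a a' : T.Dir} (h : f.D a a') :
    ∀ (j : ℕ) (c : T.Dir), f.DI j a' c → f.DI (j + 1) a c
  | 0, c, e => ⟨a, rfl, by
      have e' : a' = c := e
      exact e' ▸ h⟩
  | j + 1, c, ⟨c0, e1, e2⟩ => ⟨c0, Hom.DI_cons f h j c0 e1, e2⟩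

end Forest

theorem TURN1_holds : St_TURN1 := by
  intro G _ deg T T' k h u v hN
  by_cases hl : T.lev u = T.lev v
  swap
  · intro H
    exact (H fun a ha => (hl (lev_eq_of_mem ha)).elim).elim
  refine geo_ind (P := fun u => ¬ h.NoCancel u v → ∃ (a b : T.Dir) (e : T'.Dir),
    Turn a b ∧ a.1 ∈ sep u v ∧ b.1 ∈ sep u v ∧ h.D a e ∧ h.D b e)
    (fun H => (H fun a ha => by simp at ha).elim) (fun c b hc ih H => ?_) hl
  have hs := sep_step hc
  by_cases H' : h.NoCancel (c.ed (!b)) v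
  swap
  · obtain ⟨a1, a2, e, t, m1, m2, d1, d2⟩ := ih H'
    rw [hs] at m1 m2
    exact ⟨a1, a2, e, t, Finset.mem_of_mem_erase m1, Finset.mem_of_mem_erase m2, d1, d2⟩
  have key : ∃ a' ∈ sep (c.ed (!b)) v, ∃ c', c' ∈ h.img c ∧ c' ∈ h.img a' := by
    by_contra hk
    apply H
    intro a1 m1 a2 m2 hne
    rw [Finset.disjoint_left]
    intro c' i1 i2
    by_cases e1 : a1 = c
    · subst e1
      exact hk ⟨a2, by rw [hs]; exact Finset.mem_erase.2 ⟨hne.symm, m2⟩, c', i1, i2⟩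
    by_cases e2 : a2 = c
    · subst e2
      exact hk ⟨a1, by rw [hs]; exact Finset.mem_erase.2 ⟨hne, m1⟩, c', i2, i1⟩
    exact Finset.disjoint_left.1 (H' a1 (by rw [hs]; exact Finset.mem_erase.2 ⟨e1, m1⟩) a2
      (by rw [hs]; exact Finset.mem_erase.2 ⟨e2, m2⟩) hne) i1 i2
  obtain ⟨a', ma, c', i1, i2⟩ := key
  have hne : c.ed (!b) ≠ v := by
    rintro e
    rw [e] at ma
    simp at ma
  obtain ⟨d, hd⟩ := exists_First (lev_eq_of_mem ma) hne
  obtain ⟨e, he⟩ := hN.exists_D (c, !b)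
  obtain ⟨e', he'⟩ := hN.exists_D d
  have f1 : First (h (c.ed (!b))) (h v) e' := H'.first hd he'
  have f2 : First (h (c.ed (!b))) (h v) e := by
    refine First.of_common (c := c') ?_ (H'.img_subset ma i2) he
    have := h.img_dir (c, !b)
    exact this ▸ i1
  have md : d.1 ∈ (sep (c.ed b) v).erase c := hs ▸ hd.2
  refine ⟨(c, !b), d, e, ⟨fun e0 => ?_, hd.1.symm⟩, hc, Finset.mem_of_mem_erase md, he, ?_⟩
  · exact (Finset.mem_erase.1 md).1 (congrArg Prod.fst e0).symm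
  · rw [f2.unique f1]
    exact he'

theorem TURN2_holds : St_TURN2 := by
  intro G _ deg T T' k h u v a' b' hN H hl ht ma mb
  rw [H.sep_eq hl] at ma mb
  obtain ⟨c1, m1, i1⟩ := Finset.mem_biUnion.1 ma
  obtain ⟨c2, m2, i2⟩ := Finset.mem_biUnion.1 mb
  by_cases e : c1 = c2
  · subst e
    exact Or.inl ⟨c1, m1, i1, i2⟩
  right
  obtain ⟨d1, e1, n1⟩ : ∃ d1 : T.Dir, d1.1 = c1 ∧ ∀ b, c1.sd d1.src = c1.sd (c2.ed b) :=
    ⟨(c1, c1.sd (c2.ed false)), rfl, fun b => by
      show c1.sd (c1.ed _) = _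
      rw [sd_ed]
      exact sd_ed_ne e _ _⟩
  obtain ⟨d2, e2, n2⟩ : ∃ d2 : T.Dir, d2.1 = c2 ∧ ∀ b, c2.sd d2.src = c2.sd (c1.ed b) :=
    ⟨(c2, c2.sd (c1.ed false)), rfl, fun b => by
      show c2.sd (c2.ed _) = _
      rw [sd_ed]
      exact sd_ed_ne (Ne.symm e) _ _⟩
  subst e1 e2
  have hsub : sep d1.src d2.src ⊆ sep u v := sep_ends_subset m1 m2 _ _
  have l12 : T.lev d1.src = T.lev d2.src :=
    (lev_ed_of_mem m1 _).trans (lev_ed_of_mem m2 _).symm
  have j1 : a'.1 ∈ sep (h d1.tgt) (h d1.src) := by rw [sep_comm, ← h.img_dir]; exact i1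
  have j2 : b'.1 ∈ sep (h d2.tgt) (h d2.src) := by rw [sep_comm, ← h.img_dir]; exact i2
  have s1 : sep a'.src (h d1.src) ⊆ h.img d1.1 := by
    rw [h.img_dir, sep_comm (h d1.src)]
    exact sep_ed_subset j1 _
  have s2 : sep a'.src (h d2.src) ⊆ h.img d2.1 := by
    rw [h.img_dir, sep_comm (h d2.src), ht.2]
    exact sep_ed_subset j2 _
  have l1 : T'.lev a'.src = T'.lev (h d1.src) :=
    (lev_ed_of_mem j1 _).trans (lev_eq_of_mem j1)
  have l2 : T'.lev a'.src = T'.lev (h d2.src) := l1.trans (h.lev_eq l12)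
  have hx : d1.src = d2.src := by
    refine eq_of_sep l12 (Finset.eq_empty_of_forall_notMem fun c hc => ?_)
    have q1 : c ≠ d1.1 := by
      rintro rfl
      exact sd_ne_of_mem hc (n1 _)
    have q2 : c ≠ d2.1 := by
      rintro rfl
      exact sd_ne_of_mem hc (n2 _).symm
    obtain ⟨c', hc'⟩ := Hom.nondeg_iff.1 hN c
    have r := sep_subset_union l1.symm l2 ((H.mono hsub).img_subset hc hc')
    rcases Finset.mem_union.1 r with r | r
    · rw [sep_comm] at r
      exact Finset.disjoint_left.1 (H c (hsub hc) _ m1 q1) hc' (s1 r)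
    · exact Finset.disjoint_left.1 (H c (hsub hc) _ m2 q2) hc' (s2 r)
  have hy : a'.src = h d1.src := by
    refine eq_of_sep l1 (Finset.eq_empty_of_forall_notMem fun c hc => ?_)
    exact Finset.disjoint_left.1 (H _ m1 _ m2 e) (s1 hc) (s2 (hx ▸ hc))
  refine ⟨d1, d2, ⟨fun e0 => e (congrArg Prod.fst e0), hx⟩, m1, m2, ⟨hy, ?_⟩, ⟨?_, ?_⟩⟩
  · rw [← h.img_dir]; exact i1
  · rw [← ht.2, hy, hx]
  · rw [← h.img_dir]; exact i2

theorem TURN3_holds : St_TURN3 := by
  intro G _ deg T k f u v hT hl hL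
  have H : f.NoCancel u v := by
    by_contra H
    obtain ⟨a, b, e, t, ma, mb, d1, d2⟩ := TURN1_holds G deg T T k f u v hT.1 H
    exact hL a b t ma mb 1 e ⟨a, rfl, d1⟩ ⟨b, rfl, d2⟩
  refine ⟨H, fun a' b' t ma mb => ?_⟩
  rcases TURN2_holds G deg T T k f u v a' b' hT.1 H hl t ma mb with ⟨c, -, i1, i2⟩ |
    ⟨a, b, t', m1, m2, d1, d2⟩
  · exact hT.2 c a' b' t i1 i2
  · intro j c x1 x2
    exact hL a b t' m1 m2 (j + 1) c (f.DI_cons d1 j c x1) (f.DI_cons d2 j c x2)

end Pool.Agent.Lib.FBC
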